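import Pool.Agent.PHW.ChainI
import Pool.Agent.PHW.LowB

/-!
PLW [W4], part 1: the self-avoiding walks of a strip have finite total weight.
-/

set_option autoImplicit false

namespace HexObs

namespace PLW

open Complex Finset ENNReal

/-! ### 1. Half plane walks of a strip -/

lemma BT_le_o (T : ℕ) : BT T ≤ 1 := by
  rcases Nat.eq_zero_or_pos T with rfl | h
  · rw [← gf_Brd, Brd_zero]
    unfold gf
    rw [tsum_singleton (f := wE)]
    unfold wE
    simp
  · exact BT_le_one h

lemma gf_Brd_le (T : ℕ) : gf (Brd T) ≤ 1 := by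
  rw [gf_Brd]
  exact BT_le_o T

lemma Fch_le (n : ℕ) (g : List Bool) : Fch 64 n g ≤ 65 ^ n := by
  induction n generalizing g with
  | zero => exact le_of_eq rfl
  | succ n ih =>
    have h1 : ∑' g' : {g' : List Bool // g' ∈ Brd (n + 1) ∧ Nb g g'}, wE g'.1 * Fch 64 n g'.1 ≤ 65 ^ n := by
      have hinj : Function.Injective (fun h : {g' : List Bool // g' ∈ Brd (n + 1) ∧ Nb g g'} =>
          (⟨h.1, h.2.1⟩ : {g : List Bool // g ∈ Brd (n + 1)})) := by
        intro h h' hh
        exact Subtype.ext (congrArg (fun z => z.1) hh)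
      calc ∑' g' : {g' : List Bool // g' ∈ Brd (n + 1) ∧ Nb g g'}, wE g'.1 * Fch 64 n g'.1 ≤
          ∑' g' : {g' : List Bool // g' ∈ Brd (n + 1) ∧ Nb g g'}, wE g'.1 * 65 ^ n :=
            ENNReal.tsum_le_tsum fun g' => mul_le_mul_right (ih g'.1) _
        _ ≤ ∑' g' : {g : List Bool // g ∈ Brd (n + 1)}, wE g'.1 * 65 ^ n :=
            ENNReal.tsum_comp_le_tsum_of_injective hinj (fun g' : {g : List Bool // g ∈ Brd (n + 1)} => wE g'.1 * 65 ^ n)
        _ = gf (Brd (n + 1)) * 65 ^ n := by
            rw [ENNReal.tsum_mul_right]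
            rfl
        _ ≤ 1 * 65 ^ n := mul_le_mul_left (gf_Brd_le _) _
        _ = 65 ^ n := one_mul _
    calc Fch 64 (n + 1) g = Fch 64 n g + 64 * ∑' g' : {g' : List Bool // g' ∈ Brd (n + 1) ∧ Nb g g'},
          wE g'.1 * Fch 64 n g'.1 := rfl
      _ ≤ 65 ^ n + 64 * 65 ^ n := add_le_add (ih g) (mul_le_mul_right h1 _)
      _ = 65 ^ (n + 1) := by ring

theorem gf_SSt_fin (m : ℕ) : gf (SSt m) ≠ ∞ := by
  refine ne_top_of_le_ne_top ?_ (gf_SSt_chain m)
  refine ENNReal.mul_ne_top (by norm_num) (ENNReal.sum_ne_top.2 fun T _ => ?_)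
  refine ne_top_of_le_ne_top (b := 1 * 65 ^ T) (by simp) ?_
  calc ∑' g : {g : List Bool // g ∈ Brd T}, wE g.1 * Fch 64 T g.1 ≤ ∑' g : {g : List Bool // g ∈ Brd T}, wE g.1 * 65 ^ T :=
        ENNReal.tsum_le_tsum fun g => mul_le_mul_right (Fch_le T g.1) _
    _ = gf (Brd T) * 65 ^ T := by
        rw [ENNReal.tsum_mul_right]
        rfl
    _ ≤ 1 * 65 ^ T := mul_le_mul_left (gf_Brd_le _) _

/-! ### 2. Walks that start inside the strip -/

/-- self-avoiding words with all the levels in [- M, M] -/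
def YS (M : ℕ) : Set (List Bool) := {t | Saw Set.univ oo up t ∧ ∀ i, i ≤ t.length → |lev t i| ≤ M}

lemma toSSt {M n : ℕ} {p : List Bool} (hp : p ∈ HpN n) (h : ∀ i, i ≤ n → lev p i ≤ 2 * M + 2) : p ∈ SSt (M + 1) := by
  obtain ⟨hl, hs⟩ := hp
  refine ⟨fun i h1 h2 => mem_St.2 ⟨hs.mem i h1 h2, ?_⟩, hs.inj⟩
  have := h i (by omega)
  push_cast
  omega

lemma head_M {n M : ℕ} {t : List Bool} (hl : t.length = n) (hs : Saw Set.univ oo up t) (hM : ∀ i, i ≤ n → |lev t i| ≤ M)
    {j : ℕ} (h1 : 1 ≤ j) (hj : j ≤ n) (ho : ¬ Even j) (hmin : ∀ i, i ≤ n → lev t j ≤ lev t i) :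
    ∃ b, dx up t (j - 1) = -(turn b up) ∧ b :: (rev (t.take (j - 1)) ++ [true]) ∈ SSt (M + 1) := by
  obtain ⟨b, hb, hp⟩ := lowA_head hl hs h1 hj ho hmin
  refine ⟨b, hb, toSSt hp fun i hi => ?_⟩
  have hsl : (rev (t.take (j - 1))).length = j - 1 := by
    rw [rev_length, List.length_take]
    omega
  rcases Nat.eq_zero_or_pos i with h0 | h0
  · subst h0
    rw [lev_zero]
    positivity
  · obtain ⟨k, rfl⟩ : ∃ k, i = k + 1 := ⟨i - 1, by omega⟩
    have key : vx oo up (b :: (rev (t.take (j - 1)) ++ [true])) (k + 1) =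
        (up - vx oo up t j) + vx oo up t (j - k) := by
      rw [(lowA_cons oo up b _ k).1, vx_append (by omega)]
      rw [← lowA_rev hl h1 hj hb k (by omega), ← lowA_trans]
      congr 1
      show oo + up = up - vx oo up t j + vx oo up t j
      rw [sub_add_cancel]
      exact zero_add _
    unfold lev
    rw [key, ip_add_left, ip_sub_left, lowA_ipup]
    have h2 := abs_le.1 (hM j hj)
    have h3 := abs_le.1 (hM (j - k) (by omega))
    unfold lev at h2 h3
    omega

lemma tail_M {n M : ℕ} {t : List Bool} (hl : t.length = n) (hs : Saw Set.univ oo up t) (hM : ∀ i, i ≤ n → |lev t i| ≤ M)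
    {j : ℕ} (h1 : 1 ≤ j) (hj : j < n) (hmin : ∀ i, i ≤ n → lev t j ≤ lev t i) {b : Bool}
    (hb : dx up t (j - 1) = -(turn b up)) : tf t (j - 1) = b ∧ ((!b) :: t.drop j) ∈ SSt (M + 1) := by
  obtain ⟨hbb, hp⟩ := lowA_tail hl hs h1 hj hmin hb
  refine ⟨hbb, toSSt hp fun i hi => ?_⟩
  rcases Nat.eq_zero_or_pos i with h0 | h0
  · subst h0
    rw [lev_zero]
    positivity
  · obtain ⟨k, rfl⟩ : ∃ k, i = k + 1 := ⟨i - 1, by omega⟩
    have hdj' : dx up t j = turn (!b) up := by
      have hdj : dx up t j = turn (tf t (j - 1)) (-(turn b up)) := by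
        rw [← hb, ← dx_succ, show j - 1 + 1 = j by omega]
      rw [hbb] at hdj
      rw [hdj]
      cases b <;> decide
    have key : vx oo up ((!b) :: t.drop j) (k + 1) = (up - vx oo up t j) + vx oo up t (j + k) := by
      rw [(lowA_cons oo up (!b) _ k).1, lowA_drop oo up t j k, ← lowA_trans, hdj']
      congr 1
      show oo + up = up - vx oo up t j + vx oo up t j
      rw [sub_add_cancel]
      exact zero_add _
    unfold lev
    rw [key, ip_add_left, ip_sub_left, lowA_ipup]
    have h2 := abs_le.1 (hM j hj.le)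
    have h3 := abs_le.1 (hM (j + k) (by omega))
    unfold lev at h2 h3
    omega

theorem low_split_M {n M : ℕ} (hn : 1 ≤ n) {t : List Bool} (hl : t.length = n) (hs : Saw Set.univ oo up t)
    (hM : ∀ i, i ≤ n → |lev t i| ≤ M) :
    t ∈ SSt (M + 1) ∨ rev (t.take (n - 1)) ∈ SSt (M + 1) ∨
    (∃ b, b :: (rev (t.take (n - 1)) ++ [true]) ∈ SSt (M + 1)) ∨
    (∃ j b, 1 ≤ j ∧ j < n ∧ t = t.take (j - 1) ++ (b :: t.drop j) ∧
      (b :: (rev (t.take (j - 1)) ++ [true])) ∈ SSt (M + 1) ∧ ((!b) :: t.drop j) ∈ SSt (M + 1)) := by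
  obtain ⟨j0, hj0, hmin0⟩ := Finset.exists_min_image (Finset.range (n + 1)) (fun i => lev t i) ⟨0, by simp⟩
  rw [Finset.mem_range] at hj0
  have hmin : ∀ i, i ≤ n → lev t j0 ≤ lev t i := fun i hi => hmin0 i (Finset.mem_range.2 (by omega))
  by_cases hodd : ∃ j, j ≤ n ∧ ¬ Even j ∧ lev t j = lev t j0
  · obtain ⟨j, hj, ho, hjl⟩ := hodd
    have h1 : 1 ≤ j := by
      rcases Nat.eq_zero_or_pos j with h | h
      · rw [h] at ho
        exact absurd (by decide) ho
      · exact h
    have hminj : ∀ i, i ≤ n → lev t j ≤ lev t i := by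
      rw [hjl]
      exact hmin
    obtain ⟨b, hb, hb'⟩ := head_M hl hs hM h1 hj ho hminj
    rcases Nat.lt_or_ge j n with h | h
    · obtain ⟨h3, h4⟩ := tail_M hl hs hM h1 h hminj hb
      refine Or.inr (Or.inr (Or.inr ⟨j, b, h1, h, ?_, hb', h4⟩))
      have h5 : j - 1 < t.length := by omega
      have h6 : t[j - 1] = b := by
        rw [← h3]
        unfold tf
        rw [List.getD_eq_getElem _ _ h5]
      have h7 := List.drop_eq_getElem_cons h5
      rw [h6, show j - 1 + 1 = j by omega] at h7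
      rw [← h7, List.take_append_drop]
    · have : j = n := by omega
      subst this
      exact Or.inr (Or.inr (Or.inl ⟨b, hb'⟩))
  · push Not at hodd
    have hstrict : ∀ k, 1 ≤ k → k < n → lev t j0 < lev t k := by
      intro k hk1 hk
      by_contra hcon
      have h2 : lev t k = lev t j0 := le_antisymm (not_lt.1 hcon) (hmin k hk.le)
      by_cases he : Even k
      · exact lowA_even hl hs hk1 hk he (by rw [h2]; exact hmin)
      · exact hodd k hk.le he h2
    by_cases hlast : lev t n = lev t j0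
    · -- the end is lowest
      have he : Even n := by
        by_contra he
        exact hodd n le_rfl he hlast
      have ho : ¬ Even (n - 1) := by
        obtain ⟨m, hm⟩ := he
        rintro ⟨m', hm'⟩
        omega
      have hd : dx up t (n - 1) = -up := by
        have h3 := lev_succ t (n - 1)
        rw [show n - 1 + 1 = n by omega] at h3
        have h4 := hmin (n - 1) (by omega)
        rcases step_odd upd t ho with h | h | h
        · exact h.1
        · rw [h.2] at h3
          omega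
        · rw [h.2] at h3
          omega
      have hsl : (rev (t.take (n - 1))).length = n - 1 := by
        rw [rev_length, List.length_take]
        omega
      have key : ∀ i, i ≤ n → vx oo up (rev (t.take (n - 1))) i = -(vx oo up t n) + vx oo up t (n - i) := by
        intro i hi
        rw [← lowA_rev hl hn le_rfl hd i hi, ← lowA_trans, neg_add_cancel]
        rfl
      refine Or.inr (Or.inl ⟨?_, ?_⟩)
      · intro i hi hil
        rw [hsl] at hil
        refine mem_St.2 ?_
        have h2 := hstrict (n - i) (by omega) (by omega)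
        rw [← hlast] at h2
        have h3 := abs_le.1 (hM n le_rfl)
        have h4 := abs_le.1 (hM (n - i) (by omega))
        unfold lev at h2 h3 h4 ⊢
        rw [key i (by omega), ip_add_left, ip_neg_left]
        push_cast
        constructor <;> omega
      · intro i k hik hk heq
        rw [hsl] at hk
        rw [key i (by omega), key k (by omega)] at heq
        exact hs.inj (n - k) (n - i) (by omega) (by omega) (add_left_cancel heq).symm
    · -- the start is lowest
      have h0 : j0 = 0 := by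
        by_contra hne
        rcases Nat.lt_or_ge j0 n with h | h
        · exact lt_irrefl _ (hstrict j0 (by omega) h)
        · exact hlast (by rw [show j0 = n by omega])
      refine Or.inl ⟨?_, hs.inj⟩
      intro i hi hil
      rw [hl] at hil
      refine mem_St.2 ?_
      rw [h0, lev_zero] at hstrict hmin hlast
      have h4 := abs_le.1 (hM i hil)
      refine ⟨?_, by push_cast; omega⟩
      rcases Nat.lt_or_ge i n with h | h
      · exact hstrict i hi h
      · have h2 := hmin i hil
        have h3 : i = n := by omega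
        rw [h3] at h2 ⊢
        omega

lemma gf_image {ι : Type} (S : Set ι) (f : ι → List Bool) : gf (f '' S) ≤ ∑' i : S, wE (f i.1) := by
  have hs : Function.Surjective (fun i : S => (⟨f i.1, i.1, i.2, rfl⟩ : ↥(f '' S))) := by
    rintro ⟨_, i, hi, rfl⟩
    exact ⟨⟨i, hi⟩, rfl⟩
  exact ENNReal.tsum_le_tsum_comp_of_surjective hs (fun t : ↥(f '' S) => wE t.1)

lemma xc_le_one : xc ≤ 1 := by
  have h0 : 0 < Real.cos (Real.pi / 8) := by
    apply Real.cos_pos_of_mem_Ioo
    constructor <;> linarith [Real.pi_pos]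
  have h2 : 1 / 2 ≤ Real.cos (Real.pi / 8) := by
    rw [← Real.cos_pi_div_three]
    apply Real.cos_le_cos_of_nonneg_of_le_pi
    · positivity
    · linarith [Real.pi_pos]
    · linarith [Real.pi_pos]
  unfold xc
  rw [div_le_one (by positivity)]
  linarith

private lemma wE_two (b c : Bool) (t : List Bool) : wE (b :: c :: t) = ENNReal.ofReal (xc ^ 2) * wE t := by
  have h := wE_append [b, c] t
  have e : wE [b, c] = ENNReal.ofReal (xc ^ 2) := rfl
  rw [e] at h
  exact h

private lemma four_xc : (1 : ℝ≥0∞) ≤ 4 * ENNReal.ofReal (xc ^ 2) := by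
  have h1 : (1 : ℝ) ≤ 4 * xc ^ 2 := by
    rw [xc_sq]
    have h2 : Real.sqrt 2 ≤ 2 := by
      rw [Real.sqrt_le_left (by norm_num)]
      norm_num
    have h3 : 0 < 2 + Real.sqrt 2 := by positivity
    rw [← mul_div_assoc, le_div_iff₀ h3]
    linarith
  have h4 : (4 : ℝ≥0∞) = ENNReal.ofReal 4 := by norm_num
  rw [h4, ← ENNReal.ofReal_mul (by norm_num), ← ENNReal.ofReal_one]
  exact ENNReal.ofReal_le_ofReal h1

private lemma wE_le_two (b c : Bool) (t : List Bool) : wE t ≤ 4 * wE (b :: c :: t) := by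
  rw [wE_two, ← mul_assoc]
  calc wE t = 1 * wE t := (one_mul _).symm
    _ ≤ (4 * ENNReal.ofReal (xc ^ 2)) * wE t := by gcongr; exact four_xc

/-- comparison of the weights of words of comparable length -/
lemma wE_len {w p : List Bool} (h : p.length ≤ w.length + 2) : wE w ≤ 4 * wE p := by
  have h1 : wE (true :: true :: w) ≤ wE p := by
    unfold wE
    refine ENNReal.ofReal_le_ofReal (pow_le_pow_of_le_one xc_pos.le xc_le_one ?_)
    simpa using h
  exact (wE_le_two true true w).trans (mul_le_mul_right h1 4)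

lemma sum_bool (S : Set (List Bool)) (f : List Bool × Bool → List Bool)
    (h : ∀ w, w.1.length ≤ (f w).length + 2) : gf (f '' (S ×ˢ (Set.univ : Set Bool))) ≤ 8 * gf S := by
  refine (gf_image _ f).trans ?_
  calc ∑' i : ↥(S ×ˢ (Set.univ : Set Bool)), wE (f i.1) ≤ ∑' i : ↥(S ×ˢ (Set.univ : Set Bool)), 4 * wE i.1.1 :=
        ENNReal.tsum_le_tsum fun i => wE_len (h i.1)
    _ = ∑' p : ↥S × ↥(Set.univ : Set Bool), 4 * wE p.1.1 :=
        (Equiv.Set.prod S (Set.univ : Set Bool)).tsum_eq (fun p : ↥S × ↥(Set.univ : Set Bool) => 4 * wE p.1.1)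
    _ = ∑' p : ↥S, ∑' _ : ↥(Set.univ : Set Bool), 4 * wE p.1 :=
        ENNReal.tsum_prod (f := fun (a : ↥S) (_ : ↥(Set.univ : Set Bool)) => 4 * wE a.1)
    _ = ∑' p : ↥S, 8 * wE p.1 := by
        refine tsum_congr fun a => ?_
        rw [tsum_univ (fun _ : Bool => 4 * wE a.1), tsum_fintype, Fintype.sum_bool, ← two_mul, ← mul_assoc]
        norm_num
    _ = 8 * gf S := ENNReal.tsum_mul_left

lemma sum_pair (S : Set (List Bool)) (f : List Bool × List Bool → List Bool)
    (h : ∀ w, w.1.length + w.2.length ≤ (f w).length + 2) : gf (f '' (S ×ˢ S)) ≤ 4 * (gf S * gf S) := by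
  refine (gf_image _ f).trans ?_
  calc ∑' i : ↥(S ×ˢ S), wE (f i.1) ≤ ∑' i : ↥(S ×ˢ S), 4 * (wE i.1.1 * wE i.1.2) := by
        refine ENNReal.tsum_le_tsum fun i => ?_
        rw [← wE_append]
        refine wE_len ?_
        rw [List.length_append]
        exact h i.1
    _ = ∑' p : ↥S × ↥S, 4 * (wE p.1.1 * wE p.2.1) :=
        (Equiv.Set.prod S S).tsum_eq (fun p : ↥S × ↥S => 4 * (wE p.1.1 * wE p.2.1))
    _ = ∑' p : ↥S, ∑' q : ↥S, 4 * (wE p.1 * wE q.1) :=
        ENNReal.tsum_prod (f := fun (a : ↥S) (b : ↥S) => 4 * (wE a.1 * wE b.1))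
    _ = 4 * (gf S * gf S) := by
        simp only [ENNReal.tsum_mul_left]
        rw [ENNReal.tsum_mul_right]
        rfl

theorem gf_YS_le (M : ℕ) : gf (YS M) ≤ 1 + gf (SSt (M + 1)) + 8 * gf (SSt (M + 1)) + 8 * gf (SSt (M + 1)) +
    4 * (gf (SSt (M + 1)) * gf (SSt (M + 1))) := by
  have hsub : YS M ⊆ {([] : List Bool)} ∪ SSt (M + 1) ∪
      (fun w : List Bool × Bool => rev w.1 ++ [w.2]) '' (SSt (M + 1) ×ˢ (Set.univ : Set Bool)) ∪
      (fun w : List Bool × Bool => rev (w.1.tail.dropLast) ++ [w.2]) '' (SSt (M + 1) ×ˢ (Set.univ : Set Bool)) ∪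
      (fun w : List Bool × List Bool => rev (w.1.tail.dropLast) ++ (w.1.headD true :: w.2.tail)) ''
        (SSt (M + 1) ×ˢ SSt (M + 1)) := by
    rintro t ⟨hs, hM⟩
    rcases Nat.eq_zero_or_pos t.length with h0 | h0
    · exact Or.inl (Or.inl (Or.inl (Or.inl (List.length_eq_zero_iff.1 h0))))
    · obtain ⟨c, hc⟩ : ∃ c, t = t.take (t.length - 1) ++ [c] := by
        have h1 : (t.drop (t.length - 1)).length = 1 := by
          rw [List.length_drop]
          omega
        obtain ⟨c, hc⟩ := List.length_eq_one_iff.1 h1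
        refine ⟨c, ?_⟩
        rw [← hc, List.take_append_drop]
      rcases low_split_M h0 rfl hs hM with h | h | ⟨b, h⟩ | ⟨j, b, hj1, hjn, heq, h1, h2⟩
      · exact Or.inl (Or.inl (Or.inl (Or.inr h)))
      · refine Or.inl (Or.inl (Or.inr ⟨(rev (t.take (t.length - 1)), c), ⟨h, trivial⟩, ?_⟩))
        show rev (rev (t.take (t.length - 1))) ++ [c] = t
        rw [rev_rev, ← hc]
      · refine Or.inl (Or.inr ⟨(b :: (rev (t.take (t.length - 1)) ++ [true]), c), ⟨h, trivial⟩, ?_⟩)
        show rev ((rev (t.take (t.length - 1)) ++ [true]).dropLast) ++ [c] = t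
        rw [List.dropLast_concat, rev_rev, ← hc]
      · refine Or.inr ⟨(b :: (rev (t.take (j - 1)) ++ [true]), (!b) :: t.drop j), ⟨h1, h2⟩, ?_⟩
        show rev ((rev (t.take (j - 1)) ++ [true]).dropLast) ++ (b :: t.drop j) = t
        rw [List.dropLast_concat, rev_rev, ← heq]
  refine (gf_mono hsub).trans ((gf_union_le _ _).trans (add_le_add ((gf_union_le _ _).trans (add_le_add
    ((gf_union_le _ _).trans (add_le_add ((gf_union_le _ _).trans (add_le_add ?_ le_rfl)) ?_)) ?_)) ?_))
  · unfold gf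
    rw [tsum_singleton (f := wE)]
    unfold wE
    simp
  · refine sum_bool _ _ fun w => ?_
    simp only [List.length_append, rev_length, List.length_cons, List.length_nil]
    omega
  · refine sum_bool _ _ fun w => ?_
    simp only [List.length_append, rev_length, List.length_dropLast, List.length_tail, List.length_cons, List.length_nil]
    omega
  · refine sum_pair _ _ fun w => ?_
    simp only [List.length_append, rev_length, List.length_dropLast, List.length_tail, List.length_cons]
    omega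

theorem gf_YS_fin (M : ℕ) : gf (YS M) ≠ ∞ := by
  have h := gf_SSt_fin (M + 1)
  refine ne_top_of_le_ne_top ?_ (gf_YS_le M)
  simp only [ne_eq, ENNReal.add_eq_top, not_or]
  refine ⟨⟨⟨⟨by simp, h⟩, ENNReal.mul_ne_top (by norm_num) h⟩, ENNReal.mul_ne_top (by norm_num) h⟩,
    ENNReal.mul_ne_top (by norm_num) (ENNReal.mul_ne_top h h)⟩

end PLW

end HexObs
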