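import Pool.Agent.PLW.CylWind

/-!
PLW (W7b): the other orientation of a polygon of the cylinder; every polygon is contractible or winds once.
-/

set_option autoImplicit false

namespace Pool.Agent.NUF.Cyl

open HexObs HexObs.LP

/-- the turns of the reversed polygon -/
def rvt (τ : ℕ → Bool) (m i : ℕ) : Bool := !τ (m * (i + 2) - 2 - i)

lemma per_mul {τ : ℕ → Bool} {m : ℕ} (hper : ∀ i, τ (i + m) = τ i) (q j : ℕ) : τ (j + m * q) = τ j := by
  induction q with
  | zero => rw [Nat.mul_zero, Nat.add_zero]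
  | succ q ih => rw [Nat.mul_succ, ← Nat.add_assoc, hper, ih]

lemma rvt_eq {τ : ℕ → Bool} {m : ℕ} (hm : 0 < m) (hper : ∀ i, τ (i + m) = τ i) {q i : ℕ} (h : i + 2 ≤ m * q) :
    rvt τ m i = !τ (m * q - 2 - i) := by
  unfold rvt
  congr 1
  have h1 : i + 2 ≤ m * (i + 2) := Nat.le_mul_of_pos_left _ hm
  rcases le_total q (i + 2) with hq | hq
  · obtain ⟨k, hk⟩ := Nat.exists_eq_add_of_le hq
    have e : m * (i + 2) - 2 - i = (m * q - 2 - i) + m * k := by
      rw [hk, Nat.mul_add]
      omega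
    rw [e, per_mul hper]
  · obtain ⟨k, hk⟩ := Nat.exists_eq_add_of_le hq
    have e : m * q - 2 - i = (m * (i + 2) - 2 - i) + m * k := by
      rw [hk, Nat.mul_add]
      omega
    rw [e, per_mul hper]

lemma ds_per {d : Pt} {τ : ℕ → Bool} {m : ℕ} (hper : ∀ i, τ (i + m) = τ i) (hcl : ds d τ m = d) (i : ℕ) :
    ds d τ (m + i) = ds d τ i := by
  rw [ds_shift, hcl]
  exact ds_congr i fun k _ => by
    show τ (m + k) = τ k
    rw [Nat.add_comm]
    exact hper k

lemma ds_per_mul {d : Pt} {τ : ℕ → Bool} {m : ℕ} (hper : ∀ i, τ (i + m) = τ i) (hcl : ds d τ m = d) (q i : ℕ) :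
    ds d τ (m * q + i) = ds d τ i := by
  induction q with
  | zero => rw [Nat.mul_zero, Nat.zero_add]
  | succ q ih => rw [Nat.mul_succ, Nat.add_comm (m * q) m, Nat.add_assoc, ds_per hper hcl, ih]

/-- the directions of the reversed polygon -/
lemma ds_rev {d : Pt} {τ : ℕ → Bool} {m : ℕ} (hm : 0 < m) (hper : ∀ i, τ (i + m) = τ i) (hcl : ds d τ m = d) (q : ℕ) :
    ∀ i, i + 1 ≤ m * q → ds (-ds d τ (m * q - 1)) (rvt τ m) i = -ds d τ (m * q - 1 - i) := by
  intro i
  induction i with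
  | zero => intro _; rfl
  | succ i ih =>
    intro hi
    rw [ds_succ, ih (by omega), rvt_eq hm hper (q := q) (by omega)]
    have e1 : m * q - 1 - i = (m * q - 2 - i) + 1 := by omega
    have e2 : m * q - 1 - (i + 1) = m * q - 2 - i := by omega
    rw [e1, e2, ds_succ, PLD.turn_neg, turn_turn]

/-- **the reversed polygon** -/
theorem CPoly.rev {C : Nm} {v d : Pt} {τ : ℕ → Bool} {m : ℕ} (h : CPoly C v d τ m) :
    CPoly C (vs v d τ m) (-ds d τ (m - 1)) (rvt τ m) m ∧
    (∀ i, i ≤ m → vs (vs v d τ m) (-ds d τ (m - 1)) (rvt τ m) i = vs v d τ (m - i)) ∧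
    cpe C (vs v d τ m) (-ds d τ (m - 1)) (rvt τ m) m = crE C (cpe C v d τ m) := by
  have hm := h.pos
  have hds := ds_rev (d := d) hm h.per h.cld 1
  rw [Nat.mul_one] at hds
  have hds2 := ds_rev (d := d) hm h.per h.cld 2
  have hd1 : ds d τ (m * 2 - 1) = ds d τ (m - 1) := by
    have e : m * 2 - 1 = m + (m - 1) := by omega
    rw [e, ds_per h.per h.cld]
  rw [hd1] at hds2
  have hvs : ∀ i, i ≤ m → vs (vs v d τ m) (-ds d τ (m - 1)) (rvt τ m) i = vs v d τ (m - i) := by
    intro i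
    induction i with
    | zero => intro _; rfl
    | succ i ih =>
      intro hi
      rw [vs_succ, ih (by omega), hds i (by omega)]
      have e1 : m - i = (m - (i + 1)) + 1 := by omega
      have e2 : m - 1 - i = m - (i + 1) := by omega
      rw [e1, e2, vs_succ]
      abel
  refine ⟨⟨hm, ?_, ?_, ?_, ?_, ?_⟩, hvs, ?_⟩
  · -- the first half edge
    have hmem : ds d τ (m - 1) ∈ dirs := ds_mem h.de.1 _
    have hVt : ∀ i, Vt (vs v d τ i) := by
      intro i
      unfold Vt
      rw [cl_vs]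
      split_ifs
      · exact h.de.2.1
      · have h3 := h.de.2.2
        unfold Vt at h3
        simp only [cl_add] at h3
        exact h3
    refine ⟨neg_mem_dirs hmem, hVt m, ?_⟩
    have e : vs v d τ m = vs v d τ (m - 1) + ds d τ (m - 1) := by
      have e1 : m = (m - 1) + 1 := by omega
      conv_lhs => rw [e1]
      rw [vs_succ]
    show Vt (vs v d τ m + -ds d τ (m - 1))
    rw [e, add_neg_cancel_right]
    exact hVt _
  · intro i
    rw [rvt_eq hm h.per (q := i + m + 2) (Nat.le_trans (by omega) (Nat.le_mul_of_pos_left (i + m + 2) hm)),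
      rvt_eq hm h.per (q := i + m + 1) (Nat.le_trans (by omega) (Nat.le_mul_of_pos_left (i + m + 1) hm) :
        i + 2 ≤ m * (i + m + 1))]
    congr 2
    rw [show i + m + 2 = (i + m + 1) + 1 by omega, Nat.mul_succ]
    omega
  · rw [hvs m le_rfl, Nat.sub_self]
    exact h.clv.symm
  · have h3 := hds2 m (by omega)
    rw [h3]
    congr 2
    omega
  · intro i k hik hk heq
    rw [hvs i (by omega), hvs k (by omega)] at heq
    rcases Nat.eq_zero_or_pos i with h0 | h0
    · subst h0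
      rw [Nat.sub_zero, h.clv] at heq
      exact h.inj 0 (m - k) (by omega) (by omega) heq
    · exact h.inj (m - k) (m - i) (by omega) (by omega) heq.symm
  · unfold cpe crE
    rw [Finset.image_image]
    ext p
    simp only [Finset.mem_image, Finset.mem_range]
    have key : ∀ j, j < m → ceg C (vs v d τ m) (-ds d τ (m - 1)) (rvt τ m) j = C.rv (ceg C v d τ (m - 1 - j)) := by
      intro j hj
      unfold ceg Nm.rv Nm.nb
      rw [hvs j (by omega), hds j (by omega)]
      simp only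
      rw [C.add, ← vs_succ]
      congr 3
      omega
    constructor
    · rintro ⟨j, hj, rfl⟩
      exact ⟨m - 1 - j, by omega, (key j hj).symm⟩
    · rintro ⟨j, hj, rfl⟩
      refine ⟨m - 1 - j, by omega, ?_⟩
      rw [key _ (by omega)]
      show C.rv (ceg C v d τ (m - 1 - (m - 1 - j))) = C.rv (ceg C v d τ j)
      congr 2
      omega

theorem IsCPoly.rev {C : Nm} {E : Finset (Pt × Pt)} (h : IsCPoly C E) : IsCPoly C (crE C E) := by
  obtain ⟨v, d, τ, m, h1, rfl⟩ := h
  exact ⟨_, _, _, _, h1.rev.1, h1.rev.2.2.symm⟩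

/-- the other orientation twice -/
theorem crE_crE {C : Nm} {E : Finset (Pt × Pt)} (h : IsCPoly C E) : crE C (crE C E) = E := by
  obtain ⟨v, d, τ, m, h1, rfl⟩ := h
  unfold crE
  rw [Finset.image_image]
  conv_rhs => rw [← Finset.image_id (s := cpe C v d τ m)]
  refine Finset.image_congr fun p hp => ?_
  rw [Finset.mem_coe] at hp
  unfold cpe at hp
  rw [Finset.mem_image] at hp
  obtain ⟨i, _, rfl⟩ := hp
  show C.rv (C.rv (ceg C v d τ i)) = id _
  unfold ceg Nm.rv Nm.nb
  simp only [id, neg_neg]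
  rw [C.add, add_neg_cancel_right, C.idem]

/-- **every polygon of the cylinder is contractible or winds once** -/
theorem flat_or_wind {N : ℕ} (hN : 1 ≤ N) {E : Finset (Pt × Pt)} (h : IsCPoly (Cy N hN) E) :
    IsFlat N hN E ∨ IsWind N hN E ∨ IsWind N hN (crE (Cy N hN) E) := by
  obtain ⟨v, d, τ, m, h1, rfl⟩ := h
  rcases wind_cases hN h1 with h2 | h2 | h2
  · exact Or.inl ⟨v, d, τ, m, h1, h2, rfl⟩
  · exact Or.inr (Or.inl ⟨v, d, τ, m, h1, h2, rfl⟩)
  · refine Or.inr (Or.inr ⟨_, _, _, _, h1.rev.1, ?_, h1.rev.2.2.symm⟩)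
    rw [h1.rev.2.1 m le_rfl, Nat.sub_self, h2]
    show v = v - PN N + PN N
    abel

/-- the reversed contractible polygon is contractible -/
theorem IsFlat.rev {N : ℕ} {hN : 1 ≤ N} {E : Finset (Pt × Pt)} (h : IsFlat N hN E) : IsFlat N hN (crE (Cy N hN) E) := by
  obtain ⟨v, d, τ, m, h1, h2, rfl⟩ := h
  refine ⟨_, _, _, _, h1.rev.1, ?_, h1.rev.2.2.symm⟩
  rw [h1.rev.2.1 m le_rfl, Nat.sub_self, h2]
  rfl

end Pool.Agent.NUF.Cyl
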