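import Pool.Agent.PLW.GasNF
import Pool.Agent.EXL.Par

/-!
PLW, module W8c: translations of the planar gas of nested polygons, and the boxes around a face inside the centred
parallelograms `PP T M`.
-/

set_option autoImplicit false

namespace Pool.Agent.PLW

open Finset HexObs HexObs.LP Pool.Agent.NUF.Cyl

/-- translation invariance -/
theorem NF_tr' (y : ℝ) {z : Pt} (hz : cl z = 0) (B : Finset Pt) (f : Pt) :
    NUN.NF xc y (f + z) (Ti z B) = NUN.NF xc y f B := by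
  have e1 := NF_eq_NUN (2 * y) (f + z) (Ti z B)
  have e2 := NF_eq_NUN (2 * y) f B
  rw [mul_div_cancel_left₀ y (two_ne_zero' ℝ)] at e1 e2
  rw [← e1, ← e2]
  exact NF_tr (2 * y) hz B f

/-- a box around the face `(r - 1, r + 1)` is inside a translate of `PP T M` -/
theorem NF_box_le {y : ℝ} (hy : 0 ≤ y) {r : ℤ} {R R' T M : ℕ} (hT : R + 2 ≤ T) (hM : R' < 3 * M) {B : Finset Pt}
    (hB : ∀ v ∈ B, Vt v ∧ |ri v - r| ≤ R ∧ |nn v + 2| ≤ R') :
    NUN.NF xc y (r - 1, r + 1) B ≤ NUN.NF xc y f0 (PP T M) := by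
  have hz : cl ((r - 2, r + 1) : Pt) = 0 := by
    unfold cl
    have : (r - 2 - (r + 1) : ℤ) = (-3 : ℤ) := by ring
    simp only
    rw [this]
    decide
  have hf : f0 + ((r - 2, r + 1) : Pt) = (r - 1, r + 1) := by
    unfold f0
    ext <;> simp only [Prod.fst_add, Prod.snd_add] <;> ring
  rw [← NF_tr' y hz (PP T M) f0, hf]
  refine NF_mono' hy _ fun v hv => ?_
  obtain ⟨h1, h2, h3⟩ := hB v hv
  rw [mem_Ti, mem_PP]
  rw [abs_le] at h2 h3
  refine ⟨?_, ?_, ?_⟩
  · unfold Vt at *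
    intro e
    apply h1
    have e1 : v = (v - ((r - 2, r + 1) : Pt)) + ((r - 2, r + 1) : Pt) := by abel
    rw [e1, cl_add, e, hz, add_zero]
  · unfold ri at h2
    unfold lv
    simp only [Prod.fst_sub, Prod.snd_sub]
    rw [abs_lt]
    omega
  · unfold nn at *
    simp only [Prod.fst_sub, Prod.snd_sub]
    rw [abs_lt]
    omega

/-- the same in the form of `LP.NF` -/
theorem NF_box_le2 {x : ℝ} (hx : 0 ≤ x) {r : ℤ} {R R' T M : ℕ} (hT : R + 2 ≤ T) (hM : R' < 3 * M) {B : Finset Pt}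
    (hB : ∀ v ∈ B, Vt v ∧ |ri v - r| ≤ R ∧ |nn v + 2| ≤ R') :
    NUN.NF xc (x / 2) (r - 1, r + 1) B ≤ LP.NF x (PP T M) f0 := by
  rw [NF_eq_NUN]
  exact NF_box_le (by positivity) hT hM hB

end Pool.Agent.PLW
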