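import Pool.Agent.PLW.Defs
import Pool.Agent.PLD.CloseL

/-!
PLW (W1): the closing inequality for alternating lists.
-/

set_option autoImplicit false

namespace HexObs

namespace PLW

open Finset TS SDN PLD

open scoped ENNReal

/-- alternating lists of leaves with heights in [D, N] -/
structure ClW (H X : ℤ) (D N : ℕ) (gs : List (List Bool)) : Prop where
  chain : gs.IsChain LFold
  cyc : ∀ x ∈ gs.getLast?, ∀ y ∈ gs.head?, LFold x y
  hgt0 : altH gs = H
  lat0 : altX gs = X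
  brr : ∀ g ∈ gs, g ∈ BrR D N

lemma V_prescribedW {H X : ℤ} {D N : ℕ} {M P1 V P2 Q : List Bool} {gs : List (List Bool)} {h : ℕ} (hM : M ∈ BU) (hP1 : P1 ∈ IU)
    (hV : V ∈ Brd h) (hP2 : P2 ∈ IU) (hQ : Q ∈ BU) (hc : ClW H X D N ((M ++ (P1 ++ (V ++ (P2 ++ Q)))) :: gs)) :
    (h : ℤ) = altH gs + H - hgt M - hgt P1 - hgt P2 - hgt Q ∧
    latE V = altX gs + X - latE M - latE P1 - latE (P2 ++ Q) - tw (P2 ++ Q) := by
  have bM := BU_hgt hM
  have bP1 := BU_hgt (IU_BU hP1)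
  have bP2 := BU_hgt (IU_BU hP2)
  have bQ := BU_hgt hQ
  have bA := Brd_append bM (Brd_append bP1 (Brd_append hV (Brd_append bP2 bQ)))
  have h1 : ht (M ++ (P1 ++ (V ++ (P2 ++ Q)))) - altH gs = H := hc.hgt0
  have h2 : latE (M ++ (P1 ++ (V ++ (P2 ++ Q)))) + tw (M ++ (P1 ++ (V ++ (P2 ++ Q)))) - altX gs = X := hc.lat0
  constructor
  · rw [TS.ht_eq bA] at h1
    push_cast at h1
    linarith
  · have h3 : tw (M ++ (P1 ++ (V ++ (P2 ++ Q)))) = tw (P2 ++ Q) := by
      have h4 : M ++ (P1 ++ (V ++ (P2 ++ Q))) = (M ++ (P1 ++ V)) ++ (P2 ++ Q) := by simp only [List.append_assoc]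
      rw [h4, tw_cat _ _ (ne_IU hP2)]
    rw [h3, latE_cat (dx_end bM), latE_cat (dx_end bP1), latE_cat (dx_end hV)] at h2
    linarith

open Classical in
lemma sum_VW {C : ℝ} (hC : ∀ (j h : ℕ) (x : ℤ), 2 ^ j ≤ h →
    gf {V | V ∈ Brd h ∧ latE V = x} ≤ ENNReal.ofReal (C * (2 : ℝ) ^ (-(5 / 4 : ℝ) * j)))
    {H X : ℤ} {D N : ℕ} {S : Set (List (List Bool))} (hS : ∀ gs ∈ S, ClW H X D N gs) (k j3 : ℕ) (gs : List (List Bool))
    {M P1 P2 Q : List Bool} (hM : M ∈ BU) (hP1 : P1 ∈ IU) (hP2 : P2 ∈ IU) (hQ : Q ∈ BU) :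
    ∑' h : ℕ, mu k (hgt M + hgt P1 + h) (hgt P2) * sB (Brd h) (fun V =>
      if 2 ^ j3 ≤ h ∧ M ++ (P1 ++ (V ++ (P2 ++ Q))) ∈ {g | g :: gs ∈ S} then wE V * 1 else 0) ≤
    (if ∃ V ∈ BU, hgt M + hgt P1 + hgt V ≤ 2 ^ (k + 1) ∧ (M ++ (P1 ++ (V ++ (P2 ++ Q)))) :: gs ∈ S then
      min 1 ((hgt P2 : ℝ≥0∞) / 2 ^ k) * ENNReal.ofReal (C * (2 : ℝ) ^ (-(5 / 4 : ℝ) * j3)) else 0) := by
  by_cases hex : ∃ h, ∃ V ∈ Brd h, 2 ^ j3 ≤ h ∧ (M ++ (P1 ++ (V ++ (P2 ++ Q)))) :: gs ∈ S ∧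
      mu k (hgt M + hgt P1 + h) (hgt P2) ≠ 0
  · obtain ⟨h0, V0, hV0, hj, hc0, hmu⟩ := hex
    rw [if_pos ⟨V0, ⟨h0, hV0⟩, by rw [hgt_eq hV0]; exact (mu_ne hmu).1.le, hc0⟩]
    have e0 := V_prescribedW hM hP1 hV0 hP2 hQ (hS _ hc0)
    rw [tsum_eq_single h0]
    · refine mul_le_mul' (mu_le k _ _) ?_
      refine le_trans ?_ (hC j3 h0 (latE V0) hj)
      have h1 : sB (Brd h0) (fun V =>
          if 2 ^ j3 ≤ h0 ∧ M ++ (P1 ++ (V ++ (P2 ++ Q))) ∈ {g | g :: gs ∈ S} then wE V * 1 else 0) =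
          sB {V | V ∈ Brd h0 ∧ (2 ^ j3 ≤ h0 ∧ M ++ (P1 ++ (V ++ (P2 ++ Q))) ∈ {g | g :: gs ∈ S})}
            (fun V => wE V * 1) := by
        rw [← sB_ite]
      rw [h1]
      refine sB_mono ?_ fun V _ => by rw [mul_one]
      rintro V ⟨hV, _, hc⟩
      exact ⟨hV, (V_prescribedW hM hP1 hV hP2 hQ (hS _ hc)).2.trans e0.2.symm⟩
    · intro h hne
      have h1 : sB (Brd h) (fun V =>
          if 2 ^ j3 ≤ h ∧ M ++ (P1 ++ (V ++ (P2 ++ Q))) ∈ {g | g :: gs ∈ S} then wE V * 1 else 0) = 0 := by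
        refine Eq.trans (sB_congr (G := fun _ => 0) fun V hV => ?_) (sB_zero (Brd h))
        rw [if_neg]
        rintro ⟨_, hc⟩
        have e1 := V_prescribedW hM hP1 hV hP2 hQ (hS _ hc)
        have e2 : (h : ℤ) = h0 := e1.1.trans e0.1.symm
        exact hne (by exact_mod_cast e2)
      rw [h1, mul_zero]
  · have h0 : ∀ h : ℕ, mu k (hgt M + hgt P1 + h) (hgt P2) * sB (Brd h) (fun V =>
        if 2 ^ j3 ≤ h ∧ M ++ (P1 ++ (V ++ (P2 ++ Q))) ∈ {g | g :: gs ∈ S} then wE V * 1 else 0) = 0 := by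
      intro h
      by_cases hmu : mu k (hgt M + hgt P1 + h) (hgt P2) = 0
      · rw [hmu, zero_mul]
      have h1 : sB (Brd h) (fun V =>
          if 2 ^ j3 ≤ h ∧ M ++ (P1 ++ (V ++ (P2 ++ Q))) ∈ {g | g :: gs ∈ S} then wE V * 1 else 0) = 0 := by
        refine Eq.trans (sB_congr (G := fun _ => 0) fun V hV => ?_) (sB_zero (Brd h))
        rw [if_neg]
        rintro ⟨hj, hc⟩
        exact hex ⟨h, V, hV, hj, hc, hmu⟩
      rw [h1, mul_zero]
    rw [tsum_congr h0, tsum_zero]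
    exact bot_le

lemma OC_of_ClW {H X : ℤ} {D N : ℕ} {M P1 V P2 Q : List Bool} {gs : List (List Bool)} (hM : M ∈ BU) (hP1 : P1 ∈ IU)
    (hV : V ∈ BU) (hP2 : P2 ∈ IU) (hQ : Q ∈ BU) (hc : ClW H X D N ((M ++ (P1 ++ (V ++ (P2 ++ Q)))) :: gs)) :
    OC D N M P1 (P2 ++ Q) gs := by
  have hW : V ++ (P2 ++ Q) ∈ BU :=
    ⟨_, Brd_append (BU_hgt hV) (Brd_append (BU_hgt (IU_BU hP2)) (BU_hgt hQ))⟩
  refine OC_of (W := V ++ (P2 ++ Q)) rfl hW (hc.brr _ (by simp)) gs _ _ hc.chain ?_ hc.brr ?_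
  · intro x hx
    exact hc.cyc x hx _ (by simp)
  · intro g' hg'
    obtain ⟨h, hV⟩ := hV
    refine ⟨M ++ (P1 ++ V), PC.pre_BU hM hP1 hV, ?_, ?_⟩
    · rw [← PC.cat_eq]
      exact BrR_HB (hc.brr _ (by simp))
    · rw [← PC.cat_eq]
      exact hg'

/-! ### 4. The closing inequality -/

open Classical in
/-- the closing inequality for cyclic chains -/
theorem closeW : ∃ C : ℝ, 0 < C ∧ ∀ (H X : ℤ) (D N k j1 j3 : ℕ) (Fs : List (List Bool → ℝ≥0∞)) (S : Set (List (List Bool))),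
    (∀ gs ∈ S, ClW H X D N gs) → ∑' gs : S, clW k j1 j3 Fs gs.1 ≤
    ENNReal.ofReal (C * (2 : ℝ) ^ (-(5 / 4 : ℝ) * j3)) * fstP D N k (chn D N LFold j1 Fs) := by
  obtain ⟨C, hC0, hC⟩ := gf_end
  refine ⟨C, hC0, fun H X D N k j1 j3 Fs S hS => ?_⟩
  obtain ⟨v, hv⟩ : ∃ v : ℝ≥0∞, v = ENNReal.ofReal (C * (2 : ℝ) ^ (-(5 / 4 : ℝ) * j3)) := ⟨_, rfl⟩
  -- first leaf and the other leaves
  have step0 : ∑' gs : S, clW k j1 j3 Fs gs.1 =
      ∑' (gs : List (List Bool)), wF Fs gs * sB {g | g :: gs ∈ S} (fun g => wE g * gam k j1 j3 g) := by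
    rw [tsum_subtype S (clW k j1 j3 Fs)]
    have hs : Function.support (S.indicator (clW k j1 j3 Fs)) ⊆
        Set.range fun p : List Bool × List (List Bool) => p.1 :: p.2 := by
      intro gs hgs
      rcases gs with _ | ⟨g, gs⟩
      · exfalso
        apply hgs
        by_cases h : ([] : List (List Bool)) ∈ S
        · rw [Set.indicator_of_mem h]
          rfl
        · rw [Set.indicator_of_notMem h]
      · exact ⟨(g, gs), rfl⟩
    rw [← cons_inj.tsum_eq hs, ENNReal.tsum_prod', ENNReal.tsum_comm]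
    refine tsum_congr fun gs => ?_
    rw [← sB_mul]
    unfold sB
    rw [tsum_subtype {g | g :: gs ∈ S} (fun g => wF Fs gs * (wE g * gam k j1 j3 g))]
    refine tsum_congr fun g => ?_
    by_cases h : g :: gs ∈ S
    · rw [Set.indicator_of_mem h, Set.indicator_of_mem (show g ∈ {g | g :: gs ∈ S} from h)]
      show wE g * gam k j1 j3 g * wF Fs gs = _
      ring
    · rw [Set.indicator_of_notMem h, Set.indicator_of_notMem (show g ∉ {g | g :: gs ∈ S} from h)]
  rw [step0]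
  -- the four-fold sum for fixed gs
  have step1 : ∀ gs : List (List Bool), sB {g | g :: gs ∈ S} (fun g => wE g * gam k j1 j3 g) ≤
      sB BU fun M => sB IU fun P1 => sB IU fun P2 => sB BU fun Q =>
        mu j1 (hgt M) (hgt P1) * (wE M * wE P1) * (fW D N k P2 Q * v *
          (if OC D N M P1 (P2 ++ Q) gs then 1 else 0)) := by
    intro gs
    have e1 : sB {g | g :: gs ∈ S} (fun g => wE g * gam k j1 j3 g) =
        sB {g | g :: gs ∈ S} (fun g => wE g * (gam k j1 j3 g * (fun _ => (1 : ℝ≥0∞)) g)) :=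
      sB_congr fun g _ => by rw [mul_one]
    rw [e1]
    refine (PC.gam_exp k j1 j3 {g | g :: gs ∈ S} fun _ => 1).trans ?_
    unfold PC.T5
    refine sB_mono le_rfl fun M hM => sB_mono le_rfl fun P1 hP1 => ?_
    have e2 : ∀ h : ℕ, (sB IU fun P2 => sB BU fun Q =>
        mu j1 (hgt M) (hgt P1) * mu k (hgt M + hgt P1 + h) (hgt P2) * (wE M * (wE P1 * (wE P2 * (wE Q *
          sB (Brd h) (fun V => if 2 ^ j3 ≤ h ∧ M ++ (P1 ++ (V ++ (P2 ++ Q))) ∈ {g | g :: gs ∈ S} then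
            wE V * (fun _ => (1 : ℝ≥0∞)) (M ++ (P1 ++ (V ++ (P2 ++ Q)))) else 0)))))) =
        sB IU fun P2 => sB BU fun Q => (mu j1 (hgt M) (hgt P1) * (wE M * wE P1) * (wE P2 * wE Q)) *
          (mu k (hgt M + hgt P1 + h) (hgt P2) * sB (Brd h) (fun V =>
            if 2 ^ j3 ≤ h ∧ M ++ (P1 ++ (V ++ (P2 ++ Q))) ∈ {g | g :: gs ∈ S} then wE V * 1 else 0)) := by
      intro h
      refine sB_congr fun P2 _ => sB_congr fun Q _ => ?_
      ring
    rw [tsum_congr e2, ← sB_tsum_swap]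
    refine sB_mono le_rfl fun P2 hP2 => ?_
    rw [← sB_tsum_swap]
    refine sB_mono le_rfl fun Q hQ => ?_
    rw [ENNReal.tsum_mul_left]
    refine (mul_le_mul_right (sum_VW hC hS k j3 gs hM hP1 hP2 hQ) _).trans ?_
    rw [← hv]
    by_cases hex : ∃ V ∈ BU, hgt M + hgt P1 + hgt V ≤ 2 ^ (k + 1) ∧ (M ++ (P1 ++ (V ++ (P2 ++ Q)))) :: gs ∈ S
    · rw [if_pos hex]
      obtain ⟨V, hV, hh, hc⟩ := hex
      have hcl := hS _ hc
      rw [if_pos (OC_of_ClW hM hP1 hV hP2 hQ hcl)]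
      have hf : fW D N k P2 Q = min 1 ((hgt P2 : ℝ≥0∞) / 2 ^ k) * (wE P2 * wE Q) := by
        unfold fW
        rw [if_pos]
        refine ⟨M ++ (P1 ++ V), PC.pre_BU hM hP1 (BU_hgt hV), ?_, ?_⟩
        · rw [hgt_eq (Brd_append (BU_hgt hM) (Brd_append (BU_hgt (IU_BU hP1)) (BU_hgt hV)))]
          omega
        · rw [← PC.cat_eq]
          exact hcl.brr _ (by simp)
      rw [hf]
      refine le_of_eq ?_
      ring
    · rw [if_neg hex, mul_zero]
      exact bot_le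
  have step2 : ∑' (gs : List (List Bool)), wF Fs gs * sB {g | g :: gs ∈ S} (fun g => wE g * gam k j1 j3 g) ≤
      sB BU fun M => sB IU fun P1 => sB IU fun P2 => sB BU fun Q =>
        mu j1 (hgt M) (hgt P1) * (wE M * wE P1) * (fW D N k P2 Q * v *
          Fs.foldr (uF D N LFold) (Fi D N M P1) (P2 ++ Q)) := by
    calc ∑' (gs : List (List Bool)), wF Fs gs * sB {g | g :: gs ∈ S} (fun g => wE g * gam k j1 j3 g)
        ≤ ∑' (gs : List (List Bool)), (sB BU fun M => sB IU fun P1 => sB IU fun P2 => sB BU fun Q =>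
          mu j1 (hgt M) (hgt P1) * (wE M * wE P1) * (fW D N k P2 Q * v *
            (if OC D N M P1 (P2 ++ Q) gs then wF Fs gs else 0))) := by
          refine ENNReal.tsum_le_tsum fun gs => ?_
          refine (mul_le_mul_right (step1 gs) _).trans (le_of_eq ?_)
          rw [← sB_mul]
          refine sB_congr fun M _ => ?_
          rw [← sB_mul]
          refine sB_congr fun P1 _ => ?_
          rw [← sB_mul]
          refine sB_congr fun P2 _ => ?_
          rw [← sB_mul]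
          refine sB_congr fun Q _ => ?_
          split_ifs
          · ring
          · ring
      _ ≤ _ := by
          rw [← sB_tsum_swap]
          refine sB_mono le_rfl fun M _ => ?_
          rw [← sB_tsum_swap]
          refine sB_mono le_rfl fun P1 _ => ?_
          rw [← sB_tsum_swap]
          refine sB_mono le_rfl fun P2 _ => ?_
          rw [← sB_tsum_swap]
          refine sB_mono le_rfl fun Q _ => ?_
          rw [ENNReal.tsum_mul_left, ENNReal.tsum_mul_left]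
          exact mul_le_mul_right (mul_le_mul_right (sum_OC D N M P1 Fs (P2 ++ Q)) _) _
  refine step2.trans (le_of_eq ?_)
  rw [← hv]
  -- linearity
  have e3 : ∀ P2 Q : List Bool, chn D N LFold j1 Fs (P2 ++ Q) =
      sB BU fun M => sB IU fun P1 => mu j1 (hgt M) (hgt P1) * (wE M * wE P1) *
        Fs.foldr (uF D N LFold) (Fi D N M P1) (P2 ++ Q) := by
    intro P2 Q
    have f1 : psiE D N LFold j1 = fun t => sB BU fun M => 1 * (sB IU fun P1 =>
        mu j1 (hgt M) (hgt P1) * (wE M * wE P1) * Fi D N M P1 t) := by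
      funext t
      unfold psiE
      refine sB_congr fun M _ => ?_
      rw [one_mul]
      refine sB_congr fun P1 _ => ?_
      unfold Fi
      by_cases h : FrP D N M P1 t
      · rw [if_pos h, mul_one]
        exact if_pos h
      · rw [if_neg h, mul_zero]
        exact if_neg h
    unfold chn
    rw [f1, ← foldr_lin D N BU (fun _ => 1) (fun M t => sB IU fun P1 =>
        mu j1 (hgt M) (hgt P1) * (wE M * wE P1) * Fi D N M P1 t)]
    refine sB_congr fun M _ => ?_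
    rw [one_mul, ← foldr_lin]
  have e4 : fstP D N k (chn D N LFold j1 Fs) =
      sB IU fun P2 => sB BU fun Q => fW D N k P2 Q * chn D N LFold j1 Fs (P2 ++ Q) := by
    unfold fstP fW
    refine sB_congr fun P2 _ => sB_congr fun Q _ => ?_
    split_ifs
    · ring
    · rw [zero_mul]
  rw [e4, ← sB_mul]
  calc (sB BU fun M => sB IU fun P1 => sB IU fun P2 => sB BU fun Q =>
        mu j1 (hgt M) (hgt P1) * (wE M * wE P1) * (fW D N k P2 Q * v *
          Fs.foldr (uF D N LFold) (Fi D N M P1) (P2 ++ Q)))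
      = sB BU fun M => sB IU fun P2 => sB BU fun Q => sB IU fun P1 =>
        mu j1 (hgt M) (hgt P1) * (wE M * wE P1) * (fW D N k P2 Q * v *
          Fs.foldr (uF D N LFold) (Fi D N M P1) (P2 ++ Q)) := by
        refine sB_congr fun M _ => ?_
        rw [sB_swap]
        refine sB_congr fun P2 _ => ?_
        rw [sB_swap]
    _ = sB IU fun P2 => sB BU fun Q => sB BU fun M => sB IU fun P1 =>
        mu j1 (hgt M) (hgt P1) * (wE M * wE P1) * (fW D N k P2 Q * v *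
          Fs.foldr (uF D N LFold) (Fi D N M P1) (P2 ++ Q)) := by
        rw [sB_swap]
        refine sB_congr fun P2 _ => ?_
        rw [sB_swap]
    _ = _ := by
        refine sB_congr fun P2 _ => ?_
        rw [← sB_mul]
        refine sB_congr fun Q _ => ?_
        rw [e3 P2 Q, ← sB_mul, ← sB_mul]
        refine sB_congr fun M _ => ?_
        rw [← sB_mul, ← sB_mul]
        refine sB_congr fun P1 _ => ?_
        ring

end PLW

end HexObs
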