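import Pool.Agent.PLW.Defs
import Pool.Agent.PLD.CycA

/-!
PLW: periodic words: translation by the period, rotation, the fold relations, the alternating sums.
-/

set_option autoImplicit false

namespace HexObs

namespace PLW

open Finset TS SDN PLD

/-! ### 1. The period -/

lemma pv_lenW {P : Pt} {z : List Bool} (hz : z ∈ CwP P) : pv z z.length = P := by
  rw [← vx_eq_pv le_rfl]
  exact hz.2.1

lemma pd_lenW {P : Pt} {z : List Bool} (hz : z ∈ CwP P) : pd z z.length = up := by
  rw [← dx_eq_pd le_rfl]
  exact hz.2.2.1

theorem pd_addW {P : Pt} {z : List Bool} (hz : z ∈ CwP P) (i : ℕ) : pd z (z.length + i) = pd z i := by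
  unfold pd
  rw [ds_shift]
  have h1 : ds up (per z) z.length = up := pd_lenW hz
  rw [h1]
  exact ds_congr i fun k _ => per_add z k

theorem pv_addW {P : Pt} {z : List Bool} (hz : z ∈ CwP P) (i : ℕ) : pv z (z.length + i) = P + pv z i := by
  unfold pv
  rw [vs_shift]
  have h1 : ds up (per z) z.length = up := pd_lenW hz
  have h2 : vs oo up (per z) z.length = P := pv_lenW hz
  rw [h1, h2, vs_trans]
  congr 1
  exact vs_congr i fun k _ => per_add z k

theorem pv_mulW {P : Pt} {z : List Bool} (hz : z ∈ CwP P) (k i : ℕ) : pv z (z.length * k + i) = k • P + pv z i := by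
  induction k with
  | zero =>
    rw [Nat.mul_zero, Nat.zero_add, zero_smul, zero_add]
  | succ k ih =>
    rw [Nat.mul_succ, Nat.add_comm (z.length * k) z.length, Nat.add_assoc, pv_addW hz, ih, succ_nsmul]
    abel

theorem pd_mulW {P : Pt} {z : List Bool} (hz : z ∈ CwP P) (k i : ℕ) : pd z (z.length * k + i) = pd z i := by
  induction k with
  | zero => rw [Nat.mul_zero, Nat.zero_add]
  | succ k ih => rw [Nat.mul_succ, Nat.add_comm (z.length * k) z.length, Nat.add_assoc, pd_addW hz, ih]

lemma row_addW {P : Pt} {z : List Bool} (hz : z ∈ CwP P) (dir : Bool) (i : ℕ) :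
    lvl dir (pv z (z.length + i)) = lvl dir P + lvl dir (pv z i) := by
  rw [pv_addW hz]
  unfold lvl
  exact ip_add_left _ _ _

/-! ### 2. Rotation -/

/-- rotation at an edge that goes up -/
theorem rotate_memW {P : Pt} {z : List Bool} (hz : z ∈ CwP P) {r : ℕ} (hd : pd z r = up) : z.rotate r ∈ CwP P := by
  have hl : (z.rotate r).length = z.length := List.length_rotate _ _
  have hsh := pv_shift hz.1 hd
  refine ⟨fun h => hz.1 (List.rotate_eq_nil_iff.1 h), ?_, ?_, ?_⟩
  · rw [vx_eq_pv le_rfl, hl]
    have h1 := hsh z.length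
    rw [Nat.add_comm, pv_addW hz, add_comm] at h1
    exact (add_left_cancel h1).symm
  · rw [dx_eq_pd le_rfl, hl]
    have h1 := pd_shift hz.1 hd z.length
    rw [Nat.add_comm, pd_addW hz, hd] at h1
    exact h1.symm
  · intro i k hik h
    have h1 : pv z (r + i) = pv z (r + k) := by rw [hsh i, hsh k, h]
    exact hz.2.2.2 _ _ (by omega) h1

/-- rotation at an edge that goes down -/
theorem rotate_memWN {P : Pt} {z : List Bool} (hz : z ∈ CwP P) {r : ℕ} (hd : pd z r = -up) :
    z.rotate r ∈ CwP (-P) := by
  have hl : (z.rotate r).length = z.length := List.length_rotate _ _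
  have hsh := pv_shiftN hz.1 hd
  refine ⟨fun h => hz.1 (List.rotate_eq_nil_iff.1 h), ?_, ?_, ?_⟩
  · rw [vx_eq_pv le_rfl, hl]
    have h1 := hsh z.length
    rw [Nat.add_comm, pv_addW hz] at h1
    have h2 : pv (z.rotate r) z.length = pv z r - (P + pv z r) := by
      rw [h1]
      abel
    rw [h2]
    abel
  · rw [dx_eq_pd le_rfl, hl]
    have h1 := pd_shiftN hz.1 hd z.length
    rw [Nat.add_comm, pd_addW hz, hd] at h1
    exact (neg_injective h1).symm
  · intro i k hik h
    have h1 : pv z (r + i) = pv z (r + k) := by rw [hsh i, hsh k, h]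
    exact hz.2.2.2 _ _ (by omega) h1

/-! ### 3. The fold relations -/

theorem CyP.fold {P : Pt} {g g' : List Bool} {gs : List (List Bool)} (hc : CyP P (g :: g' :: gs)) : LFold g g' := by
  obtain ⟨h, hh, hg⟩ := hc.brd g (List.mem_cons_self)
  obtain ⟨h', hh', hg'⟩ := hc.brd g' (List.mem_cons_of_mem _ List.mem_cons_self)
  have hz := hc.cw
  rw [cuf_blk, cuf_blk] at hz
  have hl1 := blk_length (Brd_ne_nil hg hh)
  have hl2 := blk_length (Brd_ne_nil hg' hh')
  refine lfold_of (r := PLD.blk g' ++ cuf gs) hg hh hg' hh' (fun k hk => vx_blk hg' hh' _ hk) ?_ ?_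
  · rw [List.length_append]
    omega
  · intro i k hik hk
    have hlen : g.length + 1 + g'.length ≤ (PLD.blk g ++ (PLD.blk g' ++ cuf gs)).length := by
      rw [List.length_append, List.length_append]
      omega
    rw [vx_eq_pv (by omega), vx_eq_pv (by omega)]
    exact hz.2.2.2 i k (by omega)

theorem CyP.rot1 {P : Pt} {g : List Bool} {gs : List (List Bool)} (hc : CyP P (g :: gs)) : CyP (-P) (gs ++ [g]) := by
  obtain ⟨h, hh, hg⟩ := hc.brd g (List.mem_cons_self)
  have hl := blk_length (Brd_ne_nil hg hh)
  refine ⟨?_, ?_, ?_, ?_⟩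
  · have := hc.even
    rw [List.length_cons] at this
    rw [List.length_append]
    exact this
  · have := hc.two
    rw [List.length_cons] at this
    rw [List.length_append]
    exact this
  · intro x hx
    rw [List.mem_append, List.mem_singleton] at hx
    exact hc.brd x (List.mem_cons.2 hx.symm)
  · rw [cuf_rotate]
    refine rotate_memWN hc.cw ?_
    have hle : (PLD.blk g).length ≤ (cuf (g :: gs)).length := by
      rw [cuf_blk, List.length_append]
      omega
    rw [← dx_eq_pd hle, cuf_blk, hl]
    exact dx_blk hg hh _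

theorem CyP.rotate {P : Pt} {gs : List (List Bool)} (hc : CyP P gs) (n : ℕ) :
    CyP (if Even n then P else -P) (gs.rotate n) := by
  induction n with
  | zero =>
    rw [List.rotate_zero, if_pos Even.zero]
    exact hc
  | succ n ih =>
    rw [← List.rotate_rotate]
    obtain ⟨g, l, hl⟩ : ∃ g l, gs.rotate n = g :: l := by
      have h2 := ih.two
      cases h : gs.rotate n with
      | nil =>
        rw [h] at h2
        simp at h2
      | cons a b => exact ⟨a, b, rfl⟩
    rw [hl] at ih ⊢
    rw [List.rotate_cons_succ, List.rotate_zero]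
    have h3 := ih.rot1
    have h4 : -(if Even n then P else -P) = if Even (n + 1) then P else -P := by
      by_cases hn : Even n
      · rw [if_pos hn, if_neg (by rw [Nat.even_add_one]; simpa using hn)]
      · rw [if_neg hn, if_pos (Nat.even_add_one.2 hn), neg_neg]
    rw [h4] at h3
    exact h3

/-- consecutive leaves, also the last one and the first one, are folded -/
theorem CyP.fold_mod {P : Pt} {gs : List (List Bool)} (hc : CyP P gs) {i : ℕ} (hi : i < gs.length) :
    LFold gs[i] (gs[(i + 1) % gs.length]'(Nat.mod_lt _ (by omega))) := by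
  have hr := hc.rotate i
  have h2 := hr.two
  rw [List.length_rotate] at h2
  obtain ⟨a, b, l, hl⟩ : ∃ a b l, gs.rotate i = a :: b :: l := by
    have h3 : 2 ≤ (gs.rotate i).length := hr.two
    match h : gs.rotate i, h3 with
    | [], h3 => exact absurd h3 (by simp)
    | [_], h3 => exact absurd h3 (by simp)
    | a :: b :: l, _ => exact ⟨a, b, l, rfl⟩
  have ea : a = gs[i] := by
    have e := List.getElem?_rotate (l := gs) (n := i) (m := 0) (by omega)
    rw [hl, Nat.zero_add, Nat.mod_eq_of_lt hi, List.getElem?_eq_getElem hi] at e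
    exact Option.some.inj e
  have eb : b = gs[(i + 1) % gs.length]'(Nat.mod_lt _ (by omega)) := by
    have e := List.getElem?_rotate (l := gs) (n := i) (m := 1) (by omega)
    rw [hl, Nat.add_comm 1 i, List.getElem?_eq_getElem (Nat.mod_lt _ (by omega))] at e
    exact Option.some.inj e
  rw [hl] at hr
  rw [← ea, ← eb]
  exact hr.fold

theorem CyP.chain {P : Pt} {gs : List (List Bool)} (hc : CyP P gs) : gs.IsChain LFold := by
  rw [List.isChain_iff_getElem]
  intro i hi
  have h := hc.fold_mod (i := i) (by omega)
  simp only [Nat.mod_eq_of_lt hi] at h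
  exact h

theorem CyP.ne {P : Pt} {gs : List (List Bool)} (hc : CyP P gs) : gs ≠ [] := by
  rintro rfl
  have := hc.two
  simp at this

/-- the last leaf and the first one are folded -/
theorem CyP.close {P : Pt} {gs : List (List Bool)} (hc : CyP P gs) : LFold (gs.getLast hc.ne) (gs.head hc.ne) := by
  have h2 := hc.two
  have h := hc.fold_mod (i := gs.length - 1) (by omega)
  have e : (gs.length - 1 + 1) % gs.length = 0 := by
    rw [Nat.sub_add_cancel (by omega), Nat.mod_self]
  simp only [e] at h
  rw [List.getLast_eq_getElem, List.head_eq_getElem]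
  exact h

/-! ### 4. The alternating sums -/

/-- the lateral displacement of the period -/
def latP (P : Pt) : ℤ := -(cross up P)

theorem CyP.altH_eq {P : Pt} {gs : List (List Bool)} (h : CyP P gs) : altH gs = row false P := by
  have h1 := (end_cuf gs h.brd).1
  rw [if_pos h.even] at h1
  have h2 : lev (cuf gs) (cuf gs).length = lvl false P := by
    unfold lev
    rw [h.cw.2.1]
    rfl
  rw [h2] at h1
  unfold row
  omega

theorem CyP.altX_eq {P : Pt} {gs : List (List Bool)} (h : CyP P gs) : altX gs = latP P := by
  have h1 := (end_cuf gs h.brd).2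
  rw [← h1]
  unfold lat latP
  rw [h.cw.2.1]

/-- a periodic chain is an alternating list -/
theorem CyP.cyH {P : Pt} {gs : List (List Bool)} (h : CyP P gs) : CyH (row false P) (latP P) gs where
  even := h.even
  two := h.two
  brd := h.brd
  chain := h.chain
  close := by
    intro x hx y hy
    have h1 := h.close
    rw [List.getLast?_eq_some_getLast h.ne] at hx
    rw [List.head?_eq_some_head h.ne] at hy
    rw [Option.mem_some] at hx hy
    rw [← hx, ← hy]
    exact h1
  hgt0 := h.altH_eq
  lat0 := h.altX_eq

end PLW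

end HexObs
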