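import Pool.Agent.NUF.Cyl.Geo
import Pool.Agent.HexLoop.Wind

/-!
PLW: the polygons of the honeycomb cylinder (definitions). Common definition for the modules W7, W8 (doc zf/WIND).
-/

set_option autoImplicit false

namespace Pool.Agent.NUF.Cyl

open HexObs HexObs.LP

/-- rooted oriented polygons modulo the translations: first vertex v, first direction d, turns tau (periodic), m edges -/
structure CPoly (C : Nm) (v d : Pt) (τ : ℕ → Bool) (m : ℕ) : Prop where
  pos : 0 < m
  de : LP.De (v, d)
  per : ∀ i, τ (i + m) = τ i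
  clv : C.nm (vs v d τ m) = C.nm v
  cld : ds d τ m = d
  inj : ∀ i k, i < k → k < m → C.nm (vs v d τ i) ≠ C.nm (vs v d τ k)

/-- the directed edge number i, normalised -/
def ceg (C : Nm) (v d : Pt) (τ : ℕ → Bool) (i : ℕ) : Pt × Pt := (C.nm (vs v d τ i), ds d τ i)

/-- the set of the directed edges, normalised -/
def cpe (C : Nm) (v d : Pt) (τ : ℕ → Bool) (m : ℕ) : Finset (Pt × Pt) := (Finset.range m).image (ceg C v d τ)

/-- oriented polygons of the cylinder as sets of normalised directed edges -/
def IsCPoly (C : Nm) (E : Finset (Pt × Pt)) : Prop := ∃ v d τ m, CPoly C v d τ m ∧ E = cpe C v d τ m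

/-- the same polygon in the other orientation -/
def crE (C : Nm) (E : Finset (Pt × Pt)) : Finset (Pt × Pt) := E.image C.rv

/-- the period of the cylinder with N rows -/
def PN (N : ℕ) : Pt := (N, N)

/-- winding polygons of the cylinder: one period, directed upwards -/
def IsWind (N : ℕ) (hN : 1 ≤ N) (E : Finset (Pt × Pt)) : Prop :=
  ∃ v d τ m, CPoly (Cy N hN) v d τ m ∧ vs v d τ m = v + PN N ∧ E = cpe (Cy N hN) v d τ m

/-- contractible polygons of the cylinder -/
def IsFlat (N : ℕ) (hN : 1 ≤ N) (E : Finset (Pt × Pt)) : Prop :=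
  ∃ v d τ m, CPoly (Cy N hN) v d τ m ∧ vs v d τ m = v ∧ E = cpe (Cy N hN) v d τ m

end Pool.Agent.NUF.Cyl
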