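import Pool.Agent.PLW.CycW
import Pool.Agent.PHW.Order

/-!
PLW (W7b): a simple closed curve of the cylinder winds at most once.
-/

set_option autoImplicit false

namespace HexObs

namespace PLW

open Finset TS SDN PLD

/-- two disjoint arcs of the half plane: their ends are not interlaced -/
theorem interlace {a g : ℕ → ℤ × ℤ} {n m : ℕ} (ha : ∀ i, i ≤ n → Planar.Adj (a i) (a (i + 1))) (ha0 : (a 0).2 = 0)
    (han : (a (n + 1)).2 = 0) (hain : ∀ i, 1 ≤ i → i ≤ n → 0 < (a i).2)
    (hg : ∀ j, j ≤ m → Planar.Adj (g j) (g (j + 1))) (hg0 : (g 0).2 = 0) (hgm : (g (m + 1)).2 = 0)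
    (hgin : ∀ j, 1 ≤ j → j ≤ m → 0 < (g j).2) (hdis : ∀ i, i ≤ n + 1 → ∀ j, j ≤ m + 1 → a i ≠ g j) :
    ((if (a 0).1 ≤ (g 0).1 then 1 else 0) + (if (a (n + 1)).1 ≤ (g 0).1 then 1 else 0) : ZMod 2) =
      (if (a 0).1 ≤ (g (m + 1)).1 then 1 else 0) + (if (a (n + 1)).1 ≤ (g (m + 1)).1 then 1 else 0) := by
  rw [← Planar.KK_bot ha ha0 han hain hg0, ← Planar.KK_bot ha ha0 han hain hgm]
  have hm : 1 ≤ m := by
    by_contra hcon
    have hz : m = 0 := by omega
    subst hz
    have := hg 0 le_rfl
    unfold Planar.Adj Planar.EE at this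
    simp only [zero_add] at this hgm
    omega
  have h1 := Planar.KK_path ha ha0 han (fun j hj => hg j hj.le) hg0 hgin
    (fun i hi j hj => hdis i hi j (by omega)) m le_rfl
  rw [← h1]
  have hpos := hgin m hm le_rfl
  have hE : Planar.EE (g (m + 1)) (g m) := by
    rcases hg m le_rfl with h | h
    · exfalso
      obtain ⟨e1, e2, e3⟩ := h
      omega
    · exact h
  exact (Planar.KK_adj ha ha0 han hE hpos (fun i hi => hdis i hi (m + 1) le_rfl)
    (fun i hi => hdis i hi m (by omega))).symm

lemma cl_pv (z : List Bool) (i : ℕ) : cl (pv z i) = if Even i then 0 else cl up := by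
  unfold pv
  rw [cl_vs]
  have h : cl oo = 0 := by decide
  rw [h, zero_add]

lemma cl_pd (z : List Bool) (i : ℕ) : cl (pd z i) = if Even i then cl up else -cl up := by
  unfold pd
  rw [cl_ds]

lemma pd_mem' (z : List Bool) (i : ℕ) : pd z i ∈ dirs := by
  unfold pd
  exact ds_mem upd _

lemma pv_succ (z : List Bool) (i : ℕ) : pv z (i + 1) = pv z i + pd z i := by
  unfold pv pd
  exact vs_succ _

/-- the steps of the periodic walk in the coordinates of the direction d0 -/
lemma pv_adj {w d0 : Pt} (h0 : d0 ∈ dirs) (hcd : cl d0 = cl up) (hw : cl w = 0) (z : List Bool) (i : ℕ) :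
    (Even i → Planar.EE (xy w d0 (pv z i)) (xy w d0 (pv z (i + 1)))) ∧
    (¬ Even i → Planar.EE (xy w d0 (pv z (i + 1))) (xy w d0 (pv z i))) := by
  constructor
  · intro hi
    rw [pv_succ]
    refine xy_edge h0 (pd_mem' z i) ?_ ?_
    · rw [cl_pv, if_pos hi, hw]
    · rw [cl_pd, if_pos hi, hcd]
  · intro hi
    have h1 : pv z i = pv z (i + 1) + -pd z i := by
      rw [pv_succ]
      abel
    rw [h1]
    refine xy_edge h0 (neg_mem_dirs (pd_mem' z i)) ?_ ?_
    · rw [cl_pv, if_pos (Nat.even_add_one.2 hi), hw]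
    · rw [cl_neg, cl_pd, if_neg hi, neg_neg, hcd]

lemma pv_adj' {w d0 : Pt} (h0 : d0 ∈ dirs) (hcd : cl d0 = cl up) (hw : cl w = 0) (z : List Bool) (i : ℕ) :
    Planar.Adj (xy w d0 (pv z i)) (xy w d0 (pv z (i + 1))) := by
  by_cases hi : Even i
  · exact Or.inl ((pv_adj h0 hcd hw z i).1 hi)
  · exact Or.inr ((pv_adj h0 hcd hw z i).2 hi)

/-- a vertex of lowest level is odd -/
lemma low_odd {d0 : Pt} (h0 : d0 ∈ dirs) (hcd : cl d0 = cl up) {z : List Bool}
    (hinj : ∀ i k, i ≠ k → pv z i ≠ pv z k) {r : ℕ} (hr : 1 ≤ r) (hmin : ∀ i, ip (pv z r) d0 ≤ ip (pv z i) d0) :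
    ¬ Even r := by
  intro he
  have ho : cl oo = 0 := by decide
  have h1 := (pv_adj h0 hcd ho z r).1 he
  have hr2 : r - 1 + 1 = r := by omega
  have h2 := (pv_adj h0 hcd ho z (r - 1)).2 (by
    intro h
    rw [← hr2] at he
    exact Nat.even_add_one.1 he h)
  rw [hr2] at h2
  have hm1 := hmin (r + 1)
  have hm2 := hmin (r - 1)
  have hlev : ∀ p : Pt, (xy oo d0 p).2 = ip p d0 := fun p => by
    show ip (p - oo) d0 = ip p d0
    congr 1
    exact sub_zero _
  obtain ⟨_, _, a3⟩ := h1
  obtain ⟨_, _, b3⟩ := h2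
  rw [hlev, hlev] at a3 b3
  have ea : (xy oo d0 (pv z (r + 1))).1 = (xy oo d0 (pv z r)).1 ∧ ip (pv z (r + 1)) d0 = ip (pv z r) d0 + 2 := by
    rcases a3 with a3 | a3 | a3
    · exact a3
    · omega
    · omega
  have eb : (xy oo d0 (pv z (r - 1))).1 = (xy oo d0 (pv z r)).1 ∧ ip (pv z (r - 1)) d0 = ip (pv z r) d0 + 2 := by
    rcases b3 with b3 | b3 | b3
    · exact b3
    · omega
    · omega
  refine hinj (r + 1) (r - 1) (by omega) (xy_inj (v0 := oo) h0 (Prod.ext ?_ ?_))
  · rw [ea.1, eb.1]
  · rw [hlev, hlev, ea.2, eb.2]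

/-- words of closed curves of the cylinder that wind t times are words of tP-periodic walks -/
lemma mem_CwP_of {z : List Bool} (hz : z ≠ []) {P : Pt} (hP0 : P ≠ 0) {t : ℕ} (ht : 1 ≤ t)
    (h1 : vx oo up z z.length = (t : ℤ) • P) (h2 : dx up z z.length = up)
    (hinj : ∀ i k, i < z.length → k < z.length → i ≠ k → ∀ s : ℤ, pv z i - pv z k ≠ s • P) :
    z ∈ CwP ((t : ℤ) • P) := by
  have h0 : 0 < z.length := List.length_pos_iff.2 hz
  have hpd : pd z z.length = up := by
    rw [← dx_eq_pd le_rfl]
    exact h2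
  have hpv : pv z z.length = (t : ℤ) • P := by
    rw [← vx_eq_pv le_rfl]
    exact h1
  have hadd : ∀ i, pv z (z.length + i) = (t : ℤ) • P + pv z i := by
    intro i
    unfold pv
    rw [vs_shift]
    have e1 : ds up (per z) z.length = up := hpd
    have e2 : vs oo up (per z) z.length = (t : ℤ) • P := hpv
    rw [e1, e2, vs_trans]
    congr 1
    exact vs_congr i fun k _ => per_add z k
  have hmul : ∀ q i : ℕ, pv z (z.length * q + i) = ((q : ℤ) * t) • P + pv z i := by
    intro q i
    induction q with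
    | zero => simp
    | succ q ih =>
      rw [Nat.mul_succ, Nat.add_comm (z.length * q) z.length, Nat.add_assoc, hadd, ih]
      push_cast
      rw [← add_assoc, ← add_smul]
      congr 2
      ring
  refine ⟨hz, h1, h2, ?_⟩
  intro i k hik h
  have ei := hmul (i / z.length) (i % z.length)
  have ek := hmul (k / z.length) (k % z.length)
  rw [Nat.div_add_mod] at ei ek
  rw [ei, ek] at h
  by_cases hm : i % z.length = k % z.length
  · rw [hm] at h
    have h3 := add_right_cancel h
    have h4 : (((i / z.length : ℕ) : ℤ) * t - ((k / z.length : ℕ) : ℤ) * t) • P = 0 := by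
      rw [sub_smul, h3, sub_self]
    rcases smul_eq_zero.1 h4 with h5 | h5
    · have h6 : (((i / z.length : ℕ) : ℤ) - ((k / z.length : ℕ) : ℤ)) * t = 0 := by linarith
      rcases mul_eq_zero.1 h6 with h7 | h7
      · apply hik
        have h8 : i / z.length = k / z.length := by omega
        rw [← Nat.div_add_mod i z.length, ← Nat.div_add_mod k z.length, h8, hm]
      · omega
    · exact hP0 h5
  · refine hinj _ _ (Nat.mod_lt _ h0) (Nat.mod_lt _ h0) hm
      (((k / z.length : ℕ) : ℤ) * t - ((i / z.length : ℕ) : ℤ) * t) ?_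
    rw [sub_smul, sub_eq_sub_iff_add_eq_add, add_comm (pv z _) _, h]

/-- **W7b**: a simple closed curve of the cylinder of period P (axis d0) winds at most once -/
theorem wind_le {d0 : Pt} (h0 : d0 ∈ dirs) (hcd : cl d0 = cl up) {z : List Bool} (hz : z ≠ []) {P : Pt}
    (hP : ip P d0 = 0) (hP0 : P ≠ 0) {t : ℕ} (ht : 2 ≤ t) (h1 : vx oo up z z.length = (t : ℤ) • P)
    (h2 : dx up z z.length = up)
    (hinj : ∀ i k, i < z.length → k < z.length → i ≠ k → ∀ s : ℤ, pv z i - pv z k ≠ s • P) : False := by
  have hl0 : 0 < z.length := List.length_pos_iff.2 hz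
  have hC := mem_CwP_of hz hP0 (by omega : 1 ≤ t) h1 h2 hinj
  have hadd := pv_addW hC
  have hmul : ∀ q i : ℕ, pv z (z.length * q + i) = ((q : ℤ) * t) • P + pv z i := by
    intro q i
    have e := pv_mulW hC q i
    rw [e, ← natCast_zsmul, smul_smul]
  have hPs : ∀ s : ℤ, ip (s • P) d0 = 0 := fun s => by
    have e : ip (s • P) d0 = s * ip P d0 := by
      unfold ip
      simp only [Prod.smul_fst, Prod.smul_snd, smul_eq_mul]
      ring
    rw [e, hP, mul_zero]
  -- no two vertices of the walk differ by P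
  have hne1 : ∀ i k, pv z i - pv z k ≠ P := by
    intro i k h
    have ei := hmul (i / z.length) (i % z.length)
    have ek := hmul (k / z.length) (k % z.length)
    rw [Nat.div_add_mod] at ei ek
    rw [ei, ek] at h
    by_cases hm : i % z.length = k % z.length
    · rw [hm] at h
      have h3 : (((i / z.length : ℕ) : ℤ) * t - ((k / z.length : ℕ) : ℤ) * t - 1) • P = 0 := by
        rw [sub_smul, sub_smul, one_smul]
        rw [add_sub_add_right_eq_sub] at h
        rw [h, sub_self]
      rcases smul_eq_zero.1 h3 with h5 | h5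
      · have h6 : (((i / z.length : ℕ) : ℤ) - ((k / z.length : ℕ) : ℤ)) * t = 1 := by linarith
        have h7 := Int.eq_one_or_neg_one_of_mul_eq_one' h6
        omega
      · exact hP0 h5
    · refine hinj _ _ (Nat.mod_lt _ hl0) (Nat.mod_lt _ hl0) hm
        (((k / z.length : ℕ) : ℤ) * t - ((i / z.length : ℕ) : ℤ) * t + 1) ?_
      rw [add_smul, sub_smul, one_smul]
      have h8 : pv z (i % z.length) - pv z (k % z.length) =
          (((i / z.length : ℕ) : ℤ) * t) • P + pv z (i % z.length) -
          ((((k / z.length : ℕ) : ℤ) * t) • P + pv z (k % z.length)) -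
          (((i / z.length : ℕ) : ℤ) * t) • P + (((k / z.length : ℕ) : ℤ) * t) • P := by abel
      rw [h8, h]
      abel
  -- the lowest vertex
  obtain ⟨r0, hr0, hr1⟩ := Finset.exists_min_image (range z.length) (fun i => ip (pv z i) d0) ⟨0, mem_range.2 hl0⟩
  have hmin : ∀ i, ip (pv z (z.length + r0)) d0 ≤ ip (pv z i) d0 := by
    intro i
    have ei := hmul (i / z.length) (i % z.length)
    rw [Nat.div_add_mod] at ei
    rw [ei, hadd, ip_add_left, ip_add_left, hPs, hPs, zero_add, zero_add]
    exact hr1 _ (mem_range.2 (Nat.mod_lt _ hl0))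
  obtain ⟨r, hr⟩ : ∃ r, r = z.length + r0 := ⟨_, rfl⟩
  rw [← hr] at hmin
  have hr1' : 1 ≤ r := by omega
  have hodd := low_odd h0 hcd hC.2.2.2 hr1' hmin
  obtain ⟨w, hw⟩ : ∃ w, w = pv z r - d0 := ⟨_, rfl⟩
  have hclw : cl w = 0 := by
    rw [hw, cl_sub, cl_pv, if_neg hodd, hcd, sub_self]
  have hdd : ip d0 d0 = 2 := ip_self_dir h0
  have hwl : ∀ p : Pt, (xy w d0 p).2 = ip p d0 - ip (pv z r) d0 + 2 := by
    intro p
    show ip (p - w) d0 = _
    rw [hw, ip_sub_left p, ip_sub_left (pv z r), hdd]
    ring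
  -- the arcs
  obtain ⟨A, hA⟩ : ∃ A : ℕ → Pt, A = fun j => if j = 0 then w else if j ≤ z.length + 1 then pv z (r + (j - 1)) else
    w + (t : ℤ) • P := ⟨_, rfl⟩
  have A0 : A 0 = w := by rw [hA]; simp
  have Am : ∀ j, 1 ≤ j → j ≤ z.length + 1 → A j = pv z (r + (j - 1)) := fun j j1 j2 => by
    rw [hA]
    simp only
    rw [if_neg (by omega), if_pos j2]
  have Ae : A (z.length + 1 + 1) = w + (t : ℤ) • P := by
    rw [hA]
    simp only
    rw [if_neg (by omega), if_neg (by omega)]
  have hend : pv z (r + z.length) = pv z r + (t : ℤ) • P := by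
    rw [Nat.add_comm, hadd, add_comm]
  have hxyP : ∀ (Q p : Pt), ip Q d0 = 0 → (xy w d0 (p + Q)).2 = (xy w d0 p).2 ∧
      (xy w d0 (p + Q)).1 = (xy w d0 p).1 - cross d0 Q := by
    intro Q p hQ
    constructor
    · rw [hwl, hwl, ip_add_left, hQ, add_zero]
    · show -(cross d0 (p + Q - w)) = -(cross d0 (p - w)) - cross d0 Q
      simp only [cross, Prod.fst_sub, Prod.snd_sub, Prod.fst_add, Prod.snd_add]
      ring
  have adjW : Planar.Adj (xy w d0 w) (xy w d0 (pv z r)) := by
    left
    have h3 : pv z r = w + d0 := by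
      rw [hw]
      abel
    rw [h3]
    exact xy_edge h0 h0 rfl rfl
  have adjA : ∀ i, i ≤ z.length + 1 → Planar.Adj (xy w d0 (A i)) (xy w d0 (A (i + 1))) := by
    intro i hi
    rcases Nat.eq_zero_or_pos i with h | h
    · subst h
      rw [A0, Am 1 le_rfl (by omega)]
      exact adjW
    · rcases Nat.eq_or_lt_of_le hi with h' | h'
      · rw [h', Ae, Am _ (by omega) le_rfl, Nat.add_sub_cancel, hend]
        -- translate the first edge
        have h4 := adjW
        have e1 := hxyP ((t : ℤ) • P) w (hPs _)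
        have e2 := hxyP ((t : ℤ) • P) (pv z r) (hPs _)
        have hpar : ∀ p : Pt, (xy w d0 (p + (t : ℤ) • P)) =
            ((xy w d0 p).1 - cross d0 ((t : ℤ) • P), (xy w d0 p).2) := fun p => by
          have e := hxyP ((t : ℤ) • P) p (hPs _)
          exact Prod.ext e.2 e.1
        have h5 : Planar.EE (xy w d0 (w + (t : ℤ) • P)) (xy w d0 (pv z r + (t : ℤ) • P)) := by
          have h3 : pv z r + (t : ℤ) • P = (w + (t : ℤ) • P) + d0 := by
            rw [hw]
            abel
          rw [h3]
          refine xy_edge h0 h0 ?_ rfl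
          have h6 : pv z r + (t : ℤ) • P = pv z (r + z.length) := hend.symm
          have h7 : w + (t : ℤ) • P = pv z (r + z.length) - d0 := by
            rw [← h6, hw]
            abel
          -- the length is even
          have hev : Even z.length := by
            by_contra hcon
            have h8 := cl_pd z z.length
            rw [if_neg hcon, pd_lenW hC] at h8
            exact absurd h8 (by decide)
          rw [h7, cl_sub, cl_pv, if_neg (by
            intro h8
            exact hodd ((Nat.even_add.1 h8).2 hev)), hcd, sub_self, hclw]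
        exact Or.inr h5
      · rw [Am i h (by omega), Am (i + 1) (by omega) (by omega)]
        have e : r + (i + 1 - 1) = r + (i - 1) + 1 := by omega
        rw [e]
        exact pv_adj' h0 hcd hclw z _
  have levA : ∀ i, 1 ≤ i → i ≤ z.length + 1 → 0 < (xy w d0 (A i)).2 := by
    intro i i1 i2
    rw [Am i i1 i2, hwl]
    have := hmin (r + (i - 1))
    omega
  have lev0 : (xy w d0 (A 0)).2 = 0 := by
    rw [A0]
    show ip (w - w) d0 = 0
    rw [sub_self]
    unfold ip
    simp
  have levE : (xy w d0 (A (z.length + 1 + 1))).2 = 0 := by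
    rw [Ae, (hxyP _ _ (hPs _)).1]
    rw [A0] at lev0
    exact lev0
  have hsh : ∀ p : Pt, xy w d0 (p + P) = ((xy w d0 p).1 - cross d0 P, (xy w d0 p).2) := fun p => by
    have e := hxyP P p hP
    exact Prod.ext e.2 e.1
  have hc2 : cross d0 P % 2 = 0 := by
    have h3 := xy_parity oo d0 P
    have h4 : (xy oo d0 P).1 = -(cross d0 P) := by
      show -(cross d0 (P - oo)) = _
      congr 2
      exact sub_zero _
    have h5 : (xy oo d0 P).2 = 0 := by
      show ip (P - oo) d0 = 0
      rw [← hP]
      congr 1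
      exact sub_zero _
    rw [h4, h5] at h3
    omega
  have hc0 : cross d0 P ≠ 0 := by
    intro h3
    apply hP0
    refine xy_inj (v0 := oo) h0 (Prod.ext ?_ ?_)
    · show -(cross d0 (P - oo)) = -(cross d0 ((0 : Pt) - oo))
      have h4 : P - oo = P := sub_zero _
      rw [h4, h3]
      show (-0 : ℤ) = -(cross d0 (oo - oo))
      rw [sub_self]
      unfold cross
      simp
    · show ip (P - oo) d0 = ip ((0 : Pt) - oo) d0
      have h4 : P - oo = P := sub_zero _
      rw [h4, hP]
      show (0 : ℤ) = ip (oo - oo) d0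
      rw [sub_self]
      unfold ip
      simp
  have hts : ∀ p q : Pt, Planar.Adj (xy w d0 p) (xy w d0 q) → Planar.Adj (xy w d0 (p + P)) (xy w d0 (q + P)) := by
    intro p q h
    rw [hsh, hsh]
    unfold Planar.Adj Planar.EE at h ⊢
    simp only
    rcases h with ⟨b1, b2, b3⟩ | ⟨b1, b2, b3⟩
    · left
      refine ⟨b1, by omega, ?_⟩
      rcases b3 with b3 | b3 | b3
      · exact Or.inl ⟨by omega, b3.2⟩
      · exact Or.inr (Or.inl ⟨by omega, b3.2⟩)
      · exact Or.inr (Or.inr ⟨by omega, b3.2⟩)
    · right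
      refine ⟨b1, by omega, ?_⟩
      rcases b3 with b3 | b3 | b3
      · exact Or.inl ⟨by omega, b3.2⟩
      · exact Or.inr (Or.inl ⟨by omega, b3.2⟩)
      · exact Or.inr (Or.inr ⟨by omega, b3.2⟩)
  have key := interlace (a := fun i => xy w d0 (A i)) (g := fun j => xy w d0 (A j + P)) (n := z.length + 1)
    (m := z.length + 1) adjA lev0 levE levA (fun j hj => hts _ _ (adjA j hj)) (by
      rw [hsh]
      exact lev0) (by
      rw [hsh]
      exact levE) (fun j j1 j2 => by
      rw [hsh]
      exact levA j j1 j2) (by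
      intro i hi j hj heq
      have h3 : A i = A j + P := xy_inj h0 heq
      -- levels
      have hli : (xy w d0 (A i)).2 = (xy w d0 (A j)).2 := by
        have h4 := congrArg Prod.snd heq
        rw [hsh] at h4
        exact h4
      have hcase : ∀ k, k ≤ z.length + 1 + 1 → (k = 0 ∨ k = z.length + 1 + 1) ∨ (1 ≤ k ∧ k ≤ z.length + 1) := by
        intro k hk
        omega
      rcases hcase i hi with hi' | hi'
      · rcases hcase j hj with hj' | hj'
        · -- both ends
          have e : ∃ x y : ℤ, A i = w + x • P ∧ A j = w + y • P ∧ (x = 0 ∨ x = t) ∧ (y = 0 ∨ y = t) := by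
            refine ⟨if i = 0 then 0 else t, if j = 0 then 0 else t, ?_, ?_, ?_, ?_⟩
            · rcases hi' with h | h
              · rw [h, A0, if_pos rfl, zero_smul, add_zero]
              · rw [h, Ae, if_neg (by omega)]
            · rcases hj' with h | h
              · rw [h, A0, if_pos rfl, zero_smul, add_zero]
              · rw [h, Ae, if_neg (by omega)]
            · split_ifs
              · exact Or.inl rfl
              · exact Or.inr rfl
            · split_ifs
              · exact Or.inl rfl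
              · exact Or.inr rfl
          obtain ⟨x, y, ex, ey, hx, hy⟩ := e
          rw [ex, ey, add_assoc] at h3
          have h4 := add_left_cancel h3
          have h5 : (x - y - 1) • P = 0 := by
            rw [sub_smul, sub_smul, one_smul, h4]
            abel
          rcases smul_eq_zero.1 h5 with h6 | h6
          · rcases hx with rfl | rfl <;> rcases hy with rfl | rfl <;> omega
          · exact hP0 h6
        · have h4 := levA j hj'.1 hj'.2
          rw [← hli] at h4
          rcases hi' with h | h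
          · rw [h, lev0] at h4
            omega
          · rw [h, levE] at h4
            omega
      · have h4 := levA i hi'.1 hi'.2
        rw [hli] at h4
        rcases hcase j hj with hj' | hj'
        · rcases hj' with h | h
          · rw [h, lev0] at h4
            omega
          · rw [h, levE] at h4
            omega
        · rw [Am i hi'.1 hi'.2, Am j hj'.1 hj'.2] at h3
          refine hne1 _ _ (?_ : pv z (r + (i - 1)) - pv z (r + (j - 1)) = P)
          rw [h3]
          abel)
  rw [hsh, hsh, A0, Ae, (hxyP ((t : ℤ) • P) w (hPs _)).2] at key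
  have hct : cross d0 ((t : ℤ) • P) = t * cross d0 P := by
    simp only [cross, Prod.smul_fst, Prod.smul_snd, smul_eq_mul]
    ring
  rw [hct] at key
  simp only at key
  obtain ⟨c, hc⟩ : ∃ c, c = cross d0 P := ⟨_, rfl⟩
  obtain ⟨x, hx⟩ : ∃ x, x = (xy w d0 w).1 := ⟨_, rfl⟩
  rw [← hc] at key hc0
  rw [← hx] at key
  have ht' : (2 : ℤ) ≤ t := by exact_mod_cast ht
  have h01 : (0 : ZMod 2) ≠ 1 := by decide
  rcases lt_or_gt_of_ne hc0 with h | h
  · have k1 : x ≤ x - c := by linarith
    have k2 : ¬ x - t * c ≤ x - c := by nlinarith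
    have k3 : x ≤ x - t * c - c := by nlinarith
    have k4 : x - t * c ≤ x - t * c - c := by linarith
    rw [if_pos k1, if_neg k2, if_pos k3, if_pos k4] at key
    revert key
    decide
  · have k1 : ¬ x ≤ x - c := by linarith
    have k2 : x - t * c ≤ x - c := by nlinarith
    have k3 : ¬ x ≤ x - t * c - c := by nlinarith
    have k4 : ¬ x - t * c ≤ x - t * c - c := by linarith
    rw [if_neg k1, if_pos k2, if_neg k3, if_neg k4] at key
    revert key
    decide

end PLW

end HexObs
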