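import Pool.Agent.PLW.CylDefs
import Pool.Agent.PLW.Wind
import Pool.Agent.PLD.Frame

/-!
PLW (W7b): a polygon of the cylinder is contractible or winds once.
-/

set_option autoImplicit false

namespace Pool.Agent.NUF.Cyl

open HexObs HexObs.LP

/-- two vertices have the same representative iff they differ by a multiple of the period -/
theorem nm_eq_iff {N : ℕ} (hN : 1 ≤ N) (v w : Pt) :
    (Cy N hN).nm v = (Cy N hN).nm w ↔ ∃ s : ℤ, v = w + s • PN N := by
  constructor
  · intro h
    rw [nm_eq, nm_eq] at h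
    simp only [nmN, tr, Prod.mk.injEq] at h
    refine ⟨ri v / N - ri w / N, ?_⟩
    unfold PN
    ext
    · simp only [Prod.fst_add, Prod.smul_fst, smul_eq_mul]
      linarith [h.1]
    · simp only [Prod.snd_add, Prod.smul_snd, smul_eq_mul]
      linarith [h.2]
  · rintro ⟨s, rfl⟩
    have h : w + s • PN N = tr (N * s) w := by
      unfold PN tr
      ext
      · simp only [Prod.fst_add, Prod.smul_fst, smul_eq_mul]
        ring
      · simp only [Prod.snd_add, Prod.smul_snd, smul_eq_mul]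
        ring
    rw [nm_eq, nm_eq, h, nmN_tr N hN]

lemma mulE_smul (u p : Pt) (s : ℤ) : mulE u (s • p) = s • mulE u p := by
  unfold mulE
  ext
  · simp only [Prod.smul_fst, Prod.smul_snd, smul_eq_mul]
    ring
  · simp only [Prod.smul_fst, Prod.smul_snd, smul_eq_mul]
    ring

lemma per_ofFn {τ : ℕ → Bool} {m : ℕ} (hm : 0 < m) (hper : ∀ i, τ (i + m) = τ i) (i : ℕ) :
    PLD.per (List.ofFn fun k : Fin m => τ k) i = τ i := by
  have h1 : ∀ q j, τ (j + m * q) = τ j := by
    intro q j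
    induction q with
    | zero => rw [Nat.mul_zero, Nat.add_zero]
    | succ q ih => rw [Nat.mul_succ, ← Nat.add_assoc, hper, ih]
  unfold PLD.per tf
  rw [List.length_ofFn, List.getD_eq_getElem?_getD, List.getElem?_ofFn, dif_pos (Nat.mod_lt _ hm), Option.getD_some]
  conv_rhs => rw [← Nat.mod_add_div i m]
  exact (h1 _ _).symm

/-- **W7b** -/
theorem wind_cases {N : ℕ} (hN : 1 ≤ N) {v d : Pt} {τ : ℕ → Bool} {m : ℕ} (h : CPoly (Cy N hN) v d τ m) :
    vs v d τ m = v ∨ vs v d τ m = v + PN N ∨ vs v d τ m = v - PN N := by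
  obtain ⟨s, hs⟩ := (nm_eq_iff hN _ _).1 h.clv
  have hd : d ∈ dirs := h.de.1
  -- it is enough to exclude |s| >= 2
  by_contra hcon
  push Not at hcon
  obtain ⟨c1, c2, c3⟩ := hcon
  have hs0 : s ≠ 0 := by
    rintro rfl
    exact c1 (by rw [hs, zero_smul, add_zero])
  have hs1 : s ≠ 1 := by
    rintro rfl
    exact c2 (by rw [hs, one_smul])
  have hs2 : s ≠ -1 := by
    rintro rfl
    exact c3 (by rw [hs, neg_smul, one_smul, sub_eq_add_neg])
  -- the frame
  obtain ⟨u, hu⟩ : ∃ u, u = rotTo up d := ⟨_, rfl⟩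
  have hu1 : nrm u = 1 := by
    rw [hu]
    exact nrm_rotTo (by decide) hd
  have hud : d = mulE u up := by
    rw [hu]
    exact (rotTo_apply _ (by decide)).symm
  obtain ⟨z, hz⟩ : ∃ z : List Bool, z = List.ofFn fun k : Fin m => τ k := ⟨_, rfl⟩
  have hzl : z.length = m := by rw [hz, List.length_ofFn]
  have hz0 : z ≠ [] := by
    intro h0
    rw [h0] at hzl
    have := h.pos
    simp at hzl
    omega
  have hpv : ∀ i, vs v d τ i = v + mulE u (PLD.pv z i) := by
    intro i
    rw [hud, PLD.vs_mulE]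
    congr 2
    unfold PLD.pv
    refine vs_congr i fun k _ => ?_
    rw [hz]
    exact (per_ofFn h.pos h.per k).symm
  have hpd : PLD.pd z m = up := by
    have e1 : ds d τ m = mulE u (PLD.pd z m) := by
      rw [hud, PLD.ds_mulE]
      congr 1
      unfold PLD.pd
      refine ds_congr m fun k _ => ?_
      rw [hz]
      exact (per_ofFn h.pos h.per k).symm
    rw [h.cld, hud] at e1
    exact (mulE_inj hu1 e1).symm
  -- the sign
  obtain ⟨σ, t, hσ, hσt, ht⟩ : ∃ (σ : ℤ) (t : ℕ), (σ = 1 ∨ σ = -1) ∧ s = t * σ ∧ 2 ≤ t := by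
    rcases le_total 0 s with h5 | h5
    · exact ⟨1, s.toNat, Or.inl rfl, by omega, by omega⟩
    · exact ⟨-1, (-s).toNat, Or.inr rfl, by omega, by omega⟩
  have huu : mulE (conjE u) u = (1, 0) := by
    rw [mulE_comm, mulE_conjE, hu1]
  obtain ⟨Q, hQ⟩ : ∃ Q, Q = σ • mulE (conjE u) (PN N) := ⟨_, rfl⟩
  have hQu : mulE u Q = σ • PN N := by
    rw [hQ, mulE_smul, mulE_assoc, mulE_comm u (conjE u), huu, mulE_one]
  have hPN0 : PN N ≠ 0 := by
    intro h0
    have := congrArg Prod.fst h0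
    unfold PN at this
    simp at this
    omega
  have hσ0 : σ ≠ 0 := by
    rcases hσ with h | h <;> rw [h] <;> decide
  have hQ0 : Q ≠ 0 := by
    intro h0
    rw [h0] at hQu
    have e : mulE u 0 = 0 := by
      ext <;> simp [mulE]
    rw [e] at hQu
    rcases smul_eq_zero.1 hQu.symm with h6 | h6
    · exact hσ0 h6
    · exact hPN0 h6
  have hnc : nrm (conjE u) = 1 := by
    have : nrm (conjE u) = nrm u := by
      unfold nrm conjE
      ring
    rw [this, hu1]
  obtain ⟨e0, he0⟩ : ∃ e0, e0 = mulE (conjE u) (1, -1) := ⟨_, rfl⟩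
  have he0d : e0 ∈ dirs := by
    rw [mem_dirs, he0]
    have e : ∀ a b : Pt, nrm (mulE a b) = nrm a * nrm b := by
      intro a b
      unfold nrm mulE
      ring
    rw [e, hnc]
    decide
  have hip : ip Q e0 = 0 := by
    rw [hQ, he0]
    have e1 : ip (σ • mulE (conjE u) (PN N)) (mulE (conjE u) (1, -1)) =
        σ * ip (mulE (conjE u) (PN N)) (mulE (conjE u) (1, -1)) := by
      unfold ip
      simp only [Prod.smul_fst, Prod.smul_snd, smul_eq_mul]
      ring
    rw [e1, ip_mulE]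
    unfold ip PN
    simp
  -- the axis with the right class
  obtain ⟨d0, hd0, hcd, hipd⟩ : ∃ d0 ∈ dirs, cl d0 = cl up ∧ ip Q d0 = 0 := by
    have hcase : ∀ e ∈ dirs, cl e = cl up ∨ cl (-e) = cl up := by decide
    rcases hcase e0 he0d with h6 | h6
    · exact ⟨e0, he0d, h6, hip⟩
    · refine ⟨-e0, neg_mem_dirs he0d, h6, ?_⟩
      have e : ip Q (-e0) = -ip Q e0 := by
        unfold ip
        simp only [Prod.fst_neg, Prod.snd_neg]
        ring
      rw [e, hip, neg_zero]
  refine PLW.wind_le hd0 hcd hz0 hipd hQ0 ht ?_ ?_ ?_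
  · rw [PLD.vx_eq_pv le_rfl, hzl]
    apply mulE_inj hu1
    rw [mulE_smul, hQu]
    have e := hpv m
    rw [hs] at e
    have e2 := add_left_cancel e
    rw [← e2, hσt, mul_smul]
  · rw [PLD.dx_eq_pd le_rfl, hzl]
    exact hpd
  · intro i k hi hk hik s' heq
    rw [hzl] at hi hk
    have e1 : vs v d τ i = vs v d τ k + (s' * σ) • PN N := by
      rw [hpv, hpv]
      have e2 : PLD.pv z i = PLD.pv z k + s' • Q := by
        rw [← heq]
        abel
      rw [e2, mulE_add, mulE_smul, hQu, mul_smul]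
      abel
    have e3 := (nm_eq_iff hN (vs v d τ i) (vs v d τ k)).2 ⟨_, e1⟩
    rcases lt_or_gt_of_ne hik with h7 | h7
    · exact h.inj i k h7 hk e3
    · exact h.inj k i h7 hi e3.symm

end Pool.Agent.NUF.Cyl
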