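import Pool.Agent.PLW.CylWord
import Pool.Agent.PLW.CylWind
import Pool.Agent.PLD.LoopSum

/-!
PLW (W7a): the winding polygons of the cylinder near a ring have bounded weight, uniformly in the number of rows.
-/

set_option autoImplicit false

namespace HexObs

namespace PLW

open Finset TS SDN PLD

open Pool.Agent.NUF.Cyl (CPoly ceg cpe Cy PN IsWind nm_eq_iff)

open scoped ENNReal

/-! ### 1. Polygons of the cylinder and periodic walks -/

theorem polP_of {N : ℕ} (hN : 1 ≤ N) {v d : Pt} {τ : ℕ → Bool} {m : ℕ} (h : CPoly (Cy N hN) v d τ m)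
    (hv : vs v d τ m = v + PN N) : PolP (PN N) v d τ m := by
  refine ⟨h.pos, h.de, h.per, hv, h.cld, ?_⟩
  have hm := h.pos
  intro i k hik hvk
  have hi := add_mul_per h.per hv h.cld (i % m) (i / m)
  have hk := add_mul_per h.per hv h.cld (k % m) (k / m)
  rw [Nat.mod_add_div] at hi hk
  have hnm : (Cy N hN).nm (vs v d τ (i % m)) = (Cy N hN).nm (vs v d τ (k % m)) := by
    rw [nm_eq_iff]
    refine ⟨((k / m : ℕ) : ℤ) - ((i / m : ℕ) : ℤ), ?_⟩
    rw [hi.1, hk.1] at hvk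
    rw [sub_smul]
    have h2 : vs v d τ (i % m) = vs v d τ (k % m) + ((k / m : ℕ) : ℤ) • PN N - ((i / m : ℕ) : ℤ) • PN N := by
      rw [← hvk]
      abel
    rw [h2]
    abel
  have hmod : i % m = k % m := by
    rcases lt_trichotomy (i % m) (k % m) with h3 | h3 | h3
    · exact absurd hnm (h.inj _ _ h3 (Nat.mod_lt _ hm))
    · exact h3
    · exact absurd hnm.symm (h.inj _ _ h3 (Nat.mod_lt _ hm))
  rw [hi.1, hk.1, hmod] at hvk
  have h4 : ((i / m : ℕ) : ℤ) • PN N = ((k / m : ℕ) : ℤ) • PN N := add_left_cancel hvk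
  have h5 : ((i / m : ℕ) : ℤ) * N = ((k / m : ℕ) : ℤ) * N := congrArg Prod.fst h4
  have h6 : (N : ℤ) ≠ 0 := by
    have : (1 : ℤ) ≤ N := by exact_mod_cast hN
    omega
  have h7 : ((i / m : ℕ) : ℤ) = ((k / m : ℕ) : ℤ) := mul_right_cancel₀ h6 h5
  apply hik
  rw [← Nat.mod_add_div i m, ← Nat.mod_add_div k m, hmod]
  have h8 : i / m = k / m := by exact_mod_cast h7
  rw [h8]

lemma nm_add_smul {N : ℕ} (hN : 1 ≤ N) (v : Pt) (s : ℤ) : (Cy N hN).nm (v + s • PN N) = (Cy N hN).nm v :=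
  (nm_eq_iff hN _ _).2 ⟨s, rfl⟩

lemma ceg_mod {N : ℕ} (hN : 1 ≤ N) {v d : Pt} {τ : ℕ → Bool} {m : ℕ} (h : PolP (PN N) v d τ m) (i : ℕ) :
    ceg (Cy N hN) v d τ (i % m) = ceg (Cy N hN) v d τ i := by
  have h1 := h.addm (i % m) (i / m)
  rw [Nat.mod_add_div] at h1
  unfold ceg
  rw [h1.1, h1.2, nm_add_smul]

lemma ceg_mem {N : ℕ} (hN : 1 ≤ N) {v d : Pt} {τ : ℕ → Bool} {m : ℕ} (h : PolP (PN N) v d τ m) (i : ℕ) :
    ceg (Cy N hN) v d τ i ∈ cpe (Cy N hN) v d τ m := by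
  rw [← ceg_mod hN h i]
  exact Finset.mem_image_of_mem _ (Finset.mem_range.2 (Nat.mod_lt _ h.pos))

/-- rotation of the root -/
theorem cpe_rot {N : ℕ} (hN : 1 ≤ N) {v d : Pt} {τ : ℕ → Bool} {m : ℕ} (h : PolP (PN N) v d τ m) (k : ℕ) :
    cpe (Cy N hN) (vs v d τ k) (ds d τ k) (fun i => τ (k + i)) m = cpe (Cy N hN) v d τ m := by
  have he : ∀ i, ceg (Cy N hN) (vs v d τ k) (ds d τ k) (fun i => τ (k + i)) i = ceg (Cy N hN) v d τ (k + i) := by
    intro i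
    unfold ceg
    rw [vs_shift, ds_shift]
  ext p
  unfold cpe
  simp only [Finset.mem_image, Finset.mem_range]
  constructor
  · rintro ⟨i, _, rfl⟩
    rw [he]
    exact ⟨(k + i) % m, Nat.mod_lt _ h.pos, ceg_mod hN h _⟩
  · rintro ⟨j, hj, rfl⟩
    refine ⟨(j + m * k - k) % m, Nat.mod_lt _ h.pos, ?_⟩
    rw [he, ← ceg_mod hN h]
    have h0 : k ≤ m * k := Nat.le_mul_of_pos_left k h.pos
    have h1 : (k + (j + m * k - k) % m) % m = j := by
      rw [Nat.add_mod_mod, show k + (j + m * k - k) = j + m * k by omega, Nat.add_mul_mod_self_left]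
      exact Nat.mod_eq_of_lt hj
    rw [h1]

/-- translation by a period -/
theorem cpe_tr {N : ℕ} (hN : 1 ≤ N) (v d : Pt) (τ : ℕ → Bool) (m : ℕ) (s : ℤ) :
    cpe (Cy N hN) (v + s • PN N) d τ m = cpe (Cy N hN) v d τ m := by
  have he : ∀ i, ceg (Cy N hN) (v + s • PN N) d τ i = ceg (Cy N hN) v d τ i := by
    intro i
    unfold ceg
    have h1 : vs (v + s • PN N) d τ i = vs v d τ i + s • PN N := by
      rw [vs_trans, vs_trans v]
      abel
    rw [h1, nm_add_smul]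
  unfold cpe
  congr 1
  funext i
  exact he i

theorem cpe_card {N : ℕ} (hN : 1 ≤ N) {v d : Pt} {τ : ℕ → Bool} {m : ℕ} (h : PolP (PN N) v d τ m) :
    (cpe (Cy N hN) v d τ m).card = m := by
  unfold cpe
  rw [Finset.card_image_of_injOn, Finset.card_range]
  intro i hi k hk hik
  rw [Finset.mem_coe, Finset.mem_range] at hi hk
  have h1 : (Cy N hN).nm (vs v d τ i) = (Cy N hN).nm (vs v d τ k) := congrArg Prod.fst hik
  obtain ⟨s, hs⟩ := (nm_eq_iff hN _ _).1 h1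
  rcases le_total 0 s with h2 | h2
  · obtain ⟨a, rfl⟩ := Int.eq_ofNat_of_zero_le h2
    rw [← (h.addm k a).1] at hs
    by_contra hne
    refine h.inj i (k + m * a) ?_ hs
    rintro rfl
    rcases Nat.eq_zero_or_pos a with h3 | h3
    · rw [h3] at hi hne
      exact hne (by ring)
    · have : m ≤ m * a := Nat.le_mul_of_pos_right m h3
      omega
  · obtain ⟨a, ha⟩ := Int.eq_ofNat_of_zero_le (show 0 ≤ -s by omega)
    have hs' : vs v d τ k = vs v d τ i + (a : ℤ) • PN N := by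
      rw [hs, ← ha]
      rw [neg_smul]
      abel
    rw [← (h.addm i a).1] at hs'
    by_contra hne
    refine h.inj k (i + m * a) ?_ hs'
    rintro rfl
    rcases Nat.eq_zero_or_pos a with h3 | h3
    · rw [h3] at hne
      exact hne (by ring)
    · have : m ≤ m * a := Nat.le_mul_of_pos_right m h3
      omega

/-- every winding polygon is a placed representative -/
theorem wind_word {N : ℕ} {hN : 1 ≤ N} {E : Finset (Pt × Pt)} (hE : IsWind N hN E) :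
    ∃ (L : ℕ) (A v d : Pt) (z : List Bool), A ∈ axs ∧ z ∈ ZRW (PA N A) L ∧ d ∈ dirs ∧
      0 ≤ LP.lv v ∧ LP.lv v < 3 * N ∧ PolP (PN N) v d (per z) z.length ∧ E = cpe (Cy N hN) v d (per z) z.length := by
  obtain ⟨v, d, τ, m, hC, hv, rfl⟩ := hE
  have h := polP_of hN hC hv
  obtain ⟨r, L, A, hA, hrd, hg⟩ := frameW hN h
  have h1 := h.rot r
  rw [hrd] at h1
  obtain ⟨z, hz⟩ : ∃ z, z = (List.range m).map fun i => τ (r + i) := ⟨_, rfl⟩
  obtain ⟨hc, hper⟩ := word_of_PolP h1 (mulE_PA hA)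
  rw [← hz] at hc hper hg
  have hl : z.length = m := by rw [hz, List.length_map, List.length_range]
  obtain ⟨k, hk⟩ := (repW_spec hg).2
  have hps : per (repW (PA N A) L z) = fun i => τ (r + k + i) := by
    funext i
    rw [← hk, per_rotate hc.1, hper]
    show τ (r + (k + i)) = τ (r + k + i)
    rw [add_assoc]
  have hls : (repW (PA N A) L z).length = m := by
    rw [← hk, List.length_rotate, hl]
  obtain ⟨w, hw⟩ : ∃ w, w = vs v d τ (r + k) := ⟨_, rfl⟩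
  obtain ⟨e, he⟩ : ∃ e, e = ds d τ (r + k) := ⟨_, rfl⟩
  have h2 := h.rot (r + k)
  rw [← hw, ← he] at h2
  obtain ⟨s, hs⟩ : ∃ s : ℤ, s = -(LP.lv w / (3 * N)) := ⟨_, rfl⟩
  have hlv : LP.lv (w + s • PN N) = LP.lv w % (3 * N) := by
    rw [hs]
    unfold LP.lv PN
    simp only [Prod.fst_add, Prod.snd_add, Prod.smul_fst, Prod.smul_snd, smul_eq_mul]
    rw [Int.emod_def]
    ring
  have hN3 : (0 : ℤ) < 3 * N := by
    have : (1 : ℤ) ≤ N := by exact_mod_cast hN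
    omega
  refine ⟨L, A, w + s • PN N, e, repW (PA N A) L z, hA, repW_mem hg, by rw [he]; exact ds_mem h.de.1 _, ?_, ?_, ?_, ?_⟩
  · rw [hlv]
    exact Int.emod_nonneg _ hN3.ne'
  · rw [hlv]
    exact Int.emod_lt_of_pos _ hN3
  · rw [hps, hls]
    have htr : ∀ i, vs (w + s • PN N) e (fun i => τ (r + k + i)) i = vs w e (fun i => τ (r + k + i)) i + s • PN N := by
      intro i
      rw [vs_trans, vs_trans w]
      abel
    have hcl : cl (s • PN N) = 0 := by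
      unfold cl PN
      simp
    refine ⟨h2.pos, ⟨h2.de.1, ?_, ?_⟩, h2.per, ?_, h2.cld, ?_⟩
    · show cl (w + s • PN N) ≠ 1
      rw [cl_add, hcl, add_zero]
      exact h2.de.2.1
    · show cl (w + s • PN N + e) ≠ 1
      rw [cl_add, cl_add, hcl, add_zero, ← cl_add]
      exact h2.de.2.2
    · rw [htr, h2.clv]
      abel
    · intro i j hij hh
      rw [htr, htr] at hh
      exact h2.inj i j hij (add_right_cancel hh)
  · rw [hps, hls, cpe_tr, hw, he, cpe_rot hN h]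

/-! ### 2. The number of the positions -/

/-- the keys of the positions: direction, level, column of the root -/
noncomputable def keyW (N R : ℕ) (c : ℤ) : Finset (Pt × (ℤ × ℤ)) :=
  dirs ×ˢ (Finset.Ico 0 (3 * (N : ℤ)) ×ˢ Finset.Icc (c - R) (c + R))

lemma card_keyW (N R : ℕ) (c : ℤ) : (keyW N R c).card = 6 * (3 * N * (2 * R + 1)) := by
  unfold keyW
  rw [Finset.card_product, Finset.card_product, Int.card_Ico, Int.card_Icc, sub_zero,
    show c + (R : ℤ) + 1 - (c - R) = ((2 * R + 1 : ℕ) : ℤ) by push_cast; ring, Int.toNat_natCast,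
    show (3 * (N : ℤ)) = ((3 * N : ℕ) : ℤ) by push_cast; ring, Int.toNat_natCast]
  rfl

/-- the polygon of a key -/
noncomputable def decW (N : ℕ) (hN : 1 ≤ N) (z : List Bool) (k : Pt × (ℤ × ℤ)) : Finset (Pt × Pt) :=
  cpe (Cy N hN) ((k.2.1 + 2 * k.2.2) / 3, (k.2.1 - k.2.2) / 3) k.1 (per z) z.length

lemma exists_keyW {N : ℕ} (hN : 1 ≤ N) {R : ℕ} {c : ℤ} {v d : Pt} {z : List Bool} (hd : d ∈ dirs) (h0 : 0 ≤ LP.lv v)
    (h1 : LP.lv v < 3 * N) (h2 : |LP.nn v - c| ≤ R) :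
    ∃ k ∈ keyW N R c, decW N hN z k = cpe (Cy N hN) v d (per z) z.length := by
  refine ⟨(d, LP.lv v, LP.nn v), ?_, ?_⟩
  · unfold keyW
    rw [Finset.mem_product, Finset.mem_product, Finset.mem_Ico, Finset.mem_Icc]
    rw [abs_le] at h2
    exact ⟨hd, ⟨h0, h1⟩, by show c - R ≤ LP.nn v; linarith [h2.1], by show LP.nn v ≤ c + R; linarith [h2.2]⟩
  · unfold decW
    congr 1
    unfold LP.lv LP.nn
    ext
    · show (v.1 + 2 * v.2 + 2 * (v.1 - v.2)) / 3 = v.1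
      omega
    · show (v.1 + 2 * v.2 - (v.1 - v.2)) / 3 = v.2
      omega

theorem place_sumW {N : ℕ} (hN : 1 ≤ N) (R : ℕ) (c : ℤ) (Z : Set (List Bool)) (S : Finset (Finset (Pt × Pt)))
    (hS : ∀ E ∈ S, ∃ (v d : Pt) (z : List Bool), z ∈ Z ∧ d ∈ dirs ∧ 0 ≤ LP.lv v ∧ LP.lv v < 3 * N ∧
      |LP.nn v - c| ≤ R ∧ PolP (PN N) v d (per z) z.length ∧ E = cpe (Cy N hN) v d (per z) z.length) :
    ∑ E ∈ S, ENNReal.ofReal (xc ^ E.card) ≤
      ((6 * (3 * N * (2 * R + 1)) : ℕ) : ℝ≥0∞) * ∑' z : Z, wE z.1 := by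
  classical
  have hkey : ∀ E : S, ∃ x : (Σ _ : Z, {k // k ∈ keyW N R c}),
      decW N hN x.1.1 x.2.1 = E.1 ∧ E.1.card = x.1.1.length := by
    intro E
    obtain ⟨v, d, z, hz, hd, h0, h1, h2, hP, hE⟩ := hS E.1 E.2
    obtain ⟨k, hk, hk2⟩ := exists_keyW hN (z := z) hd h0 h1 h2
    refine ⟨⟨⟨z, hz⟩, ⟨k, hk⟩⟩, ?_, ?_⟩
    · rw [hE]
      exact hk2
    · rw [hE]
      exact cpe_card hN hP
  choose φ hφ1 hφ2 using hkey
  have hinj : Function.Injective φ := by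
    intro E E' h
    apply Subtype.ext
    rw [← hφ1 E, ← hφ1 E', h]
  calc ∑ E ∈ S, ENNReal.ofReal (xc ^ E.card)
      = ∑' E : S, ENNReal.ofReal (xc ^ E.1.card) := (Finset.tsum_subtype S fun E => ENNReal.ofReal (xc ^ E.card)).symm
    _ = ∑' E : S, wE (φ E).1.1 := tsum_congr fun E => by
        unfold wE
        rw [hφ2 E]
    _ ≤ ∑' x : (Σ _ : Z, {k // k ∈ keyW N R c}), wE x.1.1 :=
        ENNReal.tsum_comp_le_tsum_of_injective hinj fun x => wE x.1.1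
    _ = ∑' (z : Z) (_ : {k // k ∈ keyW N R c}), wE z.1 := ENNReal.tsum_sigma' _
    _ = ∑' z : Z, ((6 * (3 * N * (2 * R + 1)) : ℕ) : ℝ≥0∞) * wE z.1 := by
        refine tsum_congr fun z => ?_
        rw [tsum_fintype, Finset.sum_const, Finset.card_univ, Fintype.card_coe, card_keyW, nsmul_eq_mul]
    _ = _ := ENNReal.tsum_mul_left

/-! ### 3. The sum over the scales -/

lemma low_of_ZRW {N : ℕ} {A : Pt} (hA : A ∈ axs) {L : ℕ} {z : List Bool} (hz : z ∈ ZRW (PA N A) L) :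
    N ≤ 2 ^ (L + 1) := by
  have h1 := hz.1.2.1 0 z.length (Nat.zero_le _) (by omega)
  have h2 : pv z z.length = PA N A := by
    rw [← vx_eq_pv le_rfl]
    exact hz.1.1.2.1
  have h3 : row false (pv z 0) = 0 := by
    show row false oo = 0
    simp [row, lvl, hd, ip, oo]
  rw [h2, h3, row_PA hA, zero_sub, abs_neg, abs_of_nonneg (by positivity)] at h1
  exact_mod_cast h1

/-- the root is near the ring -/
lemma near_root {N : ℕ} (hN : 1 ≤ N) {A : Pt} {L : ℕ} {z : List Bool} (hz : z ∈ ZRW (PA N A) L) {v d : Pt}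
    (hd : d ∈ dirs) {c : ℤ} {K : ℕ} (hK : N ≤ 2 ^ (L + 1))
    (hp : ∃ p ∈ cpe (Cy N hN) v d (per z) z.length, |LP.nn p.1 - c| ≤ K * N) :
    |LP.nn v - c| ≤ (((2 * K + 80) * 2 ^ L : ℕ) : ℤ) := by
  obtain ⟨p, hp, hpc⟩ := hp
  obtain ⟨i, hi, rfl⟩ := Finset.mem_image.1 hp
  rw [Finset.mem_range] at hi
  have h1 : LP.nn (ceg (Cy N hN) v d (per z) i).1 = LP.nn (vs v d (per z) i) := by
    show ((Cy N hN).nm (vs v d (per z) i)).1 - ((Cy N hN).nm (vs v d (per z) i)).2 = _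
    rw [Pool.Agent.NUF.Cyl.nn_nm]
    rfl
  rw [h1] at hpc
  have h2 := hz.1.2.2.2.2 0 i (Nat.zero_le _) (by omega)
  have h3 := coord_mulE (Ud_mem hd) h2
  have h4 : vs v d (per z) i = v - mulE (Ud d) (pv z 0 - pv z i) := by
    rw [vs_Ud, mulE_sub]
    have e1 : mulE (Ud d) (pv z 0) = 0 := by
      show mulE (Ud d) oo = 0
      ext <;> simp [mulE, oo]
    rw [e1]
    abel
  obtain ⟨W, hW⟩ : ∃ W, W = mulE (Ud d) (pv z 0 - pv z i) := ⟨_, rfl⟩
  rw [← hW] at h3 h4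
  rw [h4] at hpc
  have h5 : ((K * N : ℕ) : ℤ) ≤ ((2 * K * 2 ^ L : ℕ) : ℤ) := by
    have h6 : K * N ≤ K * 2 ^ (L + 1) := Nat.mul_le_mul_left _ hK
    rw [pow_succ] at h6
    exact_mod_cast (by nlinarith : K * N ≤ 2 * K * 2 ^ L)
  push_cast at h5 ⊢
  obtain ⟨w1, w2⟩ := W
  obtain ⟨v1, v2⟩ := v
  obtain ⟨q, hq⟩ : ∃ q : ℤ, q = 2 ^ L := ⟨_, rfl⟩
  obtain ⟨x, hx⟩ : ∃ x : ℤ, x = (K : ℤ) * N := ⟨_, rfl⟩
  obtain ⟨y, hy⟩ : ∃ y : ℤ, y = (K : ℤ) * 2 ^ L := ⟨_, rfl⟩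
  rw [← hx] at hpc h5
  rw [show (2 * (K : ℤ) * 2 ^ L) = 2 * y by rw [hy]; ring] at h5
  rw [show ((2 * (K : ℤ) + 80) * 2 ^ L) = 2 * y + 80 * q by rw [hy, hq]; ring]
  rw [← hq] at h3
  simp only [LP.nn, Prod.mk_sub_mk, abs_le] at h3 hpc ⊢
  omega

/-- the winding polygons near a ring -/
theorem wind_sum (hstar : StarW) (K : ℕ) : ∃ C : ℝ, 0 < C ∧ ∀ (N : ℕ) (hN : 1 ≤ N) (c : ℤ)
    (S : Finset (Finset (Pt × Pt))), (∀ E ∈ S, IsWind N hN E ∧ ∃ p ∈ E, |LP.nn p.1 - c| ≤ K * N) →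
    ∑ E ∈ S, xc ^ E.card ≤ C := by
  classical
  obtain ⟨C, hC, hst⟩ := hstar
  refine ⟨(18 * (4 * K + 161) * C * 64) * 2, by positivity, ?_⟩
  intro N hN c S hS
  have hNr : (1 : ℝ) ≤ N := by exact_mod_cast hN
  -- scale and axis of every polygon
  have hW : ∀ E, IsWind N hN E → ∃ x : ℕ × Pt, x.2 ∈ axs ∧ ∃ (v d : Pt) (z : List Bool), z ∈ ZRW (PA N x.2) x.1 ∧
      d ∈ dirs ∧ 0 ≤ LP.lv v ∧ LP.lv v < 3 * N ∧ PolP (PN N) v d (per z) z.length ∧
      E = cpe (Cy N hN) v d (per z) z.length := by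
    intro E hE
    obtain ⟨L, A, v, d, z, h⟩ := wind_word hE
    exact ⟨(L, A), h.1, v, d, z, h.2⟩
  choose! sc hsc1 hsc2 using hW
  have hpiece : ∀ x ∈ S.image sc, x.2 ∈ axs → ∑ E ∈ S.filter (fun E => sc E = x), xc ^ E.card ≤
      18 * (4 * K + 161) * C * (N * (1 / 2) ^ x.1) := by
    rintro ⟨ℓ, A⟩ hx hA
    simp only at hA
    obtain ⟨E0, hE0, hE0'⟩ := Finset.mem_image.1 hx
    have hNl : N ≤ 2 ^ (ℓ + 1) := by
      obtain ⟨v, d, z, hz, _⟩ := hsc2 E0 (hS E0 hE0).1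
      rw [hE0'] at hz
      exact low_of_ZRW hA hz
    have h1 := place_sumW hN ((2 * K + 80) * 2 ^ ℓ) c (ZRW (PA N A) ℓ) (S.filter (fun E => sc E = (ℓ, A))) (by
      intro E hE
      obtain ⟨hE1, hE2⟩ := Finset.mem_filter.1 hE
      obtain ⟨hw, hp⟩ := hS E hE1
      obtain ⟨v, d, z, hz, hd, h0, h1, hP, hE'⟩ := hsc2 E hw
      rw [hE2] at hz
      refine ⟨v, d, z, hz, hd, h0, h1, ?_, hP, hE'⟩
      rw [hE'] at hp
      exact near_root hN hz hd hNl hp)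
    have h2 := hst (PA N A) ℓ (ZRW (PA N A) ℓ) (by rw [row_PA hA]; exact_mod_cast hN) (zw_ZRW _ _)
    have h3 : ENNReal.ofReal (∑ E ∈ S.filter (fun E => sc E = (ℓ, A)), xc ^ E.card) ≤
        ENNReal.ofReal (18 * (4 * K + 161) * C * (N * (1 / 2) ^ ℓ)) := by
      rw [ENNReal.ofReal_sum_of_nonneg fun E _ => pow_nonneg xc_pos.le _]
      refine h1.trans ((mul_le_mul_right h2 _).trans ?_)
      rw [← ENNReal.ofReal_natCast, ← ENNReal.ofReal_mul (by positivity)]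
      refine ENNReal.ofReal_le_ofReal ?_
      push_cast
      have h6 : (1 : ℝ) ≤ 2 ^ ℓ := one_le_pow₀ (by norm_num)
      have h7 : (1 / 4 : ℝ) ^ ℓ * 2 ^ ℓ = (1 / 2) ^ ℓ := by
        rw [← mul_pow]
        norm_num
      have h8 : 6 * (3 * (N : ℝ) * (2 * ((2 * K + 80) * 2 ^ ℓ) + 1)) ≤ 18 * (4 * K + 161) * N * 2 ^ ℓ := by
        have : (0 : ℝ) ≤ K := by positivity
        nlinarith
      calc 6 * (3 * (N : ℝ) * (2 * ((2 * K + 80) * 2 ^ ℓ) + 1)) * (C * (1 / 4) ^ ℓ)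
          ≤ 18 * (4 * K + 161) * N * 2 ^ ℓ * (C * (1 / 4) ^ ℓ) := mul_le_mul_of_nonneg_right h8 (by positivity)
        _ = 18 * (4 * K + 161) * C * (N * ((1 / 4) ^ ℓ * 2 ^ ℓ)) := by ring
        _ = _ := by rw [h7]
    exact (ENNReal.ofReal_le_ofReal_iff (by positivity)).1 h3
  have hmem : ∀ x ∈ S.image sc, x.2 ∈ axs := by
    intro x hx
    obtain ⟨E, hE, rfl⟩ := Finset.mem_image.1 hx
    exact hsc1 E (hS E hE).1
  have h1 : ∑ E ∈ S, xc ^ E.card = ∑ x ∈ S.image sc, ∑ E ∈ S.filter (fun E => sc E = x), xc ^ E.card :=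
    (Finset.sum_fiberwise_of_maps_to (fun E hE => Finset.mem_image_of_mem _ hE) _).symm
  rw [h1]
  refine (Finset.sum_le_sum fun x hx => hpiece x hx (hmem x hx)).trans ?_
  have hsub : S.image sc ⊆ ((S.image sc).image Prod.fst) ×ˢ axs := by
    intro x hx
    rw [Finset.mem_product]
    exact ⟨Finset.mem_image_of_mem _ hx, hmem x hx⟩
  refine (Finset.sum_le_sum_of_subset_of_nonneg hsub fun x _ _ => by positivity).trans ?_
  have h6 : axs.card = 2 := by decide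
  rw [Finset.sum_product]
  simp only [Finset.sum_const, h6, nsmul_eq_mul]
  rw [← Finset.mul_sum, ← Finset.mul_sum, ← Finset.mul_sum]
  have h2 := geom_tail (q := 1 / 2) (by norm_num) (by norm_num) ((S.image sc).image Prod.fst) (L := Nat.clog 2 N) (by
    intro ℓ hℓ
    obtain ⟨x, hx, rfl⟩ := Finset.mem_image.1 hℓ
    obtain ⟨E, hE, rfl⟩ := Finset.mem_image.1 hx
    obtain ⟨v, d, z, hz, _⟩ := hsc2 E (hS E hE).1
    have h3 := low_of_ZRW (hsc1 E (hS E hE).1) hz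
    have h4 := Nat.clog_le_of_le_pow h3
    omega)
  have h3 : (N : ℝ) ≤ 2 ^ Nat.clog 2 N := by exact_mod_cast Nat.le_pow_clog (by norm_num) N
  have h4 : (N : ℝ) * (1 / 2) ^ Nat.clog 2 N ≤ 1 := by
    rw [one_div, inv_pow, ← div_eq_mul_inv, div_le_one (by positivity)]
    exact h3
  have h5 : (N : ℝ) * ∑ ℓ ∈ (S.image sc).image Prod.fst, (1 / 2 : ℝ) ^ ℓ ≤ 64 := by
    calc (N : ℝ) * ∑ ℓ ∈ (S.image sc).image Prod.fst, (1 / 2 : ℝ) ^ ℓ
        ≤ N * (((1 / 2) ^ 5 * (1 - 1 / 2))⁻¹ * (1 / 2) ^ Nat.clog 2 N) := mul_le_mul_of_nonneg_left h2 (by positivity)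
      _ = 64 * (N * (1 / 2) ^ Nat.clog 2 N) := by ring
      _ ≤ 64 * 1 := mul_le_mul_of_nonneg_left h4 (by norm_num)
      _ = 64 := by norm_num
  push_cast
  have h7 : 18 * (4 * (K : ℝ) + 161) * C * (N * ∑ ℓ ∈ (S.image sc).image Prod.fst, (1 / 2 : ℝ) ^ ℓ) ≤
      18 * (4 * K + 161) * C * 64 := mul_le_mul_of_nonneg_left h5 (by positivity)
  linarith

end PLW

end HexObs
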