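import Pool.Agent.PLW.Defs
import Pool.Agent.PLW.CylDefs
import Pool.Agent.PLD.Place

/-!
PLW (W7a): every winding polygon of the cylinder is a placed periodic word, one word for each class of rotations.
-/

set_option autoImplicit false

namespace HexObs

namespace PLW

open Finset TS SDN PLD

open Pool.Agent.NUF.Cyl (CPoly ceg cpe Cy PN IsWind nmN nmN_tr tr)

/-! ### 1. Periodic walks in the plane -/

/-- rooted oriented periodic walks: period P, m edges -/
structure PolP (P v d : Pt) (τ : ℕ → Bool) (m : ℕ) : Prop where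
  pos : 0 < m
  de : LP.De (v, d)
  per : ∀ i, τ (i + m) = τ i
  clv : vs v d τ m = v + P
  cld : ds d τ m = d
  inj : ∀ i k, i ≠ k → vs v d τ i ≠ vs v d τ k

section

variable {P v d : Pt} {τ : ℕ → Bool} {m : ℕ}

lemma add_per (hper : ∀ i, τ (i + m) = τ i) (hclv : vs v d τ m = v + P) (hcld : ds d τ m = d) (i : ℕ) :
    vs v d τ (i + m) = vs v d τ i + P ∧ ds d τ (i + m) = ds d τ i := by
  induction i with
  | zero =>
    rw [Nat.zero_add]
    exact ⟨hclv, hcld⟩
  | succ i ih =>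
    have e : i + 1 + m = i + m + 1 := by omega
    rw [e, vs_succ, vs_succ, ds_succ, ds_succ, ih.1, ih.2, hper]
    refine ⟨?_, rfl⟩
    abel

lemma add_mul_per (hper : ∀ i, τ (i + m) = τ i) (hclv : vs v d τ m = v + P) (hcld : ds d τ m = d) (i a : ℕ) :
    vs v d τ (i + m * a) = vs v d τ i + (a : ℤ) • P ∧ ds d τ (i + m * a) = ds d τ i := by
  induction a with
  | zero => simp
  | succ a ih =>
    have e : i + m * (a + 1) = (i + m * a) + m := by ring
    have h := add_per hper hclv hcld (i + m * a)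
    rw [e, h.1, h.2, ih.1, ih.2]
    refine ⟨?_, rfl⟩
    push_cast
    rw [add_smul, one_smul, add_assoc]

lemma PolP.add (h : PolP P v d τ m) (i : ℕ) : vs v d τ (i + m) = vs v d τ i + P ∧ ds d τ (i + m) = ds d τ i :=
  add_per h.per h.clv h.cld i

lemma PolP.addm (h : PolP P v d τ m) (i a : ℕ) :
    vs v d τ (i + m * a) = vs v d τ i + (a : ℤ) • P ∧ ds d τ (i + m * a) = ds d τ i :=
  add_mul_per h.per h.clv h.cld i a

lemma PolP.ds_mod (h : PolP P v d τ m) (i : ℕ) : ds d τ (i % m) = ds d τ i := by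
  conv_rhs => rw [← Nat.mod_add_div i m]
  exact (h.addm (i % m) (i / m)).2.symm

lemma PolP.vs_mod (h : PolP P v d τ m) (i : ℕ) : vs v d τ i = vs v d τ (i % m) + ((i / m : ℕ) : ℤ) • P := by
  conv_lhs => rw [← Nat.mod_add_div i m]
  exact (h.addm (i % m) (i / m)).1

theorem PolP.rot (h : PolP P v d τ m) (k : ℕ) :
    PolP P (vs v d τ k) (ds d τ k) (fun i => τ (k + i)) m := by
  have key : ∀ j, cl (vs v d τ j) ≠ 1 := by
    intro j
    rw [cl_vs]
    split_ifs
    · exact h.de.2.1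
    · rw [← cl_add]
      exact h.de.2.2
  refine ⟨h.pos, ⟨ds_mem h.de.1 k, key k, key (k + 1)⟩, ?_, ?_, ?_, ?_⟩
  · intro i
    show τ (k + (i + m)) = τ (k + i)
    rw [← add_assoc, h.per]
  · rw [← vs_shift, (h.add k).1]
  · rw [← ds_shift, (h.add k).2]
  · intro i j hij
    rw [← vs_shift, ← vs_shift]
    exact h.inj _ _ (by omega)

/-- the word of a periodic walk -/
lemma word_of_PolP (h : PolP P v d τ m) {P' : Pt} (hP : mulE (Ud d) P' = P) :
    ((List.range m).map τ) ∈ CwP P' ∧ per ((List.range m).map τ) = τ := by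
  obtain ⟨z, hz⟩ : ∃ z, z = (List.range m).map τ := ⟨_, rfl⟩
  rw [← hz]
  have hl : z.length = m := by rw [hz, List.length_map, List.length_range]
  have hper : per z = τ := by
    funext i
    unfold per tf
    rw [hl, hz, List.getD_eq_getElem?_getD, List.getElem?_map, List.getElem?_range (Nat.mod_lt _ h.pos)]
    simp only [Option.map_some, Option.getD_some]
    have h1 : Function.Periodic τ m := h.per
    exact h1.map_mod_nat i
  refine ⟨?_, hper⟩
  have hu1 : nrm (Ud d) = 1 := mem_dirs.1 (Ud_mem h.de.1)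
  have hvs : ∀ i, vs v d τ i = v + mulE (Ud d) (pv z i) := by
    intro i
    have h1 := vs_Ud v d z i
    rw [hper] at h1
    exact h1
  have hds : ∀ i, ds d τ i = mulE (Ud d) (pd z i) := by
    intro i
    have h1 : ds (mulE (Ud d) up) τ i = mulE (Ud d) (ds up τ i) := PLD.ds_mulE _ _ _ _
    rw [Ud_up] at h1
    rw [h1]
    unfold pd
    rw [hper]
  refine ⟨?_, ?_, ?_, ?_⟩
  · intro h1
    rw [h1, List.length_nil] at hl
    have := h.pos
    omega
  · rw [vx_eq_pv le_rfl, hl]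
    have h1 := h.clv
    rw [hvs m] at h1
    have h2 : mulE (Ud d) (pv z m) = mulE (Ud d) P' := by
      rw [hP]
      exact add_left_cancel h1
    exact mulE_inj hu1 h2
  · rw [dx_eq_pd le_rfl, hl]
    have h1 := h.cld
    rw [hds m] at h1
    have h2 : mulE (Ud d) (pd z m) = mulE (Ud d) up := by rw [Ud_up]; exact h1
    exact mulE_inj hu1 h2
  · intro i k hik h1
    refine h.inj i k hik ?_
    rw [hvs, hvs, h1]

end

/-! ### 2. Words of the scale L -/

/-- the period in the frame of the direction A -/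
def PA (N : ℕ) (A : Pt) : Pt := mulE (conjE (Ud A)) (PN N)

/-- the two axes -/
def axs : Finset Pt := {up, (1, 0)}

lemma axs_dirs {A : Pt} (hA : A ∈ axs) : A ∈ dirs := by
  revert A
  decide

lemma mulE_PA {N : ℕ} {A : Pt} (hA : A ∈ axs) : mulE (Ud A) (PA N A) = PN N := by
  unfold PA
  rw [mulE_assoc, mulE_conjE, mem_dirs.1 (Ud_mem (axs_dirs hA)), mulE_one]

lemma row_PA {N : ℕ} {A : Pt} (hA : A ∈ axs) : row false (PA N A) = N := by
  have h2 : A = up ∨ A = (1, 0) := by
    simpa [axs] using hA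
  have h1 : lvl false (PA N A) = 3 * N := by
    rcases h2 with rfl | rfl
    · simp only [lvl, hd, PA, Ud, rotTo, ip, mulE, conjE, up, PN, Bool.false_eq_true, if_false]
      ring
    · simp only [lvl, hd, PA, Ud, rotTo, ip, mulE, conjE, up, PN, Bool.false_eq_true, if_false]
      ring
  unfold row
  rw [h1]
  omega

/-- periodic words of the scale L -/
def GoodW (P : Pt) (L : ℕ) : Set (List Bool) := {z | z ∈ CwP P ∧
  (∀ i i', i ≤ i' → i' ≤ i + z.length → |row false (pv z i) - row false (pv z i')| ≤ 2 ^ (L + 1)) ∧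
  (∃ i i', i ≤ i' ∧ i' ≤ i + z.length ∧ 2 ^ L ≤ |row false (pv z i) - row false (pv z i')|) ∧
  (∀ i i', i ≤ i' → i' ≤ i + z.length → |row true (pv z i) - row true (pv z i')| ≤ 2 ^ (L + 3)) ∧
  ∀ i i', i ≤ i' → i' ≤ i + z.length → |(pv z i - pv z i').1| ≤ 20 * 2 ^ L ∧ |(pv z i - pv z i').2| ≤ 20 * 2 ^ L}

/-- the representative of the class of z -/
noncomputable def repW (P : Pt) (L : ℕ) (z : List Bool) : List Bool :=
  Classical.epsilon fun z' => z' ∈ GoodW P L ∧ z ~r z'

/-- the representatives -/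
def ZRW (P : Pt) (L : ℕ) : Set (List Bool) := {z | z ∈ GoodW P L ∧ repW P L z = z}

lemma repW_congr {P : Pt} {L : ℕ} {z z' : List Bool} (h : z ~r z') : repW P L z = repW P L z' := by
  unfold repW
  congr 1
  funext w
  exact propext ⟨fun hw => ⟨hw.1, h.symm.trans hw.2⟩, fun hw => ⟨hw.1, h.trans hw.2⟩⟩

lemma repW_spec {P : Pt} {L : ℕ} {z : List Bool} (h : z ∈ GoodW P L) : repW P L z ∈ GoodW P L ∧ z ~r repW P L z :=
  Classical.epsilon_spec (p := fun z' => z' ∈ GoodW P L ∧ z ~r z') ⟨z, h, List.IsRotated.refl z⟩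

lemma repW_mem {P : Pt} {L : ℕ} {z : List Bool} (h : z ∈ GoodW P L) : repW P L z ∈ ZRW P L :=
  ⟨(repW_spec h).1, (repW_congr (repW_spec h).2).symm⟩

lemma ZRW_uniq {P : Pt} {L : ℕ} : ∀ z ∈ ZRW P L, ∀ z' ∈ ZRW P L, ∀ r, z' = z.rotate r → z' = z := by
  intro z hz z' hz' r hr
  have h1 : repW P L z = repW P L z' := repW_congr ⟨r, hr.symm⟩
  rw [hz.2, hz'.2] at h1
  exact h1.symm

theorem zw_ZRW (P : Pt) (L : ℕ) : ZW P L (ZRW P L) where
  cw := fun _ hz => hz.1.1
  uniq := ZRW_uniq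
  box := fun _ hz => hz.1.2.1
  boxT := fun _ hz => hz.1.2.2.2.1
  ext := fun _ hz => hz.1.2.2.1

/-! ### 3. The frame -/

lemma conj_mem {u : Pt} (hu : u ∈ dirs) : conjE u ∈ dirs := by
  rw [mem_dirs, nrm_conjE]
  exact mem_dirs.1 hu

/-- the frame of a periodic walk -/
theorem frameW {N : ℕ} (hN : 1 ≤ N) {v d : Pt} {τ : ℕ → Bool} {m : ℕ} (h : PolP (PN N) v d τ m) :
    ∃ (r L : ℕ) (A : Pt), A ∈ axs ∧ ds d τ r = A ∧ ((List.range m).map fun i => τ (r + i)) ∈ GoodW (PA N A) L := by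
  have hm := h.pos
  -- the largest extent
  obtain ⟨⟨A, i0, j⟩, hx, hmax⟩ := Finset.exists_max_image (axs ×ˢ (range m ×ˢ range (m + 1)))
    (fun x => |ip (vs v d τ (x.2.1 + x.2.2) - vs v d τ x.2.1) x.1|) ⟨(up, 0, m), by
      simp only [Finset.mem_product, Finset.mem_range]
      exact ⟨by decide, hm, by omega⟩⟩
  simp only [Finset.mem_product, Finset.mem_range] at hx
  obtain ⟨hA, hi0, hj⟩ := hx
  obtain ⟨M, hM⟩ : ∃ M, M = |ip (vs v d τ (i0 + j) - vs v d τ i0) A| := ⟨_, rfl⟩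
  have hmax' : ∀ e ∈ axs, ∀ i i', i ≤ i' → i' ≤ i + m → |ip (vs v d τ i' - vs v d τ i) e| ≤ M := by
    intro e he i i' h1 h2
    have h3 := hmax (e, i % m, i' - i) (by
      simp only [Finset.mem_product, Finset.mem_range]
      exact ⟨he, Nat.mod_lt _ hm, by omega⟩)
    simp only at h3
    rw [← hM] at h3
    have h4 := h.addm (i % m) (i / m)
    have h5 := h.addm (i % m + (i' - i)) (i / m)
    have e1 : i % m + m * (i / m) = i := Nat.mod_add_div i m
    have e2 : i % m + (i' - i) + m * (i / m) = i' := by omega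
    rw [e1] at h4
    rw [e2] at h5
    rw [h4.1, h5.1, add_sub_add_right_eq_sub]
    exact h3
  have hPN : ∀ e ∈ axs, ip (PN N) e = 3 * N := by
    intro e he
    have h2 : e = up ∨ e = (1, 0) := by simpa [axs] using he
    rcases h2 with rfl | rfl <;> simp only [ip, PN, up] <;> ring
  have hM3 : 3 * (N : ℤ) ≤ M := by
    have h1 := hmax' up (by decide) 0 m (by omega) (by omega)
    have e1 : vs v d τ m - vs v d τ 0 = PN N := by
      rw [h.clv]
      exact add_sub_cancel_left _ _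
    rw [e1, hPN up (by decide)] at h1
    exact (le_abs_self _).trans h1
  -- the root
  have hr0 : ∃ r, ds d τ r = A := by
    obtain ⟨hw, hper⟩ := word_of_PolP h (P' := mulE (conjE (Ud d)) (PN N)) (by
      rw [mulE_assoc, mulE_conjE, mem_dirs.1 (Ud_mem h.de.1), mulE_one])
    obtain ⟨z, hz⟩ : ∃ z, z = (List.range m).map τ := ⟨_, rfl⟩
    rw [← hz] at hw hper
    have hu1 : nrm (Ud d) = 1 := mem_dirs.1 (Ud_mem h.de.1)
    have hA2 : mulE (Ud d) (mulE (conjE (Ud d)) A) = A := by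
      rw [mulE_assoc, mulE_conjE, hu1, mulE_one]
    have hA3 : mulE (conjE (Ud d)) A ∈ dirs := by
      rw [mem_dirs, nrm_mulE, nrm_conjE, hu1, one_mul]
      exact mem_dirs.1 (axs_dirs hA)
    have hip : ∀ i, ip (pv z i) (mulE (conjE (Ud d)) A) = ip (vs v d τ i - v) A := by
      intro i
      have h1 := vs_Ud v d z i
      rw [hper] at h1
      rw [h1, add_sub_cancel_left]
      conv_rhs => rw [← hA2]
      rw [ip_mulE, hu1, one_mul]
    obtain ⟨r, hr⟩ := exists_dir (z := z) hA3 (i := 0) (j := m) (by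
      rw [hip, hip, Nat.zero_add, h.clv, add_sub_cancel_left, hPN A hA]
      have e1 : vs v d τ 0 - v = 0 := sub_self _
      rw [e1]
      have e2 : ip (0 : Pt) A = 0 := by simp [ip]
      rw [e2]
      have : (1 : ℤ) ≤ N := by exact_mod_cast hN
      omega)
    refine ⟨r, ?_⟩
    have h2 : ds (mulE (Ud d) up) τ r = mulE (Ud d) (ds up τ r) := PLD.ds_mulE _ _ _ _
    rw [Ud_up] at h2
    rw [h2]
    have h3 : ds up τ r = pd z r := by
      unfold pd
      rw [hper]
    rw [h3, hr, hA2]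
  obtain ⟨r0, hr0⟩ := hr0
  obtain ⟨r, hr, hrd⟩ : ∃ r < m, ds d τ r = A := ⟨r0 % m, Nat.mod_lt _ hm, by rw [h.ds_mod]; exact hr0⟩
  have hrot := h.rot r
  rw [hrd] at hrot
  obtain ⟨hw, hper⟩ := word_of_PolP hrot (mulE_PA hA)
  obtain ⟨z, hz⟩ : ∃ z, z = (List.range m).map fun i => τ (r + i) := ⟨_, rfl⟩
  rw [← hz] at hw hper
  have hl : z.length = m := by rw [hz, List.length_map, List.length_range]
  have hu1 : nrm (Ud A) = 1 := mem_dirs.1 (Ud_mem (axs_dirs hA))
  have hvs : ∀ i i', mulE (Ud A) (pv z i - pv z i') = vs v d τ (r + i) - vs v d τ (r + i') := by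
    intro i i'
    have h1 := fun i => vs_Ud (vs v d τ r) A z i
    simp only [hper] at h1
    rw [vs_shift v d τ r i, vs_shift v d τ r i', hrd, h1 i, h1 i', mulE_sub]
    abel
  have hlv : ∀ i i', lvl false (pv z i) - lvl false (pv z i') = ip (vs v d τ (r + i) - vs v d τ (r + i')) A := by
    intro i i'
    unfold lvl
    rw [← ip_sub_left, ← hvs]
    have h3 : ip (mulE (Ud A) (pv z i - pv z i')) (mulE (Ud A) up) = ip (pv z i - pv z i') up := by
      rw [ip_mulE, hu1, one_mul]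
    rw [Ud_up] at h3
    exact h3.symm
  have hmax2 : ∀ e ∈ axs, ∀ i i', i ≤ i' → i' ≤ i + m → |ip (vs v d τ i - vs v d τ i') e| ≤ M := by
    intro e he i i' h1 h2
    rw [ip_sub_left, abs_sub_comm, ← ip_sub_left]
    exact hmax' e he i i' h1 h2
  have hub : ∀ i i', i ≤ i' → i' ≤ i + m → |lvl false (pv z i) - lvl false (pv z i')| ≤ M := by
    intro i i' h1 h2
    rw [hlv]
    exact hmax2 A hA (r + i) (r + i') (by omega) (by omega)
  -- the window with the largest extent
  obtain ⟨j0, hj0⟩ : ∃ j0, r + j0 = i0 + m := ⟨i0 + m - r, by omega⟩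
  have htop : |lvl false (pv z j0) - lvl false (pv z (j0 + j))| = M := by
    rw [hlv, hj0, show r + (j0 + j) = (i0 + j) + m by omega, (h.add i0).1, (h.add (i0 + j)).1,
      add_sub_add_right_eq_sub, ip_sub_left, abs_sub_comm, ← ip_sub_left, hM]
  obtain ⟨e, he⟩ : ∃ e : ℤ, e = |row false (pv z j0) - row false (pv z (j0 + j))| := ⟨_, rfl⟩
  have hN' : (1 : ℤ) ≤ N := by exact_mod_cast hN
  have hme : M ≤ 3 * e + 2 := by
    rw [he, ← htop]
    unfold row
    rcases abs_cases (lvl false (pv z j0) - lvl false (pv z (j0 + j))) with ⟨h1, _⟩ | ⟨h1, _⟩ <;>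
    rcases abs_cases (lvl false (pv z j0) / 3 - lvl false (pv z (j0 + j)) / 3) with ⟨h2, _⟩ | ⟨h2, _⟩ <;>
    omega
  have he1 : 1 ≤ e := by omega
  have hlog1 : (2 : ℤ) ^ Nat.log 2 e.toNat ≤ e := by
    have h1 : 2 ^ Nat.log 2 e.toNat ≤ e.toNat := Nat.pow_log_le_self 2 (by omega)
    have h2 : ((2 ^ Nat.log 2 e.toNat : ℕ) : ℤ) ≤ (e.toNat : ℤ) := by exact_mod_cast h1
    rw [Int.toNat_of_nonneg (by omega)] at h2
    exact_mod_cast h2
  have hlog2 : e + 1 ≤ (2 : ℤ) ^ (Nat.log 2 e.toNat + 1) := by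
    have h1 : e.toNat < 2 ^ (Nat.log 2 e.toNat + 1) := Nat.lt_pow_succ_log_self (by norm_num) _
    have h2 : ((e.toNat + 1 : ℕ) : ℤ) ≤ ((2 ^ (Nat.log 2 e.toNat + 1) : ℕ) : ℤ) := by exact_mod_cast h1
    push_cast at h2
    rw [Int.toNat_of_nonneg (by omega)] at h2
    exact h2
  refine ⟨r, Nat.log 2 e.toNat, A, hA, hrd, ?_⟩
  rw [← hz]
  refine ⟨hw, ?_, ?_, ?_, ?_⟩
  · intro i i' h1 h2
    rw [hl] at h2
    have h3 := hub i i' h1 h2
    refine le_trans ?_ hlog2
    unfold row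
    rw [abs_le] at h3 ⊢
    constructor <;> omega
  · rw [hl]
    exact ⟨j0, j0 + j, by omega, by omega, by rw [← he]; exact hlog1⟩
  · intro i i' h1 h2
    rw [hl] at h2
    have h3 := hmax2 up (by decide) (r + i) (r + i') (by omega) (by omega)
    have h4 := hmax2 (1, 0) (by decide) (r + i) (r + i') (by omega) (by omega)
    obtain ⟨W, hW⟩ : ∃ W, W = vs v d τ (r + i) - vs v d τ (r + i') := ⟨_, rfl⟩
    rw [← hW] at h3 h4
    have h5 : |lvl true (pv z i) - lvl true (pv z i')| ≤ 2 * M := by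
      unfold lvl
      rw [← ip_sub_left]
      have h6 : ip (mulE (Ud A) (pv z i - pv z i')) (mulE (Ud A) (-1, 0)) = ip (pv z i - pv z i') (-1, 0) := by
        rw [ip_mulE, hu1, one_mul]
      rw [hvs, ← hW] at h6
      have h7 : ip (pv z i - pv z i') (hd true) = ip W (mulE (Ud A) (-1, 0)) := h6.symm
      rw [h7]
      have h8 : A = up ∨ A = (1, 0) := by simpa [axs] using hA
      have e1 : mulE (Ud up) (-1, 0) = (-1, 0) := by decide
      have e2 : mulE (Ud (1, 0)) (-1, 0) = (-1, 1) := by decide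
      obtain ⟨w1, w2⟩ := W
      rcases h8 with rfl | rfl
      · rw [e1]
        simp only [ip, up, abs_le] at h3 h4 ⊢
        omega
      · rw [e2]
        simp only [ip, up, abs_le] at h3 h4 ⊢
        omega
    have h9 : (2 : ℤ) ^ (Nat.log 2 e.toNat + 3) = 4 * 2 ^ (Nat.log 2 e.toNat + 1) := by
      rw [pow_add, pow_add]
      ring
    rw [h9]
    unfold row
    rw [abs_le] at h5 ⊢
    constructor <;> omega
  · intro i i' h1 h2
    rw [hl] at h2
    have h3 := hmax2 up (by decide) (r + i) (r + i') (by omega) (by omega)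
    have h4 := hmax2 (1, 0) (by decide) (r + i) (r + i') (by omega) (by omega)
    obtain ⟨W, hW⟩ : ∃ W, W = vs v d τ (r + i) - vs v d τ (r + i') := ⟨_, rfl⟩
    rw [← hW] at h3 h4
    have h5 : |W.1| ≤ M ∧ |W.2| ≤ M := by
      obtain ⟨w1, w2⟩ := W
      simp only [ip, up, abs_le] at h3 h4 ⊢
      omega
    have h6 : pv z i - pv z i' = mulE (conjE (Ud A)) W := by
      rw [hW, ← hvs, mulE_assoc, mulE_comm (conjE (Ud A)), mulE_conjE, hu1, mulE_one]
    rw [h6]
    have h7 := coord_mulE (conj_mem (Ud_mem (axs_dirs hA))) h5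
    have h8 : 2 * M ≤ 20 * 2 ^ Nat.log 2 e.toNat := by
      rw [pow_succ] at hlog2
      omega
    exact ⟨h7.1.trans h8, h7.2.trans h8⟩

end PLW

end HexObs
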