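import Pool.Agent.PLD.FinDefs

/-!
PLW: the loops that wind round the honeycomb cylinder (doc zf/WIND). Common definitions.
-/

set_option autoImplicit false

namespace HexObs

namespace PLW

open Finset TS SDN PLD

open scoped ENNReal

/-- words of the self-avoiding walks with period P (one period, first edge upwards) -/
def CwP (P : Pt) : Set (List Bool) := {z | z ≠ [] ∧ vx oo up z z.length = P ∧ dx up z z.length = up ∧
  ∀ i k, i ≠ k → pv z i ≠ pv z k}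

/-- periodic chains of leaves (up, down, ..., up, down) with period P -/
structure CyP (P : Pt) (gs : List (List Bool)) : Prop where
  even : Even gs.length
  two : 2 ≤ gs.length
  brd : ∀ g ∈ gs, ∃ h, 1 ≤ h ∧ g ∈ Brd h
  cw : cuf gs ∈ CwP P

/-- alternating lists of leaves, total height H, total displacement X -/
structure CyH (H X : ℤ) (gs : List (List Bool)) : Prop where
  even : Even gs.length
  two : 2 ≤ gs.length
  brd : ∀ g ∈ gs, ∃ h, 1 ≤ h ∧ g ∈ Brd h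
  chain : gs.IsChain LFold
  close : ∀ x ∈ gs.getLast?, ∀ y ∈ gs.head?, LFold x y
  hgt0 : altH gs = H
  lat0 : altX gs = X

/-- lists of m leaves of scale k -/
def CCH (H X : ℤ) (m L k : ℕ) : Set (List (List Bool)) := {gs | CyH H X gs ∧ gs.length = m ∧
  ∀ g ∈ gs, g ∈ BrR (2 ^ (k + 4)) (2 ^ (L + 2)) ∧ g ∈ CL (k + 6)}

/-- the three bounds from the selection and the closing lemma -/
structure SelW (K c : ℝ) : Prop where
  oneK : 1 ≤ K
  posc : 0 < c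
  sel : ∀ (H X : ℤ) (m L k n : ℕ) (W : Set (List Bool)) (w : ℝ), Even m → 6 ≤ m → k ≤ L → 3 ≤ n → 2 * n ≤ k → 0 ≤ w →
    NW L k W w →
    WS {gs | gs ∈ CCH H X m L k ∧ Gd k n gs ∧ (n = 3 ∨ ¬ Gd k (n - 1) gs) ∧ GW k n W gs} ≤
      ENNReal.ofReal (K * (m : ℝ) ^ 3 * (2 : ℝ) ^ (-(2 * (k : ℝ))) * (2 : ℝ) ^ (13 / 4 * (n : ℝ)) *
        (K * 2 ^ (L + 2 - k)) ^ 4 * w *
        (K * 2 ^ (L + 2 - k) * (if n = 3 then 1 else (2 : ℝ) ^ (-(c * ((n : ℝ) - 1))))) ^ (m - 4))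
  none : ∀ (H X : ℤ) (m L k n : ℕ) (W : Set (List Bool)) (w : ℝ), Even m → 6 ≤ m → k ≤ L → 3 ≤ n → 2 * n ≤ k → 0 ≤ w →
    NW L k W w →
    WS {gs | gs ∈ CCH H X m L k ∧ ¬ Gd k n gs ∧ W1 W gs} ≤
      ENNReal.ofReal (K * (m : ℝ) ^ 3 * Ub L * (K * 2 ^ (L + 2 - k)) ^ 3 * w *
        (K * 2 ^ (L + 2 - k) * (2 : ℝ) ^ (-(c * (n : ℝ)))) ^ (m - 3))
  triv : ∀ (H X : ℤ) (m L k : ℕ) (W : Set (List Bool)) (w : ℝ), Even m → 2 ≤ m → k ≤ L → 0 ≤ w → NW L k W w →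
    WS {gs | gs ∈ CCH H X m L k ∧ W1 W gs} ≤
      ENNReal.ofReal (K * m * Ub L * w * (K * 2 ^ (L + 2 - k)) ^ m)

/-- representatives mod rotation of P-periodic walks of the scale L: the extent in the direction false of the windows of
one period is at least 2 ^ L and at most 2 ^ (L + 1), the extent in the direction true at most 2 ^ (L + 3) -/
structure ZW (P : Pt) (L : ℕ) (Z : Set (List Bool)) : Prop where
  cw : Z ⊆ CwP P
  uniq : ∀ z ∈ Z, ∀ z' ∈ Z, ∀ r, z' = z.rotate r → z' = z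
  box : ∀ z ∈ Z, ∀ i i' : ℕ, i ≤ i' → i' ≤ i + z.length → |row false (pv z i) - row false (pv z i')| ≤ 2 ^ (L + 1)
  boxT : ∀ z ∈ Z, ∀ i i' : ℕ, i ≤ i' → i' ≤ i + z.length → |row true (pv z i) - row true (pv z i')| ≤ 2 ^ (L + 3)
  ext : ∀ z ∈ Z, ∃ i i', i ≤ i' ∧ i' ≤ i + z.length ∧ 2 ^ L ≤ |row false (pv z i) - row false (pv z i')|

/-- drawdowns at most d rows -/
def DD (d : ℕ) (z : List Bool) : Prop := ∀ i i', i ≤ i' → row false (pv z i) - row false (pv z i') ≤ d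

/-- lists of the scale k with one tall leaf -/
def SKW (H X : ℤ) (m L k : ℕ) : Set (List (List Bool)) := {gs | gs ∈ CCH H X m L k ∧ ∃ i, i < gs.length ∧
  gs.getD i [] ∈ Tlh (2 * m) L k}

/-- the walks with small drawdowns -/
def SmallW : Prop := ∀ d : ℕ, ∃ C : ℝ, 0 < C ∧ ∀ (P : Pt) (L : ℕ) (Z : Set (List Bool)), 1 ≤ row false P → ZW P L Z →
  (∀ z ∈ Z, DD d z) → ∑' z : Z, wE z.1 ≤ ENNReal.ofReal (C * (1 / 4) ^ L)

/-- the reduction from periodic walks to lists (d0 = 16) -/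
def RedW : Prop := ∀ (P : Pt) (m L : ℕ) (Z : Set (List Bool)), 1 ≤ row false P → Even m → 2 ≤ m → 6 ≤ L → ZW P L Z →
  (∀ z ∈ Z, ¬ DD 16 z) → ∃ H X : ℤ, ∑' z : Z, wE z.1 ≤
    ∑ k ∈ range (L + 1), ∑' gs : SKW H X m L k, SDN.wl gs.1 +
    ∑ m' ∈ (range m).filter (fun m' => Even m' ∧ 2 ≤ m'), ∑' gs : SKW H X m' L 0, SDN.wl gs.1

/-- the weight of the periodic walks of the scale L -/
def StarW : Prop := ∃ C : ℝ, 0 < C ∧ ∀ (P : Pt) (L : ℕ) (Z : Set (List Bool)), 1 ≤ row false P → ZW P L Z →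
  ∑' z : Z, wE z.1 ≤ ENNReal.ofReal (C * (1 / 4) ^ L)

end PLW

end HexObs
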