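import Pool.Agent.PLW.Defs
import Pool.Agent.PLD.FinStar

/-!
PLW, final part (StarW): the sums.
-/

set_option autoImplicit false

namespace HexObs

namespace PLW

open Finset TS SDN PLD

open scoped ENNReal

variable {K c : ℝ}

/-- the sets of the selection -/
lemma coverW {H X : ℤ} {m L k n1 : ℕ} {W : Set (List Bool)} {T : Set (List (List Bool))}
    (hT : ∀ gs ∈ T, ∀ n, Gd k n gs → GW k n W gs) (hT1 : ∀ gs ∈ T, W1 W gs) (hn1 : 3 ≤ n1) (hk6 : 6 ≤ k) :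
    {gs | gs ∈ CCH H X m L k ∧ gs ∈ T ∧ ∀ n, 3 ≤ n → n < n1 → 2 * n ≤ k → ¬ Gd k n gs} ⊆
      (⋃ n ∈ Ico n1 (k / 2 + 1), {gs | gs ∈ CCH H X m L k ∧ Gd k n gs ∧ (n = 3 ∨ ¬ Gd k (n - 1) gs) ∧ GW k n W gs}) ∪
        {gs | gs ∈ CCH H X m L k ∧ ¬ Gd k (k / 2) gs ∧ W1 W gs} := by
  classical
  rintro gs ⟨h1, h2, h3⟩
  by_cases hg : Gd k (k / 2) gs
  · left
    have hk : 3 ≤ k / 2 := by omega
    · have hex : ∃ n, 3 ≤ n ∧ Gd k n gs := ⟨k / 2, hk, hg⟩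
      have hf := Nat.find_spec hex
      have hm : ∀ n, n < Nat.find hex → ¬ (3 ≤ n ∧ Gd k n gs) := fun n hn => Nat.find_min hex hn
      obtain ⟨n, hn⟩ : ∃ n, n = Nat.find hex := ⟨_, rfl⟩
      rw [← hn] at hf hm
      have hnk : n ≤ k / 2 := by
        by_contra hc
        exact hm (k / 2) (by omega) ⟨hk, hg⟩
      have hn1' : n1 ≤ n := by
        by_contra hc
        exact h3 n hf.1 (by omega) (by omega) hf.2
      simp only [Set.mem_iUnion]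
      refine ⟨n, mem_Ico.2 ⟨hn1', by omega⟩, h1, hf.2, ?_, hT gs h2 n hf.2⟩
      by_cases h33 : n = 3
      · exact Or.inl h33
      · right
        intro hc
        exact hm (n - 1) (by omega) ⟨by omega, hc⟩
  · right
    exact ⟨h1, hg, hT1 gs h2⟩

/-- **Lemma P**: the sum over the lists of the scale k without good pair up to n1 -/
theorem lemPW (hS : SelW K c) (hT : TallN) {m : ℕ} (hm2 : Even m) (hm6 : 6 ≤ m) (hmc : 10 ≤ c * ((m : ℝ) - 4)) :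
    ∃ C : ℝ, 1 ≤ C ∧ ∀ (H X : ℤ) (L k n1 : ℕ), k ≤ L → 3 ≤ n1 → n1 ≤ L + 3 →
      WS {gs | gs ∈ CCH H X m L k ∧ W1 (Tl (2 * m) L k) gs ∧ ∀ n, 3 ≤ n → n < n1 → 2 * n ≤ k → ¬ Gd k n gs} ≤
        ENNReal.ofReal (C * (1 / 4) ^ L * (1 / 4) ^ (L - k) * (1 / 2) ^ n1) := by
  obtain ⟨Kt, A, B, hKt, hB, hTn⟩ := hT (2 * m) (by omega)
  obtain ⟨C0, hC0, hnum⟩ := tall_num (A + m + 7) B hB
  have hK := hS.oneK
  have hc := hS.posc
  have hU0 := Ub_pos 0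
  obtain ⟨V, hV⟩ : ∃ V : ℝ, V = K * (m : ℝ) ^ 3 * Kt * (4 * K) ^ m * C0 := ⟨_, rfl⟩
  have hm1 : (1 : ℝ) ≤ m := by exact_mod_cast (by omega : 1 ≤ m)
  have hV0 : 0 ≤ V := by rw [hV]; positivity
  refine ⟨V * 2 ^ 15 * (1 + Ub 0) * 2 ^ 25 + 1, ?_, ?_⟩
  · have : 0 ≤ V * 2 ^ 15 * (1 + Ub 0) * 2 ^ 25 := by positivity
    linarith
  intro H X L k n1 hkL hn1 hn1L
  obtain ⟨i, rfl⟩ : ∃ i, L = k + i := ⟨L - k, by omega⟩
  have e1 : k + i - k = i := by omega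
  have e2 : k + i + 2 - k = i + 2 := by omega
  obtain ⟨q, hq⟩ : ∃ q, q = 2 ^ i / B := ⟨_, rfl⟩
  have hNW := hTn (k + i) k (by omega)
  rw [e1, ← hq] at hNW
  have hw0 : 0 ≤ Kt * 2 ^ (A * i) / 4 ^ q := by positivity
  have hnum' := hnum i
  rw [← hq] at hnum'
  have h4q : (0 : ℝ) < 4 ^ q := by positivity
  have key : ∀ a : ℕ, a ≤ A + m + 7 → (2 : ℝ) ^ (a * i) / 4 ^ q ≤ C0 := by
    intro a ha
    rw [div_le_iff₀ h4q]
    refine le_trans ?_ hnum'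
    exact pow_le_pow_right₀ (by norm_num) (Nat.mul_le_mul_right _ ha)
  rw [e1]
  obtain ⟨w, hw⟩ : ∃ w : ℝ, w = Kt * 2 ^ (A * i) / 4 ^ q := ⟨_, rfl⟩
  rw [← hw] at hNW hw0
  have hpow : (K * 2 ^ (i + 2)) ^ m * w = (4 * K) ^ m * Kt * ((2 : ℝ) ^ ((A + m) * i) / 4 ^ q) := by
    rw [hw, mul_pow, mul_pow, ← pow_mul]
    have e3 : (2 : ℝ) ^ ((i + 2) * m) = 4 ^ m * 2 ^ (m * i) := by
      rw [show (i + 2) * m = 2 * m + m * i by ring, pow_add, pow_mul]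
      norm_num
    rw [e3, add_mul, pow_add]
    ring
  have hP0 : 0 ≤ (K * 2 ^ (i + 2)) ^ m * w := by positivity
  have hUL : Ub (k + i) ≤ Ub 0 * (2 ^ k * 2 ^ i) := by
    rw [← pow_add]
    exact Ub_le _
  have hUL0 := (Ub_pos (k + i)).le
  have hn12 : (2 : ℝ) ^ n1 ≤ 2 ^ k * 2 ^ i * 8 := by
    calc (2 : ℝ) ^ n1 ≤ 2 ^ (k + i + 3) := pow_le_pow_right₀ (by norm_num) hn1L
      _ = _ := by rw [pow_add, pow_add]; norm_num
  have hm3 : (m : ℝ) ≤ (m : ℝ) ^ 3 := by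
    calc (m : ℝ) = (m : ℝ) ^ 1 := (pow_one _).symm
      _ ≤ _ := pow_le_pow_right₀ hm1 (by norm_num)
  have e4 : (4 : ℝ) ^ (k + i) = 2 ^ (2 * k) * 2 ^ (2 * i) := by
    rw [pow_add, pow_mul, pow_mul]
    norm_num
  rcases Nat.lt_or_ge k 6 with hk | hk
  · -- small k
    have h1 := hS.triv H X m (k + i) k (Tl (2 * m) (k + i) k) w hm2 (by omega) (by omega) hw0 hNW
    rw [e2] at h1
    refine (WS_mono ?_).trans (h1.trans (ENNReal.ofReal_le_ofReal (of_mul ?_)))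
    · rintro gs ⟨g1, g2, -⟩
      exact ⟨g1, g2⟩
    · have h2 : K * m * Ub (k + i) * w * (K * 2 ^ (i + 2)) ^ m * (4 ^ (k + i) * 2 ^ (2 * i) * 2 ^ n1) ≤
          K * (m : ℝ) ^ 3 * (Ub 0 * (2 ^ k * 2 ^ i)) * ((K * 2 ^ (i + 2)) ^ m * w) *
            (4 ^ (k + i) * 2 ^ (2 * i) * (2 ^ k * 2 ^ i * 8)) := by
        calc K * m * Ub (k + i) * w * (K * 2 ^ (i + 2)) ^ m * (4 ^ (k + i) * 2 ^ (2 * i) * 2 ^ n1) =
            K * m * Ub (k + i) * ((K * 2 ^ (i + 2)) ^ m * w) * (4 ^ (k + i) * 2 ^ (2 * i) * 2 ^ n1) := by ring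
          _ ≤ _ := by gcongr
      refine h2.trans ?_
      have h3 := key (A + m + 6) (by omega)
      have h4 : (2 : ℝ) ^ ((A + m + 6) * i) = 2 ^ ((A + m) * i) * 2 ^ (6 * i) := by
        rw [add_mul, pow_add]
      have h5 : (2 : ℝ) ^ (4 * k + 3) ≤ 2 ^ 23 := pow_le_pow_right₀ (by norm_num) (by omega)
      rw [hpow, e4]
      calc K * (m : ℝ) ^ 3 * (Ub 0 * (2 ^ k * 2 ^ i)) * ((4 * K) ^ m * Kt * ((2 : ℝ) ^ ((A + m) * i) / 4 ^ q)) *
            (2 ^ (2 * k) * 2 ^ (2 * i) * 2 ^ (2 * i) * (2 ^ k * 2 ^ i * 8)) =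
            K * (m : ℝ) ^ 3 * Ub 0 * (4 * K) ^ m * Kt * (2 ^ (4 * k + 3)) * (2 ^ ((A + m + 6) * i) / 4 ^ q) := by
            rw [h4]
            ring
        _ ≤ K * (m : ℝ) ^ 3 * Ub 0 * (4 * K) ^ m * Kt * (2 ^ 23) * C0 := by gcongr
        _ = V * Ub 0 * 2 ^ 23 := by rw [hV]; ring
        _ ≤ _ := by nlinarith [mul_nonneg hV0 hU0.le]
  · -- large k
    have hcov := coverW (H := H) (X := X) (m := m) (L := k + i) (k := k) (n1 := n1) (W := Tl (2 * m) (k + i) k)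
      (T := {gs | W1 (Tl (2 * m) (k + i) k) gs}) (fun gs h n h' => GW_of_W1 h' h) (fun gs h => h) hn1 hk
    refine (WS_mono hcov).trans ((WS_union _ _).trans ((add_le_add (WS_bU _ _) le_rfl).trans ?_))
    obtain ⟨G, hG⟩ : ∃ G : ℝ, G = K * (m : ℝ) ^ 3 * (1 / 4) ^ k * ((K * 2 ^ (i + 2)) ^ m * w) * 2 ^ 13 := ⟨_, rfl⟩
    have hG0 : 0 ≤ G := by rw [hG]; positivity
    have hterm : ∀ n ∈ Ico n1 (k / 2 + 1),
        WS {gs | gs ∈ CCH H X m (k + i) k ∧ Gd k n gs ∧ (n = 3 ∨ ¬ Gd k (n - 1) gs) ∧ GW k n (Tl (2 * m) (k + i) k) gs} ≤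
          ENNReal.ofReal (G * (1 / 2) ^ n) := by
      intro n hn
      rw [mem_Ico] at hn
      have h1 := hS.sel H X m (k + i) k n (Tl (2 * m) (k + i) k) w hm2 hm6 (by omega) (by omega) (by omega) hw0 hNW
      rw [e2] at h1
      refine h1.trans (ENNReal.ofReal_le_ofReal ?_)
      have h2 := win_num (c := c) (m := m) (n := n) (by omega) hmc (by omega)
      have h3 : (K * 2 ^ (i + 2)) ^ 4 * (K * 2 ^ (i + 2)) ^ (m - 4) = (K * 2 ^ (i + 2)) ^ m := by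
        rw [← pow_add]
        congr 1
        omega
      rw [two_neg, mul_pow (K * 2 ^ (i + 2))]
      calc K * (m : ℝ) ^ 3 * (1 / 4) ^ k * 2 ^ (13 / 4 * (n : ℝ)) * (K * 2 ^ (i + 2)) ^ 4 * w *
            ((K * 2 ^ (i + 2)) ^ (m - 4) * (if n = 3 then 1 else (2 : ℝ) ^ (-(c * ((n : ℝ) - 1)))) ^ (m - 4)) =
            K * (m : ℝ) ^ 3 * (1 / 4) ^ k * (((K * 2 ^ (i + 2)) ^ 4 * (K * 2 ^ (i + 2)) ^ (m - 4)) * w) *
              (2 ^ (13 / 4 * (n : ℝ)) * (if n = 3 then 1 else (2 : ℝ) ^ (-(c * ((n : ℝ) - 1)))) ^ (m - 4)) := by ring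
        _ ≤ K * (m : ℝ) ^ 3 * (1 / 4) ^ k * (((K * 2 ^ (i + 2)) ^ 4 * (K * 2 ^ (i + 2)) ^ (m - 4)) * w) *
              (2 ^ 13 * (1 / 2) ^ n) := by gcongr
        _ = G * (1 / 2) ^ n := by rw [h3, hG]; ring
    have hnone := hS.none H X m (k + i) k (k / 2) (Tl (2 * m) (k + i) k) w hm2 hm6 (by omega) (by omega) (by omega) hw0 hNW
    rw [e2] at hnone
    refine (add_le_add (Finset.sum_le_sum hterm) hnone).trans ?_
    rw [← ENNReal.ofReal_sum_of_nonneg (fun n _ => by positivity), ← Finset.mul_sum,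
      ← ENNReal.ofReal_add (by
        have : ∀ n ∈ Ico n1 (k / 2 + 1), (0 : ℝ) ≤ (1 / 2) ^ n := fun n _ => by positivity
        exact mul_nonneg hG0 (Finset.sum_nonneg this)) (by positivity)]
    refine ENNReal.ofReal_le_ofReal (of_mul ?_)
    rw [add_mul]
    have hA1 : G * (∑ n ∈ Ico n1 (k / 2 + 1), (1 / 2 : ℝ) ^ n) * (4 ^ (k + i) * 2 ^ (2 * i) * 2 ^ n1) ≤ V * 2 ^ 14 := by
      have h1 := geo_tail n1 (k / 2 + 1)
      have h2 : (1 / 2 : ℝ) ^ n1 * 2 ^ n1 = 1 := by rw [← mul_pow]; norm_num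
      have h3 := key (A + m + 4) (by omega)
      have h4 : (2 : ℝ) ^ ((A + m + 4) * i) = 2 ^ ((A + m) * i) * 2 ^ (4 * i) := by
        rw [add_mul, pow_add]
      have h5 : (1 / 4 : ℝ) ^ k * 2 ^ (2 * k) = 1 := by
        rw [pow_mul, ← mul_pow]
        norm_num
      calc G * (∑ n ∈ Ico n1 (k / 2 + 1), (1 / 2 : ℝ) ^ n) * (4 ^ (k + i) * 2 ^ (2 * i) * 2 ^ n1) ≤
            G * (2 * (1 / 2) ^ n1) * (4 ^ (k + i) * 2 ^ (2 * i) * 2 ^ n1) := by gcongr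
        _ = K * (m : ℝ) ^ 3 * (4 * K) ^ m * Kt * 2 ^ 14 * (2 ^ ((A + m + 4) * i) / 4 ^ q) *
              ((1 / 4 : ℝ) ^ k * 2 ^ (2 * k)) * ((1 / 2 : ℝ) ^ n1 * 2 ^ n1) := by
            rw [hG, hpow, e4, h4]
            ring
        _ = K * (m : ℝ) ^ 3 * (4 * K) ^ m * Kt * 2 ^ 14 * (2 ^ ((A + m + 4) * i) / 4 ^ q) := by
            rw [h2, h5, mul_one, mul_one]
        _ ≤ K * (m : ℝ) ^ 3 * (4 * K) ^ m * Kt * 2 ^ 14 * C0 := by gcongr
        _ = V * 2 ^ 14 := by rw [hV]; ring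
    have hA2 : K * (m : ℝ) ^ 3 * Ub (k + i) * (K * 2 ^ (i + 2)) ^ 3 * w *
        (K * 2 ^ (i + 2) * (2 : ℝ) ^ (-(c * ((k / 2 : ℕ) : ℝ)))) ^ (m - 3) * (4 ^ (k + i) * 2 ^ (2 * i) * 2 ^ n1) ≤
        V * Ub 0 * 2 ^ 8 := by
      have h1 : ((2 : ℝ) ^ (-(c * ((k / 2 : ℕ) : ℝ)))) ^ (m - 3) ≤ 2 ^ 5 * (1 / 2) ^ (5 * k) := by
        have h2 : (2 : ℝ) ^ 5 * (1 / 2) ^ (5 * k) = (2 : ℝ) ^ ((5 : ℝ) - 5 * k) := by
          rw [Real.rpow_sub (by norm_num), one_div, inv_pow, div_eq_mul_inv]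
          congr 1
          · norm_num
          · rw [show (5 : ℝ) * k = ((5 * k : ℕ) : ℝ) by push_cast; ring, Real.rpow_natCast]
        rw [h2, ← Real.rpow_natCast, ← Real.rpow_mul (by norm_num)]
        refine Real.rpow_le_rpow_of_exponent_le (by norm_num) ?_
        rw [Nat.cast_sub (by omega)]
        have h3 : ((k : ℝ) - 1) / 2 ≤ ((k / 2 : ℕ) : ℝ) := by
          have : k ≤ 2 * (k / 2) + 1 := by omega
          have : (k : ℝ) ≤ 2 * ((k / 2 : ℕ) : ℝ) + 1 := by exact_mod_cast this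
          linarith
        have h4 : (6 : ℝ) ≤ k := by exact_mod_cast hk
        have h5 : 10 ≤ c * ((m : ℝ) - 3) := by nlinarith
        push_cast
        nlinarith
      have h3 : (K * 2 ^ (i + 2)) ^ 3 * (K * 2 ^ (i + 2)) ^ (m - 3) = (K * 2 ^ (i + 2)) ^ m := by
        rw [← pow_add]
        congr 1
        omega
      have h4 : (2 : ℝ) ^ ((A + m + 6) * i) = 2 ^ ((A + m) * i) * 2 ^ (6 * i) := by
        rw [add_mul, pow_add]
      have h5 := key (A + m + 6) (by omega)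
      have h6 : (1 / 2 : ℝ) ^ (5 * k) * 2 ^ (4 * k) ≤ 1 := by
        have : (1 / 2 : ℝ) ^ (5 * k) * 2 ^ (4 * k) = (1 / 2) ^ k * ((1 / 2) ^ (4 * k) * 2 ^ (4 * k)) := by
          rw [show 5 * k = k + 4 * k by ring, pow_add]
          ring
        rw [this, ← mul_pow (1 / 2 : ℝ) 2 (4 * k)]
        norm_num
        exact pow_le_one₀ (by norm_num) (by norm_num)
      calc K * (m : ℝ) ^ 3 * Ub (k + i) * (K * 2 ^ (i + 2)) ^ 3 * w *
            (K * 2 ^ (i + 2) * (2 : ℝ) ^ (-(c * ((k / 2 : ℕ) : ℝ)))) ^ (m - 3) * (4 ^ (k + i) * 2 ^ (2 * i) * 2 ^ n1) =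
            K * (m : ℝ) ^ 3 * Ub (k + i) * (((K * 2 ^ (i + 2)) ^ 3 * (K * 2 ^ (i + 2)) ^ (m - 3)) * w) *
              ((2 : ℝ) ^ (-(c * ((k / 2 : ℕ) : ℝ)))) ^ (m - 3) * (4 ^ (k + i) * 2 ^ (2 * i) * 2 ^ n1) := by
            rw [mul_pow (K * 2 ^ (i + 2))]
            ring
        _ = K * (m : ℝ) ^ 3 * Ub (k + i) * ((K * 2 ^ (i + 2)) ^ m * w) *
              ((2 : ℝ) ^ (-(c * ((k / 2 : ℕ) : ℝ)))) ^ (m - 3) * (4 ^ (k + i) * 2 ^ (2 * i) * 2 ^ n1) := by rw [h3]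
        _ ≤ K * (m : ℝ) ^ 3 * (Ub 0 * (2 ^ k * 2 ^ i)) * ((K * 2 ^ (i + 2)) ^ m * w) *
              (2 ^ 5 * (1 / 2) ^ (5 * k)) * (4 ^ (k + i) * 2 ^ (2 * i) * (2 ^ k * 2 ^ i * 8)) := by gcongr
        _ = K * (m : ℝ) ^ 3 * Ub 0 * (4 * K) ^ m * Kt * 2 ^ 8 * (2 ^ ((A + m + 6) * i) / 4 ^ q) *
              ((1 / 2 : ℝ) ^ (5 * k) * 2 ^ (4 * k)) := by
            rw [hpow, e4, h4]
            ring
        _ ≤ K * (m : ℝ) ^ 3 * Ub 0 * (4 * K) ^ m * Kt * 2 ^ 8 * C0 * 1 := by gcongr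
        _ = V * Ub 0 * 2 ^ 8 := by rw [hV]; ring
    refine (add_le_add hA1 hA2).trans ?_
    nlinarith [mul_nonneg hV0 hU0.le]

/-- short lists -/
lemma small_listsW (hS : SelW K c) (hT : TallN) (m : ℕ) : ∃ C : ℝ, 0 ≤ C ∧ (Even m → 2 ≤ m → ∀ (H X : ℤ) (L : ℕ),
    WS (SKW H X m L 0) ≤ ENNReal.ofReal (C * (1 / 8) ^ L)) := by
  by_cases hm : Even m ∧ 2 ≤ m
  swap
  · exact ⟨0, le_rfl, fun h1 h2 => absurd ⟨h1, h2⟩ hm⟩
  obtain ⟨hm2, hm1⟩ := hm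
  obtain ⟨Kt, A, B, hKt, hB, hTn⟩ := hT (2 * m) (by omega)
  obtain ⟨C0, hC0, hnum⟩ := tall_num (A + m + 4) B hB
  have hK := hS.oneK
  have hU0 := Ub_pos 0
  refine ⟨K * m * Ub 0 * Kt * (4 * K) ^ m * C0, by positivity, fun _ _ H X L => ?_⟩
  have hNW := hTn L 0 (Nat.zero_le _)
  rw [Nat.sub_zero] at hNW
  have h1 := hS.triv H X m L 0 (Tl (2 * m) L 0) _ hm2 hm1 (Nat.zero_le _) (by positivity) hNW
  rw [Nat.sub_zero] at h1
  refine (WS_mono ?_).trans (h1.trans (ENNReal.ofReal_le_ofReal ?_))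
  · rintro gs ⟨g1, g2⟩
    exact ⟨g1, g2⟩
  · obtain ⟨q, hq⟩ : ∃ q, q = 2 ^ L / B := ⟨_, rfl⟩
    have hnum' := hnum L
    rw [← hq] at hnum' ⊢
    have h4q : (0 : ℝ) < 4 ^ q := by positivity
    have e3 : (K * 2 ^ (L + 2)) ^ m = (4 * K) ^ m * 2 ^ (m * L) := by
      rw [mul_pow, mul_pow, ← pow_mul, show (L + 2) * m = 2 * m + m * L by ring, pow_add, pow_mul]
      norm_num
      ring
    have h8 : (8 : ℝ) ^ L * (1 / 8) ^ L = 1 := by rw [← mul_pow]; norm_num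
    have e8 : (8 : ℝ) ^ L = 2 ^ (3 * L) := by rw [pow_mul]; norm_num
    have h2 : K * m * Ub L * (Kt * 2 ^ (A * L) / 4 ^ q) * (K * 2 ^ (L + 2)) ^ m * 8 ^ L ≤
        K * m * Ub 0 * Kt * (4 * K) ^ m * C0 := by
      calc K * m * Ub L * (Kt * 2 ^ (A * L) / 4 ^ q) * (K * 2 ^ (L + 2)) ^ m * 8 ^ L ≤
            K * m * (Ub 0 * 2 ^ L) * (Kt * 2 ^ (A * L) / 4 ^ q) * (K * 2 ^ (L + 2)) ^ m * 8 ^ L := by
            gcongr
            exact Ub_le L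
        _ = K * m * Ub 0 * Kt * (4 * K) ^ m * (2 ^ ((A + m + 4) * L) / 4 ^ q) := by
            rw [e3, e8, show (A + m + 4) * L = L + A * L + m * L + 3 * L by ring, pow_add, pow_add, pow_add]
            ring
        _ ≤ K * m * Ub 0 * Kt * (4 * K) ^ m * C0 := by
            refine mul_le_mul_of_nonneg_left ?_ (by positivity)
            rw [div_le_iff₀ h4q]
            exact hnum'
    calc K * m * Ub L * (Kt * 2 ^ (A * L) / 4 ^ q) * (K * 2 ^ (L + 2)) ^ m =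
          K * m * Ub L * (Kt * 2 ^ (A * L) / 4 ^ q) * (K * 2 ^ (L + 2)) ^ m * 8 ^ L * (1 / 8) ^ L := by
          rw [mul_assoc _ (8 ^ L : ℝ), h8, mul_one]
      _ ≤ _ := mul_le_mul_of_nonneg_right h2 (by positivity)

/-- the length of a period of a small scale -/
lemma len_smallW {P : Pt} {L : ℕ} {Z : Set (List Bool)} (hZ : ZW P L Z) {z : List Bool} (hz : z ∈ Z) :
    z.length ≤ 2 * 4 ^ (L + 5) := by
  have hcw := hZ.cw hz
  obtain ⟨h1, h2, h3, h4⟩ := hcw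
  have hlen : 0 < z.length := List.length_pos_iff.2 h1
  have hl : z.dropLast.length = z.length - 1 := List.length_dropLast
  have hv : ∀ i, i ≤ z.dropLast.length → vx oo up z.dropLast i = pv z i := by
    intro i hi
    have e : z = z.dropLast ++ [z.getLast h1] := (List.dropLast_append_getLast h1).symm
    rw [← vx_eq_pv (by omega)]
    conv_rhs => rw [e]
    exact (vx_append (by omega)).symm
  have hSA : z.dropLast ∈ SA := by
    refine ⟨fun _ _ _ => Set.mem_univ _, ?_⟩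
    intro i k hik hk
    rw [hv i (by omega), hv k hk]
    exact h4 i k (by omega)
  have hWL : z.dropLast ∈ WL (L + 3) := by
    refine ⟨hSA, fun i hi dir => ?_⟩
    rw [hv i hi]
    have e0 : pv z 0 = oo := rfl
    cases dir
    · have h5 := hZ.box z hz 0 i (by omega) (by omega)
      have h6 : row false (pv z 0) = 0 := by
        rw [e0]
        decide
      rw [h6, zero_sub, abs_neg] at h5
      refine h5.trans ?_
      exact_mod_cast Nat.pow_le_pow_right (show 0 < 2 by norm_num) (show L + 1 ≤ L + 3 by omega)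
    · have h5 := hZ.boxT z hz 0 i (by omega) (by omega)
      have h6 : row true (pv z 0) = 0 := by
        rw [e0]
        decide
      rwa [h6, zero_sub, abs_neg] at h5
  have h5 := nb_zero hSA
  have h6 : nb 0 z.dropLast ≤ 4 ^ (L + 5) := DimMain.nb_box hWL (L + 4) 0 (by omega)
  omega

/-- a finite bound for the small scales -/
lemma tinyW (N : ℕ) : ∃ C : ℝ, 0 ≤ C ∧ ∀ Z : Set (List Bool), (∀ z ∈ Z, z.length ≤ N) →
    ∑' z : Z, wE z.1 ≤ ENNReal.ofReal C := by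
  have hfin : {z : List Bool | z.length ≤ N}.Finite := List.finite_length_le Bool N
  obtain ⟨R, hR⟩ : ∃ R : ℝ≥0∞, R = ∑' _ : {z : List Bool | z.length ≤ N}, (1 : ℝ≥0∞) := ⟨_, rfl⟩
  have hRt : R ≠ ⊤ := by
    rw [hR]
    have := hfin.fintype
    rw [tsum_fintype]
    simp only [Finset.sum_const, nsmul_eq_mul]
    exact ENNReal.mul_ne_top (ENNReal.natCast_ne_top _) ENNReal.one_ne_top
  refine ⟨R.toReal, ENNReal.toReal_nonneg, fun Z hZ => ?_⟩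
  rw [ENNReal.ofReal_toReal hRt, hR]
  refine (ENNReal.tsum_le_tsum (g := fun _ : Z => (1 : ℝ≥0∞)) fun z => B2b_wE_le_one z.1).trans ?_
  exact ENNReal.tsum_mono_subtype (fun _ => (1 : ℝ≥0∞)) (show Z ⊆ {z : List Bool | z.length ≤ N} from hZ)

lemma ZW.sub {P : Pt} {L : ℕ} {Z Z' : Set (List Bool)} (h : ZW P L Z) (h' : Z' ⊆ Z) : ZW P L Z' :=
  ⟨h'.trans h.cw, fun z hz z' hz' r e => h.uniq z (h' hz) z' (h' hz') r e, fun z hz => h.box z (h' hz),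
    fun z hz => h.boxT z (h' hz), fun z hz => h.ext z (h' hz)⟩

/-- **the weight of the periodic walks of the scale L** -/
theorem starW_of (hS : SelW K c) (hT : TallN) (hR : RedW) (hSm : SmallW) : StarW := by
  classical
  have hK := hS.oneK
  have hc := hS.posc
  obtain ⟨m, hm⟩ : ∃ m : ℕ, m = 2 * ⌈5 / c⌉₊ + 6 := ⟨_, rfl⟩
  have hm2 : Even m := ⟨⌈5 / c⌉₊ + 3, by omega⟩
  have hm6 : 6 ≤ m := by omega
  have hmc : 10 ≤ c * ((m : ℝ) - 4) := by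
    have h1 : 5 / c ≤ (⌈5 / c⌉₊ : ℝ) := Nat.le_ceil _
    rw [div_le_iff₀ hc] at h1
    rw [hm]
    push_cast
    nlinarith
  obtain ⟨CP, hCP, hP⟩ := lemPW hS hT hm2 hm6 hmc
  choose Cf hCf0 hCf using small_listsW hS hT
  obtain ⟨Cs, hCs⟩ : ∃ Cs : ℝ, Cs = ∑ m' ∈ (range m).filter (fun m' => Even m' ∧ 2 ≤ m'), Cf m' := ⟨_, rfl⟩
  have hCs0 : 0 ≤ Cs := by rw [hCs]; exact Finset.sum_nonneg fun _ _ => hCf0 _
  obtain ⟨C16, hC16, hs16⟩ := hSm 16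
  obtain ⟨C4, hC4, htiny⟩ := tinyW (2 * 4 ^ (5 + 5))
  -- the big drawdowns
  have big : ∀ (P : Pt) (L : ℕ) (Z : Set (List Bool)), 1 ≤ row false P → 6 ≤ L → ZW P L Z → (∀ z ∈ Z, ¬ DD 16 z) →
      ∑' z : Z, wE z.1 ≤ ENNReal.ofReal ((2 * CP + Cs) * (1 / 4) ^ L) := by
    intro P L Z hP1 hL hZ hD
    obtain ⟨H, X, hred⟩ := hR P m L Z hP1 hm2 (by omega) hL hZ hD
    refine hred.trans ?_
    have e1 : (2 * CP + Cs) * (1 / 4 : ℝ) ^ L = 2 * CP * (1 / 4) ^ L + Cs * (1 / 4) ^ L := by ring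
    rw [e1, ENNReal.ofReal_add (by positivity) (by positivity)]
    refine add_le_add ?_ ?_
    · have h1 : ∀ k ∈ range (L + 1), ∑' gs : SKW H X m L k, SDN.wl gs.1 ≤
          ENNReal.ofReal (CP * (1 / 4) ^ L * (1 / 4) ^ (L - k)) := by
        intro k hk
        rw [mem_range] at hk
        have h2 := hP H X L k 3 (by omega) le_rfl (by omega)
        have h3 : WS (SKW H X m L k) ≤ ENNReal.ofReal (CP * (1 / 4) ^ L * (1 / 4) ^ (L - k)) := by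
          refine (WS_mono ?_).trans (h2.trans (ENNReal.ofReal_le_ofReal ?_))
          · rintro gs ⟨g1, g2⟩
            exact ⟨g1, g2, fun n h3 h4 => by omega⟩
          · have h6 : (1 / 2 : ℝ) ^ 3 ≤ 1 := by norm_num
            calc CP * (1 / 4) ^ L * (1 / 4) ^ (L - k) * (1 / 2) ^ 3 ≤ CP * (1 / 4) ^ L * (1 / 4) ^ (L - k) * 1 := by
                  gcongr
              _ = _ := mul_one _
        exact h3
      refine (Finset.sum_le_sum h1).trans ?_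
      rw [← ENNReal.ofReal_sum_of_nonneg (fun k _ => by positivity)]
      refine ENNReal.ofReal_le_ofReal ?_
      rw [← Finset.mul_sum]
      have h2 := geo_scales (a := 1 / 4) (by norm_num) (by norm_num) L
      calc CP * (1 / 4) ^ L * (∑ k ∈ range (L + 1), (1 / 4 : ℝ) ^ (L - k)) ≤ CP * (1 / 4) ^ L * 2 := by gcongr
        _ = _ := by ring
    · have h1 : ∀ m' ∈ (range m).filter (fun m' => Even m' ∧ 2 ≤ m'), ∑' gs : SKW H X m' L 0, SDN.wl gs.1 ≤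
            ENNReal.ofReal (Cf m' * (1 / 4) ^ L) := by
        intro m' hm'
        rw [mem_filter, mem_range] at hm'
        refine (hCf m' hm'.2.1 hm'.2.2 H X L).trans (ENNReal.ofReal_le_ofReal ?_)
        have h8 : (1 / 8 : ℝ) ^ L ≤ (1 / 4) ^ L := pow_le_pow_left₀ (by norm_num) (by norm_num) L
        exact mul_le_mul_of_nonneg_left h8 (hCf0 m')
      refine (Finset.sum_le_sum h1).trans ?_
      rw [← ENNReal.ofReal_sum_of_nonneg (fun m' _ => by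
        have := hCf0 m'
        positivity), ← Finset.sum_mul, ← hCs]
  refine ⟨2 * CP + Cs + C16 + C4 * 4 ^ 6, by positivity, fun P L Z hP1 hZ => ?_⟩
  have hq : (0 : ℝ) < (1 / 4) ^ L := by positivity
  rcases Nat.lt_or_ge L 6 with hL | hL
  · refine (htiny Z ?_).trans (ENNReal.ofReal_le_ofReal ?_)
    · intro z hz
      refine (len_smallW hZ hz).trans ?_
      exact Nat.mul_le_mul_left _ (Nat.pow_le_pow_right (by norm_num) (by omega))
    · have h1 : (1 : ℝ) ≤ 4 ^ 6 * (1 / 4) ^ L := by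
        have h2 : (1 / 4 : ℝ) ^ 6 ≤ (1 / 4) ^ L := pow_le_pow_of_le_one (by norm_num) (by norm_num) (by omega)
        calc (1 : ℝ) = 4 ^ 6 * (1 / 4) ^ 6 := by norm_num
          _ ≤ _ := by gcongr
      have h3 : C4 ≤ C4 * 4 ^ 6 * (1 / 4) ^ L := by
        calc C4 = C4 * 1 := (mul_one _).symm
          _ ≤ C4 * (4 ^ 6 * (1 / 4) ^ L) := by gcongr
          _ = C4 * 4 ^ 6 * (1 / 4) ^ L := by ring
      have h4 : 0 ≤ (2 * CP + Cs + C16) * (1 / 4) ^ L := by positivity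
      calc C4 ≤ C4 * 4 ^ 6 * (1 / 4) ^ L + (2 * CP + Cs + C16) * (1 / 4) ^ L := by linarith
        _ = _ := by ring
  · have h1 := big P L {z | z ∈ Z ∧ ¬ DD 16 z} hP1 hL (hZ.sub fun z hz => hz.1) fun z hz => hz.2
    have h2 := hs16 P L {z | z ∈ Z ∧ DD 16 z} hP1 (hZ.sub fun z hz => hz.1) fun z hz => hz.2
    have h3 : Z ⊆ {z | z ∈ Z ∧ ¬ DD 16 z} ∪ {z | z ∈ Z ∧ DD 16 z} := by
      intro z hz
      by_cases h : DD 16 z
      · exact Or.inr ⟨hz, h⟩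
      · exact Or.inl ⟨hz, h⟩
    refine (ENNReal.tsum_mono_subtype wE h3).trans ((ENNReal.tsum_union_le wE _ _).trans ((add_le_add h1 h2).trans ?_))
    rw [← ENNReal.ofReal_add (by positivity) (by positivity)]
    refine ENNReal.ofReal_le_ofReal ?_
    have h4 : 0 ≤ C4 * 4 ^ 6 * (1 / 4) ^ L := by positivity
    linarith

end PLW

end HexObs
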