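import Pool.Agent.PLW.CylWind
import Pool.Agent.HexLoop.Meet
import Pool.Agent.HexLoop.Shift

/-!
PLW (W7c): the contractible polygons of the cylinder. A contractible polygon surrounds at most one lift of a face f; if
it surrounds one, then it has a vertex near f; the sum over those that are not contained in the ball around f is bounded.
-/

set_option autoImplicit false

namespace Pool.Agent.NUF.Cyl

open HexObs HexObs.LP Finset

/-! ### 1. The planar polygon -/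

lemma cl_sPN (N : ℕ) (j : ℤ) : cl (j • PN N) = 0 := by
  unfold cl PN
  simp

/-- normalisation of a directed edge -/
def nE (N : ℕ) (hN : 1 ≤ N) (p : Pt × Pt) : Pt × Pt := ((Cy N hN).nm p.1, p.2)

lemma nm_add_PN {N : ℕ} (hN : 1 ≤ N) (w : Pt) (j : ℤ) : (Cy N hN).nm (w + j • PN N) = (Cy N hN).nm w :=
  (nm_eq_iff hN _ _).2 ⟨j, rfl⟩

lemma sPN_inj {N : ℕ} (hN : 1 ≤ N) {j : ℤ} (h : j • PN N = 0) : j = 0 := by
  rcases smul_eq_zero.1 h with h | h
  · exact h
  · exfalso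
    have h1 := congrArg Prod.fst h
    unfold PN at h1
    simp at h1
    omega

lemma lv_sPN (N : ℕ) (j : ℤ) : lv (j • PN N) = 3 * (N * j) := by
  unfold lv PN
  simp only [Prod.smul_fst, Prod.smul_snd, smul_eq_mul]
  ring

section CP

variable {N : ℕ} {hN : 1 ≤ N} {v d : Pt} {τ : ℕ → Bool} {m : ℕ}

theorem CPoly.poly (h : CPoly (Cy N hN) v d τ m) (hc : vs v d τ m = v) : LP.Poly v d τ m :=
  ⟨h.pos, h.de, h.per, hc, h.cld, fun i k h1 h2 e => h.inj i k h1 h2 (by rw [e])⟩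

lemma cpe_eq : cpe (Cy N hN) v d τ m = (pe v d τ m).image (nE N hN) := by
  unfold cpe pe
  rw [Finset.image_image]
  rfl

theorem CPoly.card (h : CPoly (Cy N hN) v d τ m) (hc : vs v d τ m = v) :
    (cpe (Cy N hN) v d τ m).card = (pe v d τ m).card := by
  rw [pe_card (h.poly hc)]
  unfold cpe
  rw [Finset.card_image_of_injOn, Finset.card_range]
  intro i hi k hk hik
  rw [Finset.mem_coe, Finset.mem_range] at hi hk
  have h0 : (Cy N hN).nm (vs v d τ i) = (Cy N hN).nm (vs v d τ k) := congrArg Prod.fst hik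
  rcases lt_trichotomy i k with h1 | h1 | h1
  · exact absurd h0 (h.inj i k h1 hk)
  · exact h1
  · exact absurd h0.symm (h.inj k i h1 hi)

lemma mem_VEpe {w : Pt} : w ∈ VE (pe v d τ m) ↔ ∃ i, i < m ∧ vs v d τ i = w := by
  unfold VE pe
  rw [Finset.image_image, Finset.mem_image]
  constructor
  · rintro ⟨i, hi, rfl⟩
    exact ⟨i, Finset.mem_range.1 hi, rfl⟩
  · rintro ⟨i, hi, rfl⟩
    exact ⟨i, Finset.mem_range.2 hi, rfl⟩

/-- a polygon is disjoint from its translates -/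
theorem CPoly.disj (h : CPoly (Cy N hN) v d τ m) {w : Pt} {j : ℤ} (h1 : w ∈ VE (pe v d τ m))
    (h2 : w + j • PN N ∈ VE (pe v d τ m)) : j = 0 := by
  obtain ⟨i, hi, hi2⟩ := mem_VEpe.1 h1
  obtain ⟨k, hk, hk2⟩ := mem_VEpe.1 h2
  have h3 : (Cy N hN).nm (vs v d τ k) = (Cy N hN).nm (vs v d τ i) := by
    rw [hi2, hk2, nm_add_PN hN]
  have h4 : i = k := by
    rcases lt_trichotomy i k with h5 | h5 | h5
    · exact absurd h3.symm (h.inj i k h5 hk)
    · exact h5
    · exact absurd h3 (h.inj k i h5 hi)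
  rw [← h4, hi2] at hk2
  exact sPN_inj hN (left_eq_add.1 hk2)

lemma lv_dirs : ∀ d ∈ dirs, -2 ≤ lv d ∧ lv d ≤ 2 := by decide

/-- a polygon surrounds at most one lift of a face, positive multiples of the period -/
lemma CPoly.lift_pos (h : CPoly (Cy N hN) v d τ m) (hc : vs v d τ m = v) {g : Pt} (hg : Fc g) {j : ℤ} (hj : 0 < j)
    (h1 : Nw (pe v d τ m) g ≠ 0) (h2 : Nw (pe v d τ m) (g + j • PN N) ≠ 0) : False := by
  have hP := h.poly hc
  have hE : IsPoly (pe v d τ m) := ⟨v, d, τ, m, hP, rfl⟩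
  obtain ⟨E, hEe⟩ : ∃ E, E = pe v d τ m := ⟨_, rfl⟩
  have hdj : ∀ w, w ∈ VE E → w + j • PN N ∈ VE E → False := by
    intro w h3 h4
    rw [hEe] at h3 h4
    have := h.disj h3 h4
    omega
  rw [← hEe] at hE h1 h2
  obtain ⟨z, hz⟩ : ∃ z, z = j • PN N := ⟨_, rfl⟩
  rw [← hz] at h2 hdj
  have hzc : cl (-z) = 0 := by
    rw [hz, ← neg_smul]
    exact cl_sPN N _
  have hE' : IsPoly (TE (-z) E) := isPoly_TE hzc hE
  have h2' : Nw (TE (-z) E) g ≠ 0 := by
    have h3 := Nw_TE (-z) (g + z) E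
    rw [add_neg_cancel_right] at h3
    rw [h3]
    exact h2
  have hV : ∀ w, w ∈ VE (TE (-z) E) ↔ w + z ∈ VE E := by
    intro w
    rw [VE_TE, mem_Ti, sub_neg_eq_add]
  have hlz : 3 ≤ lv z := by
    rw [hz, lv_sPN]
    have h3 : (1 : ℤ) ≤ N := by exact_mod_cast hN
    nlinarith
  rcases nested_or hE hE' (fun w h3 h4 => hdj w h3 ((hV w).1 h4)) hg h1 h2' with h3 | h3
  · obtain ⟨w0, hw0, hmin⟩ := Finset.exists_min_image (VE E) lv (VE_nonempty hE)
    have h4 : w0 - z ∈ VE (TE (-z) E) := by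
      rw [hV, sub_add_cancel]
      exact hw0
    obtain ⟨_, _, e, he, _, h5⟩ := h3 _ h4
    apply h5
    apply Nw_low
    intro u hu
    have h6 := hmin u hu
    have h7 := lv_dirs e he
    have h8 : lv (w0 - z + e) = lv w0 - lv z + lv e := by
      unfold lv
      simp only [Prod.fst_add, Prod.snd_add, Prod.fst_sub, Prod.snd_sub]
      ring
    omega
  · obtain ⟨w1, hw1, hmax⟩ := Finset.exists_max_image (VE E) lv (VE_nonempty hE)
    obtain ⟨_, _, e, he, _, h5⟩ := h3 _ hw1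
    apply h5
    apply Nw_high hE'
    intro u hu
    have h6 := hmax _ ((hV u).1 hu)
    have h7 := lv_dirs e he
    have h8 : lv (u + z) = lv u + lv z := by
      unfold lv
      simp only [Prod.fst_add, Prod.snd_add]
      ring
    have h9 : lv (w1 + e) = lv w1 + lv e := by
      unfold lv
      simp only [Prod.fst_add, Prod.snd_add]
      ring
    omega

/-- a polygon surrounds at most one lift of a face -/
theorem CPoly.one_lift (h : CPoly (Cy N hN) v d τ m) (hc : vs v d τ m = v) {g : Pt} (hg : Fc g) {j : ℤ}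
    (h1 : Nw (pe v d τ m) g ≠ 0) (h2 : Nw (pe v d τ m) (g + j • PN N) ≠ 0) : j = 0 := by
  rcases lt_trichotomy j 0 with h3 | h3 | h3
  · exfalso
    refine h.lift_pos hc (g := g + j • PN N) (j := -j) ((tr_Fc (cl_sPN N j)).2 hg) (by omega) h2 ?_
    rw [neg_smul, add_neg_cancel_right]
    exact h1
  · exact h3
  · exact absurd (h.lift_pos hc hg h3 h1 h2) id

/-- the edges crossed by the path of faces f, f + (1, 1), f + (2, 2), ... -/
lemma de_col {f : Pt} (hf : Fc f) (k : ℤ) : De ((f + (k, k + 1), (1, -1)) : Pt × Pt) := by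
  have h1 : cl f = 1 := hf
  have h0 : ((1, -1) : Pt) ∈ dirs := by decide
  refine ⟨h0, ?_, ?_⟩
  · show cl (f + (k, k + 1)) ≠ 1
    rw [cl_add, h1]
    have : cl ((k, k + 1) : Pt) = -1 := by
      unfold cl
      push_cast
      ring
    rw [this]
    decide
  · show cl (f + (k, k + 1) + (1, -1)) ≠ 1
    rw [cl_add, cl_add, h1]
    have : cl ((k, k + 1) : Pt) = -1 := by
      unfold cl
      push_cast
      ring
    rw [this]
    decide

/-- a contractible polygon of the cylinder around f has a vertex near f -/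
theorem CPoly.hits (h : CPoly (Cy N hN) v d τ m) (hc : vs v d τ m = v) {f : Pt} (hf : Fc f)
    (h1 : Nw (pe v d τ m) f ≠ 0) : ∃ w ∈ VE (pe v d τ m), Bx f N w := by
  by_contra hcon
  push Not at hcon
  have hE : IsPoly (pe v d τ m) := ⟨v, d, τ, m, h.poly hc, rfl⟩
  have key : ∀ k : ℕ, k ≤ N → Nw (pe v d τ m) (f + ((k : ℤ), (k : ℤ))) ≠ 0 := by
    intro k
    induction k with
    | zero =>
      intro _
      have : f + (((0 : ℕ) : ℤ), ((0 : ℕ) : ℤ)) = f := by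
        ext <;> simp
      rw [this]
      exact h1
    | succ k ih =>
      intro hk
      have h2 := ih (by omega)
      have h3 := Nw_edge hE (de_col hf k)
      have e1 : f + ((k : ℤ), (k : ℤ) + 1) + rotL (1, -1) = f + (((k + 1 : ℕ) : ℤ), ((k + 1 : ℕ) : ℤ)) := by
        unfold rotL
        ext <;> simp <;> ring
      have e2 : f + ((k : ℤ), (k : ℤ) + 1) + rotR (1, -1) = f + ((k : ℤ), (k : ℤ)) := by
        unfold rotR
        ext <;> simp
        ring
      simp only at h3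
      rw [e1, e2] at h3
      have n1 : ((f + ((k : ℤ), (k : ℤ) + 1), (1, -1)) : Pt × Pt) ∉ pe v d τ m := by
        intro h4
        refine hcon _ (Finset.mem_image_of_mem Prod.fst h4) ?_
        unfold Bx
        simp only [add_sub_cancel_left]
        rw [abs_of_nonneg (by omega), abs_of_nonneg (by omega)]
        omega
      have n2 : rv ((f + ((k : ℤ), (k : ℤ) + 1), (1, -1)) : Pt × Pt) ∉ pe v d τ m := by
        intro h4
        refine hcon _ (Finset.mem_image_of_mem Prod.fst h4) ?_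
        unfold Bx rv
        have e3 : f + ((k : ℤ), (k : ℤ) + 1) + (1, -1) - f = ((k : ℤ) + 1, (k : ℤ)) := by
          ext <;> simp <;> ring
        simp only
        rw [e3]
        simp only
        rw [abs_of_nonneg (by omega), abs_of_nonneg (by omega)]
        omega
      rw [if_neg n1, if_neg n2] at h3
      omega
  have h2 := key N le_rfl
  have h3 : f + ((N : ℤ), (N : ℤ)) = f + (1 : ℤ) • PN N := by
    rw [one_smul]
    rfl
  rw [h3] at h2
  have := h.one_lift hc hf h1 h2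
  omega

end CP

/-! ### 2. The polygons around a lift of f -/

/-- contractible polygons of the cylinder that surround a lift of the face f -/
def Sur (N : ℕ) (hN : 1 ≤ N) (f : Pt) (E : Finset (Pt × Pt)) : Prop :=
  ∃ v d τ m, CPoly (Cy N hN) v d τ m ∧ vs v d τ m = v ∧ E = cpe (Cy N hN) v d τ m ∧ Nw (pe v d τ m) f ≠ 0

/-- translation of the lift -/
theorem sur_of {N : ℕ} {hN : 1 ≤ N} {v d : Pt} {τ : ℕ → Bool} {m : ℕ} (h : CPoly (Cy N hN) v d τ m)
    (hc : vs v d τ m = v) {f : Pt} {j : ℤ} (h1 : Nw (pe v d τ m) (f + j • PN N) ≠ 0) :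
    Sur N hN f (cpe (Cy N hN) v d τ m) := by
  have hv : ∀ i, (Cy N hN).nm (vs (v + -(j • PN N)) d τ i) = (Cy N hN).nm (vs v d τ i) := by
    intro i
    rw [vs_tr, ← neg_smul, nm_add_PN hN]
  have hz : cl (-(j • PN N)) = 0 := by
    rw [← neg_smul]
    exact cl_sPN N _
  refine ⟨v + -(j • PN N), d, τ, m, ⟨h.pos, ?_, h.per, ?_, h.cld, ?_⟩, ?_, ?_, ?_⟩
  · exact (tr_De (p := (v, d)) hz).2 h.de
  · have e0 : (Cy N hN).nm (v + -(j • PN N)) = (Cy N hN).nm v := hv 0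
    rw [hv m, e0]
    exact h.clv
  · intro i k h2 h3
    rw [hv, hv]
    exact h.inj i k h2 h3
  · rw [vs_tr, hc]
  · unfold cpe
    apply Finset.image_congr
    intro i _
    unfold ceg
    rw [hv]
  · rw [pe_tr]
    have h3 := Nw_TE (-(j • PN N)) (f + j • PN N) (pe v d τ m)
    rw [add_neg_cancel_right] at h3
    rw [h3]
    exact h1

/-- the statement of PLD.loop_sum -/
def LoopT : Prop := ∃ C κ : ℝ, 0 < C ∧ 0 < κ ∧ ∀ (f : Pt) (J L : ℕ) (S : Finset (Finset (Pt × Pt))),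
    (∀ E ∈ S, LP.IsPoly E ∧ LP.Nw E f ≠ 0 ∧ (∃ w ∈ LP.VE E, LP.Bx f (2 ^ J) w) ∧
      ∃ w ∈ LP.VE E, ¬ LP.Bx f (2 ^ L) w) →
    ∑ E ∈ S, xc ^ E.card ≤ C * (2 : ℝ) ^ (-κ * ((L : ℝ) - J))

lemma Bx_mono {f w : Pt} {s s' : ℕ} (h : s ≤ s') (hw : Bx f s w) : Bx f s' w := by
  have h1 : (s : ℤ) ≤ s' := by exact_mod_cast h
  exact ⟨hw.1.trans h1, hw.2.trans h1⟩

/-- the sum over the contractible polygons of the cylinder around f that are not contained in the ball of the radius r,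
when N <= 2 ^ a * r -/
theorem sur_sum (hls : LoopT) (a : ℕ) : ∃ C : ℝ, 0 < C ∧ ∀ (N : ℕ) (hN : 1 ≤ N) (f : Pt) (r : ℕ)
    (S : Finset (Finset (Pt × Pt))), Fc f → N ≤ 2 ^ a * r →
    (∀ E ∈ S, Sur N hN f E ∧ ∃ w ∈ VE E, ∀ j : ℤ, ¬ Bx f r (w + j • PN N)) → ∑ E ∈ S, xc ^ E.card ≤ C := by
  obtain ⟨C, κ, hC, hκ, hls⟩ := hls
  refine ⟨C * (2 : ℝ) ^ (κ * (a + 1)), by positivity, ?_⟩
  intro N hN f r S hf hr hS
  have hr0 : r ≠ 0 := by
    rintro rfl
    omega
  have hL1 : ∀ E ∈ S, ∃ G : Finset (Pt × Pt), E = G.image (nE N hN) ∧ E.card = G.card ∧ LP.IsPoly G ∧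
      LP.Nw G f ≠ 0 ∧ (∃ w ∈ VE G, Bx f N w) ∧ ∃ w ∈ VE G, ¬ Bx f r w := by
    intro E hE
    obtain ⟨⟨v, d, τ, m, h1, h2, h3, h4⟩, w, hw, hw2⟩ := hS E hE
    refine ⟨pe v d τ m, by rw [h3, cpe_eq], by rw [h3, h1.card h2], ⟨v, d, τ, m, h1.poly h2, rfl⟩, h4,
      h1.hits h2 hf h4, ?_⟩
    rw [h3, cpe_eq] at hw
    obtain ⟨p, hp, rfl⟩ := Finset.mem_image.1 hw
    obtain ⟨q, hq, rfl⟩ := Finset.mem_image.1 hp
    refine ⟨q.1, Finset.mem_image_of_mem _ hq, ?_⟩
    have h5 : (Cy N hN).nm q.1 = (Cy N hN).nm ((Cy N hN).nm q.1) := ((Cy N hN).idem _).symm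
    obtain ⟨j, hj⟩ := (nm_eq_iff hN _ _).1 h5
    rw [hj]
    exact hw2 j
  choose! G hG1 hG2 hG3 hG4 hG5 hG6 using hL1
  have hinj : Set.InjOn G (S : Set (Finset (Pt × Pt))) := by
    intro E hE E' hE' h
    rw [hG1 E hE, hG1 E' hE', h]
  have h1 : ∑ E ∈ S, xc ^ E.card = ∑ E ∈ S.image G, xc ^ E.card := by
    rw [Finset.sum_image hinj]
    exact Finset.sum_congr rfl fun E hE => by rw [hG2 E hE]
  rw [h1]
  have hN2 : N ≤ 2 ^ Nat.clog 2 N := Nat.le_pow_clog (by norm_num) N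
  have hr2 : 2 ^ Nat.log 2 r ≤ r := Nat.pow_log_le_self 2 hr0
  refine (hls f (Nat.clog 2 N) (Nat.log 2 r) (S.image G) ?_).trans ?_
  · intro E' hE'
    obtain ⟨E, hE, rfl⟩ := Finset.mem_image.1 hE'
    obtain ⟨w, hw, hw2⟩ := hG5 E hE
    obtain ⟨u, hu, hu2⟩ := hG6 E hE
    exact ⟨hG3 E hE, hG4 E hE, ⟨w, hw, Bx_mono hN2 hw2⟩, u, hu, fun h => hu2 (Bx_mono hr2 h)⟩
  · refine mul_le_mul_of_nonneg_left ?_ hC.le
    refine Real.rpow_le_rpow_of_exponent_le (by norm_num) ?_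
    have h2 : Nat.clog 2 N ≤ Nat.log 2 r + a + 1 := by
      apply Nat.clog_le_of_le_pow
      have h3 : r < 2 ^ (Nat.log 2 r + 1) := Nat.lt_pow_succ_log_self (by norm_num) r
      calc N ≤ 2 ^ a * r := hr
        _ ≤ 2 ^ a * 2 ^ (Nat.log 2 r + 1) := Nat.mul_le_mul_left _ h3.le
        _ = 2 ^ (Nat.log 2 r + a + 1) := by
          rw [← pow_add]
          congr 1
          ring
    have h3 : ((Nat.clog 2 N : ℕ) : ℝ) ≤ (Nat.log 2 r : ℕ) + a + 1 := by exact_mod_cast h2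
    nlinarith

/-! ### 3. Labels -/

/-- the signed number of the crossings of q (normalised) with the edges t 0, ..., t (K - 1) -/
def cutL (N : ℕ) (hN : 1 ≤ N) (K : ℕ) (t : ℕ → Pt × Pt) (q : Pt × Pt) : ℤ :=
  ∑ k ∈ range K, ((if q = nE N hN (t k) then 1 else 0) - (if q = nE N hN (rv (t k)) then 1 else 0))

/-- the reversed normalised edge -/
lemma rv_nE {N : ℕ} (hN : 1 ≤ N) (p : Pt × Pt) : (Cy N hN).rv (nE N hN p) = nE N hN (rv p) := by
  unfold Nm.rv Nm.nb nE rv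
  simp only
  rw [(Cy N hN).add]

lemma nE_eq {N : ℕ} (hN : 1 ≤ N) {q p : Pt × Pt} (h : nE N hN q = nE N hN p) :
    ∃ j : ℤ, j = (q.1.1 - p.1.1) / N ∧ q = Te (j • PN N) p := by
  unfold nE at h
  rw [Prod.mk.injEq] at h
  obtain ⟨h1, h2⟩ := h
  obtain ⟨j, hj⟩ := (nm_eq_iff hN _ _).1 h1
  refine ⟨j, ?_, Prod.ext hj h2⟩
  have h3 : q.1.1 = p.1.1 + j * N := by
    have := congrArg Prod.fst hj
    unfold PN at this
    simpa using this
  have hN0 : (N : ℤ) ≠ 0 := by omega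
  rw [h3, add_sub_cancel_left, Int.mul_ediv_cancel _ hN0]

lemma nE_Te {N : ℕ} (hN : 1 ≤ N) (p : Pt × Pt) (j : ℤ) : nE N hN (Te (j • PN N) p) = nE N hN p := by
  unfold nE Te
  simp only
  rw [nm_add_PN hN]

lemma sum_lifts {N : ℕ} (hN : 1 ≤ N) {q p : Pt × Pt} {I : Finset ℤ} (hI : (q.1.1 - p.1.1) / (N : ℤ) ∈ I) :
    ∑ j ∈ I, (if q = Te (j • PN N) p then (1 : ℤ) else 0) = if nE N hN q = nE N hN p then 1 else 0 := by
  by_cases h : nE N hN q = nE N hN p
  · rw [if_pos h]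
    obtain ⟨j0, hj0, hq⟩ := nE_eq hN h
    have h1 : ∀ j, q = Te (j • PN N) p ↔ j = j0 := by
      intro j
      constructor
      · intro h2
        rw [hq] at h2
        have h3 : p.1 + j0 • PN N = p.1 + j • PN N := congrArg Prod.fst h2
        have h4 := add_left_cancel h3
        have h5 : (j - j0) • PN N = 0 := by rw [sub_smul, h4, sub_self]
        have := sPN_inj hN h5
        omega
      · rintro rfl
        exact hq
    simp only [h1]
    rw [Finset.sum_ite_eq', if_pos]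
    rw [hj0]
    exact hI
  · rw [if_neg h]
    refine Finset.sum_eq_zero fun j _ => if_neg ?_
    intro h1
    apply h
    rw [h1, nE_Te hN]

/-- the label of a contractible polygon is the sum of the differences of the winding numbers -/
theorem flat_lab {N : ℕ} {hN : 1 ≤ N} {v d : Pt} {τ : ℕ → Bool} {m : ℕ} (h : CPoly (Cy N hN) v d τ m)
    (hc : vs v d τ m = v) {K : ℕ} {F : ℕ → Pt} {t : ℕ → Pt × Pt}
    (ht : ∀ k, k < K → De (t k) ∧ (t k).1 + rotR (t k).2 = F k ∧ (t k).1 + rotL (t k).2 = F (k + 1)) :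
    ∃ I : Finset ℤ, ∑ q ∈ cpe (Cy N hN) v d τ m, cutL N hN K t q =
      ∑ j ∈ I, (Nw (pe v d τ m) (F K + j • PN N) - Nw (pe v d τ m) (F 0 + j • PN N)) := by
  have hE : IsPoly (pe v d τ m) := ⟨v, d, τ, m, h.poly hc, rfl⟩
  obtain ⟨E, hEe⟩ : ∃ E, E = pe v d τ m := ⟨_, rfl⟩
  obtain ⟨I, hI⟩ : ∃ I : Finset ℤ, I = (E ×ˢ range K).image (fun x => (x.1.1.1 - (t x.2).1.1) / (N : ℤ)) ∪
    (E ×ˢ range K).image (fun x => (x.1.1.1 - (rv (t x.2)).1.1) / (N : ℤ)) := ⟨_, rfl⟩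
  refine ⟨I, ?_⟩
  have hinj : Set.InjOn (nE N hN) (E : Set (Pt × Pt)) := by
    have h1 : (E.image (nE N hN)).card = E.card := by
      have := h.card hc
      rw [cpe_eq, ← hEe] at this
      exact this
    exact Finset.card_image_iff.1 h1
  rw [cpe_eq, ← hEe, Finset.sum_image hinj]
  rw [← hEe] at hE
  have h1 : ∀ q ∈ E, cutL N hN K t (nE N hN q) = ∑ j ∈ I, ∑ k ∈ range K,
      ((if q = Te (j • PN N) (t k) then (1 : ℤ) else 0) - (if q = Te (j • PN N) (rv (t k)) then 1 else 0)) := by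
    intro q hq
    unfold cutL
    rw [Finset.sum_comm]
    refine Finset.sum_congr rfl fun k hk => ?_
    rw [Finset.sum_sub_distrib, sum_lifts hN, sum_lifts hN]
    · rw [hI, Finset.mem_union]
      right
      exact Finset.mem_image.2 ⟨(q, k), Finset.mem_product.2 ⟨hq, hk⟩, rfl⟩
    · rw [hI, Finset.mem_union]
      left
      exact Finset.mem_image.2 ⟨(q, k), Finset.mem_product.2 ⟨hq, hk⟩, rfl⟩
  rw [Finset.sum_congr rfl h1, Finset.sum_comm]
  refine Finset.sum_congr rfl fun j _ => ?_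
  rw [Finset.sum_comm]
  have h2 : ∀ k ∈ range K, ∑ q ∈ E, ((if q = Te (j • PN N) (t k) then (1 : ℤ) else 0) -
      (if q = Te (j • PN N) (rv (t k)) then 1 else 0)) =
      Nw E (F (k + 1) + j • PN N) - Nw E (F k + j • PN N) := by
    intro k hk
    obtain ⟨h3, h4, h5⟩ := ht k (Finset.mem_range.1 hk)
    rw [Finset.sum_sub_distrib, Finset.sum_ite_eq', Finset.sum_ite_eq']
    have h6 := Nw_edge hE ((tr_De (p := t k) (cl_sPN N j)).2 h3)
    rw [tr_rv] at h6
    have e1 : (Te (j • PN N) (t k)).1 + rotL (Te (j • PN N) (t k)).2 = F (k + 1) + j • PN N := by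
      unfold Te
      simp only
      rw [← h5]
      abel
    have e2 : (Te (j • PN N) (t k)).1 + rotR (Te (j • PN N) (t k)).2 = F k + j • PN N := by
      unfold Te
      simp only
      rw [← h4]
      abel
    rw [e1, e2] at h6
    exact h6.symm
  rw [Finset.sum_congr rfl h2, Finset.sum_range_sub (fun k => Nw E (F k + j • PN N))]

/-- a contractible polygon with a label surrounds a lift of one of the two faces -/
theorem sur_or {N : ℕ} {hN : 1 ≤ N} {E : Finset (Pt × Pt)} (hE : IsFlat N hN E) {K : ℕ} {F : ℕ → Pt}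
    {t : ℕ → Pt × Pt}
    (ht : ∀ k, k < K → De (t k) ∧ (t k).1 + rotR (t k).2 = F k ∧ (t k).1 + rotL (t k).2 = F (k + 1))
    (h : ∑ q ∈ E, cutL N hN K t q ≠ 0) : Sur N hN (F 0) E ∨ Sur N hN (F K) E := by
  obtain ⟨v, d, τ, m, h1, h2, rfl⟩ := hE
  obtain ⟨I, hI⟩ := flat_lab h1 h2 ht
  rw [hI] at h
  obtain ⟨j, _, hj⟩ := Finset.exists_ne_zero_of_sum_ne_zero h
  by_cases h3 : Nw (pe v d τ m) (F 0 + j • PN N) = 0
  · rw [h3, sub_zero] at hj
    exact Or.inr (sur_of h1 h2 hj)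
  · exact Or.inl (sur_of h1 h2 h3)

/-- **W7c**: the sum over the contractible polygons of the cylinder with a label that are contained in none of the two
balls is bounded -/
theorem flat_mid (hls : LoopT) (a : ℕ) : ∃ C : ℝ, 0 < C ∧ ∀ (N : ℕ) (hN : 1 ≤ N) (K : ℕ) (F : ℕ → Pt)
    (t : ℕ → Pt × Pt) (r : ℕ) (S : Finset (Finset (Pt × Pt))), Fc (F 0) → Fc (F K) → N ≤ 2 ^ a * r →
    (∀ k, k < K → De (t k) ∧ (t k).1 + rotR (t k).2 = F k ∧ (t k).1 + rotL (t k).2 = F (k + 1)) →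
    (∀ E ∈ S, IsFlat N hN E ∧ ∑ q ∈ E, cutL N hN K t q ≠ 0 ∧
      (∃ w ∈ VE E, ∀ j : ℤ, ¬ Bx (F 0) r (w + j • PN N)) ∧ ∃ w ∈ VE E, ∀ j : ℤ, ¬ Bx (F K) r (w + j • PN N)) →
    ∑ E ∈ S, xc ^ E.card ≤ C := by
  classical
  obtain ⟨C, hC, h⟩ := sur_sum hls a
  refine ⟨C + C, by linarith, ?_⟩
  intro N hN K F t r S hf hf' hr ht hS
  have h1 := h N hN (F 0) r (S.filter (Sur N hN (F 0))) hf hr (by
    intro E hE
    obtain ⟨h1, h2⟩ := Finset.mem_filter.1 hE
    exact ⟨h2, (hS E h1).2.2.1⟩)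
  have h2 := h N hN (F K) r (S.filter (Sur N hN (F K))) hf' hr (by
    intro E hE
    obtain ⟨h1, h2⟩ := Finset.mem_filter.1 hE
    exact ⟨h2, (hS E h1).2.2.2⟩)
  refine le_trans ?_ (add_le_add h1 h2)
  have h3 : S ⊆ S.filter (Sur N hN (F 0)) ∪ S.filter (Sur N hN (F K)) := by
    intro E hE
    rw [Finset.mem_union, Finset.mem_filter, Finset.mem_filter]
    rcases sur_or (hS E hE).1 ht (hS E hE).2.1 with h4 | h4
    · exact Or.inl ⟨hE, h4⟩
    · exact Or.inr ⟨hE, h4⟩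
  refine (Finset.sum_le_sum_of_subset_of_nonneg h3 fun E _ _ => pow_nonneg xc_pos.le _).trans ?_
  rw [← Finset.sum_union_inter]
  exact le_add_of_nonneg_right (Finset.sum_nonneg fun E _ => pow_nonneg xc_pos.le _)

end Pool.Agent.NUF.Cyl
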