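import Pool.Agent.PLW.Flat

/-!
PLW: the label cr f of the half edges (f = (r - 1, r + 1)) is the label of the path of faces (i - 1, i + 1), i = 0, ..., r.
-/

set_option autoImplicit false

namespace Pool.Agent.NUF.Cyl

open HexObs HexObs.LP Finset

/-- the faces (i - 1, i + 1) -/
def fcF (i : ℕ) : Pt := ((i : ℤ) - 1, (i : ℤ) + 1)

/-- the half edges between them -/
def fcT (i : ℕ) : Pt × Pt := (((i : ℤ) - 1, (i : ℤ) + 2), (1, -1))

lemma Fc_fcF (i : ℕ) : Fc (fcF i) := by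
  unfold Fc cl fcF
  push_cast
  have : ((i : ZMod 3) - 1 - ((i : ZMod 3) + 1)) = -2 := by ring
  rw [this]
  decide

lemma fc_path (k : ℕ) : De (fcT k) ∧ (fcT k).1 + rotR (fcT k).2 = fcF k ∧ (fcT k).1 + rotL (fcT k).2 = fcF (k + 1) := by
  have h1 : fcT k = (fcF 0 + ((k : ℤ), (k : ℤ) + 1), (1, -1)) := by
    unfold fcT fcF
    ext <;> simp <;> ring
  refine ⟨?_, ?_, ?_⟩
  · rw [h1]
    exact de_col (Fc_fcF 0) k
  · unfold fcT fcF rotR
    ext <;> simp <;> ring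
  · unfold fcT fcF rotL
    ext <;> simp <;> ring

lemma nE_fix {N : ℕ} (hN : 1 ≤ N) {p : Pt × Pt} (h1 : 0 ≤ ri p.1) (h2 : ri p.1 < N) : nE N hN p = p := by
  unfold nE
  rw [nm_fix hN h1 h2]

lemma ri_fcT (k : ℕ) : ri (fcT k).1 = k := by
  unfold ri fcT
  simp only
  omega

lemma ri_rv_fcT (k : ℕ) : ri (rv (fcT k)).1 = k := by
  unfold ri rv fcT
  simp only [Prod.fst_add, Prod.snd_add]
  omega

/-- the two labels agree on the normalised half edges -/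
theorem cutL_fc {N : ℕ} (hN : 1 ≤ N) {r : ℕ} (hr : r ≤ N) {q : Pt × Pt} (h0 : 0 ≤ ri q.1) :
    cutL N hN r fcT q = cr (fcF r) q := by
  unfold cutL
  have e1 : ∀ k ∈ range r, ((if q = nE N hN (fcT k) then (1 : ℤ) else 0) - (if q = nE N hN (rv (fcT k)) then 1 else 0)) =
      (if k = (ri q.1).toNat then (if q = fcT k then (1 : ℤ) else 0) - (if q = rv (fcT k) then 1 else 0) else 0) := by
    intro k hk
    rw [Finset.mem_range] at hk
    rw [nE_fix hN (by rw [ri_fcT]; omega) (by rw [ri_fcT]; omega),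
      nE_fix hN (by rw [ri_rv_fcT]; omega) (by rw [ri_rv_fcT]; omega)]
    by_cases h1 : k = (ri q.1).toNat
    · rw [if_pos h1]
    · rw [if_neg h1, if_neg, if_neg, sub_zero]
      · rintro rfl
        rw [ri_rv_fcT] at h1
        simp at h1
      · rintro rfl
        rw [ri_fcT] at h1
        simp at h1
  rw [Finset.sum_congr rfl e1, Finset.sum_ite_eq']
  obtain ⟨⟨x, y⟩, ⟨a, b⟩⟩ := q
  have h2 : ri (x, y) = (x + 2 * y - 2) / 3 := rfl
  simp only at h0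
  rw [h2] at h0
  simp only [h2]
  unfold cr nn lv fcF fcT rv
  simp only [Finset.mem_range, Prod.mk.injEq, Prod.fst_add, Prod.snd_add, Prod.mk_add_mk, Prod.neg_mk]
  split_ifs <;> omega

/-- the label of a polygon of the cylinder -/
theorem sum_cutL {N : ℕ} (hN : 1 ≤ N) {r : ℕ} (hr : r ≤ N) {E : Finset (Pt × Pt)} (hE : IsCPoly (Cy N hN) E) :
    ∑ q ∈ E, cutL N hN r fcT q = ∑ q ∈ E, cr (fcF r) q := by
  refine Finset.sum_congr rfl fun q hq => cutL_fc hN hr ?_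
  obtain ⟨v, d, τ, m, h, rfl⟩ := hE
  obtain ⟨i, _, rfl⟩ := Finset.mem_image.1 hq
  show 0 ≤ ri ((Cy N hN).nm (vs v d τ i))
  rw [nm_eq, nmN, ri_tr]
  have h1 := Int.mul_ediv_add_emod (ri (vs v d τ i)) (N : ℤ)
  have h2 := Int.emod_nonneg (ri (vs v d τ i)) (b := (N : ℤ)) (by omega)
  omega

/-- a contractible polygon with the label 1 surrounds a lift of one of the two faces -/
theorem sur_fc {N : ℕ} {hN : 1 ≤ N} {r : ℕ} (hr : r ≤ N) {E : Finset (Pt × Pt)} (hE : IsFlat N hN E)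
    (h : ∑ q ∈ E, cr (fcF r) q ≠ 0) : Sur N hN (fcF 0) E ∨ Sur N hN (fcF r) E := by
  have hc : IsCPoly (Cy N hN) E := by
    obtain ⟨v, d, τ, m, h1, _, h2⟩ := hE
    exact ⟨v, d, τ, m, h1, h2⟩
  rw [← sum_cutL hN hr hc] at h
  exact sur_or hE (fun k _ => fc_path k) h

/-- the label is different from 0 as an integer -/
lemma lab_ne {s : ℤ} (h : (s : ZMod 2) ≠ 0) : s ≠ 0 := by
  rintro rfl
  exact h (by norm_num)

/-- the sum over the contractible polygons with the label 1 that are contained in none of the two balls -/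
theorem flat_fc (hls : LoopT) (a : ℕ) : ∃ C : ℝ, 0 < C ∧ ∀ (N : ℕ) (hN : 1 ≤ N) (r R : ℕ)
    (S : Finset (Finset (Pt × Pt))), r ≤ N → N ≤ 2 ^ a * R →
    (∀ E ∈ S, IsFlat N hN E ∧ ∑ q ∈ E, cr (fcF r) q ≠ 0 ∧
      (∃ w ∈ VE E, ∀ j : ℤ, ¬ Bx (fcF 0) R (w + j • PN N)) ∧ ∃ w ∈ VE E, ∀ j : ℤ, ¬ Bx (fcF r) R (w + j • PN N)) →
    ∑ E ∈ S, xc ^ E.card ≤ C := by
  obtain ⟨C, hC, h⟩ := flat_mid hls a
  refine ⟨C, hC, ?_⟩
  intro N hN r R S hr hR hS
  refine h N hN r fcF fcT R S (Fc_fcF 0) (Fc_fcF r) hR (fun k _ => fc_path k) ?_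
  intro E hE
  obtain ⟨h1, h2, h3, h4⟩ := hS E hE
  have hc : IsCPoly (Cy N hN) E := by
    obtain ⟨v, d, τ, m, h1, _, h2⟩ := h1
    exact ⟨v, d, τ, m, h1, h2⟩
  exact ⟨h1, by rw [sum_cutL hN hr hc]; exact h2, h3, h4⟩

/-- a polygon with a label has an edge near the column of the two faces -/
theorem lab_near {r : ℕ} {E : Finset (Pt × Pt)} (h : ∑ q ∈ E, cr (fcF r) q ≠ 0) :
    ∃ q ∈ E, nn q.1 = -3 ∨ nn q.1 = -1 := by
  obtain ⟨q, hq, hq2⟩ := Finset.exists_ne_zero_of_sum_ne_zero h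
  refine ⟨q, hq, ?_⟩
  have e : nn (fcF r) = -2 := by
    unfold nn fcF
    ring
  unfold cr at hq2
  rw [e] at hq2
  by_contra hcon
  push Not at hcon
  apply hq2
  rw [if_neg, if_neg]
  · rintro ⟨_, h2, _⟩
    exact hcon.2 (by rw [h2]; norm_num)
  · rintro ⟨_, h2, _⟩
    exact hcon.1 (by rw [h2]; norm_num)

end Pool.Agent.NUF.Cyl
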