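import Pool.Agent.PLW.GasNF
import Pool.Agent.NUNC.Gas

/-!
PLW, module W8c: the gas of disjoint polygons of a set of vertices of the cylinder, selected by a predicate, against the
two planar gases and the polygons in the middle.
-/

set_option autoImplicit false

namespace Pool.Agent.PLW

open Finset HexObs HexObs.LP Pool.Agent.NUF.Cyl

open Classical in
/-- the gas of the polygons of the cylinder with the property `p` is a solution of the recursion. -/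
theorem gasLo_GP {C : Nm} (A0 : Finset Pt) (p : Finset (Pt × Pt) → Prop) (w : Finset (Pt × Pt) → ℝ) :
    GasLo A0 ((C.polys A0).filter p) VE w (fun A => GP w ((C.polys A).filter p)) := by
  refine ⟨?_, fun A hA v hv => ?_⟩
  · show GP w ((C.polys ∅).filter p) ≤ 1
    rw [Nm.polys_empty, filter_empty, GP_empty]
  · show GP w ((C.polys A).filter p) ≤ GP w ((C.polys (A.erase v)).filter p) +
      ∑ E ∈ thru ((C.polys A0).filter p) VE A v, w E * GP w ((C.polys (A \ VE E)).filter p)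
    rw [Nm.GP_vertex (C := C) w p A v]
    refine le_of_eq ?_
    congr 1
    refine sum_congr ?_ fun E _ => rfl
    ext E
    rw [mem_filter, mem_filter, Nm.mem_polys, mem_thru, mem_filter, Nm.mem_polys]
    constructor
    · rintro ⟨⟨⟨h1, h2⟩, h3⟩, h4⟩
      exact ⟨⟨⟨h1, h2.trans hA⟩, h3⟩, h2, h4⟩
    · rintro ⟨⟨⟨h1, _⟩, h3⟩, h2, h4⟩
      exact ⟨⟨⟨h1, h2⟩, h3⟩, h4⟩

open Classical in
/-- **the gas of the cylinder against the two planar gases and the polygons in the middle** -/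
theorem GP_le (C : Nm) {y : ℝ} (hy : 0 ≤ y) {f f' : Pt} (hf : Fc f) (hf' : Fc f') {B B' : Finset Pt}
    (hB : Set.InjOn C.nm (B : Set Pt)) (hB' : Set.InjOn C.nm (B' : Set Pt)) (A : Finset Pt)
    (p : Finset (Pt × Pt) → Prop) {W : ℝ}
    (hW : ∀ S : Finset (Finset (Pt × Pt)), (∀ E ∈ S, IsCPoly C E ∧ p E ∧
      (¬ ∃ E', LP.IsPoly E' ∧ VE E' ⊆ B ∧ Nw E' f ≠ 0 ∧ E = imE C E') ∧
      ¬ ∃ E', LP.IsPoly E' ∧ VE E' ⊆ B' ∧ Nw E' f' ≠ 0 ∧ E = imE C E') → ∑ E ∈ S, xc ^ E.card ≤ W) :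
    GP (fun E => y * xc ^ E.card) ((C.polys A).filter p) ≤
      NUN.NF xc y f B * NUN.NF xc y f' B' * Real.exp (y * W) := by
  set Q := (C.polys A).filter p with hQ
  set M := Q.filter (fun E => (¬ ∃ E', LP.IsPoly E' ∧ VE E' ⊆ B ∧ Nw E' f ≠ 0 ∧ E = imE C E') ∧
      ¬ ∃ E', LP.IsPoly E' ∧ VE E' ⊆ B' ∧ Nw E' f' ≠ 0 ∧ E = imE C E') with hM
  have h1 := gas_le C hy hf hf' hB hB' A Q M (fun E hE => by
    by_cases c1 : ∃ E', LP.IsPoly E' ∧ VE E' ⊆ B ∧ Nw E' f ≠ 0 ∧ E = imE C E'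
    · exact Or.inl c1
    · by_cases c2 : ∃ E', LP.IsPoly E' ∧ VE E' ⊆ B' ∧ Nw E' f' ≠ 0 ∧ E = imE C E'
      · exact Or.inr (Or.inl c2)
      · exact Or.inr (Or.inr (mem_filter.2 ⟨hE, c1, c2⟩))) (gasLo_GP A p (fun E => y * xc ^ E.card))
  refine h1.trans ?_
  have h2 : ∑ E ∈ M, xc ^ E.card ≤ W := hW M fun E hE => by
    obtain ⟨a, b⟩ := mem_filter.1 hE
    obtain ⟨c, d⟩ := mem_filter.1 a
    exact ⟨(Nm.mem_polys'.1 c).1, d, b⟩
  have h3 : Real.exp (y * ∑ E ∈ M, xc ^ E.card) ≤ Real.exp (y * W) :=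
    Real.exp_le_exp.2 (mul_le_mul_of_nonneg_left h2 hy)
  refine mul_le_mul_of_nonneg_left h3 (mul_nonneg ?_ ?_)
  · exact le_trans zero_le_one (one_le_NF' hy f B)
  · exact le_trans zero_le_one (one_le_NF' hy f' B')

end Pool.Agent.PLW
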