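import Pool.Agent.PLW.GasSplit
import Pool.Agent.PLW.CylDefs
import Pool.Agent.NUN.NFV
import Pool.Agent.NUF.NFLink

/-!
PLW, module W8c: the gas of nested polygons of a planar set of vertices `B` is an upper solution of the recursion for the
polygons of the cylinder which are images of the polygons of `B` around the face `f`.
-/

set_option autoImplicit false

namespace Pool.Agent.PLW

open Finset HexObs HexObs.LP Pool.Agent.NUF.Cyl

/-- the image of a planar polygon on the cylinder -/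
def imE (C : Nm) (E : Finset (Pt × Pt)) : Finset (Pt × Pt) := E.image (fun h => (C.nm h.1, h.2))

/-- the vertices of `B` over `A` -/
noncomputable def lft (C : Nm) (B A : Finset Pt) : Finset Pt := B.filter (fun v => C.nm v ∈ A)

theorem mem_lft {C : Nm} {B A : Finset Pt} {v : Pt} : v ∈ lft C B A ↔ v ∈ B ∧ C.nm v ∈ A := by
  unfold lft
  rw [mem_filter]

theorem VE_imE (C : Nm) (E : Finset (Pt × Pt)) : VE (imE C E) = (VE E).image C.nm := by
  unfold VE imE
  rw [image_image, image_image]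
  rfl

theorem imE_injOn {C : Nm} {B : Finset Pt} (hB : Set.InjOn C.nm (B : Set Pt)) {E E' : Finset (Pt × Pt)}
    (h : VE E ⊆ B) (h' : VE E' ⊆ B) (e : imE C E = imE C E') : E = E' := by
  have key : ∀ {F F' : Finset (Pt × Pt)}, VE F ⊆ B → VE F' ⊆ B → imE C F = imE C F' → F ⊆ F' := by
    intro F F' h h' e q hq
    have h1 : (C.nm q.1, q.2) ∈ imE C F' := by
      rw [← e]
      exact mem_image.2 ⟨q, hq, rfl⟩
    obtain ⟨r, hr, hr'⟩ := mem_image.1 h1
    have h2 : C.nm r.1 = C.nm q.1 := (Prod.ext_iff.1 hr').1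
    have h3 : r.2 = q.2 := (Prod.ext_iff.1 hr').2
    have h4 : r.1 = q.1 := hB (h' (mem_image.2 ⟨r, hr, rfl⟩)) (h (mem_image.2 ⟨q, hq, rfl⟩)) h2
    have h5 : r = q := Prod.ext h4 h3
    rw [← h5]
    exact hr
  exact Subset.antisymm (key h h' e) (key h' h e.symm)

theorem card_imE {C : Nm} {B : Finset Pt} (hB : Set.InjOn C.nm (B : Set Pt)) {E : Finset (Pt × Pt)}
    (h : VE E ⊆ B) : (imE C E).card = E.card := by
  unfold imE
  refine card_image_of_injOn fun q hq r hr e => ?_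
  have h1 : C.nm q.1 = C.nm r.1 := (Prod.ext_iff.1 e).1
  have h2 : q.2 = r.2 := (Prod.ext_iff.1 e).2
  exact Prod.ext (hB (h (mem_image.2 ⟨q, hq, rfl⟩)) (h (mem_image.2 ⟨r, hr, rfl⟩)) h1) h2

theorem NF_mono' {y : ℝ} (hy : 0 ≤ y) (f : Pt) {Ω Ω' : Finset Pt} (h : Ω ⊆ Ω') :
    NUN.NF xc y f Ω ≤ NUN.NF xc y f Ω' := by
  have e1 := NF_eq_NUN (2 * y) f Ω
  have e2 := NF_eq_NUN (2 * y) f Ω'
  rw [mul_div_cancel_left₀ y (two_ne_zero' ℝ)] at e1 e2
  rw [← e1, ← e2]
  exact NF_mono (by positivity) f h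

theorem one_le_NF' {y : ℝ} (hy : 0 ≤ y) (f : Pt) (Ω : Finset Pt) : 1 ≤ NUN.NF xc y f Ω := by
  have e1 := NF_eq_NUN (2 * y) f Ω
  rw [mul_div_cancel_left₀ y (two_ne_zero' ℝ)] at e1
  rw [← e1]
  exact one_le_NF (by positivity) _ _

/-- **the planar gas of nested polygons as an upper solution on the cylinder.** -/
theorem NF_up (C : Nm) {y : ℝ} (hy : 0 ≤ y) {f : Pt} (hf : Fc f) {B : Finset Pt}
    (hB : Set.InjOn C.nm (B : Set Pt)) (A0 : Finset Pt) (Q : Finset (Finset (Pt × Pt)))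
    (hQ : ∀ E ∈ Q, ∃ E', LP.IsPoly E' ∧ VE E' ⊆ B ∧ Nw E' f ≠ 0 ∧ E = imE C E') :
    GasUp A0 Q VE (fun E => y * xc ^ E.card) (fun A => NUN.NF xc y f (lft C B A)) := by
  classical
  have hx := xc_pos
  refine ⟨fun A _ => le_trans zero_le_one (one_le_NF' hy f _), one_le_NF' hy f _, fun A A' h _ => ?_,
    fun A _ v hv => ?_⟩
  · refine NF_mono' hy f fun w hw => ?_
    obtain ⟨a, b⟩ := mem_lft.1 hw
    exact mem_lft.2 ⟨a, h b⟩
  · by_cases hv' : ∃ u ∈ B, C.nm u = v
    · obtain ⟨u, hu, hu'⟩ := hv'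
      have e1 : lft C B (A.erase v) = (lft C B A).erase u := by
        ext w
        rw [mem_lft, mem_erase, mem_erase, mem_lft]
        constructor
        · rintro ⟨a, b, c⟩
          exact ⟨fun e => b (by rw [e, hu']), a, c⟩
        · rintro ⟨a, b, c⟩
          exact ⟨b, fun e => a (hB b hu (e.trans hu'.symm)), c⟩
      have e2 := NUN.NF_vertex' xc y hf (lft C B A) u
      show NUN.NF xc y f (lft C B (A.erase v)) +
        ∑ E ∈ thru Q VE A v, y * xc ^ E.card * NUN.NF xc y f (lft C B (A \ VE E)) ≤ NUN.NF xc y f (lft C B A)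
      rw [e1, e2]
      refine add_le_add le_rfl ?_
      set S := (NUN.pf f (lft C B A)).filter (fun E => u ∈ VE E) with hS
      have hSB : ∀ E ∈ S, VE E ⊆ B := fun E hE w hw =>
        (mem_lft.1 ((NUN.mem_pf.1 (mem_filter.1 hE).1).2.1 hw)).1
      have e3 : ∑ E ∈ S, y * xc ^ E.card * NUN.NF xc y f (lft C B A \ VE E) =
          ∑ E ∈ S.image (imE C), y * xc ^ E.card * NUN.NF xc y f (lft C B (A \ VE E)) := by
        rw [sum_image fun E hE E' hE' e => imE_injOn hB (hSB E hE) (hSB E' hE') e]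
        refine sum_congr rfl fun E hE => ?_
        rw [card_imE hB (hSB E hE)]
        congr 2
        ext w
        rw [mem_sdiff, mem_lft, mem_lft, mem_sdiff, VE_imE]
        constructor
        · rintro ⟨⟨a, b⟩, c⟩
          refine ⟨a, b, fun h => ?_⟩
          obtain ⟨w', h1, h2⟩ := mem_image.1 h
          exact c ((hB (hSB E hE h1) a h2) ▸ h1)
        · rintro ⟨a, b, c⟩
          exact ⟨⟨a, b⟩, fun h => c (mem_image_of_mem _ h)⟩
      have e4 : ∑ E ∈ (NUN.pf f (lft C B A)).filter (fun E => u ∈ VE E),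
          y * xc ^ E.card * NUN.NF xc y f (lft C B A \ VE E) =
          ∑ E ∈ S, y * xc ^ E.card * NUN.NF xc y f (lft C B A \ VE E) := rfl
      refine le_trans ?_ (le_of_eq (e4.trans e3).symm)
      refine sum_le_sum_of_subset_of_nonneg (fun E hE => ?_) fun E _ _ => ?_
      · obtain ⟨h1, h2, h3⟩ := mem_thru.1 hE
        obtain ⟨E', k1, k2, k3, rfl⟩ := hQ E h1
        rw [VE_imE] at h2 h3
        refine mem_image.2 ⟨E', mem_filter.2 ⟨NUN.mem_pf.2 ⟨k1, fun w hw => mem_lft.2 ⟨k2 hw, h2 (mem_image_of_mem _ hw)⟩,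
          k3⟩, ?_⟩, rfl⟩
        obtain ⟨w, h4, h5⟩ := mem_image.1 h3
        rwa [hB (k2 h4) hu (h5.trans hu'.symm)] at h4
      · have := one_le_NF' hy f (lft C B (A \ VE E))
        positivity
    · have e1 : lft C B (A.erase v) = lft C B A := by
        ext w
        rw [mem_lft, mem_lft, mem_erase]
        constructor
        · rintro ⟨a, b, c⟩
          exact ⟨a, c⟩
        · rintro ⟨a, c⟩
          exact ⟨a, fun e => hv' ⟨w, a, e⟩, c⟩
      have e2 : thru Q VE A v = ∅ := by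
        rw [eq_empty_iff_forall_notMem]
        intro E hE
        obtain ⟨h1, h2, h3⟩ := mem_thru.1 hE
        obtain ⟨E', k1, k2, k3, rfl⟩ := hQ E h1
        rw [VE_imE] at h3
        obtain ⟨w, h4, h5⟩ := mem_image.1 h3
        exact hv' ⟨w, k2 h4, h5⟩
      show NUN.NF xc y f (lft C B (A.erase v)) + ∑ E ∈ thru Q VE A v, _ ≤ NUN.NF xc y f (lft C B A)
      rw [e1, e2, sum_empty, add_zero]

/-- **the gas of the cylinder against the two planar gases and the polygons in the middle** -/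
theorem gas_le (C : Nm) {y : ℝ} (hy : 0 ≤ y) {f f' : Pt} (hf : Fc f) (hf' : Fc f') {B B' : Finset Pt}
    (hB : Set.InjOn C.nm (B : Set Pt)) (hB' : Set.InjOn C.nm (B' : Set Pt)) (A0 : Finset Pt)
    (Q M : Finset (Finset (Pt × Pt)))
    (hQ : ∀ E ∈ Q, (∃ E', LP.IsPoly E' ∧ VE E' ⊆ B ∧ Nw E' f ≠ 0 ∧ E = imE C E') ∨
      (∃ E', LP.IsPoly E' ∧ VE E' ⊆ B' ∧ Nw E' f' ≠ 0 ∧ E = imE C E') ∨ E ∈ M)
    {z : Finset Pt → ℝ} (hz : GasLo A0 Q VE (fun E => y * xc ^ E.card) z) :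
    z A0 ≤ NUN.NF xc y f B * NUN.NF xc y f' B' * Real.exp (y * ∑ E ∈ M, xc ^ E.card) := by
  classical
  have hx := xc_pos
  set Q1 := Q.filter (fun E => ∃ E', LP.IsPoly E' ∧ VE E' ⊆ B ∧ Nw E' f ≠ 0 ∧ E = imE C E') with hQ1
  set Q2 := Q.filter (fun E => ∃ E', LP.IsPoly E' ∧ VE E' ⊆ B' ∧ Nw E' f' ≠ 0 ∧ E = imE C E') with hQ2
  have h1 := NF_up C hy hf hB A0 Q1 fun E hE => (mem_filter.1 hE).2
  have h2 := NF_up C hy hf' hB' A0 Q2 fun E hE => (mem_filter.1 hE).2
  have h3 := split3 (Q3 := M) (w := fun E => y * xc ^ E.card) (fun E => by positivity) (fun E hE => by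
    rcases hQ E hE with h | h | h
    · exact Or.inl (mem_filter.2 ⟨hE, h⟩)
    · exact Or.inr (Or.inl (mem_filter.2 ⟨hE, h⟩))
    · exact Or.inr (Or.inr h)) hz h1 h2
  rw [← mul_sum] at h3
  refine h3.trans ?_
  gcongr
  · exact le_trans zero_le_one (one_le_NF' hy f' _)
  · exact le_trans zero_le_one (one_le_NF' hy f _)
  · exact NF_mono' hy f (filter_subset _ _)
  · exact NF_mono' hy f' (filter_subset _ _)

end Pool.Agent.PLW
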