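import Mathlib

/-!
PLW, module W8c (abstract part): the gas of disjoint polygons with non-negative weights is at most the product of the
gases of two classes of polygons and of the factors `1 + w` of the polygons of the third class.

A gas is a function `z` of finite sets of vertices with the recursion `z A = z (A - v) + sum of w E * z (A - E)` over the
polygons `E` of `A` through `v`.
-/

set_option autoImplicit false

namespace Pool.Agent.PLW

open Finset

variable {V P : Type*} [DecidableEq V]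

/-- the polygons of `A` through `v` -/
noncomputable def thru (Q : Finset P) (ve : P → Finset V) (A : Finset V) (v : V) : Finset P := by
  classical
  exact Q.filter (fun E => ve E ⊆ A ∧ v ∈ ve E)

theorem mem_thru {Q : Finset P} {ve : P → Finset V} {A : Finset V} {v : V} {E : P} :
    E ∈ thru Q ve A v ↔ E ∈ Q ∧ ve E ⊆ A ∧ v ∈ ve E := by
  unfold thru
  rw [mem_filter]

/-- the gas with the polygons `Q` on the subsets of `A0`: an upper solution of the recursion -/
structure GasUp (A0 : Finset V) (Q : Finset P) (ve : P → Finset V) (w : P → ℝ) (z : Finset V → ℝ) : Prop where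
  nn : ∀ A, A ⊆ A0 → 0 ≤ z A
  one : 1 ≤ z ∅
  mono : ∀ A B, A ⊆ B → B ⊆ A0 → z A ≤ z B
  step : ∀ A, A ⊆ A0 → ∀ v ∈ A, z (A.erase v) + ∑ E ∈ thru Q ve A v, w E * z (A \ ve E) ≤ z A

/-- a lower solution of the recursion -/
structure GasLo (A0 : Finset V) (Q : Finset P) (ve : P → Finset V) (w : P → ℝ) (z : Finset V → ℝ) : Prop where
  one : z ∅ ≤ 1
  step : ∀ A, A ⊆ A0 → ∀ v ∈ A, z A ≤ z (A.erase v) + ∑ E ∈ thru Q ve A v, w E * z (A \ ve E)

/-- comparison -/
theorem GasLo.le {A0 : Finset V} {Q : Finset P} {ve : P → Finset V} {w : P → ℝ} {z z' : Finset V → ℝ}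
    (hw : ∀ E ∈ Q, 0 ≤ w E) (h : GasLo A0 Q ve w z) (h' : GasUp A0 Q ve w z') :
    ∀ A, A ⊆ A0 → z A ≤ z' A := by
  suffices H : ∀ n : ℕ, ∀ A : Finset V, A ⊆ A0 → A.card < n → z A ≤ z' A from
    fun A hA => H _ A hA (Nat.lt_succ_self _)
  intro n
  induction n with
  | zero => intro A _ h; exact absurd h (Nat.not_lt_zero _)
  | succ n ih =>
    intro A hA hn
    rcases A.eq_empty_or_nonempty with rfl | ⟨v, hv⟩
    · exact h.one.trans h'.one
    · refine (h.step A hA v hv).trans (le_trans (add_le_add ?_ ?_) (h'.step A hA v hv))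
      · exact ih _ ((erase_subset _ _).trans hA) (by have := card_erase_lt_of_mem hv; omega)
      · refine sum_le_sum fun E hE => ?_
        obtain ⟨h1, h2, h3⟩ := mem_thru.1 hE
        refine mul_le_mul_of_nonneg_left (ih _ (sdiff_subset.trans hA) ?_) (hw E h1)
        have : (A \ ve E).card < A.card := card_lt_card ⟨sdiff_subset, fun hh => (mem_sdiff.1 (hh hv)).2 h3⟩
        omega

/-- the product of the factors `1 + w` of the polygons of `A` -/
noncomputable def prodW (Q : Finset P) (ve : P → Finset V) (w : P → ℝ) (A : Finset V) : ℝ := by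
  classical
  exact ∏ E ∈ Q.filter (fun E => ve E ⊆ A), (1 + w E)

theorem prodW_eq (Q : Finset P) (ve : P → Finset V) (w : P → ℝ) (A : Finset V) [DecidablePred fun E => ve E ⊆ A] :
    prodW Q ve w A = ∏ E ∈ Q.filter (fun E => ve E ⊆ A), (1 + w E) := by
  unfold prodW
  congr

theorem one_add_sum_le_prod {ι : Type*} (s : Finset ι) (f : ι → ℝ) (hf : ∀ i ∈ s, 0 ≤ f i) :
    1 + ∑ i ∈ s, f i ≤ ∏ i ∈ s, (1 + f i) := by
  classical
  induction s using Finset.induction_on with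
  | empty => simp
  | insert i s hi ih =>
    rw [sum_insert hi, prod_insert hi]
    have h1 := ih (fun j hj => hf j (mem_insert_of_mem hj))
    have h2 : 0 ≤ f i := hf i (mem_insert_self _ _)
    have h3 : 0 ≤ ∑ j ∈ s, f j := sum_nonneg fun j hj => hf j (mem_insert_of_mem hj)
    nlinarith [mul_le_mul_of_nonneg_left h1 h2]

theorem prodW_mono {Q : Finset P} {ve : P → Finset V} {w : P → ℝ} (hw : ∀ E ∈ Q, 0 ≤ w E) {A B : Finset V}
    (hAB : A ⊆ B) : prodW Q ve w A ≤ prodW Q ve w B := by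
  classical
  rw [prodW_eq, prodW_eq]
  have hs : Q.filter (fun E => ve E ⊆ A) ⊆ Q.filter (fun E => ve E ⊆ B) := by
    intro E hE
    obtain ⟨a, b⟩ := mem_filter.1 hE
    exact mem_filter.2 ⟨a, b.trans hAB⟩
  rw [← prod_sdiff hs]
  have h1 : 1 ≤ ∏ E ∈ Q.filter (fun E => ve E ⊆ B) \ Q.filter (fun E => ve E ⊆ A), (1 + w E) := by
    refine le_trans ?_ (one_add_sum_le_prod _ _ fun E hE => hw E (mem_filter.1 (mem_sdiff.1 hE).1).1)
    have : 0 ≤ ∑ E ∈ Q.filter (fun E => ve E ⊆ B) \ Q.filter (fun E => ve E ⊆ A), w E :=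
      sum_nonneg fun E hE => hw E (mem_filter.1 (mem_sdiff.1 hE).1).1
    linarith
  have h2 : 0 ≤ ∏ E ∈ Q.filter (fun E => ve E ⊆ A), (1 + w E) :=
    prod_nonneg fun E hE => by
      have := hw E (mem_filter.1 hE).1
      linarith
  nlinarith

theorem prodW_one_le {Q : Finset P} {ve : P → Finset V} {w : P → ℝ} (hw : ∀ E ∈ Q, 0 ≤ w E) (A : Finset V) :
    1 ≤ prodW Q ve w A := by
  classical
  rw [prodW_eq]
  refine le_trans ?_ (one_add_sum_le_prod _ _ fun E hE => hw E (mem_filter.1 hE).1)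
  have : 0 ≤ ∑ E ∈ Q.filter (fun E => ve E ⊆ A), w E := sum_nonneg fun E hE => hw E (mem_filter.1 hE).1
  linarith

theorem prodW_up {A0 : Finset V} {Q : Finset P} {ve : P → Finset V} {w : P → ℝ} (hw : ∀ E ∈ Q, 0 ≤ w E) :
    GasUp A0 Q ve w (prodW Q ve w) := by
  classical
  refine ⟨fun A _ => by have := prodW_one_le (ve := ve) hw A; linarith, prodW_one_le hw ∅,
    fun A B hAB _ => prodW_mono hw hAB, fun A _ v hv => ?_⟩
  have h1 : Disjoint (Q.filter (fun E => ve E ⊆ A.erase v)) (thru Q ve A v) := by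
    rw [disjoint_left]
    intro E hE hE'
    obtain ⟨-, h3⟩ := mem_filter.1 hE
    obtain ⟨-, -, h5⟩ := mem_thru.1 hE'
    exact (mem_erase.1 (h3 h5)).1 rfl
  have h2 : Q.filter (fun E => ve E ⊆ A) = Q.filter (fun E => ve E ⊆ A.erase v) ∪ thru Q ve A v := by
    ext E
    rw [mem_union, mem_thru, mem_filter, mem_filter]
    constructor
    · rintro ⟨a, b⟩
      by_cases c : v ∈ ve E
      · exact Or.inr ⟨a, b, c⟩
      · exact Or.inl ⟨a, fun x hx => mem_erase.2 ⟨fun e => c (e ▸ hx), b hx⟩⟩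
    · rintro (⟨a, b⟩ | ⟨a, b, -⟩)
      · exact ⟨a, b.trans (erase_subset _ _)⟩
      · exact ⟨a, b⟩
  have h3 : prodW Q ve w A = prodW Q ve w (A.erase v) * ∏ E ∈ thru Q ve A v, (1 + w E) := by
    rw [prodW_eq, prodW_eq, h2, prod_union h1]
  have h4 := one_add_sum_le_prod (thru Q ve A v) w fun E hE => hw E (mem_thru.1 hE).1
  have h5 := prodW_one_le (ve := ve) hw (A.erase v)
  have h6 : ∑ E ∈ thru Q ve A v, w E * prodW Q ve w (A \ ve E) ≤
      prodW Q ve w (A.erase v) * ∑ E ∈ thru Q ve A v, w E := by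
    rw [mul_sum]
    refine sum_le_sum fun E hE => ?_
    obtain ⟨a, b, c⟩ := mem_thru.1 hE
    rw [mul_comm]
    refine mul_le_mul_of_nonneg_right (prodW_mono hw fun x hx => ?_) (hw E a)
    obtain ⟨d, e⟩ := mem_sdiff.1 hx
    exact mem_erase.2 ⟨fun e' => e (e' ▸ c), d⟩
  rw [h3]
  have h7 := mul_le_mul_of_nonneg_left h4 (by linarith : (0:ℝ) ≤ prodW Q ve w (A.erase v))
  rw [mul_add, mul_one] at h7
  linarith

theorem prodW_le_exp {Q : Finset P} {ve : P → Finset V} {w : P → ℝ} (hw : ∀ E ∈ Q, 0 ≤ w E) (A : Finset V) :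
    prodW Q ve w A ≤ Real.exp (∑ E ∈ Q, w E) := by
  classical
  rw [prodW_eq, Real.exp_sum]
  have h1 : ∏ E ∈ Q.filter (fun E => ve E ⊆ A), (1 + w E) ≤ ∏ E ∈ Q.filter (fun E => ve E ⊆ A), Real.exp (w E) := by
    refine prod_le_prod (fun E hE => ?_) fun E _ => ?_
    · have := hw E (mem_filter.1 hE).1
      linarith
    · rw [add_comm]
      exact Real.add_one_le_exp _
  refine h1.trans ?_
  rw [← Real.exp_sum, ← Real.exp_sum]
  refine Real.exp_le_exp.2 (sum_le_sum_of_subset_of_nonneg (filter_subset _ _) fun E hE _ => hw E hE)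

/-- product of two gases -/
theorem GasUp.mul {A0 : Finset V} {Q1 Q2 Q : Finset P} {ve : P → Finset V} {w : P → ℝ} {z1 z2 : Finset V → ℝ}
    (hw1 : ∀ E ∈ Q1, 0 ≤ w E) (hw2 : ∀ E ∈ Q2, 0 ≤ w E)
    (h1 : GasUp A0 Q1 ve w z1) (h2 : GasUp A0 Q2 ve w z2) (hQ : ∀ E ∈ Q, E ∈ Q1 ∨ E ∈ Q2) :
    GasUp A0 Q ve w (fun A => z1 A * z2 A) := by
  classical
  refine ⟨fun A hA => mul_nonneg (h1.nn A hA) (h2.nn A hA), ?_, fun A B hAB hB => ?_, fun A hA v hv => ?_⟩
  · have a := h1.one
    have b := h2.one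
    show 1 ≤ z1 ∅ * z2 ∅
    nlinarith
  · exact mul_le_mul (h1.mono A B hAB hB) (h2.mono A B hAB hB) (h2.nn A (hAB.trans hB)) (h1.nn B hB)
  · have hE : A.erase v ⊆ A0 := (erase_subset _ _).trans hA
    have s1 := h1.step A hA v hv
    have s2 := h2.step A hA v hv
    have hsub : ∀ E ∈ thru Q1 ve A v ∪ thru Q2 ve A v, A \ ve E ⊆ A.erase v := by
      intro E hE x hx
      obtain ⟨d, e⟩ := mem_sdiff.1 hx
      have c : v ∈ ve E := by
        rcases mem_union.1 hE with h | h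
        · exact (mem_thru.1 h).2.2
        · exact (mem_thru.1 h).2.2
      exact mem_erase.2 ⟨fun e' => e (e' ▸ c), d⟩
    set a1 := ∑ E ∈ thru Q1 ve A v, w E * z1 (A \ ve E) with ha1
    set a2 := ∑ E ∈ thru Q2 ve A v, w E * z2 (A \ ve E) with ha2
    have p1 : 0 ≤ a1 := sum_nonneg fun E hE => mul_nonneg (hw1 E (mem_thru.1 hE).1)
      (h1.nn _ (sdiff_subset.trans hA))
    have p2 : 0 ≤ a2 := sum_nonneg fun E hE => mul_nonneg (hw2 E (mem_thru.1 hE).1)
      (h2.nn _ (sdiff_subset.trans hA))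
    have q1 : 0 ≤ z1 (A.erase v) := h1.nn _ hE
    have q2 : 0 ≤ z2 (A.erase v) := h2.nn _ hE
    have k : ∑ E ∈ thru Q ve A v, w E * (z1 (A \ ve E) * z2 (A \ ve E)) ≤
        a1 * z2 (A.erase v) + z1 (A.erase v) * a2 := by
      have k1 : ∑ E ∈ thru Q ve A v, w E * (z1 (A \ ve E) * z2 (A \ ve E)) ≤
          ∑ E ∈ thru Q1 ve A v, w E * (z1 (A \ ve E) * z2 (A \ ve E)) +
          ∑ E ∈ thru Q2 ve A v, w E * (z1 (A \ ve E) * z2 (A \ ve E)) := by
        have hnn : ∀ E ∈ thru Q1 ve A v ∪ thru Q2 ve A v, 0 ≤ w E * (z1 (A \ ve E) * z2 (A \ ve E)) := by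
          intro E hE
          have hw : 0 ≤ w E := by
            rcases mem_union.1 hE with h | h
            · exact hw1 E (mem_thru.1 h).1
            · exact hw2 E (mem_thru.1 h).1
          exact mul_nonneg hw (mul_nonneg (h1.nn _ (sdiff_subset.trans hA)) (h2.nn _ (sdiff_subset.trans hA)))
        rw [← sum_union_inter]
        have k3 : 0 ≤ ∑ E ∈ thru Q1 ve A v ∩ thru Q2 ve A v, w E * (z1 (A \ ve E) * z2 (A \ ve E)) :=
          sum_nonneg fun E hE => hnn E (mem_union_left _ (mem_inter.1 hE).1)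
        have k4 : ∑ E ∈ thru Q ve A v, w E * (z1 (A \ ve E) * z2 (A \ ve E)) ≤
            ∑ E ∈ thru Q1 ve A v ∪ thru Q2 ve A v, w E * (z1 (A \ ve E) * z2 (A \ ve E)) := by
          refine sum_le_sum_of_subset_of_nonneg ?_ fun E hE _ => hnn E hE
          intro E hE
          obtain ⟨a, b, c⟩ := mem_thru.1 hE
          rcases hQ E a with h | h
          · exact mem_union_left _ (mem_thru.2 ⟨h, b, c⟩)
          · exact mem_union_right _ (mem_thru.2 ⟨h, b, c⟩)
        linarith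
      refine k1.trans (add_le_add ?_ ?_)
      · rw [ha1, sum_mul]
        refine sum_le_sum fun E hE => ?_
        rw [← mul_assoc]
        refine mul_le_mul_of_nonneg_left (h2.mono _ _ (hsub E (mem_union_left _ hE)) ‹_›) ?_
        exact mul_nonneg (hw1 E (mem_thru.1 hE).1) (h1.nn _ (sdiff_subset.trans hA))
      · rw [ha2, mul_sum]
        refine sum_le_sum fun E hE => ?_
        rw [show z1 (A.erase v) * (w E * z2 (A \ ve E)) = w E * (z1 (A.erase v) * z2 (A \ ve E)) by ring]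
        refine mul_le_mul_of_nonneg_left ?_ (hw2 E (mem_thru.1 hE).1)
        exact mul_le_mul_of_nonneg_right (h1.mono _ _ (hsub E (mem_union_right _ hE)) ‹_›)
          (h2.nn _ (sdiff_subset.trans hA))
    show z1 (A.erase v) * z2 (A.erase v) + _ ≤ z1 A * z2 A
    calc z1 (A.erase v) * z2 (A.erase v) + ∑ E ∈ thru Q ve A v, w E * (z1 (A \ ve E) * z2 (A \ ve E))
        ≤ z1 (A.erase v) * z2 (A.erase v) + (a1 * z2 (A.erase v) + z1 (A.erase v) * a2) := by linarith
      _ ≤ (z1 (A.erase v) + a1) * (z2 (A.erase v) + a2) := by nlinarith [mul_nonneg p1 p2]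
      _ ≤ z1 A * z2 A := mul_le_mul s1 s2 (by linarith) (h1.nn A hA)

/-- **three classes of polygons.** -/
theorem split3 {A0 : Finset V} {Q Q1 Q2 Q3 : Finset P} {ve : P → Finset V} {w : P → ℝ} {z z1 z2 : Finset V → ℝ}
    (hw : ∀ E, 0 ≤ w E) (hQ : ∀ E ∈ Q, E ∈ Q1 ∨ E ∈ Q2 ∨ E ∈ Q3) (h : GasLo A0 Q ve w z)
    (h1 : GasUp A0 Q1 ve w z1) (h2 : GasUp A0 Q2 ve w z2) :
    z A0 ≤ z1 A0 * z2 A0 * Real.exp (∑ E ∈ Q3, w E) := by
  classical
  have h12 : GasUp A0 (Q1 ∪ Q2) ve w (fun A => z1 A * z2 A) :=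
    h1.mul (fun E _ => hw E) (fun E _ => hw E) h2 fun E hE => mem_union.1 hE
  have h123 : GasUp A0 Q ve w (fun A => z1 A * z2 A * prodW Q3 ve w A) :=
    h12.mul (fun E _ => hw E) (fun E _ => hw E) (prodW_up fun E _ => hw E) fun E hE => by
      rcases hQ E hE with h | h | h
      · exact Or.inl (mem_union_left _ h)
      · exact Or.inl (mem_union_right _ h)
      · exact Or.inr h
  refine (h.le (fun E _ => hw E) h123 A0 (Subset.refl _)).trans ?_
  exact mul_le_mul_of_nonneg_left (prodW_le_exp (fun E _ => hw E) A0)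
    (mul_nonneg (h1.nn _ (Subset.refl _)) (h2.nn _ (Subset.refl _)))

end Pool.Agent.PLW
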