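import Pool.Agent.PLW.Defs
import Pool.Agent.PLW.Strip
import Pool.Agent.SDN.CleanFin

/-!
PLW [W4]: the periodic walks with small drawdowns.
-/

set_option autoImplicit false

namespace HexObs

namespace PLW

open Finset TS SDN PLD

open scoped ENNReal

/-! ### 1. The periodic walk, windows -/

/-- the first m letters of the periodic word -/
def pw (z : List Bool) (m : ℕ) : List Bool := (List.range m).map (per z)

lemma pw_length (z : List Bool) (m : ℕ) : (pw z m).length = m := by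
  unfold pw
  rw [List.length_map, List.length_range]

lemma tf_pw {z : List Bool} {m k : ℕ} (h : k < m) : tf (pw z m) k = per z k := by
  unfold tf pw
  rw [List.getD_eq_getElem?_getD, List.getElem?_map, List.getElem?_range h]
  rfl

lemma vx_pw {z : List Bool} {m i : ℕ} (h : i ≤ m) : vx oo up (pw z m) i = pv z i :=
  vs_congr i fun _ hk => tf_pw (by omega)

lemma dx_pw {z : List Bool} {m i : ℕ} (h : i ≤ m) : dx up (pw z m) i = pd z i :=
  ds_congr i fun _ hk => tf_pw (by omega)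

/-- the level of the periodic walk -/
def pl (z : List Bool) (i : ℕ) : ℤ := ip (pv z i) up

lemma lev_pw {z : List Bool} {m i : ℕ} (h : i ≤ m) : lev (pw z m) i = pl z i := by
  unfold lev pl
  rw [vx_pw h]

lemma lev_eq_pl {z : List Bool} {i : ℕ} (h : i ≤ z.length) : lev z i = pl z i := by
  unfold lev pl
  rw [vx_eq_pv h]

lemma pl_zero (z : List Bool) : pl z 0 = 0 := by
  rw [← lev_eq_pl (Nat.zero_le _), lev_zero]

lemma pl_mod (z : List Bool) (i : ℕ) : (3 : ℤ) ∣ pl z i - (if Even i then 0 else 2) := by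
  rw [← lev_pw (le_refl i)]
  exact lev_mod _ _

/-- the only steps across the level 3 c -/
lemma pl_cross {z : List Bool} {i : ℕ} {c : ℤ} (h1 : pl z i ≤ 3 * c) (h2 : 3 * c < pl z (i + 1)) :
    pl z i = 3 * c ∧ pd z i = up ∧ pl z (i + 1) = 3 * c + 2 := by
  have hs := lev_succ (pw z (i + 1)) i
  rw [lev_pw le_rfl, lev_pw (Nat.le_succ i)] at hs
  have hm := pl_mod z i
  by_cases he : Even i
  · rw [if_pos he] at hm
    rcases step_even upd (pw z (i + 1)) he with h | h | h
    · have e1 : ip (dx up (pw z (i + 1)) i) up = 2 := by rw [h.1]; decide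
      rw [e1] at hs
      refine ⟨by omega, ?_, by omega⟩
      rw [← dx_pw (Nat.le_succ i)]
      exact h.1
    · rw [h.2] at hs
      omega
    · rw [h.2] at hs
      omega
  · rw [if_neg he] at hm
    rcases step_odd upd (pw z (i + 1)) he with h | h | h
    · have e1 : ip (dx up (pw z (i + 1)) i) up = -2 := by rw [h.1]; decide
      rw [e1] at hs
      omega
    · rw [h.2] at hs
      omega
    · rw [h.2] at hs
      omega

/-! ### 2. Period P -/

lemma even_of_up {z : List Bool} {i : ℕ} (h : pd z i = up) : Even i := by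
  by_contra he
  have h1 := step_odd upd (pw z i) he
  rw [dx_pw le_rfl, h] at h1
  rcases h1 with h1 | h1 | h1
  · exact absurd h1.1 (by decide)
  · exact absurd h1.2 (by decide)
  · exact absurd h1.2 (by decide)

lemma cwp_pv {P : Pt} {z : List Bool} (hz : z ∈ CwP P) (i : ℕ) : pv z (z.length + i) = P + pv z i := by
  have h1 : ds up (per z) z.length = up := by
    have h := dx_eq_pd (z := z) le_rfl
    rw [hz.2.2.1] at h
    exact h.symm
  have h2 : vs oo up (per z) z.length = P := by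
    have h := vx_eq_pv (z := z) le_rfl
    rw [hz.2.1] at h
    exact h.symm
  unfold pv
  rw [vs_shift, h1, h2, vs_trans]
  congr 1
  exact vs_congr i fun k _ => per_add z k

lemma cwp_level {P : Pt} {z : List Bool} (hz : z ∈ CwP P) : ip P up = 3 * row false P := by
  have h1 : pd z z.length = up := by
    rw [← dx_eq_pd le_rfl]
    exact hz.2.2.1
  have h2 := pl_mod z z.length
  rw [if_pos (even_of_up h1)] at h2
  have h3 : pl z z.length = ip P up := by
    unfold pl
    rw [← vx_eq_pv le_rfl, hz.2.1]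
  rw [h3] at h2
  have h4 : row false P = ip P up / 3 := rfl
  rw [h4]
  omega

lemma cwp_pl {P : Pt} {z : List Bool} (hz : z ∈ CwP P) (i : ℕ) : pl z (z.length + i) = 3 * row false P + pl z i := by
  unfold pl
  rw [cwp_pv hz, ip_add_left, cwp_level hz]

lemma cwp_pl_mul {P : Pt} {z : List Bool} (hz : z ∈ CwP P) (k i : ℕ) :
    pl z (z.length * k + i) = 3 * row false P * k + pl z i := by
  induction k with
  | zero => simp
  | succ k ih =>
    rw [Nat.mul_succ, Nat.add_comm (z.length * k) z.length, Nat.add_assoc, cwp_pl hz, ih]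
    push_cast
    ring

lemma row_pv (z : List Bool) (i : ℕ) : row false (pv z i) = pl z i / 3 := rfl

lemma dd_pl {d : ℕ} {z : List Bool} (h : DD d z) {i i' : ℕ} (hi : i ≤ i') : pl z i - pl z i' ≤ 3 * d + 2 := by
  have := h i i' hi
  rw [row_pv, row_pv] at this
  omega

/-- the last visit of the level 0 -/
lemma exists_last {P : Pt} {z : List Bool} {d : ℕ} (hz : z ∈ CwP P) (hP : 1 ≤ row false P) (hd : DD d z) :
    ∃ r, pl z r = 0 ∧ pd z r = up ∧ ∀ t, r < t → 0 < pl z t := by
  classical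
  have h0 : 0 < z.length := List.length_pos_iff.2 hz.1
  obtain ⟨k, hk⟩ : ∃ k : ℕ, k = d + 1 := ⟨_, rfl⟩
  have hbig : ∀ t, z.length * k ≤ t → 0 < pl z t := by
    intro t ht
    obtain ⟨i, rfl⟩ : ∃ i, t = z.length * k + i := ⟨t - z.length * k, by omega⟩
    rw [cwp_pl_mul hz]
    have h1 := dd_pl hd (Nat.zero_le i)
    rw [pl_zero] at h1
    have h2 : (1 : ℤ) * k ≤ row false P * k := mul_le_mul_of_nonneg_right hP (by positivity)
    rw [hk] at h2 ⊢
    push_cast at h2 ⊢
    nlinarith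
  obtain ⟨r, hr, hmax⟩ : ∃ r, pl z r ≤ 0 ∧ ∀ t, r < t → 0 < pl z t := by
    have hne : ((range (z.length * k + 1)).filter fun t => pl z t ≤ 0).Nonempty :=
      ⟨0, by simp [pl_zero]⟩
    refine ⟨Finset.max' _ hne, (Finset.mem_filter.1 (Finset.max'_mem _ hne)).2, fun t ht => ?_⟩
    by_contra hcon
    have ht2 : t < z.length * k + 1 := by
      by_contra h
      exact hcon (hbig t (by omega))
    have := Finset.le_max' ((range (z.length * k + 1)).filter fun t => pl z t ≤ 0) t
      (Finset.mem_filter.2 ⟨Finset.mem_range.2 ht2, by omega⟩)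
    omega
  obtain ⟨h1, h2, h3⟩ := pl_cross (z := z) (i := r) (c := 0) (by omega) (by
    have := hmax (r + 1) (by omega)
    omega)
  exact ⟨r, by omega, h2, hmax⟩

/-- the split of a periodic walk with small drawdowns: a bridge of height N and a walk in a strip -/
theorem split_small {P : Pt} {z : List Bool} {d : ℕ} (hz : z ∈ CwP P) (hP : 1 ≤ row false P) (hd : DD d z) :
    ∃ (r : ℕ) (g y : List Bool), g ++ y = z.rotate r ∧ g ∈ Brd (row false P).toNat ∧
      (∀ i i', i ≤ i' → i' ≤ g.length → lev g i - lev g i' ≤ 3 * d + 2) ∧ y ∈ YS (3 * d + 2) := by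
  classical
  obtain ⟨r, hr0, hrd, hr⟩ := exists_last hz hP hd
  obtain ⟨N, hN⟩ : ∃ N : ℕ, N = (row false P).toNat := ⟨_, rfl⟩
  have hNz : (N : ℤ) = row false P := by
    rw [hN]
    exact Int.toNat_of_nonneg (by omega)
  rw [← hN]
  obtain ⟨w, hw⟩ : ∃ w, w = z.rotate r := ⟨_, rfl⟩
  have hwl : w.length = z.length := by rw [hw, List.length_rotate]
  have hsh : ∀ i, pv z (r + i) = pv z r + pv w i := fun i => by
    rw [hw]
    exact pv_shift hz.1 hrd i
  have hpl : ∀ i, pl w i = pl z (r + i) := by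
    intro i
    have : pl z (r + i) = pl z r + pl w i := by
      unfold pl
      rw [hsh, ip_add_left]
    omega
  have hinj : ∀ i k, i ≠ k → pv w i ≠ pv w k := by
    intro i k hik h
    refine hz.2.2.2 (r + i) (r + k) (by omega) ?_
    rw [hsh, hsh, h]
  have hpos : ∀ i, 1 ≤ i → 0 < pl w i := fun i hi => by
    rw [hpl]
    exact hr _ (by omega)
  have hdr : ∀ i i', i ≤ i' → pl w i - pl w i' ≤ 3 * d + 2 := fun i i' hi => by
    rw [hpl, hpl]
    exact dd_pl hd (by omega)
  have hend : ∀ i, pl w (w.length + i) = 3 * N + pl w i := fun i => by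
    rw [hpl, hpl, hwl, show r + (z.length + i) = z.length + (r + i) by omega, cwp_pl hz, hNz]
  have hn0 : pl w w.length = 3 * N := by
    have := hend 0
    rw [pl_zero] at this
    simpa using this
  have hn1 : 3 * (N : ℤ) < pl w (w.length + 1) := by
    rw [hend]
    have := hpos 1 le_rfl
    omega
  have hex : ∃ i, 3 * (N : ℤ) < pl w (i + 1) := ⟨w.length, hn1⟩
  obtain ⟨τ, hτ⟩ : ∃ τ, τ = Nat.find hex := ⟨_, rfl⟩
  have hτ1 : 3 * (N : ℤ) < pl w (τ + 1) := by
    rw [hτ]
    exact Nat.find_spec hex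
  have hτn : τ ≤ w.length := by
    rw [hτ]
    exact Nat.find_min' hex hn1
  have hτb : ∀ i, i ≤ τ → pl w i ≤ 3 * N := by
    intro i hi
    rcases Nat.eq_zero_or_pos i with h0 | h0
    · rw [h0, pl_zero]
      positivity
    · by_contra hcon
      have := Nat.find_min hex (m := i - 1) (by omega)
      rw [show i - 1 + 1 = i by omega] at this
      omega
  obtain ⟨c1, c2, c3⟩ := pl_cross (z := w) (i := τ) (c := N) (hτb τ le_rfl) hτ1
  have hgl : (w.take τ).length = τ := by
    rw [List.length_take]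
    omega
  have hap : w.take τ ++ w.drop τ = w := List.take_append_drop _ _
  have hgv : ∀ i, i ≤ τ → vx oo up (w.take τ) i = pv w i := by
    intro i hi
    have := vx_append (v0 := oo) (d0 := up) (t := w.take τ) (s := w.drop τ) (i := i) (by omega)
    rw [hap] at this
    rw [← this, vx_eq_pv (by omega)]
  have hgd : dx up (w.take τ) (w.take τ).length = up := by
    have := dx_append (d0 := up) (t := w.take τ) (s := w.drop τ) (i := τ) (by omega)
    rw [hap, dx_eq_pd hτn, c2] at this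
    rw [hgl, ← this]
  have hyv : ∀ i, i ≤ (w.drop τ).length → vx oo up (w.drop τ) i = pv w (τ + i) - pv w τ := by
    intro i hi
    have h1 := vx_cat hgd (t := w.drop τ) i
    rw [hap, hgl, hgv τ le_rfl] at h1
    rw [List.length_drop] at hi
    rw [vx_eq_pv (by omega)] at h1
    rw [h1]
    abel
  refine ⟨r, w.take τ, w.drop τ, by rw [hap, hw], ?_, ?_, ?_, ?_⟩
  · rw [mem_Brd, hgl]
    refine ⟨fun i h1 h2 => ?_, fun i k h1 h2 => ?_, ?_, ?_⟩
    · unfold lev
      rw [hgv i h2]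
      exact ⟨hpos i h1, hτb i h2⟩
    · rw [hgv i (by omega), hgv k h2]
      exact hinj i k (by omega)
    · have h := hgd
      rwa [hgl] at h
    · unfold lev
      rw [hgv τ le_rfl]
      exact c1
  · intro i i' h1 h2
    rw [hgl] at h2
    unfold lev
    rw [hgv i (by omega), hgv i' h2]
    exact hdr i i' h1
  · refine ⟨fun _ _ _ => Set.mem_univ _, fun i k h1 h2 => ?_⟩
    rw [hyv i (by omega), hyv k h2]
    intro h
    exact hinj (τ + i) (τ + k) (by omega) (sub_left_injective h)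
  · intro i hi
    have e : lev (w.drop τ) i = pl w (τ + i) - pl w τ := by
      unfold lev pl
      rw [hyv i hi, ip_sub_left]
    rw [List.length_drop] at hi
    have h1 := hdr τ (τ + i) (by omega)
    have h2 := hdr (τ + i) w.length (by omega)
    rw [e, abs_le]
    push_cast
    constructor <;> omega

/-! ### 3. The sum -/

lemma wE_rot (z : List Bool) (r : ℕ) : wE (z.rotate r) = wE z := by
  unfold wE
  rw [List.length_rotate]

theorem sum_small {P : Pt} {Z : Set (List Bool)} {d b : ℕ} (hZ : Z ⊆ CwP P)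
    (hu : ∀ z ∈ Z, ∀ z' ∈ Z, ∀ r, z' = z.rotate r → z' = z) (hP : 1 ≤ row false P) (hd : ∀ z ∈ Z, DD d z)
    (hb : d + 2 ≤ 2 ^ b) :
    ∑' z : Z, wE z.1 ≤ gf (Brd (row false P).toNat ∩ CL b) * gf (YS (3 * d + 2)) := by
  classical
  have hsp : ∀ z : Z, ∃ (r : ℕ) (g y : List Bool), g ++ y = z.1.rotate r ∧ g ∈ Brd (row false P).toNat ∩ CL b ∧
      y ∈ YS (3 * d + 2) := by
    intro z
    obtain ⟨r, g, y, h1, h2, h3, h4⟩ := split_small (hZ z.2) hP (hd z.1 z.2)
    refine ⟨r, g, y, h1, ⟨h2, fun i i' i1 i2 => ?_⟩, h4⟩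
    have h5 := h3 i i' i1 i2
    have h6 : (d : ℤ) + 2 ≤ 2 ^ b := by exact_mod_cast hb
    unfold RR
    omega
  choose r g y h1 h2 h3 using hsp
  let φ : Z → ↥(Brd (row false P).toNat ∩ CL b) × ↥(YS (3 * d + 2)) := fun z => (⟨g z, h2 z⟩, ⟨y z, h3 z⟩)
  have hφ : Function.Injective φ := by
    intro z z' h
    have e1 : g z = g z' := congrArg (fun p => p.1.1) h
    have e2 : y z = y z' := congrArg (fun p => p.2.1) h
    have e3 : z.1.rotate (r z) = z'.1.rotate (r z') := by rw [← h1 z, ← h1 z', e1, e2]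
    have e4 : z.1 ~r z'.1 := by
      have a : z.1 ~r z.1.rotate (r z) := ⟨r z, rfl⟩
      have a' : z'.1 ~r z'.1.rotate (r z') := ⟨r z', rfl⟩
      rw [e3] at a
      exact a.trans a'.symm
    obtain ⟨s, hs⟩ := e4
    exact Subtype.ext (hu z.1 z.2 z'.1 z'.2 s hs.symm).symm
  calc ∑' z : Z, wE z.1 = ∑' z : Z, (fun p : ↥(Brd (row false P).toNat ∩ CL b) × ↥(YS (3 * d + 2)) =>
        wE p.1.1 * wE p.2.1) (φ z) := by
        refine tsum_congr fun z => ?_
        show wE z.1 = wE (g z) * wE (y z)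
        rw [← wE_append, h1, wE_rot]
    _ ≤ ∑' p : ↥(Brd (row false P).toNat ∩ CL b) × ↥(YS (3 * d + 2)), wE p.1.1 * wE p.2.1 :=
        ENNReal.tsum_comp_le_tsum_of_injective hφ _
    _ = ∑' a : ↥(Brd (row false P).toNat ∩ CL b), ∑' c : ↥(YS (3 * d + 2)), wE a.1 * wE c.1 :=
        ENNReal.tsum_prod (f := fun (a : ↥(Brd (row false P).toNat ∩ CL b)) (c : ↥(YS (3 * d + 2))) => wE a.1 * wE c.1)
    _ = gf (Brd (row false P).toNat ∩ CL b) * gf (YS (3 * d + 2)) := by
        simp only [ENNReal.tsum_mul_left]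
        rw [ENNReal.tsum_mul_right]
        rfl

/-- the bridges of height N with small drawdowns -/
theorem clean_tail (d : ℕ) : ∃ (C : ℝ) (b K' : ℕ), 0 < C ∧ d + 2 ≤ 2 ^ b ∧ ∀ N : ℕ,
    gf (Brd N ∩ CL b) ≤ ENNReal.ofReal (C / 4 ^ (N / 2 ^ K')) := by
  obtain ⟨K, s, hK, hs, hcn⟩ := clean_norm
  have hU : 0 < Ub d := Ub_pos d
  refine ⟨2 * K * Ub d + 4, d + 5, d + s, by positivity, ?_, fun N => ?_⟩
  · have := Nat.lt_two_pow_self (n := d)
    rw [pow_add]
    omega
  · have h4 : 0 ≤ 2 * K * Ub d := by positivity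
    rcases Nat.lt_or_ge N (2 ^ (d + 4)) with h | h
    · have h1 : N / 2 ^ (d + s) = 0 := Nat.div_eq_of_lt (h.trans_le (Nat.pow_le_pow_right (by norm_num) (by omega)))
      rw [h1, pow_zero, div_one]
      refine (gf_mono Set.inter_subset_left).trans ((gf_Brd_le N).trans ?_)
      rw [← ENNReal.ofReal_one]
      exact ENNReal.ofReal_le_ofReal (by linarith)
    · obtain ⟨n, hn⟩ : ∃ n, n = N / 2 ^ (d + s) := ⟨_, rfl⟩
      rw [← hn]
      have hsub : Brd N ∩ CL (d + 5) ⊆ CK (d + 5) (d + s) n ∩ HB (2 ^ (d + 4)) := by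
        rintro g ⟨g1, g2⟩
        have h1 := Nat.div_add_mod N (2 ^ (d + s))
        have h2 := Nat.mod_lt N (show 0 < 2 ^ (d + s) by positivity)
        refine ⟨⟨g2, N, ?_, ?_, g1⟩, N, h, g1⟩
        · rw [hn, mul_comm]
          omega
        · rw [hn, add_mul, one_mul, mul_comm]
          omega
      have hher : HerD (2 ^ (d + 4)) (fun _ : List Bool => (1 : ℝ≥0∞)) := ⟨fun _ _ _ => le_rfl, fun _ _ _ _ => le_rfl⟩
      have h1 := (hcn d n (fun _ => 1) hher).2
      have h2 : gf (CK (d + 5) (d + s) n ∩ HB (2 ^ (d + 4))) =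
          Rec8.sw (CK (d + 5) (d + s) n ∩ HB (2 ^ (d + 4))) (fun _ => 1) := by
        unfold gf Rec8.sw
        simp only [mul_one]
      calc gf (Brd N ∩ CL (d + 5)) ≤ gf (CK (d + 5) (d + s) n ∩ HB (2 ^ (d + 4))) := gf_mono hsub
        _ ≤ ENNReal.ofReal (K * Ub d / 4 ^ n) * xT (2 ^ (d + 4)) d (fun _ => 1) := by
            rw [h2]
            exact h1
        _ ≤ ENNReal.ofReal (K * Ub d / 4 ^ n) * 2 := mul_le_mul_right (xT_one _ _) _
        _ = ENNReal.ofReal (2 * K * Ub d / 4 ^ n) := by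
            rw [show (2 : ℝ≥0∞) = ENNReal.ofReal 2 by norm_num, ← ENNReal.ofReal_mul (by positivity)]
            congr 1
            ring
        _ ≤ ENNReal.ofReal ((2 * K * Ub d + 4) / 4 ^ n) := by
            refine ENNReal.ofReal_le_ofReal ?_
            gcongr
            linarith

lemma ext_le {P : Pt} {z : List Bool} {d L : ℕ} (hz : z ∈ CwP P) (hP : 1 ≤ row false P) (hd : DD d z)
    (h : ∃ i i', i ≤ i' ∧ i' ≤ i + z.length ∧ (2 : ℤ) ^ L ≤ |row false (pv z i) - row false (pv z i')|) :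
    2 ^ L ≤ (row false P).toNat + d := by
  obtain ⟨i, i', h1, h2, h3⟩ := h
  have hN : ((row false P).toNat : ℤ) = row false P := Int.toNat_of_nonneg (by omega)
  have h4 := hd i i' h1
  have h5 := hd i' (z.length + i) (by omega)
  have h6 := cwp_pl hz i
  rw [row_pv, row_pv] at h4 h3
  rw [row_pv, row_pv, h6] at h5
  have h7 : |pl z i / 3 - pl z i' / 3| ≤ row false P + d := by
    rw [abs_le]
    constructor <;> omega
  have h8 : (2 : ℤ) ^ L ≤ row false P + d := h3.trans h7
  rw [← hN] at h8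
  exact_mod_cast h8

theorem smallW : SmallW := by
  intro d
  obtain ⟨C, b, K', hC, hb, hct⟩ := clean_tail d
  obtain ⟨Y, hY⟩ : ∃ Y, Y = (gf (YS (3 * d + 2))).toReal := ⟨_, rfl⟩
  have hY0 : 0 ≤ Y := by
    rw [hY]
    exact ENNReal.toReal_nonneg
  have hYe : gf (YS (3 * d + 2)) = ENNReal.ofReal Y := by
    rw [hY, ENNReal.ofReal_toReal (gf_YS_fin _)]
  refine ⟨C * Y * 4 ^ (K' + d + 1) + 1, by positivity, fun P L Z hP hZ hd => ?_⟩
  rcases Z.eq_empty_or_nonempty with h0 | ⟨z0, hz0⟩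
  · subst h0
    simp
  have hL := ext_le (hZ.cw hz0) hP (hd z0 hz0) (hZ.ext z0 hz0)
  obtain ⟨N, hN⟩ : ∃ N : ℕ, N = (row false P).toNat := ⟨_, rfl⟩
  have hsum := sum_small hZ.cw hZ.uniq hP hd hb
  rw [← hN] at hL hsum
  have hLn : L ≤ N / 2 ^ K' + (K' + d + 1) := by
    rcases Nat.lt_or_ge L (K' + 1) with h | h
    · exact le_trans (show L ≤ K' + d + 1 by omega) (Nat.le_add_left _ _)
    · obtain ⟨m, rfl⟩ : ∃ m, L = K' + m := ⟨L - K', by omega⟩
      have h1 := Nat.lt_mul_div_succ N (show 0 < 2 ^ K' by positivity)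
      have h4 : 2 ^ K' * 2 ^ m < 2 ^ K' * (N / 2 ^ K' + 1 + d) := by
        rw [← pow_add]
        have h5 : d ≤ 2 ^ K' * d := Nat.le_mul_of_pos_left d (by positivity)
        calc 2 ^ (K' + m) ≤ N + d := hL
          _ < 2 ^ K' * (N / 2 ^ K' + 1) + 2 ^ K' * d := add_lt_add_of_lt_of_le h1 h5
          _ = 2 ^ K' * (N / 2 ^ K' + 1 + d) := by ring
      have h6 : 2 ^ m < N / 2 ^ K' + 1 + d := lt_of_mul_lt_mul_left h4 (Nat.zero_le _)
      have h7 := Nat.lt_two_pow_self (n := m)
      omega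
  refine hsum.trans ((mul_le_mul' (hct N) hYe.le).trans ?_)
  rw [← ENNReal.ofReal_mul (by positivity)]
  refine ENNReal.ofReal_le_ofReal ?_
  have h1 : (4 : ℝ) ^ L ≤ 4 ^ (N / 2 ^ K') * 4 ^ (K' + d + 1) := by
    rw [← pow_add]
    exact pow_le_pow_right₀ (by norm_num) hLn
  have h2 : (1 : ℝ) / 4 ^ (N / 2 ^ K') ≤ 4 ^ (K' + d + 1) * (1 / 4) ^ L := by
    rw [one_div_pow, div_le_iff₀ (by positivity), mul_one_div, div_mul_eq_mul_div, le_div_iff₀ (by positivity)]
    linarith
  have h3 : (0 : ℝ) ≤ (1 / 4) ^ L := by positivity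
  calc C / 4 ^ (N / 2 ^ K') * Y = C * Y * (1 / 4 ^ (N / 2 ^ K')) := by ring
    _ ≤ C * Y * (4 ^ (K' + d + 1) * (1 / 4) ^ L) := by gcongr
    _ ≤ (C * Y * 4 ^ (K' + d + 1) + 1) * (1 / 4) ^ L := by linarith

end PLW

end HexObs
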