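import Pool.Agent.PLW.SplitW
import Pool.Agent.PLW.SmallW
import Pool.Agent.PLD.TwoTall
import Pool.Agent.PLD.Geo

/-!
PLW [W5]: the reduction from periodic walks to lists of leaves.
-/

set_option autoImplicit false

namespace HexObs

namespace PLW

open Finset TS SDN PLD

open scoped ENNReal

/-! ### 1. The leaves of a periodic walk of the scale L -/

/-- the leaves are not higher than 2 ^ (L + 1) -/
theorem leaf_heightW {P : Pt} {L : ℕ} {Z : Set (List Bool)} (hZ : ZW P L Z) {z : List Bool} (hz : z ∈ Z) {r : ℕ}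
    {gs : List (List Bool)} (hr : r ≤ z.length) (hd : dx up z r = up) (hc : CyP P gs) (hcuf : cuf gs = z.rotate r) :
    ∀ g ∈ gs, hgt g ≤ 2 ^ (L + 1) := by
  intro g hg
  obtain ⟨n, hn, hgn⟩ := hc.brd g hg
  obtain ⟨e, P', s, he⟩ := leaf_in hc.brd g hg
  obtain ⟨k0, v0⟩ := he 0 (Nat.zero_le _)
  obtain ⟨k1, v1⟩ := he g.length le_rfl
  have hl : (cuf gs).length = z.length := by rw [hcuf, List.length_rotate]
  have hzne := (hZ.cw hz).1
  have hd' : pd z r = up := by
    rw [← dx_eq_pd hr]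
    exact hd
  have hpv : ∀ i, i ≤ (cuf gs).length → pl z (r + i) = pl z r + lev (cuf gs) i := by
    intro i hi
    rw [lev_eq_pl hi]
    unfold pl
    rw [pv_shift hzne hd', ip_add_left, hcuf]
  have hb := hZ.box z hz (r + (e + 0)) (r + (e + g.length)) (by omega) (by omega)
  rw [row_pv, row_pv, hpv _ k0, hpv _ k1] at hb
  have e0 : lev (cuf gs) (e + 0) = ip P' up := by
    unfold lev
    rw [v0]
    have z0 : vx oo up g 0 = 0 := rfl
    rw [z0]
    cases s <;> simp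
  have e1 : lev (cuf gs) (e + g.length) = ip P' up + 3 * n ∨ lev (cuf gs) (e + g.length) = ip P' up - 3 * n := by
    have h5 : ip (vx oo up g g.length) up = 3 * n := (mem_Brd.1 hgn).2.2.2
    unfold lev
    rw [v1]
    cases s
    · right
      simp only [Bool.false_eq_true, if_false]
      rw [ip_add_left, ip_neg_left, h5]
      ring
    · left
      simp only [if_true]
      rw [ip_add_left, h5]
  rw [e0] at hb
  have h6 : (n : ℤ) ≤ 2 ^ (L + 1) := by
    rw [abs_le] at hb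
    rcases e1 with e1 | e1 <;> rw [e1] at hb <;> omega
  rw [hgt_brd hgn]
  exact_mod_cast h6

/-- one leaf is tall -/
theorem leaf_tallW {P : Pt} {L : ℕ} {Z : Set (List Bool)} (hZ : ZW P L Z) {z : List Bool} (hz : z ∈ Z) {r : ℕ}
    {gs : List (List Bool)} (hr : r ≤ z.length) (hd : dx up z r = up) (hc : CyP P gs) (hcuf : cuf gs = z.rotate r) :
    ∃ i, i < gs.length ∧ 2 ^ L ≤ 2 * gs.length * (hgt (gs.getD i []) + 1) := by
  obtain ⟨w, hw⟩ : ∃ w, w = cuf gs := ⟨_, rfl⟩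
  have hzc := hZ.cw hz
  have hwc : w ∈ CwP P := hw ▸ hc.cw
  have hwl : w.length = z.length := by rw [hw, hcuf, List.length_rotate]
  have hn0 : 0 < z.length := List.length_pos_iff.2 hzc.1
  have hd' : pd z r = up := by
    rw [← dx_eq_pd hr]
    exact hd
  have hpv : ∀ i, pl z (r + i) = pl z r + pl w i := by
    intro i
    unfold pl
    rw [pv_shift hzc.1 hd', ip_add_left, hw, hcuf]
  obtain ⟨i, i', h1, h2, h3⟩ := hZ.ext z hz
  obtain ⟨a, ha⟩ : ∃ a, z.length * r + i = r + a := ⟨z.length * r + i - r, by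
    have : r ≤ z.length * r := Nat.le_mul_of_pos_left r hn0
    omega⟩
  obtain ⟨δ, hδ⟩ : ∃ δ, i' = i + δ := ⟨i' - i, by omega⟩
  have hδn : δ ≤ z.length := by omega
  have e1 := cwp_pl_mul hzc r i
  have e2 := cwp_pl_mul hzc r i'
  rw [hδ, show z.length * r + (i + δ) = r + (a + δ) by omega, hpv] at e2
  rw [ha, hpv] at e1
  obtain ⟨q, a0, hq, ha0⟩ : ∃ q a0, a = w.length * q + a0 ∧ a0 < w.length :=
    ⟨a / w.length, a % w.length, (Nat.div_add_mod _ _).symm, Nat.mod_lt _ (by omega)⟩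
  have e3 := cwp_pl_mul hwc q a0
  have e4 := cwp_pl_mul hwc q (a0 + δ)
  rw [← Nat.add_assoc, ← hq] at e4
  rw [← hq] at e3
  have hdiff : pl z i - pl z i' = pl w a0 - pl w (a0 + δ) := by
    rw [hδ]
    omega
  have hN : row false P = ((hS gs).1 : ℤ) - (hS gs).2 := by
    rw [← altH_hS hc.brd, hc.altH_eq]
  have hld : ∀ i k, i ≤ w.length → k ≤ w.length →
      lev w k - lev w i ≤ 3 * (max (hS gs).1 (hS gs).2 : ℕ) + 1 := by
    rw [hw]
    exact lev_diff hc.brd
  obtain ⟨M0, hM0⟩ : ∃ M0 : ℕ, M0 = max (hS gs).1 (hS gs).2 := ⟨_, rfl⟩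
  rw [← hM0] at hld
  have hbd : |pl w a0 - pl w (a0 + δ)| ≤ 6 * M0 + 1 := by
    rcases Nat.lt_or_ge w.length (a0 + δ) with h | h
    · obtain ⟨j, hj⟩ : ∃ j, a0 + δ = w.length + j := ⟨a0 + δ - w.length, by omega⟩
      rw [hj, cwp_pl hwc]
      have f1 := hld a0 j (by omega) (by omega)
      have f2 := hld j a0 (by omega) (by omega)
      rw [lev_eq_pl (by omega), lev_eq_pl (by omega)] at f1 f2
      rw [abs_le]
      constructor <;> omega
    · have f1 := hld a0 (a0 + δ) (by omega) h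
      have f2 := hld (a0 + δ) a0 h (by omega)
      rw [lev_eq_pl (by omega), lev_eq_pl (by omega)] at f1 f2
      rw [abs_le]
      constructor <;> omega
  rw [row_pv, row_pv] at h3
  have h4 : (2 : ℤ) ^ L ≤ 2 * M0 + 1 := by
    rw [← hdiff] at hbd
    rw [abs_le] at hbd
    have : |pl z i / 3 - pl z i' / 3| ≤ 2 * M0 + 1 := by
      rw [abs_le]
      constructor <;> omega
    exact h3.trans this
  have h5 : 2 ^ L ≤ 2 * M0 + 1 := by exact_mod_cast h4
  have htwo := hc.two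
  obtain ⟨k, hk, hk2⟩ := Finset.exists_max_image (range gs.length) (fun i => hgt (gs.getD i []))
    ⟨0, by simp; omega⟩
  rw [mem_range] at hk
  obtain ⟨M, hM⟩ : ∃ M, M = hgt (gs.getD k []) := ⟨_, rfl⟩
  obtain ⟨q1, q2⟩ := hS_le gs M M (fun j hj _ => by rw [hM]; exact hk2 j (mem_range.2 hj))
    (fun j hj _ => by rw [hM]; exact hk2 j (mem_range.2 hj))
  refine ⟨k, hk, ?_⟩
  rw [← hM]
  have h6 : 2 * M0 ≤ (gs.length + 1) * M := by
    rw [hM0]
    rcases le_total (hS gs).1 (hS gs).2 with h | h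
    · rw [max_eq_right h]
      nlinarith
    · rw [max_eq_left h]
      exact q1
  nlinarith

/-! ### 2. Weights -/

lemma wE_le_of_length {s t : List Bool} (h : s.length ≤ t.length) : wE t ≤ wE s := by
  unfold wE
  exact ENNReal.ofReal_le_ofReal (pow_le_pow_of_le_one xc_pos.le xc_le_one h)

lemma wE_cuf_le (gs : List (List Bool)) : wE (cuf gs) ≤ SDN.wl gs := by
  induction gs with
  | nil =>
    rw [cuf_nil]
    unfold SDN.wl wE
    simp
  | cons g gs ih =>
    rw [cuf_blk, wE_append]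
    have h1 : wE (PLD.blk g) ≤ wE g := by
      apply wE_le_of_length
      unfold PLD.blk
      simp only [List.length_append, List.length_dropLast, List.length_cons, List.length_nil]
      omega
    have h2 : SDN.wl (g :: gs) = wE g * SDN.wl gs := by
      unfold SDN.wl
      rw [List.map_cons, List.prod_cons]
    rw [h2]
    exact mul_le_mul' h1 ih

/-! ### 3. The reduction -/

/-- the list of leaves of a periodic walk -/
theorem listW {P : Pt} {m L : ℕ} {Z : Set (List Bool)} (hP : 1 ≤ row false P) (hm : Even m) (hm2 : 2 ≤ m)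
    (hZ : ZW P L Z) {z : List Bool} (hz : z ∈ Z) (hd : ¬ DD 16 z) : ∃ (r : ℕ) (gs : List (List Bool)),
    cuf gs = z.rotate r ∧ ((∃ k ∈ range (L + 1), gs ∈ SKW (row false P) (latP P) m L k) ∨
      ∃ m' ∈ (range m).filter (fun m' => Even m' ∧ 2 ≤ m'), gs ∈ SKW (row false P) (latP P) m' L 0) := by
  obtain ⟨r, gs, d, h1, h2, h3, h4, h5, h6, h7, h8⟩ := split_W hm hm2 (by norm_num) (hZ.cw hz) hP hd
  have hh := leaf_heightW hZ hz h1 h2 h3 h4
  obtain ⟨i, hi, hi2⟩ := leaf_tallW hZ hz h1 h2 h3 h4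
  have hin : ∀ k, 2 ^ (k + 4) ≤ d → d < 2 ^ (k + 5) → ∀ g ∈ gs, g ∈ BrR (2 ^ (k + 4)) (2 ^ (L + 2)) ∧ g ∈ CL (k + 6) := by
    intro k k1 k2 g hg
    obtain ⟨n, n1, n2⟩ := h3.brd g hg
    obtain ⟨g1, g2⟩ := h8 g hg
    have g3 := hh g hg
    rw [hgt_brd n2] at g2 g3
    have e1 : 2 ^ (L + 1) ≤ 2 ^ (L + 2) := Nat.pow_le_pow_right (by norm_num) (by omega)
    refine ⟨⟨n, by omega, by omega, n2⟩, fun a b a1 a2 => ?_⟩
    have g4 := g1 a b a1 a2
    have e2 : 2 ^ (k + 6) = 2 * 2 ^ (k + 5) := by ring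
    have e3 : (2 : ℤ) ^ (k + 6) = ((2 ^ (k + 6) : ℕ) : ℤ) := by push_cast; ring
    unfold RR
    rw [e3, e2]
    omega
  have hk : ∃ k, 2 ^ (k + 4) ≤ d ∧ d < 2 ^ (k + 5) := by
    refine ⟨Nat.log 2 d - 4, ?_⟩
    have k1 : 4 ≤ Nat.log 2 d := by
      have : Nat.log 2 16 ≤ Nat.log 2 d := Nat.log_mono_right h6
      have e : Nat.log 2 16 = 4 := by decide
      omega
    rw [show Nat.log 2 d - 4 + 4 = Nat.log 2 d by omega, show Nat.log 2 d - 4 + 5 = Nat.log 2 d + 1 by omega]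
    exact ⟨Nat.pow_log_le_self 2 (by omega), Nat.lt_pow_succ_log_self (by norm_num) d⟩
  refine ⟨r, gs, h4, ?_⟩
  have htwo := h3.two
  rcases h7 with h7 | h7
  · left
    obtain ⟨k, k1, k2⟩ := hk
    have hkL : k ≤ L := by
      have hg : gs.getD i [] ∈ gs := by
        rw [List.getD_eq_getElem _ _ hi]
        exact List.getElem_mem hi
      have f1 := (h8 _ hg).2
      have f2 := hh _ hg
      by_contra hcon
      have f3 : 2 ^ (L + 1) < 2 ^ (k + 4) := Nat.pow_lt_pow_right (by norm_num) (by omega)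
      omega
    refine ⟨k, mem_range.2 (by omega), ⟨h3.cyH, h7, hin k k1 k2⟩, i, hi, ?_, ?_⟩
    · have hg : gs.getD i [] ∈ gs := by
        rw [List.getD_eq_getElem _ _ hi]
        exact List.getElem_mem hi
      exact (hin k k1 k2 _ hg).2
    · rw [← h7]
      exact hi2
  · rcases Nat.lt_or_ge gs.length m with hlt | hge
    · right
      refine ⟨gs.length, ?_, ⟨h3.cyH, rfl, hin 0 (by rw [h7]; norm_num) (by rw [h7]; norm_num)⟩, i, hi, ?_, ?_⟩
      · rw [mem_filter, mem_range]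
        exact ⟨hlt, h3.even, h3.two⟩
      · have hg : gs.getD i [] ∈ gs := by
          rw [List.getD_eq_getElem _ _ hi]
          exact List.getElem_mem hi
        exact (hin 0 (by rw [h7]; norm_num) (by rw [h7]; norm_num) _ hg).2
      · exact hi2
    · left
      have h9 : gs.length = m := le_antisymm h5 hge
      refine ⟨0, mem_range.2 (by omega), ⟨h3.cyH, h9, hin 0 (by rw [h7]; norm_num) (by rw [h7]; norm_num)⟩, i, hi,
        ?_, ?_⟩
      · have hg : gs.getD i [] ∈ gs := by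
          rw [List.getD_eq_getElem _ _ hi]
          exact List.getElem_mem hi
        exact (hin 0 (by rw [h7]; norm_num) (by rw [h7]; norm_num) _ hg).2
      · rw [← h9]
        exact hi2

/-- sums over a part of Z -/
lemma part_le {Z A : Set (List Bool)} {T : Set (List (List Bool))} (hA : A ⊆ Z)
    (hu : ∀ z ∈ Z, ∀ z' ∈ Z, ∀ r, z' = z.rotate r → z' = z)
    (h : ∀ z ∈ A, ∃ (r : ℕ) (gs : List (List Bool)), cuf gs = z.rotate r ∧ gs ∈ T) :
    gf A ≤ ∑' gs : T, SDN.wl gs.1 := by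
  classical
  have h' : ∀ z : A, ∃ (r : ℕ) (gs : List (List Bool)), cuf gs = z.1.rotate r ∧ gs ∈ T := fun z => h z.1 z.2
  choose r gs h1 h2 using h'
  let φ : A → T := fun z => ⟨gs z, h2 z⟩
  have hφ : Function.Injective φ := by
    intro z z' hzz
    have e1 : gs z = gs z' := congrArg (fun p => p.1) hzz
    have e3 : z.1.rotate (r z) = z'.1.rotate (r z') := by rw [← h1 z, ← h1 z', e1]
    have e4 : z.1 ~r z'.1 := by
      have a : z.1 ~r z.1.rotate (r z) := ⟨r z, rfl⟩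
      have a' : z'.1 ~r z'.1.rotate (r z') := ⟨r z', rfl⟩
      rw [e3] at a
      exact a.trans a'.symm
    obtain ⟨s, hs⟩ := e4
    exact Subtype.ext (hu z.1 (hA z.2) z'.1 (hA z'.2) s hs.symm).symm
  calc gf A ≤ ∑' z : A, (fun gs : T => SDN.wl gs.1) (φ z) := by
        refine ENNReal.tsum_le_tsum fun z => ?_
        show wE z.1 ≤ SDN.wl (gs z)
        refine le_trans (le_of_eq ?_) (wE_cuf_le (gs z))
        rw [h1, wE_rot]
    _ ≤ ∑' gs : T, SDN.wl gs.1 := ENNReal.tsum_comp_le_tsum_of_injective hφ _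

theorem redW : RedW := by
  classical
  intro P m L Z hP hm hm2 hL hZ hd
  refine ⟨row false P, latP P, ?_⟩
  obtain ⟨J, hJ⟩ : ∃ J, J = (range m).filter (fun m' => Even m' ∧ 2 ≤ m') := ⟨_, rfl⟩
  rw [← hJ]
  let A : ℕ → Set (List Bool) := fun k => {z | z ∈ Z ∧ ∃ (r : ℕ) (gs : List (List Bool)), cuf gs = z.rotate r ∧
    gs ∈ SKW (row false P) (latP P) m L k}
  let B : ℕ → Set (List Bool) := fun m' => {z | z ∈ Z ∧ ∃ (r : ℕ) (gs : List (List Bool)), cuf gs = z.rotate r ∧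
    gs ∈ SKW (row false P) (latP P) m' L 0}
  have hsub : Z ⊆ (⋃ k ∈ range (L + 1), A k) ∪ ⋃ m' ∈ J, B m' := by
    intro z hz
    obtain ⟨r, gs, h1, h2⟩ := listW hP hm hm2 hZ hz (hd z hz)
    rcases h2 with ⟨k, k1, k2⟩ | ⟨m', k1, k2⟩
    · left
      simp only [Set.mem_iUnion]
      exact ⟨k, k1, hz, r, gs, h1, k2⟩
    · right
      simp only [Set.mem_iUnion]
      exact ⟨m', hJ ▸ k1, hz, r, gs, h1, k2⟩
  calc ∑' z : Z, wE z.1 = gf Z := rfl
    _ ≤ gf ((⋃ k ∈ range (L + 1), A k) ∪ ⋃ m' ∈ J, B m') := gf_mono hsub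
    _ ≤ gf (⋃ k ∈ range (L + 1), A k) + gf (⋃ m' ∈ J, B m') := gf_union_le _ _
    _ ≤ ∑ k ∈ range (L + 1), gf (A k) + ∑ m' ∈ J, gf (B m') :=
        add_le_add (ENNReal.tsum_biUnion_le wE _ _) (ENNReal.tsum_biUnion_le wE _ _)
    _ ≤ _ := add_le_add
        (Finset.sum_le_sum fun k _ => part_le (fun z hz => hz.1) hZ.uniq fun z hz => hz.2)
        (Finset.sum_le_sum fun m' _ => part_le (fun z hz => hz.1) hZ.uniq fun z hz => hz.2)

end PLW

end HexObs
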