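import Pool.Agent.PLW.SelW
import Pool.Agent.PLW.FinW
import Pool.Agent.PLW.RedW
import Pool.Agent.PLW.SmallW
import Pool.Agent.PLD.TallN

/-!
PLW: StarW (the weight of the periodic self-avoiding walks of the scale L is at most C 4 ^ (-L)), without a hypothesis.
-/

set_option autoImplicit false

namespace HexObs

namespace PLW

open PLD

theorem starW : StarW := by
  obtain ⟨K, c, h⟩ := selW_exists
  exact starW_of h tallN redW smallW

end PLW

end HexObs
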