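import Pool.Agent.PLW.CylSum
import Pool.Agent.PLW.CylRev
import Pool.Agent.PLW.FlatLab
import Pool.Agent.PLW.GasNF
import Pool.Agent.PLW.StarT
import Pool.Agent.PLD.P1
import Pool.Agent.NUN.Fin

/-!
PLW: the polygons of the cylinder with the label 1 which are in none of the two balls have bounded total weight.
-/

set_option autoImplicit false

namespace Pool.Agent.NUF.Cyl

open HexObs HexObs.LP Finset Pool.Agent.NUN Pool.Agent.PLW

/-- contractible polygons with a lift around f that is not contained in the box of the radius r -/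
theorem lift_sum (a : ℕ) : ∃ C : ℝ, 0 < C ∧ ∀ (N : ℕ) (hN : 1 ≤ N) (f : Pt) (r : ℕ)
    (S : Finset (Finset (Pt × Pt))), Fc f → N ≤ 2 ^ a * r →
    (∀ E ∈ S, ∃ v d τ m, CPoly (Cy N hN) v d τ m ∧ vs v d τ m = v ∧ E = cpe (Cy N hN) v d τ m ∧
      Nw (pe v d τ m) f ≠ 0 ∧ ∃ w ∈ VE (pe v d τ m), ¬ Bx f r w) → ∑ E ∈ S, xc ^ E.card ≤ C := by
  obtain ⟨C, κ, hC, hκ, hls⟩ := PLD.loops
  refine ⟨C * (2 : ℝ) ^ (κ * (a + 1)), by positivity, ?_⟩
  intro N hN f r S hf hr hS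
  have hr0 : r ≠ 0 := by
    rintro rfl
    omega
  have hL1 : ∀ E ∈ S, ∃ G : Finset (Pt × Pt), E = G.image (nE N hN) ∧ E.card = G.card ∧ LP.IsPoly G ∧
      LP.Nw G f ≠ 0 ∧ (∃ w ∈ VE G, Bx f N w) ∧ ∃ w ∈ VE G, ¬ Bx f r w := by
    intro E hE
    obtain ⟨v, d, τ, m, h1, h2, h3, h4, h5⟩ := hS E hE
    exact ⟨pe v d τ m, by rw [h3, cpe_eq], by rw [h3, h1.card h2], ⟨v, d, τ, m, h1.poly h2, rfl⟩, h4,
      h1.hits h2 hf h4, h5⟩
  choose! G hG1 hG2 hG3 hG4 hG5 hG6 using hL1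
  have hinj : Set.InjOn G (S : Set (Finset (Pt × Pt))) := by
    intro E hE E' hE' h
    rw [hG1 E hE, hG1 E' hE', h]
  have h1 : ∑ E ∈ S, xc ^ E.card = ∑ E ∈ S.image G, xc ^ E.card := by
    rw [Finset.sum_image hinj]
    exact Finset.sum_congr rfl fun E hE => by rw [hG2 E hE]
  rw [h1]
  have hN2 : N ≤ 2 ^ Nat.clog 2 N := Nat.le_pow_clog (by norm_num) N
  have hr2 : 2 ^ Nat.log 2 r ≤ r := Nat.pow_log_le_self 2 hr0
  refine (hls f (Nat.clog 2 N) (Nat.log 2 r) (S.image G) ?_).trans ?_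
  · intro E' hE'
    obtain ⟨E, hE, rfl⟩ := Finset.mem_image.1 hE'
    obtain ⟨w, hw, hw2⟩ := hG5 E hE
    obtain ⟨u, hu, hu2⟩ := hG6 E hE
    exact ⟨hG3 E hE, hG4 E hE, ⟨w, hw, Bx_mono hN2 hw2⟩, u, hu, fun h => hu2 (Bx_mono hr2 h)⟩
  · refine mul_le_mul_of_nonneg_left ?_ hC.le
    refine Real.rpow_le_rpow_of_exponent_le (by norm_num) ?_
    have h2 : Nat.clog 2 N ≤ Nat.log 2 r + a + 1 := by
      apply Nat.clog_le_of_le_pow
      have h3 : r < 2 ^ (Nat.log 2 r + 1) := Nat.lt_pow_succ_log_self (by norm_num) r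
      calc N ≤ 2 ^ a * r := hr
        _ ≤ 2 ^ a * 2 ^ (Nat.log 2 r + 1) := Nat.mul_le_mul_left _ h3.le
        _ = 2 ^ (Nat.log 2 r + a + 1) := by
          rw [← pow_add]
          congr 1
          ring
    have h3 : ((Nat.clog 2 N : ℕ) : ℝ) ≤ (Nat.log 2 r : ℕ) + a + 1 := by exact_mod_cast h2
    nlinarith

/-! ### the polygons with the label 1 -/

/-- a contractible polygon with the label 1 has a lift around one of the two faces, and the lift is a planar polygon -/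
theorem flat_lift {N : ℕ} {hN : 1 ≤ N} {f : Pt} {E : Finset (Pt × Pt)} {ρ : ℕ} {B : Finset Pt}
    (hB : ∀ w, Vt w → Bx f ρ w → w ∈ B) (hE : Sur N hN f E)
    (h : ¬ ∃ E', LP.IsPoly E' ∧ VE E' ⊆ B ∧ Nw E' f ≠ 0 ∧ E = imE (Cy N hN) E') :
    ∃ v d τ m, CPoly (Cy N hN) v d τ m ∧ vs v d τ m = v ∧ E = cpe (Cy N hN) v d τ m ∧
      Nw (pe v d τ m) f ≠ 0 ∧ ∃ w ∈ VE (pe v d τ m), ¬ Bx f ρ w := by
  obtain ⟨v, d, τ, m, h1, h2, h3, h4⟩ := hE
  refine ⟨v, d, τ, m, h1, h2, h3, h4, ?_⟩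
  by_contra hcon
  push Not at hcon
  have hP : LP.IsPoly (pe v d τ m) := ⟨v, d, τ, m, h1.poly h2, rfl⟩
  refine h ⟨pe v d τ m, hP, fun w hw => hB w ?_ (hcon w hw), h4, h3.trans cpe_eq⟩
  obtain ⟨p, hp, rfl⟩ := Finset.mem_image.1 hw
  exact (isPoly_de hP hp).2.1

/-- the weight of the winding polygons with an edge near the column of the faces, in both orientations -/
theorem wind_both : ∃ C : ℝ, 0 < C ∧ ∀ (N : ℕ) (hN : 1 ≤ N) (S : Finset (Finset (Pt × Pt))),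
    (∀ E ∈ S, (IsWind N hN E ∨ IsWind N hN (crE (Cy N hN) E)) ∧ IsCPoly (Cy N hN) E ∧
      ∃ q ∈ E, nn q.1 = -3 ∨ nn q.1 = -1) → ∑ E ∈ S, xc ^ E.card ≤ C := by
  classical
  obtain ⟨C, hC, hw⟩ := HexObs.PLW.wind_sum HexObs.PLW.starW 3
  refine ⟨C + C, by linarith, ?_⟩
  intro N hN S hS
  have hN1 : (1 : ℤ) ≤ N := by exact_mod_cast hN
  have h1 := hw N hN (-2) (S.filter (IsWind N hN)) (by
    intro E hE
    obtain ⟨h1, h2⟩ := Finset.mem_filter.1 hE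
    obtain ⟨q, hq, hq2⟩ := (hS E h1).2.2
    refine ⟨h2, q, hq, ?_⟩
    rw [abs_le]
    push_cast
    constructor <;> rcases hq2 with h | h <;> rw [h] <;> nlinarith)
  have h2 := hw N hN (-2) ((S.filter (fun E => ¬ IsWind N hN E)).image (crE (Cy N hN))) (by
    intro E' hE'
    obtain ⟨E, hE, rfl⟩ := Finset.mem_image.1 hE'
    obtain ⟨h1, h2⟩ := Finset.mem_filter.1 hE
    obtain ⟨h3, h4, q, hq, hq2⟩ := hS E h1
    refine ⟨h3.resolve_left h2, (Cy N hN).rv q, Finset.mem_image_of_mem _ hq, ?_⟩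
    have h5 : nn ((Cy N hN).rv q).1 = nn q.1 + nn q.2 := by
      show nn ((Cy N hN).nm (q.1 + q.2)) = _
      rw [nm_eq]
      unfold nmN tr nn
      simp only [Prod.fst_add, Prod.snd_add]
      ring
    have h6 : q.2 ∈ dirs := by
      obtain ⟨v, d, τ, m, h, rfl⟩ := h4
      obtain ⟨i, _, rfl⟩ := Finset.mem_image.1 hq
      exact ds_mem h.de.1 i
    have h7 : ∀ e ∈ dirs, -2 ≤ nn e ∧ nn e ≤ 2 := by decide
    obtain ⟨h8, h9⟩ := h7 _ h6
    rw [abs_le, h5]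
    push_cast
    constructor <;> rcases hq2 with h | h <;> rw [h] <;> nlinarith)
  have h3 : ∑ E ∈ (S.filter (fun E => ¬ IsWind N hN E)).image (crE (Cy N hN)), xc ^ E.card =
      ∑ E ∈ S.filter (fun E => ¬ IsWind N hN E), xc ^ E.card := by
    have hc : ∀ E ∈ S.filter (fun E => ¬ IsWind N hN E), IsCPoly (Cy N hN) E := fun E hE =>
      (hS E (Finset.mem_filter.1 hE).1).2.1
    rw [Finset.sum_image]
    · refine Finset.sum_congr rfl fun E hE => ?_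
      congr 1
      apply le_antisymm
      · exact Finset.card_image_le
      · conv_lhs => rw [← crE_crE (hc E hE)]
        exact Finset.card_image_le
    · intro E hE E' hE' h
      rw [← crE_crE (hc E hE), h, crE_crE (hc E' hE')]
  rw [h3] at h2
  rw [← Finset.sum_filter_add_sum_filter_not S (IsWind N hN)]
  exact add_le_add h1 h2

/-- **The polygons of the cylinder with the label 1 which are in none of the two balls have bounded total weight.** -/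
theorem mid_sum (a : ℕ) : ∃ C : ℝ, 0 < C ∧ ∀ (N : ℕ) (hN : 1 ≤ N) (r ρ : ℕ) (B B' : Finset Pt)
    (S : Finset (Finset (Pt × Pt))), r ≤ N → N ≤ 2 ^ a * ρ →
    (∀ w, Vt w → Bx (fc 0) ρ w → w ∈ B) → (∀ w, Vt w → Bx (fc r) ρ w → w ∈ B') →
    (∀ E ∈ S, IsCPoly (Cy N hN) E ∧ ∑ q ∈ E, ((cr (fc r) q : ℤ) : ZMod 2) ≠ 0 ∧
      (¬ ∃ E', LP.IsPoly E' ∧ VE E' ⊆ B ∧ Nw E' (fc 0) ≠ 0 ∧ E = imE (Cy N hN) E') ∧
      (¬ ∃ E', LP.IsPoly E' ∧ VE E' ⊆ B' ∧ Nw E' (fc r) ≠ 0 ∧ E = imE (Cy N hN) E')) →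
    ∑ E ∈ S, xc ^ E.card ≤ C := by
  classical
  obtain ⟨C1, hC1, h1⟩ := lift_sum a
  obtain ⟨C2, hC2, h2⟩ := wind_both
  refine ⟨C1 + C1 + C2, by linarith, ?_⟩
  intro N hN r ρ B B' S hr hρ hB hB' hS
  have hl : ∀ E ∈ S, ∑ q ∈ E, cr (fcF r) q ≠ 0 := by
    intro E hE h0
    apply (hS E hE).2.1
    rw [← Int.cast_sum]
    have h3 : ∑ q ∈ E, cr (fc r) q = 0 := h0
    rw [h3, Int.cast_zero]
  set S1 := S.filter (Sur N hN (fcF 0)) with hS1
  set S2 := S.filter (Sur N hN (fcF r)) with hS2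
  set S3 := S.filter (fun E => IsWind N hN E ∨ IsWind N hN (crE (Cy N hN) E)) with hS3
  have e1 := h1 N hN (fc 0) ρ S1 (Fc_fc 0) hρ (by
    intro E hE
    obtain ⟨h3, h4⟩ := Finset.mem_filter.1 hE
    exact flat_lift hB h4 (hS E h3).2.2.1)
  have e2 := h1 N hN (fc r) ρ S2 (Fc_fc r) hρ (by
    intro E hE
    obtain ⟨h3, h4⟩ := Finset.mem_filter.1 hE
    exact flat_lift hB' h4 (hS E h3).2.2.2)
  have e3 := h2 N hN S3 (by
    intro E hE
    obtain ⟨h3, h4⟩ := Finset.mem_filter.1 hE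
    exact ⟨h4, (hS E h3).1, lab_near (hl E h3)⟩)
  have hsub : S ⊆ (S1 ∪ S2) ∪ S3 := by
    intro E hE
    rw [Finset.mem_union, Finset.mem_union]
    rcases flat_or_wind hN (hS E hE).1 with h3 | h3
    · rcases sur_fc hr h3 (hl E hE) with h4 | h4
      · exact Or.inl (Or.inl (Finset.mem_filter.2 ⟨hE, h4⟩))
      · exact Or.inl (Or.inr (Finset.mem_filter.2 ⟨hE, h4⟩))
    · exact Or.inr (Finset.mem_filter.2 ⟨hE, h3⟩)
  have hx := xc_pos
  have hun : ∀ X Y : Finset (Finset (Pt × Pt)), ∑ E ∈ X ∪ Y, xc ^ E.card ≤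
      ∑ E ∈ X, xc ^ E.card + ∑ E ∈ Y, xc ^ E.card := by
    intro X Y
    rw [← Finset.sum_union_inter]
    exact le_add_of_nonneg_right (Finset.sum_nonneg fun E _ => by positivity)
  calc ∑ E ∈ S, xc ^ E.card ≤ ∑ E ∈ (S1 ∪ S2) ∪ S3, xc ^ E.card :=
        Finset.sum_le_sum_of_subset_of_nonneg hsub fun E _ _ => by positivity
    _ ≤ C1 + C1 + C2 := by
        have a1 := hun (S1 ∪ S2) S3
        have a2 := hun S1 S2
        linarith

end Pool.Agent.NUF.Cyl
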