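import Pool.Agent.PLW.Defs
import Pool.Agent.PLW.CloseW
import Pool.Agent.PLD.SelH

/-!
PLW (W2): total weight of the alternating lists with given good leaves (copy of PLD/SelF, SelG, SelH).
-/

set_option autoImplicit false

namespace HexObs

namespace PLW

open Finset TS SDN PLD

open scoped ENNReal

variable {C δ : ℝ}

/-! ### 1. Rotations -/

lemma altH_app (a b : List (List Bool)) : altH (a ++ b) = altH a + (if Even a.length then altH b else -altH b) := by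
  induction a with
  | nil =>
    rw [List.nil_append, List.length_nil, if_pos Even.zero]
    show altH b = 0 + altH b
    rw [zero_add]
  | cons g a ih =>
    rw [List.cons_append, List.length_cons]
    show ht g - altH (a ++ b) = ht g - altH a + _
    rw [ih]
    by_cases h : Even a.length
    · rw [if_pos h, if_neg (by rw [Nat.even_add_one]; simpa using h)]
      ring
    · rw [if_neg h, if_pos (Nat.even_add_one.2 h)]
      ring

lemma altX_app (a b : List (List Bool)) : altX (a ++ b) = altX a + (if Even a.length then altX b else -altX b) := by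
  induction a with
  | nil =>
    rw [List.nil_append, List.length_nil, if_pos Even.zero]
    show altX b = 0 + altX b
    rw [zero_add]
  | cons g a ih =>
    rw [List.cons_append, List.length_cons]
    show latE g + tw g - altX (a ++ b) = latE g + tw g - altX a + _
    rw [ih]
    by_cases h : Even a.length
    · rw [if_pos h, if_neg (by rw [Nat.even_add_one]; simpa using h)]
      ring
    · rw [if_neg h, if_pos (Nat.even_add_one.2 h)]
      ring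

theorem CyH.rot1 {H X : ℤ} {g : List Bool} {gs : List (List Bool)} (hc : CyH H X (g :: gs)) :
    CyH (-H) (-X) (gs ++ [g]) := by
  have hl2 := hc.two
  have hev := hc.even
  rw [List.length_cons] at hl2 hev
  have hodd : ¬ Even gs.length := by
    intro h
    rw [Nat.even_add_one] at hev
    exact hev h
  obtain ⟨g', l, hgl⟩ : ∃ g' l, gs = g' :: l := by
    cases gs with
    | nil => simp at hl2
    | cons a b => exact ⟨a, b, rfl⟩
  have hch := hc.chain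
  refine ⟨?_, ?_, ?_, ?_, ?_, ?_, ?_⟩
  · rw [List.length_append]
    exact hev
  · rw [List.length_append]
    exact hl2
  · intro x hx
    rw [List.mem_append, List.mem_singleton] at hx
    exact hc.brd x (List.mem_cons.2 hx.symm)
  · rw [List.isChain_append]
    refine ⟨?_, List.isChain_singleton _, ?_⟩
    · rw [hgl] at hch ⊢
      exact (List.isChain_cons_cons.1 hch).2
    · intro x hx y hy
      have hy' : g = y := by simpa using hy
      rw [← hy']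
      refine hc.close x ?_ g (by simp)
      rw [hgl] at hx ⊢
      rw [List.getLast?_cons_cons]
      exact hx
  · intro x hx y hy
    have hx' : x = g := by
      rw [List.getLast?_append] at hx
      simpa using hx.symm
    rw [hx']
    rw [hgl] at hch hy
    have hy' : g' = y := by simpa using hy
    rw [← hy']
    exact (List.isChain_cons_cons.1 hch).1
  · rw [altH_app, if_neg hodd]
    have h1 : ht g - altH gs = H := hc.hgt0
    have h2 : altH [g] = ht g := by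
      show ht g - 0 = ht g
      ring
    rw [h2]
    linarith
  · rw [altX_app, if_neg hodd]
    have h1 : latE g + tw g - altX gs = X := hc.lat0
    have h2 : altX [g] = latE g + tw g := by
      show latE g + tw g - 0 = _
      ring
    rw [h2]
    linarith

/-- alternating lists of m leaves with heights in [D, N] -/
def CBW (H X : ℤ) (m D N : ℕ) : Set (List (List Bool)) := {gs | CyH H X gs ∧ gs.length = m ∧ ∀ g ∈ gs, g ∈ BrR D N}

/-- the same, the first leaf up or down -/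
def CBU (H X : ℤ) (m D N : ℕ) : Set (List (List Bool)) := CBW H X m D N ∪ CBW (-H) (-X) m D N

lemma CBW_rot1 {H X : ℤ} {m D N : ℕ} {gs : List (List Bool)} (h : gs ∈ CBW H X m D N) :
    gs.rotate 1 ∈ CBW (-H) (-X) m D N := by
  refine ⟨?_, by rw [List.length_rotate]; exact h.2.1, fun g hg => h.2.2 g (List.mem_rotate.1 hg)⟩
  obtain ⟨g, l, hl⟩ : ∃ g l, gs = g :: l := by
    have h2 := h.1.two
    cases gs with
    | nil => simp at h2
    | cons a b => exact ⟨a, b, rfl⟩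
  rw [hl, List.rotate_cons_succ, List.rotate_zero]
  rw [hl] at h
  exact h.1.rot1

theorem CBU_rot {H X : ℤ} {m D N : ℕ} {gs : List (List Bool)} (h : gs ∈ CBU H X m D N) (i : ℕ) :
    gs.rotate i ∈ CBU H X m D N := by
  induction i with
  | zero =>
    rw [List.rotate_zero]
    exact h
  | succ i ih =>
    rw [← List.rotate_rotate]
    rcases ih with h1 | h1
    · exact Or.inr (CBW_rot1 h1)
    · left
      have h2 := CBW_rot1 h1
      rw [neg_neg, neg_neg] at h2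
      exact h2

theorem CBW_cl {H X : ℤ} {m D N : ℕ} {gs : List (List Bool)} (h : gs ∈ CBW H X m D N) : ClW H X D N gs :=
  ⟨h.1.chain, h.1.close, h.1.hgt0, h.1.lat0, h.2.2⟩

theorem CCH_sub {H X : ℤ} {m L k : ℕ} : CCH H X m L k ⊆ CBU H X m (2 ^ (k + 4)) (2 ^ (L + 2)) :=
  fun _ h => Or.inl ⟨h.1, h.2.1, fun g hg => (h.2.2 g hg).1⟩

theorem CBU_len {H X : ℤ} {m D N : ℕ} {gs : List (List Bool)} (h : gs ∈ CBU H X m D N) : gs.length = m :=
  h.elim (fun h => h.2.1) fun h => h.2.1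

theorem CBU_chain {H X : ℤ} {m D N : ℕ} {gs : List (List Bool)} (h : gs ∈ CBU H X m D N) : gs.IsChain LFold :=
  h.elim (fun h => h.1.chain) fun h => h.1.chain

theorem CBU_brr {H X : ℤ} {m D N : ℕ} {gs : List (List Bool)} (h : gs ∈ CBU H X m D N) : ∀ g ∈ gs, g ∈ BrR D N :=
  h.elim (fun h => h.2.2) fun h => h.2.2

theorem CBU_empty {H X : ℤ} {m D N : ℕ} (hm : 1 ≤ m) (h : N < D) : CBU H X m D N = ∅ := by
  rw [Set.eq_empty_iff_forall_notMem]
  intro gs hgs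
  have hl := CBU_len hgs
  have hb := CBU_brr hgs
  rcases gs with _ | ⟨g, gs⟩
  · simp at hl
    omega
  · obtain ⟨h, h1, h2, _⟩ := hb g (by simp)
    omega

/-- the closing inequality for the union -/
theorem closeU : ∃ C : ℝ, 0 < C ∧ ∀ (H X : ℤ) (m D N k j1 j3 : ℕ) (Fs : List (List Bool → ℝ≥0∞)),
    ∑' gs : CBU H X m D N, clW k j1 j3 Fs gs.1 ≤
    ENNReal.ofReal (C * (2 : ℝ) ^ (-(5 / 4 : ℝ) * j3)) * fstP D N k (chn D N LFold j1 Fs) := by
  obtain ⟨C, hC, h⟩ := closeW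
  refine ⟨2 * C, by linarith, fun H X m D N k j1 j3 Fs => ?_⟩
  refine (ENNReal.tsum_union_le (fun gs => clW k j1 j3 Fs gs) (CBW H X m D N) (CBW (-H) (-X) m D N)).trans ?_
  refine (add_le_add (h H X D N k j1 j3 Fs (CBW H X m D N) fun gs hgs => CBW_cl hgs)
    (h (-H) (-X) D N k j1 j3 Fs (CBW (-H) (-X) m D N) fun gs hgs => CBW_cl hgs)).trans (le_of_eq ?_)
  have e1 : ENNReal.ofReal (2 * C * (2 : ℝ) ^ (-(5 / 4 : ℝ) * j3)) =
      2 * ENNReal.ofReal (C * (2 : ℝ) ^ (-(5 / 4 : ℝ) * j3)) := by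
    rw [mul_assoc, ENNReal.ofReal_mul (by norm_num)]
    norm_num
  rw [e1]
  ring

/-! ### 2. The sums -/

open Classical in
/-- the closed chains with a good leaf and a leaf in W, at most one leaf without the weight Bt -/
theorem close_sum (h : Inp C δ) : ∃ K : ℝ, 1 ≤ K ∧ ∀ (H X : ℤ) (m D N k n : ℕ) (ρ w u B : ℝ) (W : Set (List Bool))
    (Bt : List Bool → ℝ≥0∞) (Q : List Bool → Bool) (S : Set (List (List Bool))), 4 ≤ m → 2 ^ (k + 4) ≤ D → D ≤ N →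
    2 * n ≤ k → 1 ≤ ρ → UU N ≤ ρ * Ub k → 0 ≤ w → 0 ≤ u → 0 ≤ B →
    Nrm D N k (fun g => if g ∈ W then 1 else 0) (ENNReal.ofReal w) → Nrm D N k (fun _ => 1) (ENNReal.ofReal u) →
    Nrm D N k Bt (ENNReal.ofReal B) → (∀ g, Q g = false → 1 ≤ Bt g) → S ⊆ CBU H X m D N →
    (∀ gs ∈ S, (gs.filter Q).length ≤ 1 ∧ ∃ (i j : ℕ) (hi : i < gs.length) (hj : j < gs.length), i ≠ j ∧
      1 / 2 ≤ gam k (k - n) (k - 2 * n) gs[i] ∧ gs[j] ∈ W) →
    WS S ≤ ENNReal.ofReal (K * m ^ 3 * (2 : ℝ) ^ (-(2 * (k : ℝ))) * (2 : ℝ) ^ ((13 / 4 : ℝ) * n) * ρ * w * u *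
      B ^ (m - 3)) := by
  obtain ⟨K1, hK1, hcp⟩ := chain_prod h
  obtain ⟨K2, hK2, hcl⟩ := closeU
  obtain ⟨K3, hK3, hlow⟩ := Ub_low
  refine ⟨max 1 (2 * K2 * K1 * K3), le_max_left _ _, ?_⟩
  intro H X m D N k n ρ w u B W Bt Q S hm hD hDN hnk hρ hU hw hu hB nW nu nB hQ hS hSel
  obtain ⟨Y, hY⟩ : ∃ Y : ℝ≥0∞, Y = 2 * (ENNReal.ofReal (K2 * (2 : ℝ) ^ (-(5 / 4 : ℝ) * ((k - 2 * n : ℕ) : ℝ))) *
    (ENNReal.ofReal (K1 * ρ / Ub (k - n)) * (ENNReal.ofReal w * ENNReal.ofReal u * ENNReal.ofReal B ^ (m - 3)))) :=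
    ⟨_, rfl⟩
  have key : WS S ≤ (m : ℝ≥0∞) ^ 3 * Y := by
    refine sum_choice S (CBU H X m D N) (fun g => 2 * gam k (k - n) (k - 2 * n) g) W Bt Y ?_ (fun gs hgs i => CBU_rot (hS hgs) i) ?_
    · intro gs hgs
      obtain ⟨h1, i, j, hi, hj, hij, hg, hW⟩ := hSel gs hgs
      have hl := CBU_len (hS hgs)
      obtain ⟨a, b, g1, rest, ha, hb, hab, hr, hrl, hP, hrest⟩ := select (m := m) (by omega) hl
        (fun g => 1 / 2 ≤ gam k (k - n) (k - 2 * n) g) Q W hi hj hij hg hW h1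
      refine ⟨i, a, b, by omega, ha, hb, hab, ?_⟩
      rw [hr]
      have h2 : SDN.wl gs = wE g1 * SDN.wl rest := by rw [← wl_rotate gs i, hr, PLD.wl_cons]
      rw [h2]
      show _ ≤ wE g1 * (2 * gam k (k - n) (k - 2 * n) g1) * wF (Fsel m W Bt a b) rest
      have h3 := wl_le_wF (Fsel_one (W := W) (Bt := Bt) (fun g _ => hQ g) hrl hrest)
      calc wE g1 * SDN.wl rest = wE g1 * 1 * SDN.wl rest := by rw [mul_one]
        _ ≤ _ := mul_le_mul' (mul_le_mul_right (one_le_two_gam hP) _) h3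
    · intro a b ha hb hab
      have h1 : ∑' gs : CBU H X m D N, cW (fun g => 2 * gam k (k - n) (k - 2 * n) g) (Fsel m W Bt a b) gs.1 =
          2 * ∑' gs : CBU H X m D N, clW k (k - n) (k - 2 * n) (Fsel m W Bt a b) gs.1 := by
        rw [← ENNReal.tsum_mul_left]
        exact tsum_congr fun gs => cW_clW _ _ _ _ _
      rw [h1, hY]
      refine mul_le_mul_right ?_ _
      refine (hcl H X m D N k (k - n) (k - 2 * n) _).trans (mul_le_mul_right ?_ _)
      refine (hcp D N k (k - n) ρ _ _ hD hDN (by omega) hρ hU (Fsel_norm (a := a) (b := b) nW nu nB)).trans ?_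
      rw [csel_prod _ _ _ ha hb hab]
  refine key.trans ?_
  have hUk := Ub_pos (k - n)
  have e0 : Y = ENNReal.ofReal (2 * (K2 * (2 : ℝ) ^ (-(5 / 4 : ℝ) * ((k - 2 * n : ℕ) : ℝ)) *
      (K1 * ρ / Ub (k - n) * (w * u * B ^ (m - 3))))) := by
    have e2 : (2 : ℝ≥0∞) = ENNReal.ofReal 2 := by norm_num
    have p1 : 0 ≤ K2 * (2 : ℝ) ^ (-(5 / 4 : ℝ) * ((k - 2 * n : ℕ) : ℝ)) :=
      mul_nonneg hK2.le (Real.rpow_nonneg (by norm_num) _)
    have p2 : 0 ≤ K1 * ρ / Ub (k - n) := by positivity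
    rw [hY, ← ENNReal.ofReal_pow hB, ← ENNReal.ofReal_mul hw, ← ENNReal.ofReal_mul (mul_nonneg hw hu),
      ← ENNReal.ofReal_mul p2, ← ENNReal.ofReal_mul p1, e2, ← ENNReal.ofReal_mul (by norm_num)]
  have e1 : (m : ℝ≥0∞) ^ 3 = ENNReal.ofReal ((m : ℝ) ^ 3) := by
    rw [ENNReal.ofReal_pow (Nat.cast_nonneg _), ENNReal.ofReal_natCast]
  rw [e0, e1, ← ENNReal.ofReal_mul (by positivity)]
  refine ENNReal.ofReal_le_ofReal ?_
  -- the power of 2
  have h3 : (2 : ℝ) ^ (-(5 / 4 : ℝ) * ((k - 2 * n : ℕ) : ℝ)) * (1 / Ub (k - n)) ≤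
      K3 * ((2 : ℝ) ^ (-(2 * (k : ℝ))) * (2 : ℝ) ^ ((13 / 4 : ℝ) * n)) := by
    have h4 := hlow (k - n)
    have h5 : 1 / Ub (k - n) ≤ K3 * (2 : ℝ) ^ (-((3 / 4 : ℝ) * ((k - n : ℕ) : ℝ))) := by
      rw [div_le_iff₀ hUk, Real.rpow_neg (by norm_num)]
      have h6 : (0 : ℝ) < (2 : ℝ) ^ ((3 / 4 : ℝ) * ((k - n : ℕ) : ℝ)) := Real.rpow_pos_of_pos (by norm_num) _
      have h7 : K3 * ((2 : ℝ) ^ ((3 / 4 : ℝ) * ((k - n : ℕ) : ℝ)))⁻¹ * Ub (k - n) =
          K3 * Ub (k - n) / (2 : ℝ) ^ ((3 / 4 : ℝ) * ((k - n : ℕ) : ℝ)) := by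
        field_simp
      rw [h7, le_div_iff₀ h6, one_mul]
      exact h4
    calc (2 : ℝ) ^ (-(5 / 4 : ℝ) * ((k - 2 * n : ℕ) : ℝ)) * (1 / Ub (k - n))
        ≤ (2 : ℝ) ^ (-(5 / 4 : ℝ) * ((k - 2 * n : ℕ) : ℝ)) * (K3 * (2 : ℝ) ^ (-((3 / 4 : ℝ) * ((k - n : ℕ) : ℝ)))) := by
          gcongr
      _ = K3 * ((2 : ℝ) ^ (-(5 / 4 : ℝ) * ((k - 2 * n : ℕ) : ℝ)) * (2 : ℝ) ^ (-((3 / 4 : ℝ) * ((k - n : ℕ) : ℝ)))) := by
          ring
      _ = K3 * ((2 : ℝ) ^ (-(2 * (k : ℝ))) * (2 : ℝ) ^ ((13 / 4 : ℝ) * n)) := by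
          rw [← Real.rpow_add (by norm_num), ← Real.rpow_add (by norm_num)]
          congr 2
          rw [Nat.cast_sub hnk, Nat.cast_sub (by omega)]
          push_cast
          ring
  have hBm : 0 ≤ B ^ (m - 3) := pow_nonneg hB _
  have h8 : 0 ≤ 2 * K2 * K1 * (m : ℝ) ^ 3 * ρ * w * u * B ^ (m - 3) := by positivity
  calc (m : ℝ) ^ 3 * (2 * (K2 * (2 : ℝ) ^ (-(5 / 4 : ℝ) * ((k - 2 * n : ℕ) : ℝ)) *
      (K1 * ρ / Ub (k - n) * (w * u * B ^ (m - 3)))))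
      = (2 * K2 * K1 * (m : ℝ) ^ 3 * ρ * w * u * B ^ (m - 3)) *
        ((2 : ℝ) ^ (-(5 / 4 : ℝ) * ((k - 2 * n : ℕ) : ℝ)) * (1 / Ub (k - n))) := by ring
    _ ≤ (2 * K2 * K1 * (m : ℝ) ^ 3 * ρ * w * u * B ^ (m - 3)) *
        (K3 * ((2 : ℝ) ^ (-(2 * (k : ℝ))) * (2 : ℝ) ^ ((13 / 4 : ℝ) * n))) := mul_le_mul_of_nonneg_left h3 h8
    _ = (2 * K2 * K1 * K3) * ((m : ℝ) ^ 3 * ρ * w * u * B ^ (m - 3) *
        ((2 : ℝ) ^ (-(2 * (k : ℝ))) * (2 : ℝ) ^ ((13 / 4 : ℝ) * n))) := by ring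
    _ ≤ (max 1 (2 * K2 * K1 * K3)) * ((m : ℝ) ^ 3 * ρ * w * u * B ^ (m - 3) *
        ((2 : ℝ) ^ (-(2 * (k : ℝ))) * (2 : ℝ) ^ ((13 / 4 : ℝ) * n))) := by
        refine mul_le_mul_of_nonneg_right (le_max_right _ _) ?_
        positivity
    _ = _ := by ring

open Classical in
/-- no closing: at most one leaf without the weight Bt, a leaf in W -/
theorem open_sum (h : Inp C δ) : ∃ K : ℝ, 1 ≤ K ∧ ∀ (H X : ℤ) (m D N k : ℕ) (w u B : ℝ) (W : Set (List Bool))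
    (Bt : List Bool → ℝ≥0∞) (Q : List Bool → Bool) (S : Set (List (List Bool))), 3 ≤ m → 2 ^ (k + 4) ≤ D →
    0 ≤ w → 0 ≤ u → 0 ≤ B →
    Nrm D N k (fun g => if g ∈ W then 1 else 0) (ENNReal.ofReal w) → Nrm D N k (fun _ => 1) (ENNReal.ofReal u) →
    Nrm D N k Bt (ENNReal.ofReal B) → (∀ g, Q g = false → 1 ≤ Bt g) → S ⊆ CBU H X m D N →
    (∀ gs ∈ S, (gs.filter Q).length ≤ 1 ∧ ∃ (j : ℕ) (hj : j < gs.length), gs[j] ∈ W) →
    WS S ≤ ENNReal.ofReal (K * m ^ 3 * UU N * w * u * B ^ (m - 3)) := by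
  obtain ⟨K1, hK1, hop⟩ := open_prod h
  refine ⟨K1, hK1, ?_⟩
  intro H X m D N k w u B W Bt Q S hm hD hw hu hB nW nu nB hQ hS hSel
  have hUN := TH7.UU_nonneg N
  have key : WS S ≤ (m : ℝ≥0∞) ^ 3 * (ENNReal.ofReal (K1 * UU N) *
      (ENNReal.ofReal w * ENNReal.ofReal u * ENNReal.ofReal B ^ (m - 3))) := by
    refine sum_choice S (CBU H X m D N) (fun _ => 1) W Bt _ ?_ (fun gs hgs i => CBU_rot (hS hgs) i) ?_
    · intro gs hgs
      obtain ⟨h1, j, hj, hW⟩ := hSel gs hgs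
      have hl := CBU_len (hS hgs)
      obtain ⟨i, hi, hij⟩ : ∃ i, i < gs.length ∧ i ≠ j := by
        by_cases h0 : j = 0
        · exact ⟨1, by omega, by omega⟩
        · exact ⟨0, by omega, fun h => h0 h.symm⟩
      obtain ⟨a, b, g1, rest, ha, hb, hab, hr, hrl, _, hrest⟩ := select (m := m) hm hl
        (fun _ => True) Q W hi hj hij trivial hW h1
      refine ⟨i, a, b, by omega, ha, hb, hab, ?_⟩
      rw [hr]
      have h2 : SDN.wl gs = wE g1 * SDN.wl rest := by rw [← wl_rotate gs i, hr, PLD.wl_cons]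
      rw [h2]
      show _ ≤ wE g1 * 1 * wF (Fsel m W Bt a b) rest
      have h3 := wl_le_wF (Fsel_one (W := W) (Bt := Bt) (fun g _ => hQ g) hrl hrest)
      rw [mul_one]
      exact mul_le_mul_right h3 _
    · intro a b ha hb hab
      refine (openL D N _ _ fun gs hgs => ⟨CBU_chain hgs, CBU_brr hgs⟩).trans ?_
      refine (hop D N k _ _ hD (Fsel_norm (a := a) (b := b) nW nu nB)).trans ?_
      rw [csel_prod _ _ _ ha hb hab]
  refine key.trans (le_of_eq ?_)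
  have e1 : (m : ℝ≥0∞) ^ 3 = ENNReal.ofReal ((m : ℝ) ^ 3) := by
    rw [ENNReal.ofReal_pow (Nat.cast_nonneg _), ENNReal.ofReal_natCast]
  rw [e1, ← ENNReal.ofReal_pow hB, ← ENNReal.ofReal_mul hw, ← ENNReal.ofReal_mul (by positivity),
    ← ENNReal.ofReal_mul (by positivity), ← ENNReal.ofReal_mul (by positivity)]
  congr 1
  ring

open Classical in
/-- no closing, no further condition, m ≥ 2 -/
theorem open_two (h : Inp C δ) : ∃ K : ℝ, 1 ≤ K ∧ ∀ (H X : ℤ) (m D N k : ℕ) (w u : ℝ) (W : Set (List Bool))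
    (S : Set (List (List Bool))), 2 ≤ m → 2 ^ (k + 4) ≤ D → 0 ≤ w → 0 ≤ u →
    Nrm D N k (fun g => if g ∈ W then 1 else 0) (ENNReal.ofReal w) → Nrm D N k (fun _ => 1) (ENNReal.ofReal u) →
    S ⊆ CBU H X m D N → (∀ gs ∈ S, ∃ (j : ℕ) (hj : j < gs.length), gs[j] ∈ W) →
    WS S ≤ ENNReal.ofReal (K * m * UU N * w * u ^ (m - 2)) := by
  obtain ⟨K1, hK1, hop⟩ := open_prod h
  refine ⟨K1, hK1, ?_⟩
  intro H X m D N k w u W S hm hD hw hu nW nu hS hSel
  have hUN := TH7.UU_nonneg N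
  obtain ⟨Fs, hFs⟩ : ∃ Fs : List (List Bool → ℝ≥0∞), Fs = (fun g => if g ∈ W then 1 else 0) ::
    List.replicate (m - 2) (fun _ => 1) := ⟨_, rfl⟩
  have hone : ∀ i, ∑' gs : S, (if ∃ h : i < gs.1.length, gs.1[i] ∈ W then SDN.wl gs.1 else 0) ≤
      ENNReal.ofReal (K1 * UU N) * (ENNReal.ofReal w * ENNReal.ofReal u ^ (m - 2)) := by
    intro i
    -- rotation that brings the leaf number i to the place 1
    obtain ⟨r, hr⟩ : ∃ r, r = i + m - 1 := ⟨_, rfl⟩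
    have h1 : ∀ gs : S, (if ∃ h : i < gs.1.length, gs.1[i] ∈ W then SDN.wl gs.1 else 0) ≤
        cW (fun _ => 1) Fs (gs.1.rotate r) := by
      intro gs
      by_cases hc : ∃ h : i < gs.1.length, gs.1[i] ∈ W
      · rw [if_pos hc]
        obtain ⟨hi, hW⟩ := hc
        have hl := CBU_len (hS gs.2)
        have hlr : (gs.1.rotate r).length = m := by rw [List.length_rotate, hl]
        have hg : (gs.1.rotate r)[1]'(by rw [hlr]; omega) = gs.1[i] := by
          rw [List.getElem_rotate]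
          congr 1
          have : 1 + r = i + gs.1.length := by omega
          rw [this, Nat.add_mod_right, Nat.mod_eq_of_lt hi]
        rw [← wl_rotate gs.1 r]
        obtain ⟨ls, hls⟩ : ∃ ls, ls = gs.1.rotate r := ⟨_, rfl⟩
        rw [← hls] at hlr ⊢
        have hg' : ls[1]'(by rw [hlr]; omega) ∈ W := by
          have : ls[1]'(by rw [hlr]; omega) = (gs.1.rotate r)[1]'(by rw [← hls, hlr]; omega) := by
            simp only [hls]
          rw [this, hg]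
          exact hW
        match ls, hlr, hg' with
        | [], hlr, _ => simp at hlr; omega
        | [g1], hlr, _ => simp at hlr; omega
        | g1 :: g2 :: rest, hlr, hg' =>
          rw [PLD.wl_cons, PLD.wl_cons, hFs]
          show _ ≤ wE g1 * 1 * (wE g2 * (if g2 ∈ W then 1 else 0) * wF (List.replicate (m - 2) (fun _ => 1)) rest)
          have hg2 : g2 ∈ W := hg'
          rw [if_pos hg2, mul_one, mul_one]
          refine mul_le_mul_right (mul_le_mul_right ?_ _) _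
          refine wl_le_wF ?_
          rw [List.forall₂_iff_get]
          refine ⟨?_, fun p h1 h2 => ?_⟩
          · rw [List.length_replicate]
            simp only [List.length_cons] at hlr
            omega
          · simp
      · rw [if_neg hc]
        exact zero_le
    refine (ENNReal.tsum_le_tsum h1).trans ?_
    have h2 : ∑' gs : S, cW (fun _ => 1) Fs (gs.1.rotate r) ≤ ∑' gs : CBU H X m D N, cW (fun _ => 1) Fs gs.1 := by
      have hinj : Function.Injective (fun gs : S => (⟨gs.1.rotate r, CBU_rot (hS gs.2) r⟩ : CBU H X m D N)) := by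
        intro x y hxy
        have := congrArg Subtype.val hxy
        exact Subtype.ext (List.rotate_injective r this)
      exact ENNReal.tsum_comp_le_tsum_of_injective hinj fun gs : CBU H X m D N => cW (fun _ => 1) Fs gs.1
    refine h2.trans ((openL D N _ _ fun gs hgs => ⟨CBU_chain hgs, CBU_brr hgs⟩).trans ?_)
    have h3 : List.Forall₂ (fun F c => Nrm D N k F c) Fs
        (ENNReal.ofReal w :: List.replicate (m - 2) (ENNReal.ofReal u)) := by
      rw [hFs]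
      refine List.Forall₂.cons nW ?_
      rw [List.forall₂_iff_get]
      refine ⟨by simp, fun p h1 h2 => ?_⟩
      simp only [List.get_eq_getElem, List.getElem_replicate]
      exact nu
    refine (hop D N k _ _ hD h3).trans (le_of_eq ?_)
    rw [List.prod_cons, List.prod_replicate]
  have hsum : WS S ≤ ∑ i ∈ range m, ∑' gs : S, (if ∃ h : i < gs.1.length, gs.1[i] ∈ W then SDN.wl gs.1 else 0) := by
    rw [← Summable.tsum_finsetSum (fun _ _ => ENNReal.summable)]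
    refine ENNReal.tsum_le_tsum fun gs => ?_
    obtain ⟨j, hj, hW⟩ := hSel gs.1 gs.2
    have hl := CBU_len (hS gs.2)
    refine le_trans ?_ (Finset.single_le_sum (fun _ _ => zero_le) (mem_range.2 (by omega : j < m)))
    rw [if_pos ⟨hj, hW⟩]
  refine hsum.trans ((Finset.sum_le_sum fun i _ => hone i).trans (le_of_eq ?_))
  rw [Finset.sum_const, Finset.card_range, nsmul_eq_mul]
  rw [← ENNReal.ofReal_natCast, ← ENNReal.ofReal_pow hu, ← ENNReal.ofReal_mul hw, ← ENNReal.ofReal_mul (by positivity),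
    ← ENNReal.ofReal_mul (by positivity)]
  congr 1
  ring

open Classical in
/-- the sum over the chains whose first scale with two good leaves is n, a good leaf and a leaf in W -/
theorem sel : ∃ K c : ℝ, 1 ≤ K ∧ 0 < c ∧ ∀ (H X : ℤ) (m L k n : ℕ) (W : Set (List Bool)) (w : ℝ), 6 ≤ m → k ≤ L →
    3 ≤ n → 2 * n ≤ k → 0 ≤ w →
    Nrm (2 ^ (k + 4)) (2 ^ (L + 2)) k (fun g => if g ∈ W then 1 else 0) (ENNReal.ofReal w) →
    WS {gs | gs ∈ CCH H X m L k ∧ Gd k n gs ∧ (n = 3 ∨ ¬ Gd k (n - 1) gs) ∧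
      ∃ (i j : ℕ) (hi : i < gs.length) (hj : j < gs.length), i ≠ j ∧
        1 / 2 ≤ gam k (k - n) (k - 2 * n) gs[i] ∧ gs[j] ∈ W} ≤
    ENNReal.ofReal (K * m ^ 3 * (2 : ℝ) ^ (-(2 * (k : ℝ))) * (2 : ℝ) ^ ((13 / 4 : ℝ) * n) *
      (K * 2 ^ (L + 2 - k)) ^ 4 * w *
      (if n = 3 then K * 2 ^ (L + 2 - k) else K * 2 ^ (L + 2 - k) * (2 : ℝ) ^ (-(c * ((n : ℝ) - 1)))) ^ (m - 4)) := by
  obtain ⟨C, δ, h⟩ := inp_exists
  obtain ⟨K1, hK1, h1⟩ := close_sum h
  obtain ⟨K2, hK2, h2⟩ := nrm_one h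
  obtain ⟨K3, c, hK3, hc, h3⟩ := nrm_bet h
  obtain ⟨K, hK⟩ : ∃ K, K = K1 + K2 + 2 * K3 := ⟨_, rfl⟩
  refine ⟨K, c, by linarith, hc, fun H X m L k n W w hm hk hn hnk hw nW => ?_⟩
  have hKone : 1 ≤ K := by linarith
  obtain ⟨ρ, hρd⟩ : ∃ ρ : ℝ, ρ = 2 ^ (L + 2 - k) := ⟨_, rfl⟩
  rw [← hρd]
  have hρ : 1 ≤ ρ := by rw [hρd]; exact one_le_pow₀ (by norm_num)
  have hU : UU (2 ^ (L + 2)) ≤ ρ * Ub k := by rw [hρd]; exact UU_box hk
  have hK1' : 1 ≤ K := by linarith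
  rcases Nat.lt_or_ge (2 ^ (L + 2)) (2 ^ (k + 4)) with hDN | hDN
  · have h4 : {gs | gs ∈ CCH H X m L k ∧ Gd k n gs ∧ (n = 3 ∨ ¬ Gd k (n - 1) gs) ∧
      ∃ (i j : ℕ) (hi : i < gs.length) (hj : j < gs.length), i ≠ j ∧
        1 / 2 ≤ gam k (k - n) (k - 2 * n) gs[i] ∧ gs[j] ∈ W} = ∅ := by
      rw [Set.eq_empty_iff_forall_notMem]
      rintro gs ⟨h5, _⟩
      have h6 := CCH_sub h5
      rw [CBU_empty (by omega) hDN] at h6
      exact h6
    rw [h4]
    unfold WS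
    rw [tsum_empty]
    exact zero_le
  have n1 := h2 (2 ^ (k + 4)) (2 ^ (L + 2)) k ρ le_rfl hρ hU
  -- the bad weight
  obtain ⟨B, hBd⟩ : ∃ B : ℝ, B = (if n = 3 then K * ρ else K * ρ * (2 : ℝ) ^ (-(c * ((n : ℝ) - 1)))) := ⟨_, rfl⟩
  rw [← hBd]
  have hB0 : 0 ≤ B := by
    rw [hBd]
    split_ifs <;> positivity
  have hBK : B ≤ K * ρ := by
    rw [hBd]
    split_ifs with h0
    · exact le_rfl
    · refine mul_le_of_le_one_right (by positivity) ?_
      refine Real.rpow_le_one_of_one_le_of_nonpos (by norm_num) ?_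
      have : (1 : ℝ) ≤ n := by exact_mod_cast (by omega : 1 ≤ n)
      nlinarith
  have hmain : WS {gs | gs ∈ CCH H X m L k ∧ Gd k n gs ∧ (n = 3 ∨ ¬ Gd k (n - 1) gs) ∧
      ∃ (i j : ℕ) (hi : i < gs.length) (hj : j < gs.length), i ≠ j ∧
        1 / 2 ≤ gam k (k - n) (k - 2 * n) gs[i] ∧ gs[j] ∈ W} ≤
      ENNReal.ofReal (K1 * m ^ 3 * (2 : ℝ) ^ (-(2 * (k : ℝ))) * (2 : ℝ) ^ ((13 / 4 : ℝ) * n) * ρ * w * (K2 * ρ) *
      B ^ (m - 3)) := by
    by_cases h0 : n = 3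
    · refine h1 H X m (2 ^ (k + 4)) (2 ^ (L + 2)) k n ρ w (K2 * ρ) B W (fun _ => 1) (fun _ => false) _ (by omega) le_rfl hDN
        hnk hρ hU hw (by positivity) hB0 nW n1 ?_ (fun _ _ => le_rfl) (fun gs hgs => CCH_sub hgs.1) ?_
      · refine n1.mono (fun _ => le_rfl) (ENNReal.ofReal_le_ofReal ?_)
        rw [hBd, if_pos h0]
        exact mul_le_mul_of_nonneg_right (by linarith) (by linarith)
      · rintro gs ⟨_, _, _, h5⟩
        refine ⟨?_, h5⟩
        rw [List.filter_false]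
        simp
    · refine h1 H X m (2 ^ (k + 4)) (2 ^ (L + 2)) k n ρ w (K2 * ρ) B W (fun g => 2 * bet k (k - (n - 1)) (k - 2 * (n - 1)) g)
        (fun g => decide (1 / 2 ≤ gam k (k - (n - 1)) (k - 2 * (n - 1)) g)) _ (by omega) le_rfl hDN
        hnk hρ hU hw (by positivity) hB0 nW n1 ?_ ?_ (fun gs hgs => CCH_sub hgs.1) ?_
      · have n2 := (h3 (2 ^ (k + 4)) (2 ^ (L + 2)) k (n - 1) ρ le_rfl hρ hU (by omega) (by omega)).smul 2
        refine n2.mono (fun _ => le_rfl) ?_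
        have e1 : (2 : ℝ≥0∞) = ENNReal.ofReal 2 := by norm_num
        rw [e1, ← ENNReal.ofReal_mul (by norm_num)]
        refine ENNReal.ofReal_le_ofReal ?_
        rw [hBd, if_neg h0]
        have e2 : ((n - 1 : ℕ) : ℝ) = (n : ℝ) - 1 := by
          rw [Nat.cast_sub (by omega)]
          norm_num
        rw [e2]
        have h6 : (0 : ℝ) < (2 : ℝ) ^ (-(c * ((n : ℝ) - 1))) := Real.rpow_pos_of_pos (by norm_num) _
        calc 2 * (K3 * ρ * (2 : ℝ) ^ (-(c * ((n : ℝ) - 1)))) = (2 * K3) * ρ * (2 : ℝ) ^ (-(c * ((n : ℝ) - 1))) := by ring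
          _ ≤ K * ρ * (2 : ℝ) ^ (-(c * ((n : ℝ) - 1))) := by
              gcongr
              linarith
      · intro g hg
        exact one_le_two_bet (by simpa using hg)
      · rintro gs ⟨_, _, h5, h6⟩
        refine ⟨?_, h6⟩
        have h7 := h5.resolve_left h0
        unfold Gd at h7
        omega
  refine hmain.trans (ENNReal.ofReal_le_ofReal ?_)
  obtain ⟨a, ha⟩ : ∃ a : ℝ, a = (m : ℝ) ^ 3 * (2 : ℝ) ^ (-(2 * (k : ℝ))) * (2 : ℝ) ^ ((13 / 4 : ℝ) * n) := ⟨_, rfl⟩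
  have ha0 : 0 ≤ a := by rw [ha]; positivity
  have e3 : B ^ (m - 3) = B * B ^ (m - 4) := by
    rw [← pow_succ']
    congr 1
    omega
  have hBm : 0 ≤ B ^ (m - 4) := pow_nonneg hB0 _
  have hKρ : 1 ≤ K * ρ := by nlinarith
  calc K1 * m ^ 3 * (2 : ℝ) ^ (-(2 * (k : ℝ))) * (2 : ℝ) ^ ((13 / 4 : ℝ) * n) * ρ * w * (K2 * ρ) * B ^ (m - 3)
      = a * w * B ^ (m - 4) * (K1 * (ρ * ((K2 * ρ) * B))) := by rw [e3, ha]; ring
    _ ≤ a * w * B ^ (m - 4) * (K * ((K * ρ) * ((K * ρ) * (K * ρ)))) := by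
        have q1 : K1 ≤ K := by linarith
        have q2 : ρ ≤ K * ρ := by nlinarith
        have q3 : K2 * ρ ≤ K * ρ := mul_le_mul_of_nonneg_right (by linarith) (by linarith)
        gcongr
    _ ≤ a * w * B ^ (m - 4) * (K * (K * ρ) ^ 4) := by
        have q4 : (K * ρ) * ((K * ρ) * (K * ρ)) = (K * ρ) ^ 3 := by ring
        rw [q4]
        have q5 : (K * ρ) ^ 3 ≤ (K * ρ) ^ 4 := pow_le_pow_right₀ hKρ (by norm_num)
        gcongr
    _ = K * m ^ 3 * (2 : ℝ) ^ (-(2 * (k : ℝ))) * (2 : ℝ) ^ ((13 / 4 : ℝ) * n) * (K * ρ) ^ 4 * w * B ^ (m - 4) := by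
        rw [ha]
        ring

open Classical in
/-- at most one good leaf: no closing -/
theorem sel_bad : ∃ K c : ℝ, 1 ≤ K ∧ 0 < c ∧ ∀ (H X : ℤ) (m L k n : ℕ) (W : Set (List Bool)) (w : ℝ), 3 ≤ m → k ≤ L →
    3 ≤ n → 2 * n ≤ k → 0 ≤ w →
    Nrm (2 ^ (k + 4)) (2 ^ (L + 2)) k (fun g => if g ∈ W then 1 else 0) (ENNReal.ofReal w) →
    WS {gs | gs ∈ CCH H X m L k ∧ ¬ Gd k n gs ∧ ∃ (j : ℕ) (hj : j < gs.length), gs[j] ∈ W} ≤
    ENNReal.ofReal (K * m ^ 3 * Ub L * (K * 2 ^ (L + 2 - k)) ^ 3 * w *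
      (K * 2 ^ (L + 2 - k) * (2 : ℝ) ^ (-(c * (n : ℝ)))) ^ (m - 3)) := by
  obtain ⟨C, δ, h⟩ := inp_exists
  obtain ⟨K1, hK1, h1⟩ := open_sum h
  obtain ⟨K2, hK2, h2⟩ := nrm_one h
  obtain ⟨K3, c, hK3, hc, h3⟩ := nrm_bet h
  obtain ⟨K, hK⟩ : ∃ K, K = 4 * K1 + K2 + 2 * K3 := ⟨_, rfl⟩
  refine ⟨K, c, by linarith, hc, fun H X m L k n W w hm hk hn hnk hw nW => ?_⟩
  have hKone : 1 ≤ K := by linarith
  obtain ⟨ρ, hρd⟩ : ∃ ρ : ℝ, ρ = 2 ^ (L + 2 - k) := ⟨_, rfl⟩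
  rw [← hρd]
  have hρ : 1 ≤ ρ := by rw [hρd]; exact one_le_pow₀ (by norm_num)
  have hU : UU (2 ^ (L + 2)) ≤ ρ * Ub k := by rw [hρd]; exact UU_box hk
  have n1 := h2 (2 ^ (k + 4)) (2 ^ (L + 2)) k ρ le_rfl hρ hU
  obtain ⟨B, hBd⟩ : ∃ B : ℝ, B = K * ρ * (2 : ℝ) ^ (-(c * (n : ℝ))) := ⟨_, rfl⟩
  rw [← hBd]
  have hB0 : 0 ≤ B := by rw [hBd]; positivity
  have hmain := h1 H X m (2 ^ (k + 4)) (2 ^ (L + 2)) k w (K2 * ρ) B W (fun g => 2 * bet k (k - n) (k - 2 * n) g)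
    (fun g => decide (1 / 2 ≤ gam k (k - n) (k - 2 * n) g))
    {gs | gs ∈ CCH H X m L k ∧ ¬ Gd k n gs ∧ ∃ (j : ℕ) (hj : j < gs.length), gs[j] ∈ W} hm le_rfl hw (by positivity) hB0 nW n1
    ?_ ?_ (fun gs hgs => CCH_sub hgs.1) ?_
  · refine hmain.trans (ENNReal.ofReal_le_ofReal ?_)
    have hUN := UU_box4 L
    have hUN0 := TH7.UU_nonneg (2 ^ (L + 2))
    have hUL := Ub_pos L
    have hBm : 0 ≤ B ^ (m - 3) := pow_nonneg hB0 _
    have hKρ : 1 ≤ K * ρ := by nlinarith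
    calc K1 * m ^ 3 * UU (2 ^ (L + 2)) * w * (K2 * ρ) * B ^ (m - 3)
        = ((m : ℝ) ^ 3 * w * B ^ (m - 3)) * (K1 * UU (2 ^ (L + 2)) * (K2 * ρ)) := by ring
      _ ≤ ((m : ℝ) ^ 3 * w * B ^ (m - 3)) * (K1 * (4 * Ub L) * (K * ρ)) := by
          have q1 : K2 * ρ ≤ K * ρ := mul_le_mul_of_nonneg_right (by linarith) (by linarith)
          gcongr
      _ ≤ ((m : ℝ) ^ 3 * w * B ^ (m - 3)) * (K * Ub L * (K * ρ) ^ 3) := by
          have q2 : (K * ρ) ^ 1 ≤ (K * ρ) ^ 3 := pow_le_pow_right₀ hKρ (by norm_num)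
          rw [pow_one] at q2
          have q3 : K1 * (4 * Ub L) ≤ K * Ub L := by nlinarith
          have q4 : 0 ≤ K * Ub L := by positivity
          gcongr
      _ = K * m ^ 3 * Ub L * (K * ρ) ^ 3 * w * B ^ (m - 3) := by ring
  · have n2 := (h3 (2 ^ (k + 4)) (2 ^ (L + 2)) k n ρ le_rfl hρ hU hn hnk).smul 2
    refine n2.mono (fun _ => le_rfl) ?_
    have e1 : (2 : ℝ≥0∞) = ENNReal.ofReal 2 := by norm_num
    rw [e1, ← ENNReal.ofReal_mul (by norm_num)]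
    refine ENNReal.ofReal_le_ofReal ?_
    rw [hBd]
    have h6 : (0 : ℝ) < (2 : ℝ) ^ (-(c * (n : ℝ))) := Real.rpow_pos_of_pos (by norm_num) _
    calc 2 * (K3 * ρ * (2 : ℝ) ^ (-(c * (n : ℝ)))) = (2 * K3) * ρ * (2 : ℝ) ^ (-(c * (n : ℝ))) := by ring
      _ ≤ K * ρ * (2 : ℝ) ^ (-(c * (n : ℝ))) := by
          gcongr
          linarith
  · intro g hg
    exact one_le_two_bet (by simpa using hg)
  · rintro gs ⟨_, h5, h6⟩
    refine ⟨?_, h6⟩
    unfold Gd at h5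
    omega

open Classical in
/-- no condition -/
theorem sel_all : ∃ K : ℝ, 1 ≤ K ∧ ∀ (H X : ℤ) (m L k : ℕ) (W : Set (List Bool)) (w : ℝ), 2 ≤ m → k ≤ L → 0 ≤ w →
    Nrm (2 ^ (k + 4)) (2 ^ (L + 2)) k (fun g => if g ∈ W then 1 else 0) (ENNReal.ofReal w) →
    WS {gs | gs ∈ CCH H X m L k ∧ ∃ (j : ℕ) (hj : j < gs.length), gs[j] ∈ W} ≤
    ENNReal.ofReal (K * m * Ub L * w * (K * 2 ^ (L + 2 - k)) ^ m) := by
  obtain ⟨C, δ, h⟩ := inp_exists
  obtain ⟨K1, hK1, h1⟩ := open_two h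
  obtain ⟨K2, hK2, h2⟩ := nrm_one h
  obtain ⟨K, hK⟩ : ∃ K, K = 4 * K1 + K2 := ⟨_, rfl⟩
  refine ⟨K, by linarith, fun H X m L k W w hm hk hw nW => ?_⟩
  have hKone : 1 ≤ K := by linarith
  obtain ⟨ρ, hρd⟩ : ∃ ρ : ℝ, ρ = 2 ^ (L + 2 - k) := ⟨_, rfl⟩
  rw [← hρd]
  have hρ : 1 ≤ ρ := by rw [hρd]; exact one_le_pow₀ (by norm_num)
  have hU : UU (2 ^ (L + 2)) ≤ ρ * Ub k := by rw [hρd]; exact UU_box hk
  have n1 := h2 (2 ^ (k + 4)) (2 ^ (L + 2)) k ρ le_rfl hρ hU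
  have hmain := h1 H X m (2 ^ (k + 4)) (2 ^ (L + 2)) k w (K2 * ρ) W
    {gs | gs ∈ CCH H X m L k ∧ ∃ (j : ℕ) (hj : j < gs.length), gs[j] ∈ W} hm le_rfl hw (by positivity) nW n1
    (fun gs hgs => CCH_sub hgs.1) (fun gs hgs => hgs.2)
  refine hmain.trans (ENNReal.ofReal_le_ofReal ?_)
  have hUN := UU_box4 L
  have hUN0 := TH7.UU_nonneg (2 ^ (L + 2))
  have hUL := Ub_pos L
  have hKρ : 1 ≤ K * ρ := by nlinarith
  have q1 : (K2 * ρ) ^ (m - 2) ≤ (K * ρ) ^ m := by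
    calc (K2 * ρ) ^ (m - 2) ≤ (K * ρ) ^ (m - 2) := by
          refine pow_le_pow_left₀ (by positivity) (mul_le_mul_of_nonneg_right (by linarith) (by linarith)) _
      _ ≤ (K * ρ) ^ m := pow_le_pow_right₀ hKρ (by omega)
  have q3 : K1 * UU (2 ^ (L + 2)) ≤ K * Ub L := by nlinarith
  calc K1 * m * UU (2 ^ (L + 2)) * w * (K2 * ρ) ^ (m - 2)
      = (m : ℝ) * w * (K1 * UU (2 ^ (L + 2))) * (K2 * ρ) ^ (m - 2) := by ring
    _ ≤ (m : ℝ) * w * (K * Ub L) * (K * ρ) ^ m := by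
        have : 0 ≤ K * Ub L := by positivity
        gcongr
    _ = K * m * Ub L * w * (K * ρ) ^ m := by ring

private lemma pw_le {c c' x : ℝ} (h : c ≤ c') (hx : 0 ≤ x) : (2 : ℝ) ^ (-(c' * x)) ≤ (2 : ℝ) ^ (-(c * x)) :=
  Real.rpow_le_rpow_of_exponent_le (by norm_num) (neg_le_neg (mul_le_mul_of_nonneg_right h hx))

private lemma W1_ex {W : Set (List Bool)} {gs : List (List Bool)} (h : W1 W gs) :
    ∃ (j : ℕ) (hj : j < gs.length), gs[j] ∈ W := by
  obtain ⟨j, hj, h1⟩ := h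
  refine ⟨j, hj, ?_⟩
  rwa [List.getD_eq_getElem _ _ hj] at h1

/-- the inputs of the final part -/
theorem selW_exists : ∃ K c : ℝ, SelW K c := by
  obtain ⟨K1, c1, hK1, hc1, h1⟩ := sel
  obtain ⟨K2, c2, hK2, hc2, h2⟩ := sel_bad
  obtain ⟨K3, hK3, h3⟩ := sel_all
  refine ⟨K1 + K2 + K3, min c1 c2, by linarith, lt_min hc1 hc2, ?_, ?_, ?_⟩
  · intro H X m L k n W w _ hm hk hn hnk hw hW
    have h4 := h1 H X m L k n W w hm hk hn hnk hw hW
    refine le_trans ?_ (h4.trans (ENNReal.ofReal_le_ofReal ?_))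
    · unfold WS
      refine ENNReal.tsum_mono_subtype (fun gs => SDN.wl gs) ?_
      rintro gs ⟨g1, g2, g3, i, j, hij, hi, hj, g4, g5⟩
      refine ⟨g1, g2, g3, i, j, hi, hj, hij, ?_, ?_⟩
      · rwa [List.getD_eq_getElem _ _ hi] at g4
      · rwa [List.getD_eq_getElem _ _ hj] at g5
    · have e1 : (if n = 3 then K1 * 2 ^ (L + 2 - k) else K1 * 2 ^ (L + 2 - k) * (2 : ℝ) ^ (-(c1 * ((n : ℝ) - 1)))) ≤
          (K1 + K2 + K3) * 2 ^ (L + 2 - k) * (if n = 3 then 1 else (2 : ℝ) ^ (-(min c1 c2 * ((n : ℝ) - 1)))) := by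
        split_ifs
        · rw [mul_one]
          exact mul_le_mul_of_nonneg_right (by linarith) (by positivity)
        · have hn1 : (0 : ℝ) ≤ (n : ℝ) - 1 := by
            have : (1 : ℝ) ≤ n := by exact_mod_cast (by omega : 1 ≤ n)
            linarith
          refine mul_le_mul (mul_le_mul_of_nonneg_right (by linarith) (by positivity)) (pw_le (min_le_left _ _) hn1)
            (by positivity) (by positivity)
      have e0 : 0 ≤ (if n = 3 then K1 * 2 ^ (L + 2 - k) else K1 * 2 ^ (L + 2 - k) *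
          (2 : ℝ) ^ (-(c1 * ((n : ℝ) - 1)))) := by
        split_ifs <;> positivity
      have e2 := pow_le_pow_left₀ e0 e1 (m - 4)
      have e3 : (K1 * 2 ^ (L + 2 - k)) ^ 4 ≤ ((K1 + K2 + K3) * 2 ^ (L + 2 - k)) ^ 4 :=
        pow_le_pow_left₀ (by positivity) (mul_le_mul_of_nonneg_right (by linarith) (by positivity)) 4
      have e4 : K1 ≤ K1 + K2 + K3 := by linarith
      gcongr
  · intro H X m L k n W w _ hm hk hn hnk hw hW
    have h4 := h2 H X m L k n W w (by omega) hk hn hnk hw hW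
    refine le_trans ?_ (h4.trans (ENNReal.ofReal_le_ofReal ?_))
    · unfold WS
      refine ENNReal.tsum_mono_subtype (fun gs => SDN.wl gs) ?_
      rintro gs ⟨g1, g2, g3⟩
      exact ⟨g1, g2, W1_ex g3⟩
    · have e1 : K2 * 2 ^ (L + 2 - k) * (2 : ℝ) ^ (-(c2 * (n : ℝ))) ≤
          (K1 + K2 + K3) * 2 ^ (L + 2 - k) * (2 : ℝ) ^ (-(min c1 c2 * (n : ℝ))) := by
        refine mul_le_mul (mul_le_mul_of_nonneg_right (by linarith) (by positivity))
          (pw_le (min_le_right _ _) (Nat.cast_nonneg _)) (by positivity) (by positivity)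
      have e2 := pow_le_pow_left₀ (by positivity) e1 (m - 3)
      have e3 : (K2 * 2 ^ (L + 2 - k)) ^ 3 ≤ ((K1 + K2 + K3) * 2 ^ (L + 2 - k)) ^ 3 :=
        pow_le_pow_left₀ (by positivity) (mul_le_mul_of_nonneg_right (by linarith) (by positivity)) 3
      have e4 : K2 ≤ K1 + K2 + K3 := by linarith
      have e5 := (Ub_pos L).le
      gcongr
  · intro H X m L k W w _ hm hk hw hW
    have h4 := h3 H X m L k W w hm hk hw hW
    refine le_trans ?_ (h4.trans (ENNReal.ofReal_le_ofReal ?_))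
    · unfold WS
      refine ENNReal.tsum_mono_subtype (fun gs => SDN.wl gs) ?_
      rintro gs ⟨g1, g3⟩
      exact ⟨g1, W1_ex g3⟩
    · have e3 : (K3 * 2 ^ (L + 2 - k)) ^ m ≤ ((K1 + K2 + K3) * 2 ^ (L + 2 - k)) ^ m :=
        pow_le_pow_left₀ (by positivity) (mul_le_mul_of_nonneg_right (by linarith) (by positivity)) m
      have e4 : K3 ≤ K1 + K2 + K3 := by linarith
      have e5 := (Ub_pos L).le
      gcongr

end PLW

end HexObs
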