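import Pool.Agent.PLW.CycW
import Pool.Agent.PLD.SplitT

/-!
PLW: the split theorem for the loops that wind round the cylinder. A periodic walk with a drawdown of more than d0 rows
is, from some root, a periodic chain of n0 leaves with heights at least d and drawdowns at most d for some d (or of fewer
leaves with d = d0). No planarity: the first root is behind the bottom of the largest drawdown.
-/

set_option autoImplicit false

namespace HexObs

namespace PLW

open Finset TS SDN PLD SDN.ZZ

/-! ### 1. The levels of the periodic walk -/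

/-- the levels of the periodic walk -/
def fl (z : List Bool) (i : ℕ) : ℤ := lvl false (pv z i)

lemma fl_eq {z : List Bool} {i : ℕ} (h : i ≤ z.length) : lev z i = fl z i := by
  unfold lev fl
  rw [vx_eq_pv h]
  rfl

lemma fl_add {P : Pt} {z : List Bool} (hz : z ∈ CwP P) (i : ℕ) : fl z (z.length + i) = lvl false P + fl z i :=
  row_addW hz false i

lemma fl_mul {P : Pt} {z : List Bool} (hz : z ∈ CwP P) (k i : ℕ) :
    fl z (z.length * k + i) = k * lvl false P + fl z i := by
  induction k with
  | zero =>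
    rw [Nat.mul_zero, Nat.zero_add]
    simp
  | succ k ih =>
    rw [Nat.mul_succ, Nat.add_comm (z.length * k) z.length, Nat.add_assoc, fl_add hz, ih]
    push_cast
    ring

lemma fl_rot {z : List Bool} (hz : z ≠ []) {r : ℕ} (hd : pd z r = up) (i : ℕ) :
    fl (z.rotate r) i = fl z (r + i) - fl z r := by
  unfold fl lvl
  rw [pv_shift hz hd i, ip_add_left]
  ring

lemma fl_rotN {z : List Bool} (hz : z ≠ []) {r : ℕ} (hd : pd z r = -up) (i : ℕ) :
    fl (z.rotate r) i = fl z r - fl z (r + i) := by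
  unfold fl lvl
  rw [pv_shiftN hz hd i, ip_sub_left]
  ring

/-- a long piece of the periodic walk -/
def lng (z : List Bool) (K : ℕ) : List Bool := (List.range K).map (per z)

lemma tf_lng {z : List Bool} {K k : ℕ} (h : k < K) : tf (lng z K) k = per z k := by
  unfold tf lng
  rw [List.getD_eq_getElem?_getD, List.getElem?_map, List.getElem?_range h]
  rfl

lemma vx_lng {z : List Bool} {K i : ℕ} (h : i ≤ K + 1) : vx oo up (lng z K) i = pv z i :=
  vs_congr i fun k hk => tf_lng (by omega)

lemma dx_lng {z : List Bool} {K i : ℕ} (h : i ≤ K) : dx up (lng z K) i = pd z i :=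
  ds_congr i fun k hk => tf_lng (by omega)

lemma xD_lng {z : List Bool} {K i : ℕ} (h : i ≤ K + 1) : xD up (lng z K) i = fl z i := by
  unfold xD fl
  rw [vx_lng h]
  rfl

lemma lev_lng {z : List Bool} {K i : ℕ} (h : i ≤ K + 1) : lev (lng z K) i = fl z i := by
  unfold lev fl
  rw [vx_lng h]
  rfl

lemma fl_up (z : List Bool) (i : ℕ) : fl z (i + 1) ≤ fl z i + 2 := by
  have h := xD_step_le upd (lng z (i + 1)) i
  rwa [xD_lng (by omega), xD_lng (by omega)] at h

lemma fl_dn (z : List Bool) (i : ℕ) : fl z i ≤ fl z (i + 1) + 2 := by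
  have h := xD_step_le (dirs_neg upd) (lng z (i + 1)) i
  have hx : ∀ l, xD (-up) (lng z (i + 1)) l = -xD up (lng z (i + 1)) l := by
    intro l
    unfold xD
    rw [ip_neg_right]
  rw [hx, hx, xD_lng (by omega), xD_lng (by omega)] at h
  omega

lemma fl_mod (z : List Bool) (i : ℕ) : (3 : ℤ) ∣ fl z i - (if Even i then 0 else 2) := by
  have h := lev_mod (lng z i) i
  rwa [lev_lng (by omega)] at h

/-- the steps behind the bottom of a drawdown -/
lemma fl_fold {z : List Bool} {e : ℕ} (h0 : fl z (e + 1) ≤ fl z e) (h1 : fl z (e + 1) < fl z (e + 2))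
    (h2 : fl z (e + 1) < fl z (e + 3)) : pd z (e + 2) = up ∧ fl z (e + 2) = fl z (e + 1) + 1 := by
  have h := fold_dx (D := up) upd (t := lng z (e + 3)) (e := e)
  rw [xD_lng (by omega), xD_lng (by omega), xD_lng (by omega), xD_lng (by omega), dx_lng (by omega)] at h
  exact h h0 h1 h2

/-- the level of the period -/
lemma lvl_P {P : Pt} {z : List Bool} (hz : z ∈ CwP P) : lvl false P = 3 * row false P := by
  have h1 : fl z z.length = lvl false P := by
    unfold fl
    rw [pv_lenW hz]
  have h2 := fl_mod z z.length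
  have hev : Even z.length := by
    by_contra h
    have h3 := cl_dx up z z.length
    rw [if_neg h, hz.2.2.1] at h3
    revert h3
    decide
  rw [h1, if_pos hev] at h2
  unfold row
  omega

/-! ### 2. The largest drawdown -/

/-- the pair of the largest drawdown of the periodic walk -/
lemma drawW {P : Pt} {z : List Bool} (hz : z ∈ CwP P) (hN : 0 < lvl false P) {d0 : ℕ}
    (hd : ∃ i i', i ≤ i' ∧ (d0 : ℤ) < fl z i - fl z i') :
    ∃ p q, z.length ≤ p ∧ p < q ∧ q < p + z.length ∧ (d0 : ℤ) < fl z p - fl z q ∧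
      (∀ i i', i ≤ i' → fl z i - fl z i' ≤ fl z p - fl z q) ∧ (∀ k, p ≤ k → fl z q ≤ fl z k) ∧
      (∀ k, q < k → fl z q < fl z k) ∧ (∀ k, k ≤ q → fl z k ≤ fl z p) ∧ ∀ k, p < k → k ≤ q → fl z k < fl z p := by
  have h0 : 0 < z.length := List.length_pos_iff.2 hz.1
  obtain ⟨⟨a, b⟩, hab, hmax⟩ := Finset.exists_max_image (range z.length ×ˢ range z.length)
    (fun x => fl z x.1 - fl z (x.1 + x.2)) ⟨(0, 0), by rw [Finset.mem_product, Finset.mem_range]; exact ⟨h0, h0⟩⟩
  rw [Finset.mem_product, Finset.mem_range, Finset.mem_range] at hab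
  obtain ⟨a1, a2⟩ := hab
  simp only at a1 a2
  have hM : ∀ i i', i ≤ i' → fl z i - fl z i' ≤ fl z a - fl z (a + b) := by
    intro i i' h
    obtain ⟨j, rfl⟩ := Nat.exists_eq_add_of_le h
    have e1 : fl z i = (i / z.length : ℕ) * lvl false P + fl z (i % z.length) := by
      conv_lhs => rw [← Nat.div_add_mod i z.length]
      exact fl_mul hz _ _
    have e2 : fl z (i + j) = ((i / z.length : ℕ) + (j / z.length : ℕ)) * lvl false P +
        fl z (i % z.length + j % z.length) := by
      have h1 : i + j = z.length * (i / z.length + j / z.length) + (i % z.length + j % z.length) := by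
        conv_lhs => rw [← Nat.div_add_mod i z.length, ← Nat.div_add_mod j z.length]
        ring
      conv_lhs => rw [h1]
      rw [fl_mul hz]
      push_cast
      ring
    have h2 := hmax (i % z.length, j % z.length) (by
      rw [Finset.mem_product, Finset.mem_range, Finset.mem_range]
      exact ⟨Nat.mod_lt _ h0, Nat.mod_lt _ h0⟩)
    simp only at h2
    rw [e1, e2]
    have h3 : 0 ≤ ((j / z.length : ℕ) : ℤ) * lvl false P := by positivity
    nlinarith
  obtain ⟨a0, ha0⟩ : ∃ a0, a0 = z.length + a := ⟨_, rfl⟩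
  obtain ⟨b0, hb0⟩ : ∃ b0, b0 = z.length + (a + b) := ⟨_, rfl⟩
  have f1 : fl z a0 = lvl false P + fl z a := by rw [ha0, fl_add hz]
  have f2 : fl z b0 = lvl false P + fl z (a + b) := by rw [hb0, fl_add hz]
  have hM' : ∀ i i', i ≤ i' → fl z i - fl z i' ≤ fl z a0 - fl z b0 := by
    intro i i' h
    have := hM i i' h
    omega
  obtain ⟨q, q1, q2, q3, q4⟩ := exists_last_max (fun k => -fl z k) (a := a0) (n := a0 + z.length) (by omega)
  obtain ⟨p, p1, p2, p3, p4⟩ := exists_last_max (fl z) q1
  have g0 : fl z (a0 + z.length) = lvl false P + fl z a0 := by rw [Nat.add_comm, fl_add hz]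
  have g1 : fl z q = fl z b0 := by
    have h1 := q3 b0 (by omega) (by omega)
    have h2 := hM' a0 q q1
    omega
  have g2 : fl z p = fl z a0 := by
    have h1 := p3 a0 le_rfl q1
    have h2 := hM' p q p2
    omega
  have g3 : q < a0 + z.length := by
    rcases Nat.lt_or_ge q (a0 + z.length) with h | h
    · exact h
    · exfalso
      have h1 : q = a0 + z.length := by omega
      have h2 := q3 a0 le_rfl (by omega)
      rw [h1, g0] at h2
      omega
  obtain ⟨i, i', hi, hd⟩ := hd
  have hs := hM' i i' hi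
  refine ⟨p, q, by omega, ?_, by omega, by omega, fun i i' h => ?_, fun k hk => ?_, fun k hk => ?_, fun k hk => ?_, p4⟩
  · rcases Nat.lt_or_ge p q with h | h
    · exact h
    · exfalso
      have h1 : p = q := by omega
      rw [h1] at g2
      omega
  · have := hM' i i' h
    omega
  · have := hM' a0 k (by omega)
    omega
  · rcases Nat.lt_or_ge (a0 + z.length) k with h | h
    · have := hM' (a0 + z.length) k (by omega)
      omega
    · have := q4 k hk h
      omega
  · have := hM' k q hk
    omega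

/-! ### 3. The first leaf -/

/-- the first leaf of a word whose first top is at e -/
lemma halfW {w : List Bool} (hinj : ∀ i k, i < k → k < w.length → vx oo up w i ≠ vx oo up w k) {e : ℕ} (he : 1 ≤ e)
    (he2 : e + 2 ≤ w.length - 1) (h1 : ∀ j, 1 ≤ j → j ≤ e → 0 < lev w j ∧ lev w j ≤ lev w e)
    (h2 : lev w (e + 1) < lev w e) (h3 : lev w (e + 2) < lev w e) :
    ∃ (g : List Bool) (M : ℕ), 1 ≤ M ∧ lev w e = 3 * M ∧ g ∈ Brd M ∧ g.length = e ∧
      w = PLD.blk g ++ w.drop (e + 1) ∧ lev w (e + 1) = 3 * M - 1 := by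
  obtain ⟨q, hq⟩ : ∃ q, q = w.take (w.length - 1) := ⟨_, rfl⟩
  have hql : q.length = w.length - 1 := by
    rw [hq, List.length_take]
    omega
  have hwq : w = q ++ w.drop (w.length - 1) := by
    rw [hq]
    exact (List.take_append_drop _ w).symm
  have hqv : ∀ i, i ≤ q.length → vx oo up q i = vx oo up w i := by
    intro i hi
    conv_rhs => rw [hwq]
    rw [vx_append (by omega)]
  have hqlev : ∀ i, i ≤ q.length → lev q i = lev w i := fun i hi => by
    unfold lev
    rw [hqv i hi]
  obtain ⟨c, M, hM, f1, f2, f3, f4, -, -, -, f5, -⟩ := fold_step (q := q) (e := e) he (by omega)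
    (fun i k hik hk => by
      rw [hqv i (by omega), hqv k hk]
      exact hinj i k hik (by omega))
    (fun j j1 j2 => by
      rw [hqlev j (by omega), hqlev e (by omega)]
      exact h1 j j1 j2)
    (by
      rw [hqlev _ (by omega), hqlev e (by omega)]
      exact h2)
    (by
      rw [hqlev _ (by omega), hqlev e (by omega)]
      exact h3)
  refine ⟨q.take (e - 1) ++ [!c], M, hM, ?_, f3, f4, ?_, ?_⟩
  · rw [← f1, hqlev e (by omega)]
  · have hb : PLD.blk (q.take (e - 1) ++ [!c]) = q.take (e - 1) ++ [c, c] := by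
      unfold PLD.blk
      rw [List.dropLast_concat, lst_append, Bool.not_not]
    have hd : w.drop (e + 1) = q.drop (e + 1) ++ w.drop (w.length - 1) := by
      conv_lhs => rw [hwq]
      rw [List.drop_append_of_le_length (by omega)]
    rw [hb, hd]
    conv_lhs => rw [hwq, f2]
    simp
  · rw [← f5, hqlev (e + 1) (by omega)]

lemma injW {P : Pt} {w : List Bool} (hw : w ∈ CwP P) :
    ∀ i k, i < k → k < w.length → vx oo up w i ≠ vx oo up w k := by
  intro i k hik hk
  rw [vx_eq_pv (by omega), vx_eq_pv (by omega)]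
  exact hw.2.2.2 i k (by omega)

/-! ### 4. The two leaves -/

/-- a periodic walk with a drawdown is a periodic chain of two leaves, the smaller one is the largest drawdown -/
theorem two_leafW {d0 : ℕ} {P : Pt} (hd0 : 1 ≤ d0) {z : List Bool} (hz : z ∈ CwP P) (hP : 1 ≤ row false P)
    (hd : ¬ DD d0 z) : ∃ (r M M' : ℕ) (g1 g2 : List Bool), r ≤ z.length ∧ dx up z r = up ∧ CyP P [g1, g2] ∧
      cuf [g1, g2] = z.rotate r ∧ g1 ∈ Brd M ∧ g2 ∈ Brd M' ∧ d0 ≤ M' ∧ M' ≤ M ∧ Drw M' g1 := by
  have hP3 := lvl_P hz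
  have h0 : 0 < z.length := List.length_pos_iff.2 hz.1
  obtain ⟨N, hN⟩ : ∃ N, N = row false P := ⟨_, rfl⟩
  rw [← hN] at hP hP3
  have hdd : ∃ i i', i ≤ i' ∧ ((3 * d0 : ℕ) : ℤ) < fl z i - fl z i' := by
    unfold DD at hd
    push Not at hd
    obtain ⟨i, i', h1, h2⟩ := hd
    refine ⟨i, i', h1, ?_⟩
    have e1 : row false (pv z i) = fl z i / 3 := rfl
    have e2 : row false (pv z i') = fl z i' / 3 := rfl
    rw [e1, e2] at h2
    have m1 := fl_mod z i
    have m2 := fl_mod z i'
    push_cast
    split_ifs at m1 m2 <;> omega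
  obtain ⟨p, q, pn, pq, qp, hs, hM, F1, F2, F3, F4⟩ := drawW hz (by omega) hdd
  obtain ⟨s, hse⟩ : ∃ s, s = fl z p - fl z q := ⟨_, rfl⟩
  rw [← hse] at hs hM
  push_cast at hs
  -- the root
  obtain ⟨u, hu⟩ : ∃ u, q = u + 1 := ⟨q - 1, by omega⟩
  obtain ⟨v1, v2⟩ := fl_fold (z := z) (e := u) (by rw [← hu]; exact F1 u (by omega)) (by rw [← hu]; exact F2 _ (by omega))
    (by rw [← hu]; exact F2 _ (by omega))
  rw [show u + 2 = q + 1 by omega] at v1 v2
  rw [← hu] at v2
  obtain ⟨w, hwz⟩ : ∃ w, w = z.rotate (q + 1) := ⟨_, rfl⟩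
  have hw : w ∈ CwP P := by
    rw [hwz]
    exact rotate_memW hz v1
  have hlen : w.length = z.length := by rw [hwz, List.length_rotate]
  have hG : ∀ i, fl w i = fl z (q + 1 + i) - fl z q - 1 := by
    intro i
    rw [hwz, fl_rot hz.1 v1, v2]
    ring
  obtain ⟨e, he⟩ : ∃ e, e = p + z.length - (q + 1) := ⟨_, rfl⟩
  have ad : ∀ k, z.length ≤ k → fl z k = 3 * N + fl z (k - z.length) := by
    intro k hk
    obtain ⟨j, rfl⟩ := Nat.exists_eq_add_of_le hk
    rw [fl_add hz, hP3, Nat.add_sub_cancel_left]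
  have Ge : fl w e = s + 3 * N - 1 := by
    rw [hG, he, show q + 1 + (p + z.length - (q + 1)) = z.length + p by omega, ad _ (by omega),
      Nat.add_sub_cancel_left]
    omega
  have G0 : ∀ i, 0 ≤ fl w i := by
    intro i
    rw [hG]
    have := F2 (q + 1 + i) (by omega)
    omega
  have Gle : ∀ i, i ≤ e → fl w i ≤ fl w e := by
    intro i hi
    rw [Ge, hG, ad _ (by omega)]
    have := F3 (q + 1 + i - z.length) (by omega)
    omega
  have Glt : ∀ i, e < i → i < z.length → fl w i < fl w e ∧ 3 * N - 1 ≤ fl w i := by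
    intro i h1 h2
    rw [Ge, hG, ad _ (by omega)]
    have h3 := F4 (q + 1 + i - z.length) (by omega) (by omega)
    have h4 := F1 (q + 1 + i - z.length) (by omega)
    omega
  have Gn1 : fl w (z.length - 1) = 3 * N - 1 := by
    rw [hG, ad _ (by omega), show q + 1 + (z.length - 1) - z.length = q by omega]
    ring
  have Gz : fl w 0 = 0 := by
    rw [← fl_eq (Nat.zero_le _), lev_zero]
  have e1 : 1 ≤ e := by
    by_contra h
    have h1 : e = 0 := by omega
    rw [h1, Gz] at Ge
    omega
  have e2 : e + 2 ≤ z.length - 1 := by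
    by_contra h
    rcases Nat.lt_or_ge e (z.length - 1) with h1 | h1
    · have h2 := fl_dn w e
      rw [show e + 1 = z.length - 1 by omega] at h2
      omega
    · rw [show z.length - 1 = e by omega] at Gn1
      omega
  have lw : ∀ i, i ≤ z.length → lev w i = fl w i := fun i hi => fl_eq (by omega)
  have hpos : ∀ j, 1 ≤ j → j ≤ e → 0 < lev w j := by
    intro j j1 j2
    by_contra hcon
    have h3 := G0 j
    rw [← lw j (by omega)] at h3
    have h4 : lev w j = 0 := by omega
    have hev : Even j := by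
      by_contra h
      have := lev_odd (w := w) h
      omega
    have h5 : dx up w j = up := by
      rcases step_e w hev with ⟨h, _⟩ | h
      · exact h
      · have h6 := G0 (j + 1)
        rw [← lw (j + 1) (by omega)] at h6
        omega
    obtain ⟨l, rfl⟩ : ∃ l, j = l + 1 := ⟨j - 1, by omega⟩
    have hl : ¬ Even l := by
      rw [Nat.even_add_one] at hev
      exact hev
    rcases step_o w hl with ⟨h6, _⟩ | h6
    · exact no_back w h6 h5
    · have h7 := G0 l
      rw [← lw l (by omega)] at h7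
      omega
  obtain ⟨g1, M, hM1, f1, f2, f3, f4, f5⟩ := halfW (injW hw) e1 (by omega) (fun j j1 j2 => ⟨hpos j j1 j2, by
    rw [lw j (by omega), lw e (by omega)]
    exact Gle j j2⟩) (by
      rw [lw _ (by omega), lw e (by omega)]
      exact (Glt (e + 1) (by omega) (by omega)).1) (by
      rw [lw _ (by omega), lw e (by omega)]
      exact (Glt (e + 2) (by omega) (by omega)).1)
  have hdn : dx up w (e + 1) = -up := by
    rw [f4, ← f3]
    exact dx_blk f2 hM1 _
  have hdn' : pd w (e + 1) = -up := by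
    rw [← dx_eq_pd (by omega)]
    exact hdn
  have hM3 : s + 3 * N - 1 = 3 * M := by rw [← Ge, ← lw e (by omega), f1]
  rw [lw _ (by omega)] at f5
  -- the second leaf
  obtain ⟨w', ew'⟩ : ∃ w', w' = w.rotate (e + 1) := ⟨_, rfl⟩
  have hw' : w' ∈ CwP (-P) := by
    rw [ew']
    exact rotate_memWN hw hdn'
  have hlen' : w'.length = z.length := by rw [ew', List.length_rotate, hlen]
  have hlev' : ∀ i, i ≤ z.length → lev w' i = 3 * M - 1 - fl w (e + 1 + i) := by
    intro i hi
    rw [fl_eq (by omega), ew', fl_rotN hw.1 hdn', f5]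
  obtain ⟨n2, hn2⟩ : ∃ n2, n2 = z.length - e - 2 := ⟨_, rfl⟩
  have Gn : fl w z.length = 3 * N := by
    rw [hG, ad _ (by omega), show q + 1 + z.length - z.length = q + 1 by omega, v2]
    ring
  have Gn2 : fl w (z.length + 1) = 3 * N + 2 := by
    have h1 := fl_add hw 1
    rw [hlen] at h1
    rw [h1, hP3, ← lw 1 (by omega), lev_succ w 0, lev_zero]
    show 3 * N + (0 + ip up up) = 3 * N + 2
    have : ip up up = 2 := by decide
    omega
  have hodd2 : ∀ i, e + 1 < i → i ≤ z.length - 1 → fl w i ≠ 3 * M - 1 := by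
    intro i i1 i2 h
    rw [← lw i (by omega)] at h
    have ho : ¬ Even i := by
      intro hev
      have := lev_even (w := w) hev
      omega
    have h1 : dx up w i = -up := by
      rcases step_o w ho with ⟨h2, _⟩ | h2
      · exact h2
      · exfalso
        rcases Nat.lt_or_ge (i + 1) z.length with h3 | h3
        · have := (Glt (i + 1) (by omega) h3).1
          rw [← lw (i + 1) (by omega), ← lw e (by omega), f1] at this
          omega
        · rw [show i + 1 = z.length by omega, lw _ le_rfl, Gn] at h2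
          omega
    obtain ⟨l, rfl⟩ : ∃ l, i = l + 1 := ⟨i - 1, by omega⟩
    have hle : Even l := by
      rw [Nat.even_add_one, not_not] at ho
      exact ho
    rcases step_e w hle with ⟨h2, _⟩ | h2
    · rw [dx_succ, h2] at h1
      revert h1
      cases tf w l <;> decide
    · have h3 := (Glt l (by omega) (by omega)).1
      rw [← lw l (by omega), ← lw e (by omega), f1] at h3
      omega
  have k2 : lev w' n2 = 3 * M - 3 * N := by
    rw [hlev' n2 (by omega), show e + 1 + n2 = z.length - 1 by omega, Gn1]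
    ring
  have k1 : ∀ j, 1 ≤ j → j ≤ n2 → 0 < lev w' j ∧ lev w' j ≤ lev w' n2 := by
    intro j j1 j2
    rw [k2, hlev' j (by omega)]
    obtain ⟨h1, h3⟩ := Glt (e + 1 + j) (by omega) (by omega)
    have h2 := hodd2 (e + 1 + j) (by omega) (by omega)
    rw [← lw e (by omega), f1] at h1
    omega
  have k3 : lev w' (n2 + 1) < lev w' n2 := by
    rw [k2, hlev' (n2 + 1) (by omega), show e + 1 + (n2 + 1) = z.length by omega, Gn]
    omega
  have k4 : lev w' (n2 + 2) < lev w' n2 := by
    rw [k2, hlev' (n2 + 2) (by omega), show e + 1 + (n2 + 2) = z.length + 1 by omega, Gn2]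
    omega
  obtain ⟨g2, M', hM2, f1', f2', f3', f4', -⟩ := halfW (injW hw') (e := n2) (by omega) (by omega) k1 k3 k4
  have hMM : (M' : ℤ) = M - N := by omega
  have hbl1 := blk_length (Brd_ne_nil f2 hM1)
  have hbl2 := blk_length (Brd_ne_nil f2' hM2)
  have hrot : w' = w.drop (e + 1) ++ w.take (e + 1) := by
    rw [ew', List.rotate_eq_drop_append_take (by omega)]
  have hdrop : w.drop (e + 1) = PLD.blk g2 := by
    have h1 : (w.drop (e + 1)).length = (PLD.blk g2).length := by
      rw [List.length_drop, hbl2, f3']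
      omega
    rw [hrot] at f4'
    exact (List.append_inj f4' h1).1
  have hcuf : w = cuf [g1, g2] := by
    rw [cuf_eq]
    simp only [List.map_cons, List.map_nil, List.flatten_cons, List.flatten_nil, List.append_nil]
    rw [← hdrop]
    exact f4
  refine ⟨(q + 1) % z.length, M, M', g1, g2, (Nat.mod_lt _ h0).le, ?_, ⟨⟨1, rfl⟩, le_rfl, ?_, by rw [← hcuf]; exact hw⟩,
    ?_, f2, f2', by omega, by omega, ?_⟩
  · rw [dx_eq_pd (Nat.mod_lt _ h0).le, ← pd_mulW hz ((q + 1) / z.length), Nat.div_add_mod]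
    exact v1
  · intro g hg
    rcases List.mem_cons.1 hg with h | h
    · rw [h]
      exact ⟨M, hM1, f2⟩
    · rw [List.mem_singleton.1 h]
      exact ⟨M', hM2, f2'⟩
  · rw [← hcuf, hwz, List.rotate_mod]
  · intro i i' i1 i2
    have h1 : ∀ j, j ≤ g1.length → lev g1 j = fl w j := by
      intro j hj
      rw [← lw j (by omega), f4]
      unfold lev
      rw [vx_blk f2 hM1 _ hj]
    rw [h1 i (by omega), h1 i' i2, hG, hG]
    have := hM (q + 1 + i) (q + 1 + i') (by omega)
    omega

/-! ### 5. The iteration -/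

/-- the split of one leaf of a periodic chain -/
theorem cyp_split {P : Pt} {A B : List (List Bool)} {f1 f2 f3 g : List Bool} {u d w : ℕ} (hc : CyP P (A ++ g :: B))
    (h1 : f1 ∈ Brd u) (h2 : f2 ∈ Brd d) (h3 : f3 ∈ Brd w) (hu : 1 ≤ u) (hd : 1 ≤ d) (hw : 1 ≤ w)
    (h : unf [f1, f2, f3] = g) : CyP P (A ++ f1 :: f2 :: f3 :: B) := by
  have hne := Brd_ne_nil h3 hw
  refine ⟨?_, ?_, ?_, ?_⟩
  · have := hc.even
    simp only [List.length_append, List.length_cons] at this ⊢
    rw [show A.length + (B.length + 1 + 1 + 1) = A.length + (B.length + 1) + 2 by omega]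
    exact this.add even_two
  · simp only [List.length_append, List.length_cons]
    omega
  · intro f hf
    simp only [List.mem_append, List.mem_cons] at hf
    rcases hf with hf | hf | hf | hf | hf
    · exact hc.brd f (by simp [hf])
    · exact ⟨u, hu, hf ▸ h1⟩
    · exact ⟨d, hd, hf ▸ h2⟩
    · exact ⟨w, hw, hf ▸ h3⟩
    · exact hc.brd f (by simp [hf])
  · rw [cuf_split hne h]
    exact hc.cw

/-- the iteration: n0 leaves -/
theorem split_iterW {n0 d0 : ℕ} {P : Pt} : ∀ (m : ℕ) (gs : List (List Bool)) (d : ℕ), n0 = gs.length + 2 * m →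
    CyP P gs → d0 ≤ d → (∀ g ∈ gs, Drw d g ∧ d ≤ hgt g) → ∃ gs' d', CyP P gs' ∧ cuf gs' = cuf gs ∧ gs'.length ≤ n0 ∧
      d0 ≤ d' ∧ (gs'.length = n0 ∨ d' = d0) ∧ ∀ g ∈ gs', Drw d' g ∧ d' ≤ hgt g := by
  intro m
  induction m with
  | zero =>
    intro gs d hn hc hd hg
    exact ⟨gs, d, hc, rfl, by omega, hd, Or.inl (by omega), hg⟩
  | succ m ih =>
    intro gs d hn hc hd hg
    by_cases h0 : ∀ g ∈ gs, Drw d0 g
    · exact ⟨gs, d0, hc, rfl, by omega, le_rfl, Or.inr rfl, fun g hgg => ⟨h0 g hgg, hd.trans (hg g hgg).2⟩⟩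
    · classical
      have hP : ∃ d', ∀ g ∈ gs, Drw d' g := ⟨d, fun g hgg => (hg g hgg).1⟩
      obtain ⟨d', hd'⟩ : ∃ d', d' = Nat.find hP := ⟨_, rfl⟩
      have p1 : ∀ g ∈ gs, Drw d' g := by
        rw [hd']
        exact Nat.find_spec hP
      have p2 : d' ≤ d := by
        rw [hd']
        exact Nat.find_min' hP fun g hgg => (hg g hgg).1
      have p3 : d0 < d' := by
        by_contra hcon
        exact h0 fun g hgg => Drw_mono (by omega) (p1 g hgg)
      have p4 : ¬ ∀ g ∈ gs, Drw (d' - 1) g := by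
        have := Nat.find_min hP (m := d' - 1) (by omega)
        exact this
      push Not at p4
      obtain ⟨g, hgg, hgd⟩ := p4
      obtain ⟨h, hh, hb⟩ := hc.brd g hgg
      obtain ⟨e, u, w, f1, f2, f3, e1, e2, e3, e4, e5, e6, e7, e8, e9, e10, e11, e12, e13, e14, e15⟩ := split_leaf hb hgd
      have he : e = d' := by
        have := e3 d' (p1 g hgg)
        omega
      subst he
      obtain ⟨A, B, rfl⟩ := List.append_of_mem hgg
      have hw : 1 ≤ w := by omega
      have hc' := cyp_split hc e4 e5 e6 (by omega) (by omega) hw e13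
      obtain ⟨gs', d'', r1, r2, r3, r4, r5, r6⟩ := ih (A ++ f1 :: f2 :: f3 :: B) e (by
        rw [hn]
        simp only [List.length_append, List.length_cons]
        ring) hc' p3.le (by
        intro f hf
        simp only [List.mem_append, List.mem_cons] at hf
        rcases hf with hf | hf | hf | hf | hf
        · exact ⟨p1 f (by simp [hf]), p2.trans (hg f (by simp [hf])).2⟩
        · rw [hf, hgt_eq e4]
          exact ⟨e10, by omega⟩
        · rw [hf, hgt_eq e5]
          exact ⟨e11, le_rfl⟩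
        · rw [hf, hgt_eq e6]
          exact ⟨e12, by omega⟩
        · exact ⟨p1 f (by simp [hf]), p2.trans (hg f (by simp [hf])).2⟩)
      refine ⟨gs', d'', r1, ?_, r3, r4, r5, r6⟩
      rw [r2, cuf_split (Brd_ne_nil e6 hw) e13]

/-- the split theorem for the loops that wind round the cylinder -/
theorem split_W {n0 d0 : ℕ} {P : Pt} (hn : Even n0) (hn2 : 2 ≤ n0) (hd0 : 1 ≤ d0) {z : List Bool} (hz : z ∈ CwP P)
    (hP : 1 ≤ row false P) (hd : ¬ DD d0 z) :
    ∃ r gs d, r ≤ z.length ∧ dx up z r = up ∧ CyP P gs ∧ cuf gs = z.rotate r ∧ gs.length ≤ n0 ∧ d0 ≤ d ∧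
      (gs.length = n0 ∨ d = d0) ∧ ∀ g ∈ gs, Drw d g ∧ d ≤ hgt g := by
  obtain ⟨r, M, M', g1, g2, r1, r2, r3, r4, r5, r6, r7, r8, r9⟩ := two_leafW hd0 hz hP hd
  obtain ⟨k, hk⟩ := hn
  obtain ⟨gs, d, s1, s2, s3, s4, s5, s6⟩ := split_iterW (n0 := n0) (d0 := d0) (k - 1) [g1, g2] M' (by
    simp only [List.length_cons, List.length_nil]
    omega) r3 r7 (by
    intro g hg
    simp only [List.mem_cons, List.not_mem_nil, or_false] at hg
    rcases hg with hg | hg
    · rw [hg, hgt_eq r5]
      exact ⟨r9, r8⟩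
    · rw [hg, hgt_eq r6]
      exact ⟨Drw_of_Brd r6, le_rfl⟩)
  exact ⟨r, gs, d, r1, r2, s1, by rw [s2, r4], s3, s4, s5, s6⟩

end PLW

end HexObs
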